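import Mathlib
import Pool.Agent.Lib.MP_27cb06_lc.Defs

section

/-!
# TASK B07: order types

PROOF. `type_eq`: (`≤`) every proper initial segment of `B` has size `≤ c < succ c`, so every ordinal below the
type of `B` is below `(succ c).ord` (an ordinal `o < type` is `typein b` for some `b`, with `card o = #(Iio b)`;
`Cardinal.lt_ord`). (`≥`) otherwise `#B ≤ c` (`type < (succ c).ord` gives `card type < succ c`), so there is a
surjection of `A` onto `B` (`B` is nonempty), which is not bounded, contradicting `h2`.
`mk_Iio_le`: `Collapsed A B` gives `h : A → B` with `Iio b ⊆ range h`.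
`bdd_countable`: a countable nonempty set is the range of a sequence, so of a function `A → B` if there is a
surjection `A → ℕ`.
-/

set_option autoImplicit false

namespace Pool.Agent.CC

open Cardinal Set

universe u v w

theorem type_eq {A : Type v} {B : Type u} [LinearOrder B] [WellFoundedLT B] [Nonempty B]
    (c : Cardinal.{u}) (hc : ℵ₀ ≤ c) (hA : Cardinal.lift.{u} #A = Cardinal.lift.{v} c)
    (h1 : ∀ b : B, #(Iio b) ≤ c) (h2 : Bounded A B) :
    Ordinal.type (fun x y : B => x < y) = (Order.succ c).ord := by
  refine le_antisymm ?_ ?_
  · by_contra hlt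
    rw [not_le] at hlt
    obtain ⟨b, hb⟩ := Ordinal.typein_surj (fun x y : B => x < y) hlt
    have h3 := Ordinal.card_typein (r := fun x y : B => x < y) b
    rw [hb, card_ord] at h3
    have h4 : Order.succ c ≤ c := by
      rw [h3]
      exact h1 b
    exact absurd h4 (not_le.2 (Order.lt_succ c))
  · by_contra hlt
    rw [not_le, lt_ord, Ordinal.card_type, Order.lt_succ_iff] at hlt
    have h3 : Cardinal.lift.{v} #B ≤ Cardinal.lift.{u} #A := by
      rw [hA]
      exact Cardinal.lift_le.2 hlt
    obtain ⟨f⟩ := lift_mk_le'.1 h3
    obtain ⟨b, hb⟩ := h2 (Function.invFun f)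
    obtain ⟨w, hw⟩ := hb (f b)
    rw [Function.leftInverse_invFun f.injective b] at hw
    exact absurd w.2 (by rw [← hw]; exact lt_irrefl _)

theorem mk_Iio_le {A B : Type u} [LinearOrder B] (h : Collapsed A B) (b : B) :
    #(Iio b) ≤ #A := by
  obtain ⟨f, hf⟩ := h b
  choose g hg using hf
  refine mk_le_of_injective (f := g) ?_
  intro x y hxy
  apply Subtype.ext
  rw [← hg x, ← hg y, hxy]

theorem bdd_countable {A : Type v} {B : Type u} [LinearOrder B] [Nonempty B] (hA : ℵ₀ ≤ #A)
    (h : Bounded A B) (s : Set B) (hs : s.Countable) : ∃ b, ∀ x ∈ s, x < b := by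
  rcases s.eq_empty_or_nonempty with he | hne
  · obtain ⟨b⟩ := ‹Nonempty B›
    exact ⟨b, by simp [he]⟩
  · obtain ⟨f, hf⟩ := hs.exists_eq_range hne
    obtain ⟨g⟩ : Nonempty (ℕ ↪ A) := by
      rw [← lift_mk_le']
      simpa using hA
    obtain ⟨b, hb⟩ := h (fun a => f (Function.invFun g a))
    refine ⟨b, ?_⟩
    intro x hx
    rw [hf] at hx
    obtain ⟨n, rfl⟩ := hx
    obtain ⟨w, hw⟩ := hb (g n)
    have h3 : f (Function.invFun g (g n)) = w := hw
    rw [Function.leftInverse_invFun g.injective n] at h3
    rw [h3]
    exact w.2

end Pool.Agent.CC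
end

section

/-!
# TASK T10: recursion along a well-order with choices

PROOF. For each `i : W` and each function `x : W → X` choose, if possible, `y` with `good i x y`. Define
`x i` by well-founded recursion (`WellFounded.fix` on `<`): from the values at `j < i` make a function
`W → X` (default value elsewhere: `X` is nonempty if `W` is, by `ok` for the least element; treat empty `W`
separately, or use the hypothesis `[Nonempty X]`) and take the chosen `y`. Unfold with
`WellFounded.fix_eq`. Then show `good i x (x i)` by strong induction on `i`, using `ok` and `local'`.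
-/

set_option autoImplicit false

namespace Pool.Agent.CC

open Cardinal Set

universe u v w

theorem exists_rec {W : Type v} {X : Type w} [LinearOrder W] [WellFoundedLT W] [Nonempty X]
    (good : W → (W → X) → X → Prop)
    (local' : ∀ i x x' y, (∀ j < i, x j = x' j) → good i x y → good i x' y)
    (ok : ∀ i x, (∀ j < i, good j x (x j)) → ∃ y, good i x y) :
    ∃ x : W → X, ∀ i, good i x (x i) := by
  classical
  let c : W → (W → X) → X := fun i x =>
    if h : ∃ y, good i x y then h.choose else Classical.arbitrary X
  let e : (i : W) → ((j : W) → j < i → X) → (W → X) := fun i g j =>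
    if h : j < i then g j h else Classical.arbitrary X
  let x : W → X := (wellFounded_lt : WellFounded ((· < ·) : W → W → Prop)).fix
    (fun i g => c i (e i g))
  have hx : ∀ i, x i = c i (e i (fun j _ => x j)) := fun i => WellFounded.fix_eq _ _ i
  have he : ∀ i, ∀ j < i, e i (fun j _ => x j) j = x j := by
    intro i j hj
    show (if h : j < i then x j else Classical.arbitrary X) = x j
    rw [dif_pos hj]
  refine ⟨x, fun i => ?_⟩
  induction i using (wellFounded_lt : WellFounded ((· < ·) : W → W → Prop)).induction with
  | _ i ih =>
    have h1 : ∃ y, good i x y := ok i x ih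
    have h2 : ∃ y, good i (e i (fun j _ => x j)) y :=
      h1.imp fun y hy => local' i x _ y (fun j hj => (he i j hj).symm) hy
    have h3 : good i (e i (fun j _ => x j)) (x i) := by
      rw [hx i]
      show good i (e i (fun j _ => x j))
        (if h : ∃ y, good i (e i (fun j _ => x j)) y then h.choose else Classical.arbitrary X)
      rw [dif_pos h2]
      exact h2.choose_spec
    exact local' i _ x (x i) (he i) h3

end Pool.Agent.CC
end
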