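import Pool.Agent.Lib.MP_27cb06_lc.H.Cond
import Pool.Agent.Lib.MP_27cb06_lc.H.Stmt
import Pool.Agent.Lib.MP_27cb06_lc.Mg.G012

section

/-!
# TASK N1: names of functions

PROOF. `FunName.exists_partial`: `app a b := dn (fun p => φ a b p ∨ (b = b₀ ∧ ∀ q ≤ p, ∀ b', ¬ φ a b' q))` where
`dn ψ p := ∀ q ≤ p, ∃ r ≤ q, ψ r` (see `FunName.ofMono`, `dn_reg`, `dn_of` in
`Pool/Agent/Lib/MP_27cb06_lc/Names.lean`; you may import that file, or copy the lemmas with the prefix `N1_`).
Persistent; single valued: two cases of the first kind: `sv`; mixed cases contradict; total: given `p`, if some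
`q ≤ p`, `b` have `φ a b q`, take `q`; otherwise `b₀` at `p`.
`FunName.exists_map`: `app a d := dn (fun p => ∃ b, f b = d ∧ g.app a b p)` (`g.sv`, `g.tot`).
`FunName.exists_check`: `app a b _ := f a = b`.
`SetName.exists_fun`: `app a true p := S.mem a p`, `app a false p := ∀ q ≤ p, ¬ S.mem a q`; both are `Reg`; total: if some
`q ≤ p` has `S.mem a q` then `true` at `q`, otherwise `false` at `p`.
-/

set_option autoImplicit false

namespace Pool.Agent.HG

open Cardinal Set Pool.Agent.CC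

universe u v w

section

variable {P : Type u} [Preorder P] {A : Type v} {B C : Type w}

private def N1_dn (φ : P → Prop) : P → Prop := fun p => ∀ q ≤ p, ∃ r ≤ q, φ r

private theorem N1_reg (φ : P → Prop) : Reg (N1_dn φ) :=
  ⟨fun _ _ hq h r hr => h r (hr.trans hq), fun p h q hq => by
    obtain ⟨r, hr, h'⟩ := h q hq
    obtain ⟨t, ht, ht'⟩ := h' r le_rfl
    exact ⟨t, ht.trans hr, ht'⟩⟩

private theorem N1_of {φ : P → Prop} (hφ : ∀ p q, q ≤ p → φ p → φ q) {p : P} (h : φ p) : N1_dn φ p :=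
  fun q hq => ⟨q, le_rfl, hφ p q hq h⟩

private def N1_mono (app : A → B → P → Prop) (mono : ∀ a b p q, q ≤ p → app a b p → app a b q)
    (sv : ∀ a b c p, app a b p → app a c p → b = c)
    (tot : ∀ a p, ∃ q ≤ p, ∃ b, app a b q) : FunName P A B where
  app a b := N1_dn (app a b)
  reg a b := N1_reg (app a b)
  sv a b c p h1 h2 := by
    obtain ⟨q, hq, hq'⟩ := h1 p le_rfl
    obtain ⟨r, hr, hr'⟩ := h2 q hq
    exact sv a b c r (mono a b q r hr hq') hr'
  tot a p := by
    obtain ⟨q, hq, b, hb⟩ := tot a p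
    exact ⟨q, hq, b, N1_of (mono a b) hb⟩

theorem FunName.exists_partial (φ : A → B → P → Prop) (mono : ∀ a b p q, q ≤ p → φ a b p → φ a b q)
    (sv : ∀ a b b' p, φ a b p → φ a b' p → b = b') (b₀ : B) :
    ∃ h : FunName P A B, ∀ a b p, φ a b p → h.app a b p := by
  have hmono : ∀ a b p q, q ≤ p → (φ a b p ∨ (b = b₀ ∧ ∀ r ≤ p, ∀ b', ¬ φ a b' r)) →
      (φ a b q ∨ (b = b₀ ∧ ∀ r ≤ q, ∀ b', ¬ φ a b' r)) := by
    rintro a b p q hq (h | ⟨h1, h2⟩)
    · exact Or.inl (mono a b p q hq h)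
    · exact Or.inr ⟨h1, fun r hr b' => h2 r (hr.trans hq) b'⟩
  refine ⟨N1_mono (fun a b p => φ a b p ∨ (b = b₀ ∧ ∀ r ≤ p, ∀ b', ¬ φ a b' r)) hmono ?_ ?_, ?_⟩
  · rintro a b c p (h1 | ⟨h1, h2⟩) (h3 | ⟨h3, h4⟩)
    · exact sv a b c p h1 h3
    · exact absurd h1 (h4 p le_rfl b)
    · exact absurd h3 (h2 p le_rfl c)
    · rw [h1, h3]
  · intro a p
    by_cases h : ∃ q ≤ p, ∃ b, φ a b q
    · obtain ⟨q, hq, b, hb⟩ := h
      exact ⟨q, hq, b, Or.inl hb⟩
    · refine ⟨p, le_rfl, b₀, Or.inr ⟨rfl, fun r hr b' hb' => h ⟨r, hr, b', hb'⟩⟩⟩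
  · intro a b p h
    exact N1_of (hmono a b) (Or.inl h)

theorem FunName.exists_map (g : FunName P A B) (f : B → C) :
    ∃ h : FunName P A C, ∀ a b p, g.app a b p → h.app a (f b) p := by
  have hmono : ∀ (a : A) (d : C) (p q : P), q ≤ p → (∃ b, f b = d ∧ g.app a b p) →
      ∃ b, f b = d ∧ g.app a b q := by
    rintro a d p q hq ⟨b, hb, h⟩
    exact ⟨b, hb, (g.reg a b).1 _ _ hq h⟩
  refine ⟨N1_mono (fun a d p => ∃ b, f b = d ∧ g.app a b p) hmono ?_ ?_, ?_⟩
  · rintro a d d' p ⟨b, rfl, hb⟩ ⟨b', rfl, hb'⟩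
    rw [g.sv a b b' p hb hb']
  · intro a p
    obtain ⟨q, hq, b, hb⟩ := g.tot a p
    exact ⟨q, hq, f b, b, rfl, hb⟩
  · intro a b p h
    exact N1_of (hmono a (f b)) ⟨b, rfl, h⟩

theorem FunName.exists_check (P : Type u) [Preorder P] (f : A → B) :
    ∃ h : FunName P A B, ∀ a b p, h.app a b p ↔ f a = b := by
  refine ⟨⟨fun a b _ => f a = b, fun a b => ⟨fun _ _ _ h => h, fun p h => ?_⟩, ?_, ?_⟩, ?_⟩
  · obtain ⟨_, _, h'⟩ := h p le_rfl
    exact h'
  · intro a b c p h1 h2
    exact h1.symm.trans h2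
  · intro a p
    exact ⟨p, le_rfl, f a, rfl⟩
  · intro a b p
    exact Iff.rfl

theorem SetName.exists_fun (S : SetName P A) :
    ∃ h : FunName P A Bool, (∀ a p, h.app a true p ↔ S.mem a p) ∧
      ∀ a p, h.app a false p ↔ ∀ q ≤ p, ¬ S.mem a q := by
  refine ⟨⟨fun a b p => if b = true then S.mem a p else ∀ q ≤ p, ¬ S.mem a q, ?_, ?_, ?_⟩, ?_, ?_⟩
  · intro a b
    cases b with
    | true => simpa using S.reg a
    | false =>
      refine ⟨fun p q hq h => ?_, fun p h => ?_⟩
      · simp only [Bool.false_eq_true, if_false] at h ⊢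
        exact fun r hr => h r (hr.trans hq)
      · simp only [Bool.false_eq_true, if_false] at h ⊢
        intro q hq hS
        obtain ⟨r, hr, h'⟩ := h q hq
        exact h' r le_rfl ((S.reg a).1 _ _ hr hS)
  · intro a b c p h1 h2
    cases b with
    | true =>
      cases c with
      | true => rfl
      | false =>
        simp only [Bool.false_eq_true, if_false, if_true] at h1 h2
        exact absurd h1 (h2 p le_rfl)
    | false =>
      cases c with
      | true =>
        simp only [Bool.false_eq_true, if_false, if_true] at h1 h2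
        exact absurd h2 (h1 p le_rfl)
      | false => rfl
  · intro a p
    by_cases h : ∃ q ≤ p, S.mem a q
    · obtain ⟨q, hq, hS⟩ := h
      exact ⟨q, hq, true, by simpa using hS⟩
    · push Not at h
      exact ⟨p, le_rfl, false, by simpa using h⟩
  · intro a p
    simp
  · intro a p
    simp

end

end Pool.Agent.HG
end

section

/-!
# TASK G1: unions of good partial functions, insertion

PROOF. `exists_glue_raw`: `r x y := if h : ∃ w, ∃ i, s i x y = some w then some h.choose else none`; the value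
does not depend on the choice by `hs` (see `exists_glue` in `Pool/Agent/Lib/MP_27cb06_lc/T01.lean`).
`Good.exists_union`: `exists_glue_raw`; `legal` from the members; `size`: the set is the union over `i` of sets
of size `≤ 2 ^ #(Iio α)`, `#ι ≤ 2 ^ #(Iio α)` (`mk_iUnion_le_sum_mk`, `sum_le_sum`, `sum_const'`,
`mul_eq_self`; `ℵ₀ ≤ 2 ^ #(Iio α)` by `cantor`); `size'`, `height` are the hypotheses.
`good_empty`: all sets are empty; needs one `ξ < α`.
`Good.ins`: `insRaw s x y w` has the value `w` at `(x, y)` and the values of `s` elsewhere; sizes `+ 1`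
(`mk_insert_le`, infinite); `height`: if `y < α` take the maximum of the old `ξ` and of `ξ'` with `y < ξ' < α`
(hypothesis `hy`), otherwise the old `ξ`.
-/

set_option autoImplicit false

namespace Pool.Agent.HG

open Cardinal Set Pool.Agent.CC

universe u v w

variable {L : Type u} [LinearOrder L] [WellFoundedLT L] {c m n : L} {U : Ultrafilter (Set L)}

theorem exists_glue_raw {ι : Type v} (s : ι → Raw L) (hs : ∀ i j, Agree (s i) (s j)) :
    ∃ r : Raw L, ∀ x y w, r x y = some w ↔ ∃ i, s i x y = some w := by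
  classical
  let g : Raw L := fun x y => if h : ∃ w, ∃ i, s i x y = some w then some h.choose else none
  refine ⟨g, fun x y w => ?_⟩
  constructor
  · intro h
    by_cases h' : ∃ w, ∃ i, s i x y = some w
    · have h0 : g x y = some h'.choose := dif_pos h'
      rw [h0] at h
      have h3 := h'.choose_spec
      have h4 : h'.choose = w := Option.some.inj h
      rw [h4] at h3
      exact h3
    · have h0 : g x y = none := dif_neg h'
      rw [h0] at h
      cases h
  · rintro ⟨i, hi⟩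
    have h' : ∃ w, ∃ i, s i x y = some w := ⟨w, i, hi⟩
    have h0 : g x y = some h'.choose := dif_pos h'
    rw [h0]
    obtain ⟨j, hj⟩ := h'.choose_spec
    rw [hs j i x y _ _ hj hi]

private theorem G1_inf_pow {α : L} (hinf : ℵ₀ ≤ #(Iio α)) : ℵ₀ ≤ (2 : Cardinal.{u}) ^ #(Iio α) :=
  hinf.trans (cantor _).le

theorem Good.exists_union {α : L} (hinf : ℵ₀ ≤ #(Iio α)) {ι : Type u} (s : ι → Raw L)
    (hg : ∀ i, Good α (s i)) (hs : ∀ i j, Agree (s i) (s j)) (hι : #ι ≤ 2 ^ #(Iio α))
    (h' : #{e : L × L | e.2 < α ∧ ∃ i, s i e.1 e.2 ≠ none} ≤ #(Iio α))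
    (hh : ∃ ξ < α, ∀ i x y, y < α → s i x y ≠ none → y < ξ) :
    ∃ r, Good α r ∧ ∀ x y w, r x y = some w ↔ ∃ i, s i x y = some w := by
  obtain ⟨r, hr⟩ := exists_glue_raw s hs
  have hn : ∀ x y, r x y ≠ none ↔ ∃ i, s i x y ≠ none := by
    intro x y
    rw [Option.ne_none_iff_exists']
    constructor
    · rintro ⟨v, hv⟩
      obtain ⟨i, hi⟩ := (hr x y v).1 hv
      exact ⟨i, by rw [hi]; simp⟩
    · rintro ⟨i, hi⟩
      obtain ⟨v, hv⟩ := Option.ne_none_iff_exists'.1 hi
      exact ⟨v, (hr x y v).2 ⟨i, hv⟩⟩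
  refine ⟨r, ⟨?_, ?_, ?_, ?_⟩, hr⟩
  · intro x y w z b h hb
    obtain ⟨i, hi⟩ := (hr x y w).1 h
    exact (hg i).legal x y w z b hi hb
  · have h3 : {e : L × L | r e.1 e.2 ≠ none} = ⋃ i : ι, {e : L × L | s i e.1 e.2 ≠ none} := by
      ext e
      simp only [mem_setOf_eq, mem_iUnion]
      exact hn e.1 e.2
    rw [h3]
    refine (mk_iUnion_le_sum_mk).trans ?_
    refine (Cardinal.sum_le_sum _ (fun _ => (2 : Cardinal.{u}) ^ #(Iio α)) fun i => (hg i).size).trans ?_
    rw [sum_const']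
    calc #ι * 2 ^ #(Iio α) ≤ 2 ^ #(Iio α) * 2 ^ #(Iio α) := mul_le_mul' hι le_rfl
      _ = 2 ^ #(Iio α) := mul_eq_self (G1_inf_pow hinf)
  · refine (mk_le_mk_of_subset ?_).trans h'
    rintro e ⟨h1, h2⟩
    exact ⟨h1, (hn _ _).1 h2⟩
  · obtain ⟨ξ, hξ, h⟩ := hh
    refine ⟨ξ, hξ, fun x y hy h2 => ?_⟩
    obtain ⟨i, hi⟩ := (hn _ _).1 h2
    exact h i x y hy hi

theorem good_empty {α ξ : L} (h : ξ < α) : Good α (emptyRaw : Raw L) where
  legal x y w z b hw _ := by
    cases hw
  size := by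
    have h1 : {e : L × L | (emptyRaw : Raw L) e.1 e.2 ≠ none} = ∅ := by
      ext e
      simp [emptyRaw]
    rw [h1, mk_emptyCollection]
    exact bot_le
  size' := by
    have h1 : {e : L × L | e.2 < α ∧ (emptyRaw : Raw L) e.1 e.2 ≠ none} = ∅ := by
      ext e
      simp [emptyRaw]
    rw [h1, mk_emptyCollection]
    exact bot_le
  height := ⟨ξ, h, fun x y _ hn => absurd rfl hn⟩

open Classical in
/-- change the value at one place -/
noncomputable def insRaw (s : Raw L) (x y : L) (w : L → Option L) : Raw L :=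
  fun x' y' => if x' = x ∧ y' = y then some w else s x' y'

theorem insRaw_self (s : Raw L) (x y : L) (w : L → Option L) : insRaw s x y w x y = some w := by
  classical
  unfold insRaw
  exact if_pos ⟨rfl, rfl⟩

theorem insRaw_ne (s : Raw L) {x y x' y' : L} (w : L → Option L) (h : ¬ (x' = x ∧ y' = y)) :
    insRaw s x y w x' y' = s x' y' := by
  classical
  unfold insRaw
  exact if_neg h

theorem Good.ins {α : L} {s : Raw L} (hs : Good α s) (hinf : ℵ₀ ≤ #(Iio α)) (x y : L)
    (w : L → Option L) (hw : ∀ z b, w z = some b → z < α ∧ b < x ∧ (y < α → ∀ d, b ≤ d))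
    (hy : y < α → ∃ ξ < α, y < ξ) : Good α (insRaw s x y w) where
  legal x' y' w' z b h hb := by
    by_cases hp : x' = x ∧ y' = y
    · obtain ⟨rfl, rfl⟩ := hp
      rw [insRaw_self] at h
      have h1 : w = w' := Option.some.inj h
      rw [← h1] at hb
      exact hw z b hb
    · rw [insRaw_ne s w hp] at h
      exact hs.legal x' y' w' z b h hb
  size := by
    have hsub : {e : L × L | insRaw s x y w e.1 e.2 ≠ none} ⊆
        insert (x, y) {e : L × L | s e.1 e.2 ≠ none} := by
      intro e he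
      by_cases hp : e.1 = x ∧ e.2 = y
      · exact mem_insert_iff.2 (Or.inl (Prod.ext hp.1 hp.2))
      · rw [mem_setOf_eq, insRaw_ne s w hp] at he
        exact mem_insert_of_mem _ he
    refine (mk_le_mk_of_subset hsub).trans (mk_insert_le.trans ?_)
    calc #{e : L × L | s e.1 e.2 ≠ none} + 1 ≤ 2 ^ #(Iio α) + 2 ^ #(Iio α) :=
          add_le_add hs.size (one_le_aleph0.trans (G1_inf_pow hinf))
      _ = 2 ^ #(Iio α) := add_eq_self (G1_inf_pow hinf)
  size' := by
    have hsub : {e : L × L | e.2 < α ∧ insRaw s x y w e.1 e.2 ≠ none} ⊆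
        insert (x, y) {e : L × L | e.2 < α ∧ s e.1 e.2 ≠ none} := by
      rintro e ⟨he1, he2⟩
      by_cases hp : e.1 = x ∧ e.2 = y
      · exact mem_insert_iff.2 (Or.inl (Prod.ext hp.1 hp.2))
      · rw [insRaw_ne s w hp] at he2
        exact mem_insert_of_mem _ ⟨he1, he2⟩
    refine (mk_le_mk_of_subset hsub).trans (mk_insert_le.trans ?_)
    calc #{e : L × L | e.2 < α ∧ s e.1 e.2 ≠ none} + 1 ≤ #(Iio α) + #(Iio α) :=
          add_le_add hs.size' (one_le_aleph0.trans hinf)
      _ = #(Iio α) := add_eq_self hinf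
  height := by
    obtain ⟨ξ, hξ, h⟩ := hs.height
    by_cases hya : y < α
    · obtain ⟨ξ', hξ', hy'⟩ := hy hya
      refine ⟨max ξ ξ', max_lt hξ hξ', fun x' y' hy1 hn => ?_⟩
      by_cases hp : x' = x ∧ y' = y
      · rw [hp.2]
        exact lt_of_lt_of_le hy' (le_max_right _ _)
      · rw [insRaw_ne s w hp] at hn
        exact lt_of_lt_of_le (h x' y' hy1 hn) (le_max_left _ _)
    · refine ⟨ξ, hξ, fun x' y' hy1 hn => ?_⟩
      have hp : ¬ (x' = x ∧ y' = y) := by
        rintro ⟨_, h2⟩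
        rw [h2] at hy1
        exact hya hy1
      rw [insRaw_ne s w hp] at hn
      exact h x' y' hy1 hn

end Pool.Agent.HG
end

section

/-!
# TASK Q7: chain condition for partial functions of size theta

PROOF. This generalises `exists_agree` in `Pool/Agent/Lib/MP_27cb06_lc/T09.lean` (`θ = ℵ₀`, `V = Bool`): copy that
proof with a type `Θ : Type u`, `#Θ = θ`, in place of `ℕ` (`θ = #Θ`, `Cardinal.inductionOn`), `V` in place of `Bool`,
`C := (Θ → V) × (Θ → Θ)`, terms `WType` with arities `Empty` and `Θ` (in `Type u`), `#C ≤ (2 ^ θ) ^ θ * θ ^ θ = 2 ^ θ`,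
and `#(WType ..) ≤ 2 ^ θ` (`WType.cardinalMk_le_of_le'`, `(2 ^ θ) ^ θ = 2 ^ θ`). The domain of `F j` has size
`≤ θ`, so it is enumerated by a map `Θ → Option E`. (If `V` is empty all domains are empty; or use
`Θ → Option V`.)
-/

set_option autoImplicit false

namespace Pool.Agent.HG

open Cardinal Set Pool.Agent.CC

universe u v w

/-- terms with operations of arity `Θ` -/
private def Q7_ar (C Θ : Type u) : Option C → Type u
  | none => PEmpty
  | some _ => Θ

private theorem Q7_big {θ : Cardinal.{u}} (hθ : ℵ₀ ≤ θ) : ℵ₀ ≤ (2 : Cardinal.{u}) ^ θ :=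
  hθ.trans (Cardinal.cantor θ).le

private theorem Q7_pow {θ : Cardinal.{u}} (hθ : ℵ₀ ≤ θ) :
    ((2 : Cardinal.{u}) ^ θ) ^ θ = 2 ^ θ := by
  rw [← Cardinal.power_mul, Cardinal.mul_eq_self hθ]

private theorem Q7_mul {θ : Cardinal.{u}} (hθ : ℵ₀ ≤ θ) :
    (2 : Cardinal.{u}) ^ θ * 2 ^ θ = 2 ^ θ := Cardinal.mul_eq_self (Q7_big hθ)

private theorem Q7_mk_wtype_le (C Θ : Type u) (hθ : ℵ₀ ≤ #Θ) (hC : #C ≤ 2 ^ #Θ) :
    #(WType (Q7_ar C Θ)) ≤ 2 ^ #Θ := by
  apply WType.cardinalMk_le_of_le'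
  have h : ∀ a : Option C, ((2 : Cardinal.{u}) ^ #Θ) ^ #(Q7_ar C Θ a) ≤ 2 ^ #Θ := by
    rintro (_ | c)
    · have : #(Q7_ar C Θ none) = 0 := Cardinal.mk_eq_zero_iff.2 (inferInstanceAs (IsEmpty PEmpty))
      rw [this, Cardinal.power_zero]
      exact Cardinal.one_le_aleph0.trans (Q7_big hθ)
    · have : #(Q7_ar C Θ (some c)) = #Θ := rfl
      rw [this, Q7_pow hθ]
  calc (Cardinal.sum fun a : Option C => ((2 : Cardinal.{u}) ^ #Θ) ^ Cardinal.lift.{u, u} #(Q7_ar C Θ a))
      ≤ Cardinal.sum fun _ : Option C => (2 : Cardinal.{u}) ^ #Θ :=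
        Cardinal.sum_le_sum _ _ fun a => by rw [Cardinal.lift_id]; exact h a
    _ = #(Option C) * 2 ^ #Θ := by rw [Cardinal.sum_const']
    _ ≤ 2 ^ #Θ * 2 ^ #Θ := by
        apply mul_le_mul_left
        rw [Cardinal.mk_option]
        calc #C + 1 ≤ 2 ^ #Θ + 2 ^ #Θ :=
              add_le_add hC (Cardinal.one_le_aleph0.trans (Q7_big hθ))
          _ = 2 ^ #Θ := Cardinal.add_eq_self (Q7_big hθ)
    _ = 2 ^ #Θ := Q7_mul hθ

private theorem Q7_enum {E Θ : Type u} {S : Set E} (hne : S.Nonempty) (h : #S ≤ #Θ) :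
    ∃ s : Θ → E, S = Set.range s := by
  obtain ⟨f⟩ := Cardinal.le_def _ _ |>.1 h
  have hS : Nonempty S := hne.to_subtype
  have hsur : Function.Surjective (Function.invFun f) := Function.invFun_surjective f.injective
  refine ⟨fun t => (Function.invFun f t : S).1, ?_⟩
  ext e
  constructor
  · intro he
    obtain ⟨t, ht⟩ := hsur ⟨e, he⟩
    exact ⟨t, by show (Function.invFun f t : S).1 = e; rw [ht]⟩
  · rintro ⟨t, rfl⟩
    exact (Function.invFun f t : S).2

theorem exists_agree {J E V : Type u} (θ : Cardinal.{u}) (hθ : ℵ₀ ≤ θ) (hV : #V ≤ 2 ^ θ)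
    (hJ : 2 ^ θ < #J) (F : J → E → Option V) (hF : ∀ j, #{e | F j e ≠ none} ≤ θ) :
    ∃ i j, i ≠ j ∧ ∀ e v w, F i e = some v → F j e = some w → v = w := by
  classical
  obtain ⟨Θ, rfl⟩ : ∃ Θ : Type u, #Θ = θ := ⟨θ.out, Cardinal.mk_out θ⟩
  have hJne : Nonempty J := Cardinal.mk_ne_zero_iff.1 (ne_of_gt (bot_le.trans_lt hJ))
  obtain ⟨j₀⟩ := hJne
  -- enumerate the domains
  have henum : ∀ j, ∃ s : Θ → Option E, ∀ e, F j e ≠ none → ∃ n, s n = some e := by
    intro j
    rcases ({e | F j e ≠ none}).eq_empty_or_nonempty with he | hne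
    · refine ⟨fun _ => none, fun e h => ?_⟩
      have : e ∈ {e | F j e ≠ none} := h
      rw [he] at this; exact absurd this (Set.notMem_empty e)
    · obtain ⟨s, hs⟩ := Q7_enum hne (hF j)
      refine ⟨fun n => some (s n), fun e h => ?_⟩
      have : e ∈ {e | F j e ≠ none} := h
      rw [hs] at this
      obtain ⟨n, rfl⟩ := this
      exact ⟨n, rfl⟩
  choose enum henum using henum
  -- the choice function
  let ch : (Θ → Option E) → (Θ → V) → J := fun t g =>
    if h : ∃ j, ∀ n e, t n = some e → F j e = some (g n) then h.choose else j₀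
  have hch : ∀ t g, (∃ j, ∀ n e, t n = some e → F j e = some (g n)) →
      ∀ n e, t n = some e → F (ch t g) e = some (g n) := by
    intro t g h
    have : ch t g = h.choose := dif_pos h
    rw [this]; exact h.choose_spec
  let C : Type u := (Θ → V) × (Θ → Θ)
  have hC : #C ≤ 2 ^ #Θ := by
    have h1 : #(Θ → V) ≤ 2 ^ #Θ := by
      rw [← Cardinal.power_def]
      calc #V ^ #Θ ≤ (2 ^ #Θ) ^ #Θ := Cardinal.power_le_power_right hV
        _ = 2 ^ #Θ := Q7_pow hθ
    have h2 : #(Θ → Θ) ≤ 2 ^ #Θ := by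
      rw [← Cardinal.power_def]
      calc #Θ ^ #Θ ≤ (2 ^ #Θ) ^ #Θ := Cardinal.power_le_power_right (Cardinal.cantor _).le
        _ = 2 ^ #Θ := Q7_pow hθ
    calc #C = #(Θ → V) * #(Θ → Θ) := Cardinal.mk_prod _ _ |>.trans (by simp)
      _ ≤ 2 ^ #Θ * 2 ^ #Θ := mul_le_mul' h1 h2
      _ = 2 ^ #Θ := Q7_mul hθ
  let ev : WType (Q7_ar C Θ) → J := WType.elim J (fun x => match x with
    | ⟨none, _⟩ => j₀
    | ⟨some (g, m), c⟩ => ch (fun n => enum (c n) (m n)) g)
  have hev : ∀ (g : Θ → V) (m : Θ → Θ) (c : Θ → WType (Q7_ar C Θ)),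
      ev (WType.mk (some (g, m)) c) = ch (fun n => enum (ev (c n)) (m n)) g := fun g m c => rfl
  have hnot : ∃ j, ∀ w, ev w ≠ j := by
    by_contra hcon
    push Not at hcon
    have h1 : #J ≤ #(WType (Q7_ar C Θ)) := Cardinal.mk_le_of_surjective hcon
    exact absurd (h1.trans (Q7_mk_wtype_le C Θ hθ hC)) (not_le.2 hJ)
  obtain ⟨j, hj⟩ := hnot
  -- the part of the domain of `F j` inside the domains of the members of the closure
  let T : Set E := {e | F j e ≠ none ∧ ∃ w, F (ev w) e ≠ none}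
  have hT : #T ≤ #Θ := (Cardinal.mk_le_mk_of_subset fun e h => h.1).trans (hF j)
  have hT' : ∃ w, ∀ e ∈ T, F (ev w) e = F j e := by
    rcases T.eq_empty_or_nonempty with he | hne
    · refine ⟨WType.mk none fun x => x.elim, fun e h => ?_⟩
      rw [he] at h; exact absurd h (Set.notMem_empty e)
    · obtain ⟨s, hs⟩ := Q7_enum hne hT
      have hs' : ∀ n, s n ∈ T := fun n => by rw [hs]; exact ⟨n, rfl⟩
      choose w hw using fun n => (hs' n).2
      choose m hm using fun n => henum (ev (w n)) (s n) (hw n)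
      choose g hg using fun n => Option.ne_none_iff_exists'.1 (hs' n).1
      refine ⟨WType.mk (some (g, m)) w, fun e he => ?_⟩
      rw [hs] at he
      obtain ⟨n, rfl⟩ := he
      rw [hev, hg n]
      refine hch (fun n => enum (ev (w n)) (m n)) g ⟨j, fun n e h => ?_⟩ n (s n) (hm n)
      have : s n = e := Option.some.inj ((hm n).symm.trans h)
      rw [← this, hg n]
  obtain ⟨w, hw⟩ := hT'
  refine ⟨ev w, j, hj w, fun e v v' hv hv' => ?_⟩
  have he : e ∈ T := ⟨by rw [hv']; simp, w, by rw [hv]; simp⟩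
  have := hw e he
  rw [hv, hv'] at this
  exact Option.some.inj this

end Pool.Agent.HG
end

section

/-!
# TASK K1: kappa is regular

PROOF. `B = Iio c` in the application. (1) `#(Iio b) < #B` for all `b`: otherwise there is a surjection `h` from
`Iio b` onto `B` (`B` is nonempty), and `Bounded (Iio b) B` gives `b'` above all values, but `b'` is a value.
(2) `B` is infinite: nonempty without greatest element (`NoMaxOrder`, `Infinite`). (3) a subset `A` with `#A < #B` is
bounded: there is `b` with `#A ≤ #(Iio b)` (otherwise all `#(Iio b) < #A`, so the order type of `B` is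
`≤ (#A).ord` and `#B ≤ #A`; see `exists_ge_card` in `H/A3.lean`, copy the proof if it is done, or prove it here with
prefix `K1_`); if `A` is empty any `b` works, otherwise there is `h : Iio b → B` with range `A`; `Bounded`.
(4) so `#B` is regular: the order type of `B` is `(#B).ord` by (1), and its cofinality is the least size of a
cofinal subset, which is `≥ #B` by (3) (see the docstring of `H/A7.lean`, `isRegular_of_bdd`; do not import it).
-/

set_option autoImplicit false

namespace Pool.Agent.HG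

open Cardinal Set Pool.Agent.CC

universe u v w

theorem isRegular_of_bounded {B : Type u} [LinearOrder B] [WellFoundedLT B] [Nonempty B]
    (hnm : ∀ a : B, ∃ b, a < b) (h : ∀ a : B, Bounded (Iio a) B) : (#B).IsRegular := by
  have hn : NoMaxOrder B := ⟨hnm⟩
  obtain ⟨s, hs, hsc⟩ := Order.exists_cof_eq B
  have hinf : ℵ₀ ≤ Order.cof B := Order.aleph0_le_cof
  have h1 : ∀ b : B, #(Iio b) < Order.cof B := by
    intro b
    by_contra hb
    rw [not_lt, ← hsc] at hb
    obtain ⟨x0⟩ := (inferInstance : Nonempty B)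
    obtain ⟨y0, hy0, -⟩ := hs x0
    have hne : Nonempty s := ⟨⟨y0, hy0⟩⟩
    obtain ⟨g⟩ := Cardinal.le_def _ _ |>.1 hb
    obtain ⟨f, hf⟩ : ∃ f : Iio b → s, Function.Surjective f :=
      ⟨Function.invFun g, Function.invFun_surjective g.injective⟩
    obtain ⟨b', hb'⟩ := h b (fun x => (f x : B))
    obtain ⟨y, hy, hby⟩ := hs b'
    obtain ⟨a, ha⟩ := hf ⟨y, hy⟩
    obtain ⟨v, hv⟩ := hb' a
    have hlt : (v : B) < b' := v.2
    rw [← hv] at hlt
    rw [ha] at hlt
    exact absurd hby (not_le.2 hlt)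
  have h2 : Ordinal.type (fun x y : B => x < y) ≤ (Order.cof B).ord := by
    refine le_of_forall_lt fun o ho => ?_
    obtain ⟨x, rfl⟩ := Ordinal.typein_surj _ ho
    rw [Cardinal.lt_ord, Ordinal.card_typein]
    exact h1 x
  have h3 : #B ≤ Order.cof B := by
    have h4 := Ordinal.card_le_card h2
    rwa [Ordinal.card_type, Cardinal.card_ord] at h4
  have h5 : Order.cof B = #B := le_antisymm (Order.cof_le_cardinalMk B) h3
  rw [h5] at hinf h2
  have h6 : (#B).ord = Ordinal.type (fun x y : B => x < y) := le_antisymm (Cardinal.ord_le_type _) h2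
  refine ⟨hinf, ?_⟩
  rw [h6, Ordinal.cof_type, h5]

end Pool.Agent.HG
end

section

/-!
# TASK K2: the Chang property for ordinals

PROOF. (Compare `chang_of_principle` in `Pool/Agent/Lib/MP_27cb06_lc/B08.lean`.) Let `κ₃ = succ (succ (succ κ))`,
`κ₂ = succ (succ κ)`. `τ x := Ordinal.typein (· < ·) x` is an order isomorphism from `L` onto the ordinals below
`κ₃.ord`; `τ c = κ.ord`, `τ n = κ₂.ord`. Given `F` on ordinals (values `< κ₃.ord`), let `F' A := τ⁻¹ (F (A.image τ))`. Take
`X'` by `h` (`Chang c m n`) and `X := τ '' X'`. Closure: a finite `s ⊆ X` is `A.image τ` with `A ⊆ X'` finite.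
`#X = lift #X'` (`mk_image_eq_lift` or the like), `#X' = #(Iio m) = succ κ` (`g` is a bijection from `Iio m` onto `X'`:
injective by the third clause, with `i ≠ j` split by trichotomy). `κ.ord ⊆ X`: `x < κ.ord` is `τ y` with `y < c`.
`X ∩ κ₂.ord = τ '' (X' ∩ Iio n)`, and `X' ∩ Iio n ⊆ range g` with `g : Iio c → L`, so its size is `≤ κ`; and it contains the
`κ` many `τ y`, `y < c` (`c < n`), so `= κ`.
-/

set_option autoImplicit false

namespace Pool.Agent.HG

set_option linter.unusedVariables false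

open Cardinal Set Pool.Agent.CC

universe u v w

variable {L : Type u} [LinearOrder L] [WellFoundedLT L] {c m n : L}

theorem changProperty_of (κ : Cardinal.{u}) (hκ : ℵ₀ ≤ κ)
    (hc : Ordinal.typein (fun x y : L => x < y) c = κ.ord)
    (hm : #(Iio m) = Order.succ κ)
    (hn : Ordinal.typein (fun x y : L => x < y) n = (Order.succ (Order.succ κ)).ord)
    (hL : Ordinal.type (fun x y : L => x < y) = (Order.succ (Order.succ (Order.succ κ))).ord)
    (h : Chang c m n) : ChangProperty κ := by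
  classical
  intro F hF
  set κ₁ : Cardinal.{u} := Order.succ κ with hκ₁
  set κ₂ : Cardinal.{u} := Order.succ κ₁ with hκ₂
  set κ₃ : Cardinal.{u} := Order.succ κ₂ with hκ₃
  have h01 : κ ≤ κ₁ := Order.le_succ _
  have h12 : κ₁ ≤ κ₂ := Order.le_succ _
  have h23 : κ₂ ≤ κ₃ := Order.le_succ _
  let τ : L → Ordinal.{u} := fun x => Ordinal.typein (fun x y : L => x < y) x
  have τc : τ c = κ.ord := hc
  have τn : τ n = κ₂.ord := hn
  have τinj : Function.Injective τ := Ordinal.typein_injective _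
  have τmono : ∀ x y : L, τ x < τ y ↔ x < y := fun x y =>
    Ordinal.typein_lt_typein (fun x y : L => x < y)
  have τlt : ∀ x, τ x < κ₃.ord := fun x => by
    rw [← hL]; exact Ordinal.typein_lt_type _ x
  have τsurj : ∀ o < κ₃.ord, ∃ x, τ x = o := fun o ho => by
    rw [← hL] at ho
    exact Ordinal.typein_surj _ ho
  have hne : Nonempty L := ⟨c⟩
  let σ : Ordinal.{u} → L := Function.invFun τ
  have hσ : ∀ x, σ (τ x) = x := Function.leftInverse_invFun τinj
  have hτσ : ∀ o < κ₃.ord, τ (σ o) = o := fun o ho => Function.invFun_eq (τsurj o ho)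
  have hcn : c < n := by
    rw [← τmono, τc, τn]
    exact Cardinal.ord_lt_ord.2 ((Order.lt_succ κ).trans (Order.lt_succ κ₁))
  obtain ⟨X', hcl, hC, ⟨g, hg1, hg2, hg3⟩, ⟨g', hg'⟩⟩ := h (fun A : Finset L => σ (F (A.image τ)))
  have hgX : ∀ i, g i ∈ X' := by
    intro i
    obtain ⟨x, hx, hxX⟩ := hg1 i
    rw [hx]; exact hxX
  have ginj : Function.Injective g := by
    intro i j hij
    rcases lt_trichotomy i j with h1 | h1 | h1
    · exact absurd ⟨g j, rfl, hij⟩ (hg3 j ⟨i, h1⟩)
    · exact h1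
    · exact absurd ⟨g i, rfl, hij.symm⟩ (hg3 i ⟨j, h1⟩)
  have hcard : #X' = κ₁ := by
    rw [← hm]
    have hb : Function.Bijective (fun i : Iio m => (⟨g i, hgX i⟩ : X')) := by
      constructor
      · intro i j hij
        exact ginj (congrArg Subtype.val hij)
      · rintro ⟨x, hx⟩
        obtain ⟨i, hi⟩ := hg2 x hx
        exact ⟨i, Subtype.ext hi⟩
    exact (Cardinal.mk_congr (Equiv.ofBijective _ hb)).symm
  have hIc : #(Iio c) = κ := by
    have h1 := Ordinal.card_typein (r := fun x y : L => x < y) c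
    rw [hc, Cardinal.card_ord] at h1
    rw [h1]
    rfl
  refine ⟨τ '' X', ?_, ?_, ?_, ?_, ?_⟩
  · rintro _ ⟨x, -, rfl⟩
    exact τlt x
  · intro s hs
    have hs1 : (s.image σ).image τ = s := by
      rw [Finset.image_image]
      conv_rhs => rw [← Finset.image_id (s := s)]
      refine Finset.image_congr ?_
      intro o ho
      obtain ⟨x, -, hx⟩ := hs o ho
      show τ (σ o) = o
      rw [← hx, hσ]
    have hs2 : ∀ y ∈ s.image σ, y ∈ X' := by
      intro y hy
      obtain ⟨o, ho, rfl⟩ := Finset.mem_image.1 hy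
      obtain ⟨x, hx, hxo⟩ := hs o ho
      rw [← hxo, hσ]; exact hx
    obtain ⟨b, hb, hs3⟩ := hcl (s.image σ) (fun x => hs2 _ x.2)
    have hs4 : F s < κ₃.ord := by
      refine hF s fun o ho => ?_
      obtain ⟨x, -, rfl⟩ := hs o ho
      exact τlt x
    refine ⟨b, hs3, ?_⟩
    rw [← hb]
    show τ (σ (F ((s.image σ).image τ))) = F s
    rw [hs1, hτσ _ hs4]
  · have h6 := Cardinal.mk_image_eq_lift τ X' τinj
    rw [hcard] at h6
    rw [← h6, Cardinal.lift_id'.{u, u + 1}]
  · have hset : {x | x ∈ τ '' X' ∧ x < κ₂.ord} = τ '' (X' ∩ Iio n) := by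
      ext o
      constructor
      · rintro ⟨⟨x, hx, rfl⟩, hxo⟩
        refine ⟨x, ⟨hx, ?_⟩, rfl⟩
        show x < n
        rw [← τmono, τn]
        exact hxo
      · rintro ⟨x, ⟨hx, hxL⟩, rfl⟩
        refine ⟨⟨x, hx, rfl⟩, ?_⟩
        rw [← τn]
        exact (τmono _ _).2 hxL
    rw [hset]
    have h6 := Cardinal.mk_image_eq_lift τ (X' ∩ Iio n) τinj
    rw [Cardinal.lift_id'.{u, u + 1}] at h6
    rw [h6]
    congr 1
    refine le_antisymm ?_ ?_
    · have h7 : X' ∩ Iio n ⊆ Set.range g' := by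
        rintro x ⟨hx, hxn⟩
        obtain ⟨i, hi⟩ := hg' ⟨x, hxn⟩ hx
        exact ⟨i, hi⟩
      calc #(X' ∩ Iio n : Set L) ≤ #(Set.range g') := Cardinal.mk_le_mk_of_subset h7
        _ ≤ #(Iio c) := Cardinal.mk_range_le
        _ = κ := hIc
    · rw [← hIc]
      refine Cardinal.mk_le_mk_of_subset ?_
      intro x hx
      exact ⟨hC ⟨x, hx⟩, lt_trans hx hcn⟩
  · intro o ho
    have ho3 : o < κ₃.ord := lt_of_lt_of_le ho (Cardinal.ord_le_ord.2 (h01.trans (h12.trans h23)))
    obtain ⟨x, hx⟩ := τsurj o ho3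
    have hxc : x < c := by
      rw [← τmono, τc, hx]
      exact ho
    exact ⟨x, hC ⟨x, hxc⟩, hx⟩

end Pool.Agent.HG
end

section

/-!
# TASK K3: the three conditions

PROOF. `κ := #(Iio c)` is regular (`isRegular_of_bounded` with `B = Iio c`; nonempty and without greatest element by
`hne`, `hnm`). In particular the order type of `Iio c` is `κ.ord`: all `#(Iio a) < #(Iio c)` for `a < c` (as in the
proof of `K1`; or: otherwise a surjection `Iio a → Iio c`), so `typein c = κ.ord`. `type_eq` (`B07.lean`) for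
`A = Iio c`, `B = Iio m` (`mk_Iio_le`, cardinal `κ`): the type of `Iio m` is `(succ κ).ord`; `#(Iio m) = succ κ`; then
`Iio m`, `Iio n` (cardinal `succ κ`): type of `Iio n` is `(succ (succ κ)).ord`; then `Iio n`, `L`. `typein n` is the type of
`Iio n` (`Ordinal.typein_def` / `Ordinal.type_Iio`-like). `changProperty_of`. `AllSub (Iio c) (Iio m)`: the map
`i ↦ {a | (i, a) ∈ S}` is onto `Set (Iio c)`, so `2 ^ κ ≤ #(Iio m) = succ κ ≤ succ (succ κ)`.
`ManySubsets (Iio m) L`: `x ↦ {i | (x, i) ∈ S}` is injective (see `B09.lean`), so `succ (succ (succ κ)) = #L ≤ 2 ^ succ κ`.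
-/

set_option autoImplicit false

namespace Pool.Agent.HG

open Cardinal Set Pool.Agent.CC

universe u v w

variable {L : Type u} [LinearOrder L] [WellFoundedLT L] {c m n : L}

theorem question_of_model (hcm : c < m) (hmn : m < n) (hne : ∃ a, a < c)
    (hnm : ∀ a, a < c → ∃ b, a < b ∧ b < c) (h : Model c m n) :
    Question (#(Iio c)) := by
  obtain ⟨hb0, ⟨hc1, hb1⟩, ⟨hc2, hb2⟩, ⟨hc3, hb3⟩, hall, hmany, hchang⟩ := h
  obtain ⟨a0, ha0⟩ := hne
  have : Nonempty (Iio c) := ⟨⟨a0, ha0⟩⟩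
  have : Nonempty (Iio m) := ⟨⟨c, hcm⟩⟩
  have : Nonempty (Iio n) := ⟨⟨m, hmn⟩⟩
  have : Nonempty L := ⟨c⟩
  have hreg : (#(Iio c)).IsRegular := by
    refine isRegular_of_bounded ?_ hb0
    rintro ⟨a, ha⟩
    obtain ⟨b, hab, hbc⟩ := hnm a ha
    exact ⟨⟨b, hbc⟩, hab⟩
  have h0 : ℵ₀ ≤ #(Iio c) := hreg.aleph0_le
  have tc : Ordinal.typein (fun x y : L => x < y) c = (#(Iio c)).ord := by
    refine le_antisymm ?_ ?_
    · by_contra hlt
      rw [not_le] at hlt
      obtain ⟨b, hb⟩ := Ordinal.typein_surj (fun x y : L => x < y)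
        (hlt.trans (Ordinal.typein_lt_type (fun x y : L => x < y) c))
      have hbc : b < c := by
        rw [← hb] at hlt
        exact (Ordinal.typein_lt_typein (fun x y : L => x < y)).1 hlt
      have h3 := Ordinal.card_typein (r := fun x y : L => x < y) b
      rw [hb, card_ord] at h3
      -- the initial segment below `b` has the size of `Iio c`
      have h5 : #(Iio c) ≤ #(Iio (⟨b, hbc⟩ : Iio c)) := by
        rw [h3]
        refine mk_le_of_injective (f := fun y : { y // y < b } =>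
          (⟨⟨y.1, y.2.trans hbc⟩, y.2⟩ : Iio (⟨b, hbc⟩ : Iio c))) ?_
        intro x y hxy
        apply Subtype.ext
        have h6 := congrArg (fun z : Iio (⟨b, hbc⟩ : Iio c) => ((z : Iio c) : L)) hxy
        exact h6
      obtain ⟨f⟩ := h5
      obtain ⟨b', hb'⟩ := hb0 ⟨b, hbc⟩ (Function.invFun f)
      obtain ⟨w, hw⟩ := hb' (f b')
      rw [Function.leftInverse_invFun f.injective b'] at hw
      exact absurd w.2 (by rw [← hw]; exact lt_irrefl _)
    · rw [ord_le]
      have h3 := Ordinal.card_typein (r := fun x y : L => x < y) c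
      rw [h3]
      exact le_rfl
  have h1 : ℵ₀ ≤ Order.succ (#(Iio c)) := h0.trans (Order.le_succ _)
  have h2 : ℵ₀ ≤ Order.succ (Order.succ (#(Iio c))) := h1.trans (Order.le_succ _)
  have tm : Ordinal.type (fun x y : Iio m => x < y) = (Order.succ (#(Iio c))).ord :=
    type_eq (A := Iio c) (B := Iio m) _ h0 rfl (fun b => mk_Iio_le hc1 b) hb1
  have cm : #(Iio m) = Order.succ (#(Iio c)) := by
    rw [← Ordinal.card_type (fun x y : Iio m => x < y), tm, Cardinal.card_ord]
  have tn : Ordinal.type (fun x y : Iio n => x < y) =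
      (Order.succ (Order.succ (#(Iio c)))).ord :=
    type_eq (A := Iio m) (B := Iio n) _ h1 (by rw [cm]) (fun b => (mk_Iio_le hc2 b).trans_eq cm) hb2
  have cn : #(Iio n) = Order.succ (Order.succ (#(Iio c))) := by
    rw [← Ordinal.card_type (fun x y : Iio n => x < y), tn, Cardinal.card_ord]
  have tL : Ordinal.type (fun x y : L => x < y) =
      (Order.succ (Order.succ (Order.succ (#(Iio c))))).ord :=
    type_eq (A := Iio n) (B := L) _ h2 (by rw [cn]) (fun b => (mk_Iio_le hc3 b).trans_eq cn) hb3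
  have cL : #L = Order.succ (Order.succ (Order.succ (#(Iio c)))) := by
    rw [← Ordinal.card_type (fun x y : L => x < y), tL, Cardinal.card_ord]
  have tn' : Ordinal.typein (fun x y : L => x < y) n =
      (Order.succ (Order.succ (#(Iio c)))).ord := by
    rw [← tn]
    exact (Ordinal.type_Iio_lt n).symm
  refine ⟨hreg, changProperty_of _ h0 tc cm tn' tL hchang, ?_, ?_⟩
  · obtain ⟨S, hS⟩ := hall
    have hsurj : Function.Surjective fun (i : Iio m) => {a : Iio c | (i, a) ∈ S} := by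
      intro A
      obtain ⟨i, hi⟩ := hS A
      refine ⟨i, ?_⟩
      ext a
      exact hi a
    have h3 := Cardinal.mk_le_of_surjective hsurj
    rw [Cardinal.mk_set, cm] at h3
    exact h3.trans (Order.le_succ _)
  · obtain ⟨S, hS⟩ := hmany
    have hinj : Function.Injective fun (x : L) => {i : Iio m | (x, i) ∈ S} := by
      intro x y hxy
      by_contra hne
      rcases lt_or_gt_of_ne hne with hlt | hlt
      · refine hS y ⟨x, hlt⟩ fun i => ?_
        exact (Set.ext_iff.mp hxy i).symm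
      · refine hS x ⟨y, hlt⟩ fun i => ?_
        exact Set.ext_iff.mp hxy i
    have h3 := Cardinal.mk_le_of_injective hinj
    rw [Cardinal.mk_set, cm, cL] at h3
    exact (Order.lt_succ _).trans_le h3

end Pool.Agent.HG
end
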