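import Pool.Agent.Lib.MP_27cb06_lc.Mg.G001
import Pool.Agent.Lib.MP_27cb06_lc.Mg.G012
import Pool.Agent.Lib.MP_27cb06_lc.Mg.G003

section

/-!
# TASK A4: L is regular and a strong limit

PROOF. (1) `L` has no greatest element `t`: for almost all `X`, `t ∈ X` is the greatest element of
`X ≃o Iio m`, so `Iio m` has a greatest element `x`, `Iio m = Iic x`, and `#(Iic x) = #(Iio x) + 1 < #(Iio m)`
(`minit`, `unc`: `Cardinal.add_lt_of_lt`), contradiction.
(2) for `a : L` and almost all `X` (`a ∈ X`): `#{x | x ∈ X ∧ x < a} < #(Iio m)`: with `Enum m X α h`, `a = h i`,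
`i < m`, the set is contained in the image under `h` of `Iio i` (`lt_of_lt`), which has size `< #(Iio m)`. Also
`#X = #(Iio m)` (`otp`, or `h` is a bijection).
`linit_of`: otherwise there is an injective `g : L → L` with `g x < a` for all `x`; almost all `X` are closed
under `g` (`closed_list`), so `g` maps `X` injectively to `{x ∈ X | x < a}`, contradicting (2).
`lreg_of`: suppose `A` is not bounded, `#A < #L`. By `exists_ge_card` there is `a : L` with `#A ≤ #(Iio a)`, so
there is `g : L → L` with `A ⊆ g '' Iio a` (`A` is nonempty as `L` is nonempty; `L` is nonempty since `m : L`) and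
`g x ∈ A`... so for every `x` there is `i x < a` with `x ≤ g (i x)` (`L` has no greatest element is not needed:
`A` unbounded means `∀ b, ∃ a ∈ A, b ≤ a`). Almost all `X` are closed under `g` and `i` and contain `a`, and
`Enum m X α h`. `B := {j < m | ∃ y ∈ X, y < a ∧ h j = g y}` has size `≤ #{y ∈ X | y < a} < #(Iio m)` (`j` is
determined by `y`). By `mreg_of` there is `b < m` above `B`. `x := h b ∈ X`, `y := i x ∈ X`, `y < a`,
`x ≤ g y ∈ X`, `g y = h j` for some `j < m`, so `j ∈ B`, `j < b`, `h j < h b = x`, contradiction.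
`llim_of`: suppose `#L ≤ 2 ^ #(Iio a)`: `g : L → Set L` injective with `g x ⊆ Iio a`. For `x ≠ x'` choose
`d x x' < a` in exactly one of `g x`, `g x'`. Almost all `X` are closed under `d`; so the map
`X → Set {y ∈ X | y < a}`, `x ↦ {y | y ∈ g x}` is injective, `#(Iio m) = #X ≤ 2 ^ #{y ∈ X | y < a} < #(Iio m)` by (2)
and `mlim'`.
`llim'`: as `mlim'`, from `exists_ge_card`.
-/

set_option autoImplicit false

namespace Pool.Agent.HG

open Cardinal Set Pool.Agent.CC

universe u v w

variable {L : Type u} [LinearOrder L] [WellFoundedLT L] {c m n : L} {U : Ultrafilter (Set L)}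

private theorem A4_closed1 (hU : Huge m U) (g : L → L) :
    ∀ᶠ X in (U : Filter (Set L)), ∀ x ∈ (X : Set L), g x ∈ X := by
  have h := closed_list hU (fun l => match l with
    | x :: _ => g x
    | [] => m)
  refine h.mono fun X hX x hx => ?_
  have := hX [x] (by simpa using hx)
  exact this

private theorem A4_closed2 (hU : Huge m U) (g : L → L → L) :
    ∀ᶠ X in (U : Filter (Set L)), ∀ x ∈ (X : Set L), ∀ y ∈ X, g x y ∈ X := by
  have h := closed_list hU (fun l => match l with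
    | x :: y :: _ => g x y
    | [_] => m
    | [] => m)
  refine h.mono fun X hX x hx y hy => ?_
  have := hX [x, y] (by
    intro z hz
    simp only [List.mem_cons, List.not_mem_nil, or_false] at hz
    rcases hz with rfl | rfl
    · exact hx
    · exact hy)
  exact this

private theorem A4_mkX {X : Set L} {α : L} {h : L → L} (hE : Enum m X α h) : #X = #(Iio m) := by
  refine Cardinal.mk_congr (Equiv.symm (Equiv.ofBijective
    (fun i : Iio m => (⟨h i, hE.mem i i.2⟩ : X)) ⟨?_, ?_⟩))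
  · intro i j hij
    have : h i = h j := congrArg Subtype.val hij
    exact Subtype.ext (hE.inj i.2 j.2 this)
  · rintro ⟨x, hx⟩
    obtain ⟨i, hi, hix⟩ := hE.surj x hx
    exact ⟨⟨i, hi⟩, Subtype.ext hix⟩

private theorem A4_small (hU : Huge m U) {X : Set L} {α : L} {h : L → L} (hE : Enum m X α h) {a : L}
    (ha : a ∈ X) : #{x : L | x ∈ X ∧ x < a} < #(Iio m) := by
  obtain ⟨i, hi, rfl⟩ := hE.surj a ha
  have hsub : {x : L | x ∈ X ∧ x < h i} ⊆ h '' Iio i := by
    rintro x ⟨hx, hxa⟩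
    obtain ⟨j, hj, rfl⟩ := hE.surj x hx
    exact ⟨j, hE.lt_of_lt hj hi hxa, rfl⟩
  exact ((mk_le_mk_of_subset hsub).trans mk_image_le).trans_lt (hU.minit i hi)

theorem linit_of (hU : Huge m U) (a : L) : #(Iio a) < #L := by
  by_contra hc
  have hle : #L ≤ #(Iio a) := not_lt.1 hc
  obtain ⟨g⟩ := Cardinal.le_def _ _ |>.1 hle
  obtain ⟨X, ⟨α, h, hE⟩, ha, hg⟩ := ((exists_enum hU).and ((hU.fine a).and
    (A4_closed1 hU (fun x => ((g x : Iio a) : L))))).exists
  have h1 : #X ≤ #{x : L | x ∈ X ∧ x < a} := by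
    refine Cardinal.mk_le_of_injective (f := fun x : X => (⟨(g x : L), hg x x.2, (g x).2⟩ : {x : L | x ∈ X ∧ x < a})) ?_
    intro x y hxy
    have : ((g x : Iio a) : L) = (g y : Iio a) := congrArg (fun z : {x : L | x ∈ X ∧ x < a} => (z : L)) hxy
    exact Subtype.ext (g.injective (Subtype.ext this))
  rw [A4_mkX hE] at h1
  exact absurd (A4_small hU hE ha) (not_lt.2 h1)

theorem lreg_of (hU : Huge m U) (A : Set L) (hc : #A < #L) : ∃ b, ∀ a ∈ A, a < b := by
  classical
  have hcA : #A < #L := hc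
  clear hc
  by_contra hc
  push Not at hc
  choose σ hσA hσ using hc
  obtain ⟨a, ha⟩ := exists_ge_card hcA
  obtain ⟨e⟩ := Cardinal.le_def _ _ |>.1 ha
  set ii : L → L := fun x => ((e ⟨σ x, hσA x⟩ : Iio a) : L) with hii
  set g : L → L := fun y => if hy : ∃ z : A, ((e z : Iio a) : L) = y then (hy.choose : L) else m with hg
  have hgi : ∀ x, g (ii x) = σ x := by
    intro x
    have hex : ∃ z : A, ((e z : Iio a) : L) = ii x := ⟨⟨σ x, hσA x⟩, rfl⟩
    have h1 : g (ii x) = (hex.choose : L) := by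
      simp only [hg]
      rw [dif_pos hex]
    have h2 : hex.choose = (⟨σ x, hσA x⟩ : A) := e.injective (Subtype.ext hex.choose_spec)
    rw [h1, h2]
  obtain ⟨X, ⟨α, h, hE⟩, haX, hcg, hci⟩ := ((exists_enum hU).and ((hU.fine a).and
    ((A4_closed1 hU g).and (A4_closed1 hU ii)))).exists
  have hch : ∀ y : {y : L | y ∈ X ∧ y < a}, ∃ j, j < m ∧ h j = g y := fun y => hE.surj _ (hcg _ y.2.1)
  choose k hkm hk using hch
  have hB : #(Set.range k) < #(Iio m) := mk_range_le.trans_lt (A4_small hU hE haX)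
  obtain ⟨b, hbm, hb⟩ := mreg_of hU (Set.range k) (by rintro _ ⟨y, rfl⟩; exact hkm y) hB
  have hx : h b ∈ X := hE.mem b hbm
  have hy : ii (h b) ∈ X := hci _ hx
  have hya : ii (h b) < a := (e ⟨σ (h b), hσA (h b)⟩).2
  set y : {y : L | y ∈ X ∧ y < a} := ⟨ii (h b), hy, hya⟩ with hyd
  have h1 : h (k y) = σ (h b) := by
    rw [hk y, hyd]
    exact hgi (h b)
  have h2 : k y < b := hb _ ⟨y, rfl⟩
  have h3 : h (k y) < h b := hE.mono _ _ h2 hbm
  rw [h1] at h3
  exact absurd h3 (not_lt.2 (hσ (h b)))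

theorem llim_of (hU : Huge m U) (a : L) : 2 ^ #(Iio a) < #L := by
  classical
  by_contra hc
  have hle : #L ≤ 2 ^ #(Iio a) := not_lt.1 hc
  rw [← Cardinal.mk_set] at hle
  obtain ⟨φ⟩ := Cardinal.le_def _ _ |>.1 hle
  have hd : ∀ x x' : L, ∃ z : L, x ≠ x' → ∃ hz : z < a, ¬ ((⟨z, hz⟩ : Iio a) ∈ φ x ↔ (⟨z, hz⟩ : Iio a) ∈ φ x') := by
    intro x x'
    by_cases hxx : x = x'
    · exact ⟨m, fun h => absurd hxx h⟩
    · have hne : φ x ≠ φ x' := fun h => hxx (φ.injective h)
      have : ∃ z : Iio a, ¬ (z ∈ φ x ↔ z ∈ φ x') := by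
        by_contra hall
        push Not at hall
        exact hne (Set.ext hall)
      obtain ⟨z, hz⟩ := this
      exact ⟨z, fun _ => ⟨z.2, hz⟩⟩
  choose d hd using hd
  obtain ⟨X, ⟨α, h, hE⟩, haX, hcd⟩ := ((exists_enum hU).and ((hU.fine a).and (A4_closed2 hU d))).exists
  have h1 : #X ≤ 2 ^ #{y : L | y ∈ X ∧ y < a} := by
    rw [← Cardinal.mk_set]
    refine Cardinal.mk_le_of_injective
      (f := fun x : X => {y : {y : L | y ∈ X ∧ y < a} | (⟨(y : L), y.2.2⟩ : Iio a) ∈ φ x}) ?_
    intro x x' hxx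
    by_contra hne
    have hne' : (x : L) ≠ x' := fun h => hne (Subtype.ext h)
    obtain ⟨hz, hn⟩ := hd x x' hne'
    have hmem : d x x' ∈ X := hcd _ x.2 _ x'.2
    have := Set.ext_iff.1 hxx ⟨d x x', hmem, hz⟩
    exact hn this
  rw [A4_mkX hE] at h1
  exact absurd (mlim' hU (A4_small hU hE haX)) (not_lt.2 h1)

theorem llim' (hU : Huge m U) {θ : Cardinal.{u}} (h : θ < #L) : 2 ^ θ < #L := by
  obtain ⟨b, hb⟩ := exists_ge_card h
  exact (Cardinal.power_le_power_left two_ne_zero hb).trans_lt (llim_of hU b)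

end Pool.Agent.HG
end

section

/-!
# TASK A6: the setup from cardinals

PROOF. `L = λ.ord.ToType`. `κ.ord < μ.ord < λ.ord = type` so `c`, `m` exist (`Ordinal.typein_surj`). `Huge m U`:
`otp`: `Ordinal.type` of `X` is `μ.ord`, which is the type of `Iio m` (`Ordinal.typein`), so they are order
isomorphic (`Ordinal.type_eq`; convert the `RelIso` to an `OrderIso`: `OrderIso.ofRelIsoLT`). `unc`:
`#(Iio m) = μ > κ ≥ ℵ₀` (`Ordinal.card_typein`, `card_ord`). `minit`: `typein a < typein m = μ.ord` gives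
`card (typein a) < μ` (`Cardinal.lt_ord`). `complete`: from `CardinalInterFilter`
(`Filter.eventually_cardinal_forall`).
`n`: `(2 ^ μ) < λ` and so `succ (2 ^ μ) ≤ 2 ^ (2 ^ μ) < λ` by `llim'` (`#L = λ`), so
`(succ (2 ^ μ)).ord < λ.ord` and `n` exists. `mn`: `μ.ord < (succ (2 ^ μ)).ord`. `ninit`: `lt_ord`, `lt_succ_iff`.
`creg`, `nreg`: a subset `A` of `Iio c` of size less than the regular cardinal `κ` is bounded: with
`IsRegular.cof_ord` (see `T18_bdd` in `Pool/Agent/Lib/MP_27cb06_lc/T18.lean`, you may copy it): if it is not bounded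
in `Iio c` then `A` (as a subset of the subtype `Iio c`, whose type is `κ.ord`) is cofinal, so
`cof κ.ord ≤ #A`. `succ (2 ^ μ)` is regular (`isRegular_succ`). `mreg`, `mlim`, `linit`, `lreg`, `llim`:
`mreg_of`, `mlim_of`, `linit_of`, `lreg_of`, `llim_of`.
-/

set_option autoImplicit false

namespace Pool.Agent.HG

open Cardinal Set Pool.Agent.CC

universe u v w

private theorem A6_card {L : Type u} [LinearOrder L] [WellFoundedLT L] {a : L} {θ : Cardinal.{u}}
    (h : Ordinal.typein (fun x y : L => x < y) a = θ.ord) : #(Iio a) = θ := by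
  have h3 := Ordinal.card_typein (r := fun x y : L => x < y) a
  rw [h, card_ord] at h3
  exact h3.symm

private theorem A6_lt {L : Type u} [LinearOrder L] [WellFoundedLT L] {a b : L} {θ : Cardinal.{u}}
    (h : Ordinal.typein (fun x y : L => x < y) a = θ.ord) (hb : b < a) : #(Iio b) < θ := by
  have h3 := Ordinal.card_typein (r := fun x y : L => x < y) b
  have h4 : Ordinal.typein (fun x y : L => x < y) b < Ordinal.typein (fun x y : L => x < y) a :=
    (Ordinal.typein_lt_typein _).2 hb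
  rw [h, lt_ord, h3] at h4
  exact h4

private theorem A6_bdd {L : Type u} [LinearOrder L] [WellFoundedLT L] {a : L} {θ : Cardinal.{u}}
    (h : Ordinal.typein (fun x y : L => x < y) a = θ.ord) (hθ : θ.IsRegular) (A : Set L)
    (hA : ∀ x ∈ A, x < a) (hc : #A < θ) : ∃ b < a, ∀ x ∈ A, x < b := by
  by_contra hcon
  push Not at hcon
  have h1 : IsCofinal (Subtype.val ⁻¹' A : Set (Iio a)) := by
    intro b
    obtain ⟨x, hx, hbx⟩ := hcon b b.2
    exact ⟨⟨x, hA x hx⟩, hx, hbx⟩
  have h2 := Order.cof_le h1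
  have h3 : Order.cof (Iio a) = θ := by
    rw [Order.cof_Iio, h, hθ.cof_ord]
  have h4 : #(Subtype.val ⁻¹' A : Set (Iio a)) ≤ #A :=
    mk_preimage_of_injective _ _ Subtype.val_injective
  rw [h3] at h2
  exact absurd hc (not_lt.2 (h2.trans h4))

theorem exists_setup (κ μ lam : Cardinal.{u}) (hκ : κ.IsRegular) (hκμ : κ < μ) (hμ : μ < lam)
    (U : Ultrafilter (Set lam.ord.ToType))
    (hU : CardinalInterFilter (U : Filter (Set lam.ord.ToType)) μ)
    (hfine : ∀ x, ∀ᶠ X in (U : Filter (Set lam.ord.ToType)), x ∈ (X : Set lam.ord.ToType))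
    (hnormal : ∀ f : Set lam.ord.ToType → lam.ord.ToType,
      (∀ᶠ X in (U : Filter (Set lam.ord.ToType)), f X ∈ (X : Set lam.ord.ToType)) →
      ∃ x, ∀ᶠ X in (U : Filter (Set lam.ord.ToType)), f X = x)
    (hotp : ∀ᶠ X in (U : Filter (Set lam.ord.ToType)),
      Ordinal.type (fun x y : ↥(X : Set lam.ord.ToType) => x < y) = μ.ord) :
    ∃ c m n : lam.ord.ToType,
      Ordinal.typein (fun x y : lam.ord.ToType => x < y) c = κ.ord ∧
      Ordinal.typein (fun x y : lam.ord.ToType => x < y) m = μ.ord ∧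
      Ordinal.typein (fun x y : lam.ord.ToType => x < y) n = (Order.succ ((2 : Cardinal.{u}) ^ μ)).ord ∧
      Setup c m n U := by
  have htype : Ordinal.type (fun x y : lam.ord.ToType => x < y) = lam.ord := Ordinal.type_toType _
  have hcard : #(lam.ord.ToType) = lam := mk_ord_toType lam
  obtain ⟨c, hc⟩ := Ordinal.typein_surj (fun x y : lam.ord.ToType => x < y) (o := κ.ord) (by
    rw [htype]; exact ord_lt_ord.2 (hκμ.trans hμ))
  obtain ⟨m, hm⟩ := Ordinal.typein_surj (fun x y : lam.ord.ToType => x < y) (o := μ.ord) (by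
    rw [htype]; exact ord_lt_ord.2 hμ)
  have hmc : #(Iio c) = κ := A6_card hc
  have hmm : #(Iio m) = μ := A6_card hm
  have hH : Huge m U := by
    refine ⟨hfine, hnormal, ?_, ?_, ?_, ?_⟩
    · intro ι A hι h
      rw [hmm] at hι
      exact (Filter.eventually_cardinal_forall hι).2 h
    · refine hotp.mono fun X hX => ?_
      have h1 : Ordinal.type (fun x y : ↥(X : Set lam.ord.ToType) => x < y) =
          Ordinal.type (fun x y : Iio m => x < y) := by
        rw [hX, ← hm]
        rfl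
      obtain ⟨f⟩ := Ordinal.type_eq.1 h1
      exact ⟨OrderIso.ofRelIsoLT f⟩
    · rw [hmm]
      exact hκ.aleph0_le.trans_lt hκμ
    · intro a ha
      rw [hmm]
      exact A6_lt hm ha
  have h1 : (2 : Cardinal.{u}) ^ μ < lam := by
    have := llim' hH (θ := μ) (by rw [hcard]; exact hμ)
    rwa [hcard] at this
  have h2 : Order.succ ((2 : Cardinal.{u}) ^ μ) < lam := by
    have := llim' hH (θ := 2 ^ μ) (by rw [hcard]; exact h1)
    rw [hcard] at this
    exact (Order.succ_le_of_lt (cantor _)).trans_lt this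
  obtain ⟨n, hn⟩ := Ordinal.typein_surj (fun x y : lam.ord.ToType => x < y)
    (o := (Order.succ ((2 : Cardinal.{u}) ^ μ)).ord) (by rw [htype]; exact ord_lt_ord.2 h2)
  have hmn : #(Iio n) = Order.succ ((2 : Cardinal.{u}) ^ μ) := A6_card hn
  have hreg : (Order.succ ((2 : Cardinal.{u}) ^ μ)).IsRegular :=
    isRegular_succ ((hκ.aleph0_le.trans hκμ.le).trans (cantor _).le)
  refine ⟨c, m, n, hc, hm, hn, ?_⟩
  exact {
    toHuge := hH
    cm := by
      have := (Ordinal.typein_lt_typein (fun x y : lam.ord.ToType => x < y) (a := c) (b := m)).1 (by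
        rw [hc, hm]; exact ord_lt_ord.2 hκμ)
      exact this
    mn := by
      have := (Ordinal.typein_lt_typein (fun x y : lam.ord.ToType => x < y) (a := m) (b := n)).1 (by
        rw [hm, hn]; exact ord_lt_ord.2 ((cantor _).trans (Order.lt_succ _)))
      exact this
    cinf := by rw [hmc]; exact hκ.aleph0_le
    creg := fun A hA hAc => A6_bdd hc hκ A hA (by rwa [hmc] at hAc)
    cinit := fun a ha => by rw [hmc]; exact A6_lt hc ha
    clt := by rw [hmc, hmm]; exact hκμ
    mreg := mreg_of hH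
    mlim := mlim_of hH
    ninit := fun a ha => by rw [hmm]; exact Order.lt_succ_iff.1 (A6_lt hn ha)
    nbig := by rw [hmm, hmn]; exact Order.lt_succ _
    nreg := fun A hA hAc => A6_bdd hn hreg A hA (by rw [hmm] at hAc; exact Order.lt_succ_iff.2 hAc)
    linit := linit_of hH
    lreg := lreg_of hH
    llim := llim_of hH }

end Pool.Agent.HG
end

section

/-!
# TASK A7: regular cardinals, infinite segments, successors

PROOF. `isRegular_of_bdd`: let `a : L` (or the whole of `B`); a general lemma: if `B` is a well-order with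
`ℵ₀ ≤ #B`, `#(Iio b) < #B` for all `b` and every subset of size `< #B` is bounded then `#B` is regular. Proof:
the order type of `B` is `(#B).ord` (all proper initial segments have size `< #B`), and
`cof (#B).ord = cof (type B) = Order.cof B` is the least size of a cofinal subset (`Ordinal.cof_type`,
`Order.cof`), which is `≥ #B` since smaller sets are bounded (strictly; not cofinal).
`creg'`, `mreg'`, `nreg'`, `lreg'`, `Stage.isRegular`: apply it to the subtypes `Iio c`, `Iio m`, `Iio n`, to `L`, and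
to `Iio α` (`mk_Iio_sub` and translation of subsets of the subtype to subsets of `L`: the image under
`Subtype.val` has the same cardinality). For `n`: `#(Iio n) ` is regular: sets of size `< #(Iio n)` have size
`≤ 2 ^ #(Iio m)`: since `#(Iio n) = succ (2 ^ #(Iio m))` (`ninit` and `exists_ge_card`: if
`succ (2 ^ #(Iio m)) < #(Iio n)` then some `b < n` has `#(Iio b) ≥ succ (2 ^ #(Iio m))`).
`Stage.inf`: `#(Iio c) ≤ #(Iio α)` (subset) and `cinf`. `Stage.clt`: `#(Iio c) < #(Iio α)` is `init`.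
`exists_lt_stage`, `exists_lt_m`, `exists_lt_L`: the set `{a}` is bounded (`reg`, `mreg`, `lreg`; its size `1` is
less than the infinite cardinals).
`Stage.le`: `#(Iio α) < #(Iio m)` by `minit`, `2 ^ #(Iio α) < #(Iio m)` by `mlim`.
-/

set_option autoImplicit false

namespace Pool.Agent.HG

open Cardinal Set Pool.Agent.CC

universe u v w

variable {L : Type u} [LinearOrder L] [WellFoundedLT L] {c m n : L} {U : Ultrafilter (Set L)}

theorem isRegular_of_bdd {B : Type u} [LinearOrder B] [WellFoundedLT B] (hinf : ℵ₀ ≤ #B)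
    (h1 : ∀ b : B, #(Iio b) < #B) (h2 : ∀ A : Set B, #A < #B → ∃ b, ∀ a ∈ A, a < b) :
    (#B).IsRegular := by
  have htype : Ordinal.type (fun x y : B => x < y) = (#B).ord := by
    refine le_antisymm ?_ ?_
    · by_contra hlt
      rw [not_le] at hlt
      obtain ⟨b, hb⟩ := Ordinal.typein_surj (fun x y : B => x < y) hlt
      have h3 := Ordinal.card_typein (r := fun x y : B => x < y) b
      rw [hb, card_ord] at h3
      have h4 : #B < #B := by
        conv_lhs => rw [h3]
        exact h1 b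
      exact lt_irrefl _ h4
    · rw [ord_le, Ordinal.card_type]
  refine ⟨hinf, ?_⟩
  have hcof : (#B).ord.cof = Order.cof B := by
    rw [← htype]
    exact Ordinal.cof_type B
  rw [hcof, Order.le_cof_iff]
  intro s hs
  by_contra hlt
  rw [not_le] at hlt
  obtain ⟨b, hb⟩ := h2 s hlt
  obtain ⟨a, ha, hab⟩ := hs b
  exact absurd (hb a ha) (not_lt.2 hab)

private theorem A7_sub {a : L} (hinf : ℵ₀ ≤ #(Iio a)) (h1 : ∀ b < a, #(Iio b) < #(Iio a))
    (h2 : ∀ A : Set L, (∀ x ∈ A, x < a) → #A < #(Iio a) → ∃ b < a, ∀ x ∈ A, x < b) :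
    (#(Iio a)).IsRegular := by
  refine isRegular_of_bdd hinf ?_ ?_
  · intro b
    rw [mk_Iio_sub b]
    exact h1 b b.2
  · intro A hA
    have h3 : #((Subtype.val '' A : Set L)) = #A := mk_image_eq Subtype.val_injective
    obtain ⟨b, hb, hb'⟩ := h2 (Subtype.val '' A) (by
      rintro x ⟨y, _, rfl⟩
      exact y.2) (by rw [h3]; exact hA)
    exact ⟨⟨b, hb⟩, fun x hx => hb' x ⟨x, hx, rfl⟩⟩

theorem creg' (hS : Setup c m n U) : (#(Iio c)).IsRegular :=
  A7_sub hS.cinf hS.cinit hS.creg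

theorem mreg' (hS : Setup c m n U) : (#(Iio m)).IsRegular :=
  A7_sub hS.unc.le hS.minit hS.mreg

private theorem A7_n (hS : Setup c m n U) : #(Iio n) = Order.succ (2 ^ #(Iio m)) := by
  refine le_antisymm ?_ (Order.succ_le_of_lt hS.nbig)
  by_contra hlt
  rw [not_le] at hlt
  obtain ⟨b, hb⟩ := exists_ge_card hlt
  rw [mk_Iio_sub b] at hb
  have h1 := hb.trans (hS.ninit b b.2)
  exact absurd h1 (not_le.2 (Order.lt_succ _))

theorem nreg' (hS : Setup c m n U) : (#(Iio n)).IsRegular := by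
  have h0 := A7_n hS
  refine A7_sub ?_ ?_ ?_
  · rw [h0]
    exact (hS.unc.le.trans (cantor _).le).trans (Order.le_succ _)
  · intro b hb
    rw [h0]
    exact Order.lt_succ_of_le (hS.ninit b hb)
  · intro A hA hc
    rw [h0] at hc
    exact hS.nreg A hA (Order.lt_succ_iff.1 hc)

theorem lreg' (hS : Setup c m n U) : (#L).IsRegular := by
  refine isRegular_of_bdd ?_ hS.linit hS.lreg
  exact hS.unc.le.trans (mk_set_le _)

theorem Stage.inf {α : L} (h : Stage c m α) (hS : Setup c m n U) : ℵ₀ ≤ #(Iio α) :=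
  hS.cinf.trans (mk_le_mk_of_subset fun _ hx => lt_trans hx h.lo)

theorem Stage.clt {α : L} (h : Stage c m α) : #(Iio c) < #(Iio α) := h.init c h.lo

theorem Stage.isRegular {α : L} (h : Stage c m α) (hS : Setup c m n U) : (#(Iio α)).IsRegular :=
  A7_sub (h.inf hS) h.init h.reg

theorem exists_lt_stage {α : L} (h : Stage c m α) (hS : Setup c m n U) {a : L} (ha : a < α) :
    ∃ b < α, a < b := by
  obtain ⟨b, hb, hb'⟩ := h.reg {a} (by
    intro x hx
    rw [mem_singleton_iff.1 hx]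
    exact ha) (by
    rw [mk_singleton]
    exact one_lt_aleph0.trans_le (h.inf hS))
  exact ⟨b, hb, hb' a rfl⟩

theorem exists_lt_m (hS : Setup c m n U) {a : L} (ha : a < m) : ∃ b < m, a < b := by
  obtain ⟨b, hb, hb'⟩ := hS.mreg {a} (by
    intro x hx
    rw [mem_singleton_iff.1 hx]
    exact ha) (by
    rw [mk_singleton]
    exact one_lt_aleph0.trans hS.unc)
  exact ⟨b, hb, hb' a rfl⟩

theorem exists_lt_L (hS : Setup c m n U) (a : L) : ∃ b, a < b := by
  obtain ⟨b, hb⟩ := hS.lreg {a} (by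
    rw [mk_singleton]
    exact (one_lt_aleph0.trans hS.unc).trans_le (mk_set_le _))
  exact ⟨b, hb a rfl⟩

end Pool.Agent.HG
end

section

/-!
# TASK P1: unions of conditions of the first forcing

PROOF. `PCond.exists_union`: for every `α` take the union `r α` of the `(s i).f α` (`exists_glue_raw`). `stage`:
from the members. `supp`: the support is the union of the supports, `#ι < κ = #(Iio c)` sets of size `< κ`, `κ`
regular (`creg'`): `Cardinal.mk_iUnion_lt_iff...`-type lemma (`Cardinal.card_iUnion_lt_iff_forall_of_isRegular`)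
or `sum_lt_of_isRegular`. `good α` for a stage `α`: `Good.exists_union` for `(s i).f α` (its result is equal to
`r α`, or rewrite the proof with `exists_glue_raw`): `#ι < #(Iio c) ≤ #(Iio α) ≤ 2 ^ #(Iio α)`; `h'`: the union over
`i` of sets of size `≤ #(Iio α)` (`size'`), `#ι ≤ #(Iio α)`, infinite; `hh`: choose `ξ i < α` from `height`; the set
`{ξ i | i : ι}` has size `≤ #ι < #(Iio α)`, so it is bounded below `α` by `Stage.reg`.
`PCond.exists_join`: `ι = ULift Bool` (`2 < #(Iio c)` by `cinf`). `exists_top`: the empty condition (`good_empty` with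
`ξ = c`, from `Stage.lo`; `0 < #(Iio c)`).
-/

set_option autoImplicit false

namespace Pool.Agent.HG

open Cardinal Set Pool.Agent.CC

universe u v w

variable {L : Type u} [LinearOrder L] [WellFoundedLT L] {c m n : L} {U : Ultrafilter (Set L)}

theorem PCond.exists_union (hS : Setup c m n U) {ι : Type u} (s : ι → PCond c m)
    (hι : #ι < #(Iio c)) (hs : ∀ i j α, Agree ((s i).f α) ((s j).f α)) :
    ∃ r : PCond c m, ∀ α x y w, r.f α x y = some w ↔ ∃ i, (s i).f α x y = some w := by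
  have hglue : ∀ α : L, ∃ r : Raw L, ∀ x y w, r x y = some w ↔ ∃ i, (s i).f α x y = some w :=
    fun α => exists_glue_raw (fun i => (s i).f α) (fun i j => hs i j α)
  choose r hr using hglue
  have hn : ∀ α x y, r α x y ≠ none ↔ ∃ i, (s i).f α x y ≠ none := by
    intro α x y
    rw [Option.ne_none_iff_exists']
    constructor
    · rintro ⟨v, hv⟩
      obtain ⟨i, hi⟩ := (hr α x y v).1 hv
      exact ⟨i, by rw [hi]; simp⟩
    · rintro ⟨i, hi⟩
      obtain ⟨v, hv⟩ := Option.ne_none_iff_exists'.1 hi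
      exact ⟨v, (hr α x y v).2 ⟨i, hv⟩⟩
  refine ⟨⟨r, ?_, ?_, ?_⟩, fun α x y w => hr α x y w⟩
  · intro α x y h
    obtain ⟨i, hi⟩ := (hn α x y).1 h
    exact (s i).stage α x y hi
  · intro α hα
    have hinf : ℵ₀ ≤ #(Iio α) := hα.inf hS
    have hcα : #(Iio c) < #(Iio α) := hα.clt
    have hι' : #ι < #(Iio α) := hι.trans hcα
    have h1 : #{e : L × L | e.2 < α ∧ ∃ i, (s i).f α e.1 e.2 ≠ none} ≤ #(Iio α) := by
      have h3 : {e : L × L | e.2 < α ∧ ∃ i, (s i).f α e.1 e.2 ≠ none} =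
          ⋃ i : ι, {e : L × L | e.2 < α ∧ (s i).f α e.1 e.2 ≠ none} := by
        ext e
        simp only [mem_setOf_eq, mem_iUnion]
        exact ⟨fun ⟨a, i, b⟩ => ⟨i, a, b⟩, fun ⟨i, a, b⟩ => ⟨a, i, b⟩⟩
      rw [h3]
      refine (mk_iUnion_le_sum_mk).trans ?_
      refine (Cardinal.sum_le_sum _ (fun _ => #(Iio α))
        fun i => ((s i).good α hα).size').trans ?_
      rw [sum_const']
      calc #ι * #(Iio α) ≤ #(Iio α) * #(Iio α) := mul_le_mul' hι'.le le_rfl
        _ = #(Iio α) := mul_eq_self hinf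
    have h2 : ∃ ξ < α, ∀ i x y, y < α → (s i).f α x y ≠ none → y < ξ := by
      have hheight : ∀ i, ∃ ξ, ξ < α ∧ ∀ x y, y < α → (s i).f α x y ≠ none → y < ξ := by
        intro i
        obtain ⟨ξ, hξ, h⟩ := ((s i).good α hα).height
        exact ⟨ξ, hξ, h⟩
      choose ξ hξ hh using hheight
      obtain ⟨b, hb, h3⟩ := hα.reg (range ξ) (by rintro _ ⟨i, rfl⟩; exact hξ i)
        (lt_of_le_of_lt mk_range_le hι')
      exact ⟨b, hb, fun i x y hy hne => (hh i x y hy hne).trans (h3 _ ⟨i, rfl⟩)⟩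
    obtain ⟨r', hr', h4⟩ := Good.exists_union hinf (fun i => (s i).f α)
      (fun i => (s i).good α hα) (fun i j => hs i j α) (hι'.le.trans (cantor _).le) h1 h2
    have h5 : r α = r' := by
      funext x y
      refine Option.ext fun w => ?_
      exact (hr α x y w).trans (h4 x y w).symm
    rw [h5]
    exact hr'
  · have h3 : {α : L | ∃ x y, r α x y ≠ none} = ⋃ i : ι, {α : L | ∃ x y, (s i).f α x y ≠ none} := by
      ext α
      simp only [mem_setOf_eq, mem_iUnion]
      constructor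
      · rintro ⟨x, y, h⟩
        obtain ⟨i, hi⟩ := (hn α x y).1 h
        exact ⟨i, x, y, hi⟩
      · rintro ⟨i, x, y, hi⟩
        exact ⟨x, y, (hn α x y).2 ⟨i, hi⟩⟩
    rw [h3]
    exact (card_iUnion_lt_iff_forall_of_isRegular (creg' hS) hι).2 fun i => (s i).supp

theorem PCond.exists_join (hS : Setup c m n U) {p q : PCond c m}
    (h : ∀ α, Agree (p.f α) (q.f α)) : ∃ r : PCond c m, r ≤ p ∧ r ≤ q ∧
      ∀ α x y w, r.f α x y = some w ↔ (p.f α x y = some w ∨ q.f α x y = some w) := by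
  let s : ULift.{u} Bool → PCond c m := fun b => if b.down then p else q
  have hst : s ⟨true⟩ = p := rfl
  have hsf : s ⟨false⟩ = q := rfl
  have hself : ∀ (t : Raw L), Agree t t := fun t => Agree.of_ext (Ext.refl t) (Ext.refl t)
  have hι : #(ULift.{u} Bool) < #(Iio c) :=
    lt_of_lt_of_le (Cardinal.lt_aleph0_of_finite (ULift.{u} Bool)) hS.cinf
  obtain ⟨r, hr⟩ := PCond.exists_union hS s hι (by
    rintro ⟨i⟩ ⟨j⟩ α
    cases i <;> cases j
    · exact hself _
    · exact (h α).symm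
    · exact h α
    · exact hself _)
  have hr' : ∀ α x y w, r.f α x y = some w ↔ (p.f α x y = some w ∨ q.f α x y = some w) := by
    intro α x y w
    rw [hr]
    constructor
    · rintro ⟨⟨i⟩, hi⟩
      cases i
      · exact Or.inr hi
      · exact Or.inl hi
    · rintro (hi | hi)
      · exact ⟨⟨true⟩, hi⟩
      · exact ⟨⟨false⟩, hi⟩
  exact ⟨r, fun α x y w hw => (hr' α x y w).2 (Or.inl hw),
    fun α x y w hw => (hr' α x y w).2 (Or.inr hw), hr'⟩

theorem exists_top (hS : Setup c m n U) : ∃ p₀ : PCond c m, ∀ p, p ≤ p₀ := by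
  refine ⟨⟨fun _ => emptyRaw, fun α x y h => absurd rfl h, fun α hα => good_empty hα.lo, ?_⟩,
    fun p α x y w h => by cases h⟩
  have h1 : {α : L | ∃ x y, (emptyRaw : Raw L) x y ≠ none} = ∅ := by
    ext α
    simp [emptyRaw]
  rw [h1, mk_emptyCollection]
  exact lt_of_lt_of_le aleph0_pos hS.cinf

end Pool.Agent.HG
end

section

/-!
# TASK Q10: closure points

PROOF. By `CC.exists_rec` (`W = Iio n`, `X = L`) construct `g : Iio n → L` with, for all `j < i`: `g j < g i` and
`G x < g i` for all `x < g j`. Step `i`: the set `{g j | j < i} ∪ {G x | ∃ j < i, x < g j}` has size `< #L`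
(`#(Iio i) < #L`, each `#(Iio (g j)) < #L` by `linit`, `#L` regular by `lreg'`), so it is bounded by `lreg`.
`#(Iio n) < #L` (`linit`), so the range of `g` is bounded; let `δ` be the least `d` with `g i < d` for all `i` (or
`≤`). If `x < δ` then by minimality there is `i` with `x ≤ g i`; there is `i' > i` (`Iio n` has no greatest
element: `nreg` for the set `{i}`), `x ≤ g i < g i'`, and there is `i'' > i'`; `G x < g i'' < δ`. So `δ` is closed.
If `A ⊆ Iio δ`, `#A ≤ 2 ^ #(Iio m)`: for `a ∈ A` choose `i a : Iio n` with `a < g (i a)`; the set of the `i a` has size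
`≤ 2 ^ #(Iio m)`, so it is bounded in `Iio n` by some `i*` (`nreg`), `b := g i* < δ`, `a < g (i a) < g i*`.
-/

set_option autoImplicit false

namespace Pool.Agent.HG

open Cardinal Set Pool.Agent.CC

universe u v w

variable {L : Type u} [LinearOrder L] [WellFoundedLT L] {c m n : L} {U : Ultrafilter (Set L)}

theorem exists_closed (hS : Setup c m n U) (G : L → L) :
    ∃ δ, (∀ x < δ, G x < δ) ∧
      ∀ A : Set L, (∀ a ∈ A, a < δ) → #A ≤ 2 ^ #(Iio m) → ∃ b < δ, ∀ a ∈ A, a < b := by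
  classical
  have hreg := lreg' hS
  have : Nonempty L := ⟨m⟩
  have hL : ℵ₀ ≤ #L := hreg.aleph0_le
  have hn : #(Iio n) < #L := hS.linit n
  obtain ⟨g, hg⟩ := exists_rec (W := Iio n) (X := L)
    (fun i x y => ∀ j < i, x j < y ∧ ∀ z < x j, G z < y)
    (by
      intro i x x' y h hgood j hj
      rw [← h j hj]
      exact hgood j hj)
    (by
      intro i x _
      have h1 : #(⋃ j : Iio n, insert (x j) (G '' Iio (x j)) : Set L) < #L := by
        refine (card_iUnion_lt_iff_forall_of_isRegular hreg hn).2 fun j => ?_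
        refine mk_insert_le.trans_lt (add_lt_of_lt hL ?_ (one_lt_aleph0.trans_le hL))
        exact mk_image_le.trans_lt (hS.linit _)
      obtain ⟨b, hb⟩ := hS.lreg _ h1
      exact ⟨b, fun j _ => ⟨hb _ (mem_iUnion.2 ⟨j, mem_insert _ _⟩), fun z hz =>
        hb _ (mem_iUnion.2 ⟨j, mem_insert_of_mem _ ⟨z, hz, rfl⟩⟩)⟩⟩)
  have hbd : ∃ d, ∀ i, g i < d := by
    obtain ⟨b, hb⟩ := hS.lreg (range g) (mk_range_le.trans_lt hn)
    exact ⟨b, fun i => hb _ ⟨i, rfl⟩⟩
  have hwf : WellFounded ((· < ·) : L → L → Prop) := wellFounded_lt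
  have hsucc : ∀ i : Iio n, ∃ i' : Iio n, i < i' := by
    intro i
    have h1 : #({i.1} : Set L) ≤ 2 ^ #(Iio m) := by
      rw [mk_singleton]
      exact (one_lt_aleph0.le.trans (hS.cinf.trans hS.clt.le)).trans (cantor _).le
    obtain ⟨b, hb, hb'⟩ := hS.nreg {i.1} (by
      intro a ha
      rw [mem_singleton_iff.1 ha]
      exact i.2) h1
    exact ⟨⟨b, hb⟩, hb' _ rfl⟩
  let D : Set L := {d | ∀ i, g i < d}
  have hD : D.Nonempty := hbd
  have hδ : ∀ i, g i < hwf.min D hD := hwf.min_mem D hD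
  have hmin : ∀ x, x < hwf.min D hD → ∃ i, x ≤ g i := by
    intro x hx
    by_contra h
    push Not at h
    exact hwf.not_lt_min D (x := x) h hx
  refine ⟨hwf.min D hD, fun x hx => ?_, fun A hA hc => ?_⟩
  · obtain ⟨i, hi⟩ := hmin x hx
    obtain ⟨i', hi'⟩ := hsucc i
    obtain ⟨i'', hi''⟩ := hsucc i'
    exact ((hg i'' i' hi'').2 x (hi.trans_lt (hg i' i hi').1)).trans (hδ i'')
  · have h1 : ∀ a : A, ∃ i : Iio n, a.1 < g i := by
      intro a
      obtain ⟨i, hi⟩ := hmin a.1 (hA a.1 a.2)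
      obtain ⟨i', hi'⟩ := hsucc i
      exact ⟨i', hi.trans_lt (hg i' i hi').1⟩
    choose f hf using h1
    have h2 : #(range fun a : A => (f a).1) ≤ 2 ^ #(Iio m) := mk_range_le.trans hc
    obtain ⟨b, hb, hb'⟩ := hS.nreg _ (by
      rintro _ ⟨a, rfl⟩
      exact (f a).2) h2
    refine ⟨g ⟨b, hb⟩, hδ _, fun a ha => ?_⟩
    exact (hf ⟨a, ha⟩).trans (hg ⟨b, hb⟩ (f ⟨a, ha⟩) (hb' _ ⟨⟨a, ha⟩, rfl⟩)).1

end Pool.Agent.HG
end

section

/-!
# TASK P2: changing one coordinate of a condition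

PROOF. `f := Function.update p.f α t`. `stage`: at `α` from `hα`, `ht.dom`. `good`: at `α` `ht.good`. `supp`: contained in
`insert α (supp p)`, of size `< #(Iio c)` (`cinf`, `mk_insert_le`, `add_lt_of_lt`). `p' ≤ p`: at `α` by `hext`.
-/

set_option autoImplicit false

namespace Pool.Agent.HG

open Cardinal Set Pool.Agent.CC

universe u v w

variable {L : Type u} [LinearOrder L] [WellFoundedLT L] {c m n : L} {U : Ultrafilter (Set L)}

theorem PCond.exists_set (hS : Setup c m n U) (p : PCond c m) {α : L} (hα : Stage c m α) {t : Raw L}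
    (ht : Tee m α t) (hext : Ext t (p.f α)) :
    ∃ p' ≤ p, p'.f α = t ∧ ∀ β, β ≠ α → p'.f β = p.f β := by
  classical
  have hself : Function.update p.f α t α = t := Function.update_self α t p.f
  have hne : ∀ β, β ≠ α → Function.update p.f α t β = p.f β := fun β hβ =>
    Function.update_of_ne hβ t p.f
  have h1 : ∀ β x y, Function.update p.f α t β x y ≠ none → Stage c m β ∧ x < m ∧ y < m := by
    intro β x y h
    by_cases hβ : β = α
    · subst hβ
      rw [hself] at h
      exact ⟨hα, ht.dom x y h⟩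
    · rw [hne β hβ] at h
      exact p.stage β x y h
  have h2 : ∀ β, Stage c m β → Good β (Function.update p.f α t β) := by
    intro β hβs
    by_cases hβ : β = α
    · subst hβ
      rw [hself]
      exact ht.good
    · rw [hne β hβ]
      exact p.good β hβs
  have h3 : #{β : L | ∃ x y, Function.update p.f α t β x y ≠ none} < #(Iio c) := by
    have hsub : {β : L | ∃ x y, Function.update p.f α t β x y ≠ none} ⊆
        insert α {β : L | ∃ x y, p.f β x y ≠ none} := by
      rintro β ⟨x, y, h⟩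
      by_cases hβ : β = α
      · exact Or.inl hβ
      · rw [hne β hβ] at h
        exact Or.inr ⟨x, y, h⟩
    refine (mk_le_mk_of_subset hsub).trans_lt ?_
    refine mk_insert_le.trans_lt ?_
    exact add_lt_of_lt hS.cinf p.supp (one_lt_aleph0.trans_le hS.cinf)
  refine ⟨⟨Function.update p.f α t, h1, h2, h3⟩, ?_, hself, hne⟩
  intro β x y w h
  change Function.update p.f α t β x y = some w
  by_cases hβ : β = α
  · subst hβ
    rw [hself]
    exact hext x y w h
  · rw [hne β hβ]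
    exact h

end Pool.Agent.HG
end

section

/-!
# TASK Y3: the limit is good

PROOF. Write `α = αf X`, `h = hf X`, `t = tf X`. `legal`: let `r x y = some w`, `w z = some b`. Take an `X` with `H` and the
`x'`, `y'`, `w'` of `L2` (for this `z`): `w' z = some b'`, `h b' = b`. `Good α t`: `z < α < m`, `b' < x'` so `b = h b' < h x' = x`
(`mono`), and if `y < m` then `y' < α` (`Enum.lt_iff`) so `b'` is the least element `⊥` of `L`, `⊥ ≤ z < α`, so
`b = h ⊥ = ⊥` (`fix`).
`size`: choose for almost all `X` an injection `φ X` from the places of `t` to `Set L` with values `⊆ Iio α` (`size`). For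
a place `(x, y)` of `r` let `Φ (x, y) := {z | z < m ∧ for almost all X, z ∈ φ X (x', y')}` where `h x' = x`, `h y' = y`.
`Φ` is injective on the places of `r`, so `r` has at most `2 ^ #(Iio m)` places: let `(x₁, y₁) ≠ (x₂, y₂)` be places of
`r`. For almost all `X` both correspond to places of `t` (`L2`), which are different, so there is `z < α` in exactly
one of the two `φ X`-values; `z ∈ X` (`cap`); `normal`: the same `z` for almost all `X`; and by the ultrafilter
property `z` is for almost all `X` in the first and not in the second, or the other way round. So `z` is in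
exactly one of `Φ (x₁, y₁)`, `Φ (x₂, y₂)`.
`size'`: the same with an injection `ψ X` of the places `(x', y')` of `t` with `y' < α` into `Iio α`: for a place `(x, y)`
of `r` with `y < m` the value `ψ X (x', y') < α` is in `X`, so constant for almost all `X` (`normal`): `Ψ (x, y) < m`
(`cap`: elements of `X` below `α < m`). Injective: for two different places take an `X` for which both values are
the constant ones.
`height`: `ξ X < α` with `y' < ξ X` for all places with `y' < α`; `ξ X ∈ X`, so it is constant `= ξ < m` for almost all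
`X`. If `y < m`, `r x y ≠ none`: for almost all `X`: `y = h y'`, `y' < α`, `y' = y` (`fix`), `y < ξ`.
(All choices: first choose for almost all `X`, with default values elsewhere.)
-/

set_option autoImplicit false

namespace Pool.Agent.HG

open Cardinal Set Pool.Agent.CC

universe u v w

variable {L : Type u} [LinearOrder L] [WellFoundedLT L] {c m n : L} {U : Ultrafilter (Set L)}

private theorem Y3_fix (hU : Huge m U) (P : Set L → L → Prop)
    (h : ∀ᶠ X in (U : Filter (Set L)), ∃ z ∈ (X : Set L), P X z) :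
    ∃ z, ∀ᶠ X in (U : Filter (Set L)), z ∈ (X : Set L) ∧ P X z := by
  classical
  have hf : ∃ f : Set L → L, ∀ X : Set L, (∃ z ∈ X, P X z) → f X ∈ X ∧ P X (f X) := by
    refine ⟨fun X => if h : ∃ z ∈ X, P X z then h.choose else m, fun X hX => ?_⟩
    simp only [dif_pos hX]
    exact hX.choose_spec
  obtain ⟨f, hf⟩ := hf
  obtain ⟨z, hz⟩ := hU.normal f (h.mono fun X hX => (hf X hX).1)
  refine ⟨z, ?_⟩
  filter_upwards [h, hz] with X hX hXz
  rw [← hXz]
  exact hf X hX

private theorem Y3_inj {α : L} {S : Set (L × L)} (h : #S ≤ 2 ^ #(Iio α)) :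
    ∃ φ : L × L → Set L, (∀ e, ∀ z ∈ φ e, z < α) ∧ ∀ e ∈ S, ∀ e' ∈ S, φ e = φ e' → e = e' := by
  classical
  rw [← mk_set] at h
  obtain ⟨f⟩ := h
  refine ⟨fun e => if he : e ∈ S then Subtype.val '' (f ⟨e, he⟩) else ∅, ?_, ?_⟩
  · intro e z hz
    by_cases he : e ∈ S
    · simp only [dif_pos he] at hz
      obtain ⟨y, -, rfl⟩ := hz
      exact y.2
    · simp only [dif_neg he] at hz
      exact absurd hz (Set.notMem_empty z)
  · intro e he e' he' hee
    simp only [dif_pos he, dif_pos he'] at hee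
    have h1 := (Set.image_injective.2 Subtype.val_injective) hee
    exact congrArg Subtype.val (f.injective h1)

private theorem Y3_inj' {α : L} {S : Set (L × L)} (h : #S ≤ #(Iio α)) :
    ∃ ψ : L × L → L, (∀ e ∈ S, ψ e < α) ∧ ∀ e ∈ S, ∀ e' ∈ S, ψ e = ψ e' → e = e' := by
  classical
  obtain ⟨f⟩ := h
  refine ⟨fun e => if he : e ∈ S then (f ⟨e, he⟩ : L) else α, ?_, ?_⟩
  · intro e he
    simp only [dif_pos he]
    exact (f ⟨e, he⟩).2
  · intro e he e' he' hee
    simp only [dif_pos he, dif_pos he'] at hee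
    exact congrArg Subtype.val (f.injective (Subtype.ext hee))

/-- the place `e` of the limit comes from the place `e'` -/
private def Y3_pl (m : L) (hf : Set L → L → L) (tf : Set L → Raw L) (X : Set L) (e e' : L × L) : Prop :=
  e'.1 < m ∧ e'.2 < m ∧ hf X e'.1 = e.1 ∧ hf X e'.2 = e.2 ∧ tf X e'.1 e'.2 ≠ none

theorem good_limit (hU : Huge m U) (αf : Set L → L) (hf : Set L → L → L) (tf : Set L → Raw L)
    (H : ∀ᶠ X in (U : Filter (Set L)), Enum m X (αf X) (hf X) ∧ Tee m (αf X) (tf X)) (r : Raw L)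
    (L2 : ∀ x y w, r x y = some w → ∀ z, ∀ᶠ X in (U : Filter (Set L)), ∃ x' y' w', x' < m ∧ y' < m ∧
        hf X x' = x ∧ hf X y' = y ∧ tf X x' y' = some w' ∧ w z = (w' z).map (hf X)) :
    Good m r := by
  classical
  have hpl : ∀ e : L × L, r e.1 e.2 ≠ none → ∀ᶠ X in (U : Filter (Set L)),
      ∃ e', Y3_pl m hf tf X e e' := by
    intro e he
    obtain ⟨w, hw⟩ := Option.ne_none_iff_exists'.1 he
    filter_upwards [L2 e.1 e.2 w hw m] with X hX
    obtain ⟨x', y', w', h1, h2, h3, h4, h5, -⟩ := hX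
    exact ⟨(x', y'), h1, h2, h3, h4, by rw [h5]; simp⟩
  have huniq : ∀ (X : Set L) (α : L), Enum m X α (hf X) → ∀ e e' e'' : L × L,
      Y3_pl m hf tf X e e' → Y3_pl m hf tf X e e'' → e' = e'' := by
    intro X α hE e e' e'' h1 h2
    exact Prod.ext (hE.inj h1.1 h2.1 (h1.2.2.1.trans h2.2.2.1.symm))
      (hE.inj h1.2.1 h2.2.1 (h1.2.2.2.1.trans h2.2.2.2.1.symm))
  refine ⟨?_, ?_, ?_, ?_⟩
  · intro x y w z b hw hb
    obtain ⟨X, ⟨hE, hT⟩, x', y', w', h1, h2, h3, h4, h5, h6⟩ := (H.and (L2 x y w hw z)).exists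
    rw [hb] at h6
    rcases hz : w' z with _ | b'
    · rw [hz] at h6
      simp at h6
    · rw [hz, Option.map_some, Option.some.injEq] at h6
      obtain ⟨h7, h8, h9⟩ := hT.good.legal x' y' w' z b' h5 hz
      refine ⟨h7.trans hE.lt, ?_, ?_⟩
      · rw [h6, ← h3]
        exact hE.mono b' x' h8 h1
      · intro hy d
        rw [← h4, hE.lt_iff h2] at hy
        have h10 := h9 hy
        have h11 : hf X b' = b' := hE.fix b' (lt_of_le_of_lt (h10 z) h7)
        rw [h6, h11]
        exact h10 d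
  · have hφ : ∃ φ : Set L → L × L → Set L, ∀ X, Tee m (αf X) (tf X) →
        (∀ e, ∀ z ∈ φ X e, z < αf X) ∧ ∀ e ∈ {e : L × L | tf X e.1 e.2 ≠ none},
          ∀ e' ∈ {e : L × L | tf X e.1 e.2 ≠ none}, φ X e = φ X e' → e = e' := by
      have h1 : ∀ X, ∃ φ : L × L → Set L, Tee m (αf X) (tf X) →
        (∀ e, ∀ z ∈ φ e, z < αf X) ∧ ∀ e ∈ {e : L × L | tf X e.1 e.2 ≠ none},
          ∀ e' ∈ {e : L × L | tf X e.1 e.2 ≠ none}, φ e = φ e' → e = e' := by
        intro X
        by_cases hX : Tee m (αf X) (tf X)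
        · obtain ⟨φ, h1, h2⟩ := Y3_inj hX.good.size
          exact ⟨φ, fun _ => ⟨h1, h2⟩⟩
        · exact ⟨fun _ => ∅, fun h => absurd h hX⟩
      choose φ hφ using h1
      exact ⟨φ, hφ⟩
    obtain ⟨φ, hφ⟩ := hφ
    set M : L × L → L → Prop := fun e z =>
      ∀ᶠ X in (U : Filter (Set L)), ∃ e', Y3_pl m hf tf X e e' ∧ z ∈ φ X e' with hM
    have hsep : ∀ e₁ e₂ : L × L, r e₁.1 e₁.2 ≠ none → r e₂.1 e₂.2 ≠ none → e₁ ≠ e₂ →
        ∃ z < m, ¬ (M e₁ z ↔ M e₂ z) := by
      intro e₁ e₂ h1 h2 hne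
      have hex : ∀ᶠ X in (U : Filter (Set L)), ∃ z ∈ (X : Set L), z < m ∧ ∃ e₁' e₂',
          Y3_pl m hf tf X e₁ e₁' ∧ Y3_pl m hf tf X e₂ e₂' ∧ ¬ (z ∈ φ X e₁' ↔ z ∈ φ X e₂') := by
        filter_upwards [H, hpl e₁ h1, hpl e₂ h2] with X hX h3 h4
        obtain ⟨hE, hT⟩ := hX
        obtain ⟨e₁', h3⟩ := h3
        obtain ⟨e₂', h4⟩ := h4
        have hne' : e₁' ≠ e₂' := by
          rintro rfl
          apply hne
          exact Prod.ext (h3.2.2.1.symm.trans h4.2.2.1) (h3.2.2.2.1.symm.trans h4.2.2.2.1)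
        have hne'' : φ X e₁' ≠ φ X e₂' := fun h =>
          hne' ((hφ X hT).2 e₁' h3.2.2.2.2 e₂' h4.2.2.2.2 h)
        have h5 : ∃ z, ¬ (z ∈ φ X e₁' ↔ z ∈ φ X e₂') := by
          by_contra hcon
          push Not at hcon
          exact hne'' (Set.ext hcon)
        obtain ⟨z, hz⟩ := h5
        have hzα : z < αf X := by
          by_cases h6 : z ∈ φ X e₁'
          · exact (hφ X hT).1 _ _ h6
          · by_cases h7 : z ∈ φ X e₂'
            · exact (hφ X hT).1 _ _ h7
            · exact absurd (iff_of_false h6 h7) hz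
        have hzm : z < m := hzα.trans hE.lt
        exact ⟨z, (hE.cap z hzm).2 hzα, hzm, e₁', e₂', h3, h4, hz⟩
      obtain ⟨z, hz⟩ := Y3_fix hU _ hex
      obtain ⟨-, -, hzm, -⟩ := hz.exists
      refine ⟨z, hzm, fun hiff => ?_⟩
      by_cases hM1 : M e₁ z
      · have hM2 := hiff.1 hM1
        obtain ⟨X, ⟨⟨hE, -⟩, -, -, e₁', e₂', h3, h4, h5⟩, ⟨d₁, h6, h7⟩, d₂, h8, h9⟩ :=
          ((H.and hz).and (hM1.and hM2)).exists
        rw [huniq X _ hE e₁ d₁ e₁' h6 h3] at h7
        rw [huniq X _ hE e₂ d₂ e₂' h8 h4] at h9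
        exact h5 (iff_of_true h7 h9)
      · have hM2 : ¬ M e₂ z := fun h => hM1 (hiff.2 h)
        have hN1 := Ultrafilter.eventually_not.2 hM1
        have hN2 := Ultrafilter.eventually_not.2 hM2
        obtain ⟨X, ⟨⟨hE, -⟩, -, -, e₁', e₂', h3, h4, h5⟩, h6, h7⟩ :=
          ((H.and hz).and (hN1.and hN2)).exists
        exact h5 (iff_of_false (fun h => h6 ⟨e₁', h3, h⟩) fun h => h7 ⟨e₂', h4, h⟩)
    rw [← mk_set]
    refine mk_le_of_injective (f := fun e => {z : Iio m | M e.1 z}) ?_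
    rintro ⟨e₁, h1⟩ ⟨e₂, h2⟩ h
    by_contra hne
    obtain ⟨z, hz, hzz⟩ := hsep e₁ e₂ h1 h2 fun h => hne (Subtype.ext h)
    apply hzz
    have h3 := Set.ext_iff.1 h ⟨z, hz⟩
    exact h3
  · have hψ : ∃ ψ : Set L → L × L → L, ∀ X, Tee m (αf X) (tf X) →
        (∀ e ∈ {e : L × L | e.2 < αf X ∧ tf X e.1 e.2 ≠ none}, ψ X e < αf X) ∧
        ∀ e ∈ {e : L × L | e.2 < αf X ∧ tf X e.1 e.2 ≠ none},
          ∀ e' ∈ {e : L × L | e.2 < αf X ∧ tf X e.1 e.2 ≠ none}, ψ X e = ψ X e' → e = e' := by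
      have h1 : ∀ X, ∃ ψ : L × L → L, Tee m (αf X) (tf X) →
        (∀ e ∈ {e : L × L | e.2 < αf X ∧ tf X e.1 e.2 ≠ none}, ψ e < αf X) ∧
        ∀ e ∈ {e : L × L | e.2 < αf X ∧ tf X e.1 e.2 ≠ none},
          ∀ e' ∈ {e : L × L | e.2 < αf X ∧ tf X e.1 e.2 ≠ none}, ψ e = ψ e' → e = e' := by
        intro X
        by_cases hX : Tee m (αf X) (tf X)
        · obtain ⟨ψ, h1, h2⟩ := Y3_inj' hX.good.size'
          exact ⟨ψ, fun _ => ⟨h1, h2⟩⟩
        · exact ⟨fun _ => m, fun h => absurd h hX⟩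
      choose ψ hψ using h1
      exact ⟨ψ, hψ⟩
    obtain ⟨ψ, hψ⟩ := hψ
    have hex : ∀ e : {e : L × L | e.2 < m ∧ r e.1 e.2 ≠ none}, ∃ z : Iio m,
        ∀ᶠ X in (U : Filter (Set L)), ∃ e', Y3_pl m hf tf X e.1 e' ∧ e'.2 < αf X ∧ ψ X e' = z := by
      rintro ⟨e, he1, he2⟩
      have h1 : ∀ᶠ X in (U : Filter (Set L)), ∃ z ∈ (X : Set L), z < m ∧
          ∃ e', Y3_pl m hf tf X e e' ∧ e'.2 < αf X ∧ ψ X e' = z := by
        filter_upwards [H, hpl e he2] with X hX h3
        obtain ⟨hE, hT⟩ := hX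
        obtain ⟨e', h3⟩ := h3
        have h4 : e'.2 < αf X := by
          rw [← h3.2.2.2.1, hE.lt_iff h3.2.1] at he1
          exact he1
        have h5 : ψ X e' < αf X := (hψ X hT).1 e' ⟨h4, h3.2.2.2.2⟩
        have h6 : ψ X e' < m := h5.trans hE.lt
        exact ⟨ψ X e', (hE.cap _ h6).2 h5, h6, e', h3, h4, rfl⟩
      obtain ⟨z, hz⟩ := Y3_fix hU _ h1
      obtain ⟨-, -, hzm, -⟩ := hz.exists
      exact ⟨⟨z, hzm⟩, hz.mono fun X hX => hX.2.2⟩
    choose Ψ hΨ using hex
    refine mk_le_of_injective (f := Ψ) ?_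
    intro e₁ e₂ h
    have h1 := hΨ e₁
    have h2 := hΨ e₂
    rw [← h] at h2
    obtain ⟨X, ⟨hE, hT⟩, ⟨e₁', h3, h4, h5⟩, e₂', h6, h7, h8⟩ := (H.and (h1.and h2)).exists
    have h9 : e₁' = e₂' := (hψ X hT).2 e₁' ⟨h4, h3.2.2.2.2⟩ e₂' ⟨h7, h6.2.2.2.2⟩ (h5.trans h8.symm)
    subst h9
    exact Subtype.ext (Prod.ext (h3.2.2.1.symm.trans h6.2.2.1) (h3.2.2.2.1.symm.trans h6.2.2.2.1))
  · have h1 : ∀ᶠ X in (U : Filter (Set L)), ∃ ξ ∈ (X : Set L), ξ < m ∧
        ∀ x y, y < αf X → tf X x y ≠ none → y < ξ := by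
      filter_upwards [H] with X hX
      obtain ⟨hE, hT⟩ := hX
      obtain ⟨ξ, h2, h3⟩ := hT.good.height
      exact ⟨ξ, (hE.cap ξ (h2.trans hE.lt)).2 h2, h2.trans hE.lt, h3⟩
    obtain ⟨ξ, hξ⟩ := Y3_fix hU _ h1
    obtain ⟨-, -, hξm, -⟩ := hξ.exists
    refine ⟨ξ, hξm, fun x y hy hne => ?_⟩
    obtain ⟨X, ⟨hE, hT⟩, ⟨-, -, h2⟩, e', h3⟩ := (H.and (hξ.and (hpl (x, y) hne))).exists
    have h4 : hf X e'.2 = y := h3.2.2.2.1
    rw [← h4, hE.lt_iff h3.2.1] at hy
    have h5 : hf X e'.2 = e'.2 := hE.fix _ hy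
    rw [← h4, h5]
    exact h2 e'.1 e'.2 hy h3.2.2.2.2

end Pool.Agent.HG
end
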