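import Pool.Agent.Lib.MP_27cb06_lc.Defs
import Pool.Agent.Lib.MP_27cb06_lc.Mg.G012
import Pool.Agent.Lib.MP_27cb06_lc.Names

section

/-!
# Hulls: definitions

`L` is a subset of `K` (in the application the initial segment of order type `ω₂` of `K`, of type `ω₃`).
-/

set_option autoImplicit false

namespace Pool.Agent.CC

open Cardinal Set

universe u v w

/-- The data given by the principle, with a choice of `ext`, `val`. -/
structure Sys (K : Type u) [LinearOrder K] (L : Set K) where
  I : Type u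
  B : I → Set K
  R : I → I → Prop
  root : I
  ext : I → (K → K) → I
  val : I → (K → K) → K
  unb : ∀ i a, ∃ x ∈ B i, a < x
  hR : ∀ i g, R (ext i g) i
  hval : ∀ i g, ∀ x ∈ B (ext i g), g x ∈ L → g x = val i g
  mono : ∀ i j, R j i → B j ⊆ B i
  lim : ∀ e : ℕ → I, (∀ n, R (e (n + 1)) (e n)) → ∃ j, ∀ n, R j (e n)

variable {K : Type u} [LinearOrder K] {L : Set K}

/-- values of codes -/
abbrev CVal (S : Sys K L) : Type u := K × S.I × Finset K

/-- the list of the members of `t` at the positions in the list `a` -/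
def pick (a : List ℕ) (t : List K) : List K := a.filterMap fun n => t[n]?

open Classical in
/-- the operations on codes -/
noncomputable def cop (S : Sys K L) (F : Finset K → K) :
    Bool × List ℕ × List ℕ → (List K → CVal S) → (List K → CVal S) → List K → CVal S
  | (false, a, b), Φ, Ψ => fun t =>
    (F (insert (Φ (pick a t)).1 (Ψ (pick b t)).2.2), S.root,
      insert (Φ (pick a t)).1 (Ψ (pick b t)).2.2)
  | (true, a, b), Φ, Ψ => fun t =>
    (S.val (Φ (pick a t)).2.1 (fun y => (Ψ (pick b (t ++ [y]))).1),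
      S.ext (Φ (pick a t)).2.1 (fun y => (Ψ (pick b (t ++ [y]))).1), ∅)

/-- the basic codes -/
def cbase (S : Sys K L) (F : Finset K → K) (C₀ : Set K) : Set (List K → CVal S) :=
  {Φ | (∃ c ∈ C₀, Φ = fun _ => (c, S.root, ∅)) ∨ (Φ = fun _ => (F ∅, S.root, ∅)) ∨
    Φ = fun t => (t.headD (F ∅), S.root, ∅)}

/-- `G` is a countable set of codes, containing the basic codes and closed under the operations -/
structure Codes (S : Sys K L) (F : Finset K → K) (C₀ : Set K) (G : Set (List K → CVal S)) :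
    Prop where
  base : cbase S F C₀ ⊆ G
  ctbl : G.Countable
  op : ∀ k, ∀ Φ ∈ G, ∀ Ψ ∈ G, cop S F k Φ Ψ ∈ G

/-- all values of codes at lists of elements of `s` -/
def Hull {S : Sys K L} (G : Set (List K → CVal S)) (s : Set K) : Set K :=
  {k | ∃ Φ ∈ G, ∃ t : List K, (∀ y ∈ t, y ∈ s) ∧ (Φ t).1 = k}

theorem cop_false (S : Sys K L) (F : Finset K → K) (a b : List ℕ) (Φ Ψ : List K → CVal S)
    (t : List K) : ∃ s : Finset K, (∀ y, y ∈ s ↔ y = (Φ (pick a t)).1 ∨ y ∈ (Ψ (pick b t)).2.2) ∧
    cop S F (false, a, b) Φ Ψ t = (F s, S.root, s) :=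
  ⟨_, fun y => by classical exact Finset.mem_insert, rfl⟩

theorem cop_true (S : Sys K L) (F : Finset K → K) (a b : List ℕ) (Φ Ψ : List K → CVal S)
    (t : List K) : cop S F (true, a, b) Φ Ψ t =
    (S.val (Φ (pick a t)).2.1 (fun y => (Ψ (pick b (t ++ [y]))).1),
      S.ext (Φ (pick a t)).2.1 (fun y => (Ψ (pick b (t ++ [y]))).1), ∅) := rfl

end Pool.Agent.CC
end

section

/-!
# TASK B01: from the principle to a system

PROOF. Let `I, D, R, B` be as in `Principle N K`. Take as the index type the subtype `D`, `B i := {x | (i, x) ∈ B}`,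
`R j i := (j, i) ∈ R`. For `i ∈ D` and `g : K → K` apply the third clause to
`h x := if g x ∈ L then ψ (g x) else (some fixed element of N)` (`N` is nonempty: if `K` is nonempty, `ψ` gives
an element; `K` is nonempty by the second clause... if `K` is empty then use `hK`): `j ∈ D`, `(j, i) ∈ R`, `h` is
constant on `B j`. `ext i g := j`; `val i g := g x₀` for some `x₀ ∈ B j` with `g x₀ ∈ L` if there is one
(arbitrary otherwise): for another such `x`, `ψ (g x) = ψ (g x₀)`, so `g x = g x₀` by injectivity on `L`.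
-/

set_option autoImplicit false

namespace Pool.Agent.CC

open Cardinal Set

universe u v w

variable {K : Type u} [LinearOrder K] {L : Set K}

theorem exists_sys {N : Type u} [hK : Nonempty K] (h : Principle N K) (ψ : K → N)
    (hψ : InjOn ψ L) : Nonempty (Sys K L) := by
  classical
  obtain ⟨I, D, R, B, ⟨i₀, hi₀⟩, hunb, hext, hmono, hlim⟩ := h
  have key : ∀ (i : {i // i ∈ D}) (g : K → K), ∃ (j : {i // i ∈ D}) (w : K), (j.1, i.1) ∈ R ∧
      ∀ x, (j.1, x) ∈ B → g x ∈ L → g x = w := by
    intro i g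
    obtain ⟨j, hj, hji, v, hv⟩ := hext i.1 i.2
      (fun x => if g x ∈ L then ψ (g x) else ψ (Classical.choice hK))
    by_cases hex : ∃ x₀, (j, x₀) ∈ B ∧ g x₀ ∈ L
    · obtain ⟨x₀, hx₀, hg₀⟩ := hex
      refine ⟨⟨j, hj⟩, g x₀, hji, fun x hx hgx => ?_⟩
      have h1 := hv x hx
      have h2 := hv x₀ hx₀
      rw [if_pos hgx] at h1
      rw [if_pos hg₀] at h2
      exact hψ hgx hg₀ (h1.trans h2.symm)
    · refine ⟨⟨j, hj⟩, Classical.choice hK, hji, fun x hx hgx => ?_⟩
      exact absurd ⟨x, hx, hgx⟩ hex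
  choose ext val h1 h2 using key
  refine ⟨{ I := {i // i ∈ D}
            B := fun i => {x | (i.1, x) ∈ B}
            R := fun j i => (j.1, i.1) ∈ R
            root := ⟨i₀, hi₀⟩
            ext := ext
            val := val
            unb := ?_
            hR := h1
            hval := fun i g x hx => h2 i g x hx
            mono := fun i j hji x hx => hmono i.1 j.1 i.2 j.2 hji x hx
            lim := ?_ }⟩
  · intro i a
    obtain ⟨x, hx⟩ := hunb i.1 i.2 a
    exact ⟨x, hx, x.2⟩
  · intro e he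
    obtain ⟨j, hj, hj'⟩ := hlim (fun n => (e n).1) (fun n i hi => hi ▸ (e n).2)
      (fun n i j hi hj => by
        have h3 := he n
        have hi' : (e n).1 = i := hi
        have hj' : (e (n + 1)).1 = j := hj
        rw [← hi', ← hj']
        exact h3)
    exact ⟨⟨j, hj⟩, fun n => hj' n _ rfl⟩

end Pool.Agent.CC
end

section

/-!
# TASK B02: countable closed sets; codes exist

PROOF. `exists_closed`: `S 0 = S₀`, `S (n + 1) = S n ∪ ⋃ k, image2 (op k) (S n) (S n)`, countable;
the union of the `S n`. `exists_codes`: `cbase` is countable (`C₀` is countable); apply `exists_closed` with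
`ι = Bool × List ℕ × List ℕ`, `op = cop S F`.
-/

set_option autoImplicit false

namespace Pool.Agent.CC

open Cardinal Set

universe u v w

variable {K : Type u} [LinearOrder K] {L : Set K}

theorem exists_closed {Y : Type v} {ι : Type w} [Countable ι] (S₀ : Set Y) (h₀ : S₀.Countable)
    (op : ι → Y → Y → Y) :
    ∃ S : Set Y, S₀ ⊆ S ∧ S.Countable ∧ ∀ k, ∀ a ∈ S, ∀ b ∈ S, op k a b ∈ S := by
  let T : ℕ → Set Y := fun n => Nat.rec S₀ (fun _ T => T ∪ ⋃ k, Set.image2 (op k) T T) n
  have hT : ∀ n, T (n + 1) = T n ∪ ⋃ k, Set.image2 (op k) (T n) (T n) := fun n => rfl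
  have hc : ∀ n, (T n).Countable := by
    intro n
    induction n with
    | zero => exact h₀
    | succ n ih =>
      rw [hT]
      exact ih.union (Set.countable_iUnion fun k => ih.image2 ih (op k))
  have hmono : Monotone T := monotone_nat_of_le_succ fun n => by
    rw [hT]
    exact Set.subset_union_left
  refine ⟨⋃ n, T n, Set.subset_iUnion T 0, Set.countable_iUnion hc, ?_⟩
  intro k a ha b hb
  obtain ⟨m, hm⟩ := Set.mem_iUnion.mp ha
  obtain ⟨n, hn⟩ := Set.mem_iUnion.mp hb
  refine Set.mem_iUnion.mpr ⟨max m n + 1, ?_⟩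
  rw [hT]
  refine Or.inr (Set.mem_iUnion.mpr ⟨k, ?_⟩)
  exact ⟨a, hmono (le_max_left m n) hm, b, hmono (le_max_right m n) hn, rfl⟩

theorem exists_codes (S : Sys K L) (F : Finset K → K) (C₀ : Set K) (h : C₀.Countable) :
    ∃ G : Set (List K → CVal S), Codes S F C₀ G := by
  have hb : (cbase S F C₀).Countable := by
    have h1 : ((fun c : K => (fun _ : List K => ((c, S.root, ∅) : CVal S))) '' C₀).Countable := h.image _
    have h2 : ({fun _ : List K => ((F ∅, S.root, ∅) : CVal S)} : Set (List K → CVal S)).Countable :=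
      Set.countable_singleton _
    have h3 : ({fun t : List K => ((t.headD (F ∅), S.root, ∅) : CVal S)} : Set (List K → CVal S)).Countable :=
      Set.countable_singleton _
    refine ((h1.union h2).union h3).mono ?_
    intro Φ hΦ
    rcases hΦ with ⟨c, hc, h4⟩ | h4 | h4
    · exact Or.inl (Or.inl ⟨c, hc, h4.symm⟩)
    · exact Or.inl (Or.inr h4)
    · exact Or.inr h4
  obtain ⟨G, g1, g2, g3⟩ := exists_closed (cbase S F C₀) hb (cop S F)
  exact ⟨G, ⟨g1, g2, g3⟩⟩

end Pool.Agent.CC
end

section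

/-!
# TASK B04: size of the hull

PROOF. `hull_mono`: clear. `hull_fin`: `t.toFinset`. `hull_card`: `Hull G s` is the image of
`G × {lists of elements of s}`, that is of `G × List s`, `#G ≤ ℵ₀`, `#(List s) ≤ max ℵ₀ #s`
(`Cardinal.mk_list_le_max`). `hull_countable` from it, or directly.
-/

set_option autoImplicit false

namespace Pool.Agent.CC

open Cardinal Set

universe u v w

variable {K : Type u} [LinearOrder K] {L : Set K}

variable {S : Sys K L} {F : Finset K → K} {C₀ : Set K} {G : Set (List K → CVal S)}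

theorem hull_mono {s s' : Set K} (h : s ⊆ s') : Hull G s ⊆ Hull G s' := by
  rintro k ⟨Φ, hΦ, t, ht, rfl⟩
  exact ⟨Φ, hΦ, t, fun y hy => h (ht y hy), rfl⟩

theorem hull_fin {s : Set K} {k : K} (h : k ∈ Hull G s) :
    ∃ t : Finset K, (∀ y ∈ t, y ∈ s) ∧ k ∈ Hull G (t : Set K) := by
  classical
  obtain ⟨Φ, hΦ, t, ht, rfl⟩ := h
  refine ⟨t.toFinset, fun y hy => ht y (List.mem_toFinset.1 hy), Φ, hΦ, t, fun y hy => ?_, rfl⟩
  exact Finset.mem_coe.2 (List.mem_toFinset.2 hy)

theorem hull_card (hG : Codes S F C₀ G) (s : Set K) : #(Hull G s) ≤ max ℵ₀ #s := by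
  have h1 : Hull G s ⊆ Set.range (fun p : G × List s => (p.1.1 (p.2.map Subtype.val)).1) := by
    rintro k ⟨Φ, hΦ, t, ht, rfl⟩
    refine ⟨(⟨Φ, hΦ⟩, t.attach.map fun y => ⟨y.1, ht y.1 y.2⟩), ?_⟩
    have e : (t.attach.map fun y => (⟨y.1, ht y.1 y.2⟩ : s)).map Subtype.val = t := by
      rw [List.map_map]
      exact List.attach_map_subtype_val t
    show (Φ ((t.attach.map fun y => (⟨y.1, ht y.1 y.2⟩ : s)).map Subtype.val)).1 = (Φ t).1
    rw [e]
  have h2 : #G ≤ ℵ₀ := Cardinal.le_aleph0_iff_set_countable.2 hG.ctbl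
  calc #(Hull G s) ≤ #(Set.range (fun p : G × List s => (p.1.1 (p.2.map Subtype.val)).1)) :=
        Cardinal.mk_le_mk_of_subset h1
    _ ≤ #(G × List s) := Cardinal.mk_range_le
    _ = #G * #(List s) := by rw [Cardinal.mk_prod, Cardinal.lift_id, Cardinal.lift_id]
    _ ≤ ℵ₀ * max ℵ₀ #s := mul_le_mul' h2 (Cardinal.mk_list_le_max s)
    _ ≤ max ℵ₀ #s := by
        refine (Cardinal.mul_le_max _ _).trans ?_
        simp

theorem hull_countable (hG : Codes S F C₀ G) {s : Set K} (hs : s.Countable) :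
    (Hull G s).Countable := by
  rw [← Cardinal.le_aleph0_iff_set_countable] at hs ⊢
  exact (hull_card hG s).trans (max_le le_rfl hs)

end Pool.Agent.CC
end

section

/-!
# TASK B03: closure properties of the hull

PROOF. `pick_left`, `pick_right`: positions `0, ..., |t| - 1` and `|t|, ..., |t| + |t'| - 1` of `t ++ t'`.
`pick_shift`: the members of `t ++ t'` at the positions `|t| + n` are the members of `t'` at the positions `n`.
`subset_hull`: the code `t ↦ t.headD _` at the list `[y]`. `base_hull`: the constant codes at `[]`.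
`hull_closed`: by induction on the finite set `A ⊆ Hull G s`: there are `Φ ∈ G` and a list `t` from `s` with
`(Φ t).1 = F A` and `(Φ t).2.2 = A`: the basic code `(F ∅, root, ∅)`; and for `insert k A`, `k = (Φ t).1`,
`A = (Ψ t').2.2`: the code `cop S F (false, a, b) Φ Ψ` at the list `t ++ t'`, with the positions `a`, `b` of
`pick_left`, `pick_right` (`cop_false`; two finite sets with the same members are equal).
-/

set_option autoImplicit false

namespace Pool.Agent.CC

open Cardinal Set

universe u v w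

variable {K : Type u} [LinearOrder K] {L : Set K}

private theorem B03_pick_range (l : List K) (n : ℕ) : pick (List.range n) l = l.take n := by
  induction n with
  | zero => simp [pick]
  | succ n ih =>
    unfold pick at ih ⊢
    rw [List.range_succ, List.filterMap_append, ih, List.take_add_one]
    congr 1

theorem pick_left (t t' : List K) : pick (List.range t.length) (t ++ t') = t := by
  rw [B03_pick_range, List.take_left']
  rfl

theorem pick_shift (b : List ℕ) (t t' : List K) :
    pick (b.map fun n => t.length + n) (t ++ t') = pick b t' := by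
  unfold pick
  rw [List.filterMap_map]
  congr 1
  funext n
  simp only [Function.comp]
  rw [List.getElem?_append_right (Nat.le_add_right _ _), Nat.add_sub_cancel_left]

theorem pick_right (t t' : List K) :
    pick ((List.range t'.length).map fun n => t.length + n) (t ++ t') = t' := by
  rw [pick_shift, B03_pick_range, List.take_length]

variable {S : Sys K L} {F : Finset K → K} {C₀ : Set K} {G : Set (List K → CVal S)}

theorem base_hull (hG : Codes S F C₀ G) (s : Set K) : C₀ ⊆ Hull G s := by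
  intro c hc
  exact ⟨fun _ => (c, S.root, ∅), hG.base (Or.inl ⟨c, hc, rfl⟩), [], by simp, rfl⟩

theorem subset_hull (hG : Codes S F C₀ G) (s : Set K) : s ⊆ Hull G s := by
  intro y hy
  exact ⟨fun t => (t.headD (F ∅), S.root, ∅), hG.base (Or.inr (Or.inr rfl)), [y],
    by simpa using hy, rfl⟩

theorem hull_closed (hG : Codes S F C₀ G) (s : Set K) (A : Finset K)
    (hA : ∀ y ∈ A, y ∈ Hull G s) : F A ∈ Hull G s := by
  have key : ∀ A : Finset K, (∀ y ∈ A, y ∈ Hull G s) →
      ∃ Φ ∈ G, ∃ t : List K, (∀ y ∈ t, y ∈ s) ∧ (Φ t).1 = F A ∧ (Φ t).2.2 = A := by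
    intro A
    induction A using Finset.induction_on with
    | empty =>
      intro _
      exact ⟨fun _ => (F ∅, S.root, ∅), hG.base (Or.inr (Or.inl rfl)), [], by simp, rfl, rfl⟩
    | insert k A _ ih =>
      intro h
      obtain ⟨Ψ, hΨ, t', ht', -, hA'⟩ := ih fun y hy => h y (Finset.mem_insert_of_mem hy)
      obtain ⟨Φ, hΦ, t, ht, hk⟩ := h k (Finset.mem_insert_self k A)
      refine ⟨_, hG.op (false, List.range t.length, (List.range t'.length).map fun n =>
        t.length + n) Φ hΦ Ψ hΨ, t ++ t', ?_, ?_⟩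
      · intro y hy
        rcases List.mem_append.1 hy with hy | hy
        · exact ht y hy
        · exact ht' y hy
      · obtain ⟨s', hs', he⟩ := cop_false S F (List.range t.length)
          ((List.range t'.length).map fun n => t.length + n) Φ Ψ (t ++ t')
        rw [pick_left, pick_right, hk, hA'] at hs'
        have hs : s' = insert k A := by
          ext y
          rw [hs', Finset.mem_insert]
        rw [he, hs]
        exact ⟨rfl, rfl⟩
  obtain ⟨Φ, hΦ, t, ht, h1, -⟩ := key A hA
  exact ⟨Φ, hΦ, t, ht, h1⟩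

end Pool.Agent.CC
end

section

/-!
# TASK B05: adding one point to the hull

PROOF. The triples `(Ψ, b, t)`, `Ψ ∈ G`, `b : List ℕ`, `t` a list of elements of `s`, form a countable nonempty
set (`G` and `s` are countable; `cbase ⊆ G` is nonempty); enumerate them as `(Ψ n, b n, t n)`, `n : ℕ`. Let
`g n y := ((Ψ n) (pick (b n) (t n ++ [y]))).1`. Let `e 0 := S.root`, `e (n + 1) := S.ext (e n) (g n)`. Claim:
for every `n` there are `Φ ∈ G` and a list `u` from `s` with `(Φ u).2.1 = e n`: `n = 0`: a basic code;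
`n + 1`: the code `cop S F (true, a, c) Φ (Ψ n)` at the list `u ++ t n`, where `a = List.range u.length`
(`pick a (u ++ t n) = u`) and `c = (b n).map (u.length + ·)`
(`pick c ((u ++ t n) ++ [y]) = pick (b n) (t n ++ [y])`, `pick_shift`). The first component of the same code
at the same list is `S.val (e n) (g n)`: so `S.val (e n) (g n) ∈ Hull G s`.
By `S.hR` and `S.lim` there is a `j` with `S.R j (e n)` for all `n`. Take `x ∈ S.B j` above `a` (`S.unb`). Let
`k ∈ Hull G (insert x s) ∩ L`: `k = (Ψ t').1`, `t'` a list of elements of `insert x s`. There are a list `t`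
from `s` and `b : List ℕ` with `pick b (t ++ [x]) = t'`: `t` = the list of the members of `t'` different from `x`;
by induction on `t'` (general lemma `exists_pick`). So `(Ψ, b, t) = (Ψ n, b n, t n)` for some `n` and
`k = g n x`. `x ∈ S.B (e (n + 1))` by `S.mono`, and `g n x ∈ L`, so `k = g n x = S.val (e n) (g n)` by `S.hval`,
which is in `Hull G s`.
-/

set_option autoImplicit false

namespace Pool.Agent.CC

open Cardinal Set

universe u v w

variable {K : Type u} [LinearOrder K] {L : Set K}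

theorem exists_pick (x : K) (s : Set K) (t' : List K) (h : ∀ y ∈ t', y ∈ insert x s) :
    ∃ (t : List K) (b : List ℕ), (∀ y ∈ t, y ∈ s) ∧ pick b (t ++ [x]) = t' := by
  induction t' with
  | nil => exact ⟨[], [], by simp, rfl⟩
  | cons y t' ih =>
    obtain ⟨t, b, ht, hb⟩ := ih fun z hz => h z (List.mem_cons_of_mem _ hz)
    rcases h y List.mem_cons_self with hy | hy
    · subst hy
      refine ⟨t, t.length :: b, ht, ?_⟩
      have h1 : (t ++ [y])[t.length]? = some y := by simp
      unfold pick at hb ⊢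
      rw [List.filterMap_cons, h1]
      simp only [hb]
    · refine ⟨y :: t, 0 :: b.map (fun n => [y].length + n), ?_, ?_⟩
      · intro z hz
        rcases List.mem_cons.1 hz with hz | hz
        · exact hz ▸ hy
        · exact ht z hz
      · have h2 := pick_shift b [y] (t ++ [x])
        rw [hb] at h2
        have h3 : y :: t ++ [x] = [y] ++ (t ++ [x]) := rfl
        rw [h3]
        have h4 : ([y] ++ (t ++ [x]))[0]? = some y := rfl
        unfold pick at h2 ⊢
        rw [List.filterMap_cons, h4]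
        simp only [h2]

variable {S : Sys K L} {F : Finset K → K} {C₀ : Set K} {G : Set (List K → CVal S)}

theorem B05_ctbl_lists {s : Set K} (hs : s.Countable) : {t : List K | ∀ y ∈ t, y ∈ s}.Countable := by
  have : Countable s := hs
  have h : {t : List K | ∀ y ∈ t, y ∈ s} ⊆ range (List.map (Subtype.val : s → K)) := by
    intro t ht
    refine ⟨t.attach.map fun y => ⟨y.1, ht y.1 y.2⟩, ?_⟩
    simp
  exact (countable_range _).mono h

theorem hull_step (hG : Codes S F C₀ G) {s : Set K} (hs : s.Countable) (a : K) :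
    ∃ x, a < x ∧ Hull G (insert x s) ∩ L ⊆ Hull G s := by
  have hTc : (G ×ˢ ((univ : Set (List ℕ)) ×ˢ {t : List K | ∀ y ∈ t, y ∈ s})).Countable :=
    hG.ctbl.prod (countable_univ.prod (B05_ctbl_lists hs))
  have hTne : (G ×ˢ ((univ : Set (List ℕ)) ×ˢ {t : List K | ∀ y ∈ t, y ∈ s})).Nonempty :=
    ⟨(fun _ => (F ∅, S.root, ∅), [], []), hG.base (Or.inr (Or.inl rfl)), mem_univ _, by simp⟩
  obtain ⟨f, hf⟩ := hTc.exists_eq_range hTne
  have hfm : ∀ n, (f n).1 ∈ G ∧ ∀ y ∈ (f n).2.2, y ∈ s := by
    intro n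
    have : f n ∈ G ×ˢ ((univ : Set (List ℕ)) ×ˢ {t : List K | ∀ y ∈ t, y ∈ s}) := by
      rw [hf]; exact mem_range_self n
    exact ⟨this.1, this.2.2⟩
  let g : ℕ → K → K := fun n y => ((f n).1 (pick (f n).2.1 ((f n).2.2 ++ [y]))).1
  let e : ℕ → S.I := fun n => Nat.rec S.root (fun n i => S.ext i (g n)) n
  have he1 : ∀ n, e (n + 1) = S.ext (e n) (g n) := fun n => rfl
  have step : ∀ n, ∀ Φ ∈ G, ∀ u : List K, (∀ y ∈ u, y ∈ s) → (Φ u).2.1 = e n →
      ∃ Φ' ∈ G, ∃ u' : List K, (∀ y ∈ u', y ∈ s) ∧ (Φ' u').1 = S.val (e n) (g n) ∧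
        (Φ' u').2.1 = e (n + 1) := by
    intro n Φ hΦ u hu he
    have hfun : (fun y => ((f n).1 (pick ((f n).2.1.map fun m => u.length + m)
        ((u ++ (f n).2.2) ++ [y]))).1) = g n := by
      funext y
      rw [List.append_assoc, pick_shift]
    refine ⟨cop S F (true, List.range u.length, (f n).2.1.map fun m => u.length + m) Φ (f n).1,
      hG.op _ _ hΦ _ (hfm n).1, u ++ (f n).2.2, ?_, ?_, ?_⟩
    · intro y hy
      rcases List.mem_append.1 hy with hy | hy
      · exact hu y hy
      · exact (hfm n).2 y hy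
    · rw [cop_true, pick_left]
      simp only
      rw [hfun, he]
    · rw [cop_true, pick_left, he1]
      simp only
      rw [hfun, he]
  have key : ∀ n, ∃ Φ ∈ G, ∃ u : List K, (∀ y ∈ u, y ∈ s) ∧ (Φ u).2.1 = e n := by
    intro n
    induction n with
    | zero => exact ⟨_, hG.base (Or.inr (Or.inl rfl)), [], by simp, rfl⟩
    | succ n ih =>
      obtain ⟨Φ, hΦ, u, hu, he⟩ := ih
      obtain ⟨Φ', hΦ', u', hu', _, he'⟩ := step n Φ hΦ u hu he
      exact ⟨Φ', hΦ', u', hu', he'⟩
  have hval : ∀ n, S.val (e n) (g n) ∈ Hull G s := by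
    intro n
    obtain ⟨Φ, hΦ, u, hu, he⟩ := key n
    obtain ⟨Φ', hΦ', u', hu', h1, _⟩ := step n Φ hΦ u hu he
    exact ⟨Φ', hΦ', u', hu', h1⟩
  obtain ⟨j, hj⟩ := S.lim e fun n => by rw [he1]; exact S.hR _ _
  obtain ⟨x, hx, hax⟩ := S.unb j a
  refine ⟨x, hax, ?_⟩
  rintro k ⟨⟨Ψ, hΨ, t', ht', hk⟩, hkL⟩
  obtain ⟨t, b, ht, hb⟩ := exists_pick x s t' ht'
  have hmem : (Ψ, b, t) ∈ range f := by
    rw [← hf]
    exact ⟨hΨ, mem_univ _, ht⟩
  obtain ⟨n, hn⟩ := hmem
  have hgk : g n x = k := by
    have : g n x = ((f n).1 (pick (f n).2.1 ((f n).2.2 ++ [x]))).1 := rfl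
    rw [this, hn]
    simp only
    rw [hb, hk]
  have hxB : x ∈ S.B (S.ext (e n) (g n)) := by
    rw [← he1]
    exact S.mono _ _ (hj (n + 1)) hx
  have := S.hval (e n) (g n) x hxB (by rw [hgk]; exact hkL)
  rw [← hgk, this]
  exact hval n

end Pool.Agent.CC
end

section

/-!
# TASK B06: the set X inside `K`

PROOF. Take `G` by `exists_codes`. By `exists_rec` (`W = Ω`, `X = K`) with
`good i x y := (∀ j < i, x j < y) ∧ Hull G (insert y (x '' Iio i)) ∩ L ⊆ Hull G (x '' Iio i)`: `ok`: `x '' Iio i`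
is countable, so it has a strict upper bound `a` (`bdd`); `hull_step`. So there is `x : Ω → K`, strictly
increasing, with `Hull G (insert (x i) (x '' Iio i)) ∩ L ⊆ Hull G (x '' Iio i)`.
By strong induction on `i`: `Hull G (x '' Iio i) ∩ L ⊆ Hull G ∅`: if `k` is in the left side, then
`k ∈ Hull G t` for a finite `t ⊆ x '' Iio i` (`hull_fin`); if `t = ∅` done; otherwise let `x j` be its largest
member, `j < i`: `t ⊆ insert (x j) (x '' Iio j)`, so `k ∈ Hull G (x '' Iio j) ∩ L` (`hull_mono`), and the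
induction hypothesis applies. In the same way `Hull G (range x) ∩ L ⊆ Hull G ∅`.
`X := Hull G (range x)`: `base_hull`, `hull_closed`; `X ∩ L` is countable (`hull_countable`); `#X ≤ ℵ₁` by
`hull_card`, and `range x ⊆ X` (`subset_hull`), `x` injective.
-/

set_option autoImplicit false

namespace Pool.Agent.CC

open Cardinal Set

universe u v w

variable {K : Type u} [LinearOrder K] {L : Set K}

private theorem B06_reduce {Ω : Type u} [LinearOrder Ω] {S : Sys K L} {G : Set (List K → CVal S)}
    (x : Ω → K) (hx : StrictMono x)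
    (hstep : ∀ i, Hull G (insert (x i) (x '' Iio i)) ∩ L ⊆ Hull G (x '' Iio i))
    {k : K} {s : Set K} (hs : s ⊆ range x) (hk : k ∈ Hull G s) (hkL : k ∈ L) :
    k ∈ Hull G (∅ : Set K) ∨ ∃ j, x j ∈ s ∧ k ∈ Hull G (x '' Iio j) := by
  obtain ⟨t, ht, hkt⟩ := hull_fin hk
  rcases t.eq_empty_or_nonempty with h0 | h0
  · left
    rw [h0, Finset.coe_empty] at hkt
    exact hkt
  · right
    have hm := t.max'_mem h0
    obtain ⟨j, hj⟩ := hs (ht _ hm)
    refine ⟨j, ?_, ?_⟩
    · rw [hj]
      exact ht _ hm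
    · refine hstep j ⟨?_, hkL⟩
      refine hull_mono ?_ hkt
      intro z hz
      have hz1 : z ≤ t.max' h0 := t.le_max' z hz
      obtain ⟨i, hi⟩ := hs (ht z hz)
      rw [← hj, ← hi] at hz1
      have hij : i ≤ j := hx.le_iff_le.1 hz1
      rcases eq_or_lt_of_le hij with h | h
      · left
        rw [← hi, h]
      · right
        exact ⟨i, h, hi⟩

theorem exists_X {Ω : Type u} [LinearOrder Ω] [WellFoundedLT Ω] (hΩ : ∀ i : Ω, (Iio i).Countable)
    (hΩ' : #Ω = Order.succ ℵ₀) [Nonempty K] (S : Sys K L) (F : Finset K → K) (C₀ : Set K)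
    (hC₀ : C₀.Countable) (bdd : ∀ A : Set K, A.Countable → ∃ b, ∀ x ∈ A, x < b) :
    ∃ X : Set K, C₀ ⊆ X ∧ (∀ A : Finset K, (∀ y ∈ A, y ∈ X) → F A ∈ X) ∧
      (X ∩ L).Countable ∧ #X = Order.succ ℵ₀ := by
  obtain ⟨G, hG⟩ := exists_codes S F C₀ hC₀
  obtain ⟨x, hx⟩ := exists_rec (W := Ω) (X := K)
    (fun i x y => (∀ j < i, x j < y) ∧ Hull G (insert y (x '' Iio i)) ∩ L ⊆ Hull G (x '' Iio i))
    (by
      intro i x x' y h hgood
      have himg : x '' Iio i = x' '' Iio i := Set.image_congr fun j hj => h j hj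
      refine ⟨fun j hj => ?_, ?_⟩
      · rw [← h j hj]
        exact hgood.1 j hj
      · rw [← himg]
        exact hgood.2)
    (by
      intro i x _
      have hc : (x '' Iio i).Countable := (hΩ i).image x
      obtain ⟨b, hb⟩ := bdd _ hc
      obtain ⟨y, hy1, hy2⟩ := hull_step hG hc b
      exact ⟨y, fun j hj => lt_trans (hb _ ⟨j, hj, rfl⟩) hy1, hy2⟩)
  have hmono : StrictMono x := fun j i hji => (hx i).1 j hji
  have hstep : ∀ i, Hull G (insert (x i) (x '' Iio i)) ∩ L ⊆ Hull G (x '' Iio i) := fun i => (hx i).2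
  have hind : ∀ i, Hull G (x '' Iio i) ∩ L ⊆ Hull G (∅ : Set K) := by
    intro i
    induction i using WellFoundedLT.induction with
    | _ i ih =>
      rintro k ⟨hk, hkL⟩
      rcases B06_reduce x hmono hstep (Set.image_subset_range x _) hk hkL with h | ⟨j, hj, h⟩
      · exact h
      · obtain ⟨i', hi', hxx⟩ := hj
        have : j < i := by
          rw [← hmono.injective hxx]
          exact hi'
        exact ih j this ⟨h, hkL⟩
  have hall : Hull G (range x) ∩ L ⊆ Hull G (∅ : Set K) := by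
    rintro k ⟨hk, hkL⟩
    rcases B06_reduce x hmono hstep (le_refl _) hk hkL with h | ⟨j, _, h⟩
    · exact h
    · exact hind j ⟨h, hkL⟩
  have hr : #(range x) = Order.succ ℵ₀ := by
    rw [Cardinal.mk_range_eq x hmono.injective, hΩ']
  refine ⟨Hull G (range x), base_hull hG _, fun A hA => hull_closed hG _ A hA,
    (hull_countable hG Set.countable_empty).mono hall, le_antisymm ?_ ?_⟩
  · have h1 := hull_card hG (range x)
    rw [hr, max_eq_right (Order.le_succ _)] at h1
    exact h1
  · rw [← hr]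
    exact Cardinal.mk_le_mk_of_subset (subset_hull hG _)

end Pool.Agent.CC
end

section

/-!
# TASK B08: the Chang property

PROOF. Let `κ₃ = succ (succ (succ ℵ₀))`, `κ₂ = succ (succ ℵ₀)`. `τ x := Ordinal.typein (· < ·) x` is an order
isomorphism from `K` onto the ordinals below `κ₃.ord` (`Ordinal.typein_injective`, `Ordinal.typein_lt_type`,
`Ordinal.enum`). `L := {x : K | τ x < κ₂.ord}` has size `κ₂` (in `Type u`; at most is enough:
the map `τ` and `Ordinal.mk_Iio_ordinal`, lifts), so there is an injection of `L` into `N`; extend it to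
`ψ : K → N`. `exists_sys`. `C₀ := {x | τ x < ω}` is countable. Given `F` on ordinals, let `F' : Finset K → K` be
`F' A := τ⁻¹ (F (A.image τ))`. Take `X'` by `exists_X` and `X := τ '' X'`. Closure: if `s ⊆ X` is finite then
`s = A.image τ` with `A ⊆ X'` finite. `#X = lift #X'` (`Cardinal.mk_image_eq_lift`), `κ.ord ⊆ X` for
`κ = ℵ₀`: `x < ω` is `τ y` with `y ∈ C₀`. `X ∩ κ₂.ord = τ '' (X' ∩ L)` is countable and contains all natural
numbers, so it has size `ℵ₀`.
-/

set_option autoImplicit false

namespace Pool.Agent.CC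

open Cardinal Set

universe u v w

theorem chang_of_principle (Ω N K : Type u) [LinearOrder Ω] [WellFoundedLT Ω] [LinearOrder N]
    [LinearOrder K] [WellFoundedLT K] (hΩ : ∀ i : Ω, (Iio i).Countable)
    (hΩ' : #Ω = Order.succ ℵ₀) (hN : #N = Order.succ (Order.succ ℵ₀))
    (hK : Ordinal.type (fun x y : K => x < y) = (Order.succ (Order.succ (Order.succ ℵ₀))).ord)
    (bdd : ∀ A : Set K, A.Countable → ∃ b, ∀ x ∈ A, x < b) (h : Principle N K) :
    ChangProperty (ℵ₀ : Cardinal.{u}) := by
  classical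
  intro F hF
  set κ₁ : Cardinal.{u} := Order.succ ℵ₀ with hκ₁
  set κ₂ : Cardinal.{u} := Order.succ κ₁ with hκ₂
  set κ₃ : Cardinal.{u} := Order.succ κ₂ with hκ₃
  have h01 : (ℵ₀ : Cardinal.{u}) ≤ κ₁ := Order.le_succ _
  have h12 : κ₁ ≤ κ₂ := Order.le_succ _
  have h23 : κ₂ ≤ κ₃ := Order.le_succ _
  let τ : K → Ordinal.{u} := fun x => Ordinal.typein (fun x y : K => x < y) x
  have τinj : Function.Injective τ := Ordinal.typein_injective _
  have τlt : ∀ x, τ x < κ₃.ord := fun x => by
    rw [← hK]; exact Ordinal.typein_lt_type _ x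
  have τsurj : ∀ o < κ₃.ord, ∃ x, τ x = o := fun o ho => by
    rw [← hK] at ho
    exact Ordinal.typein_surj _ ho
  have hω2 : Ordinal.omega0 ≤ κ₂.ord := by
    rw [← Cardinal.ord_aleph0]; exact Cardinal.ord_le_ord.2 (h01.trans h12)
  have hω3 : Ordinal.omega0 ≤ κ₃.ord := hω2.trans (Cardinal.ord_le_ord.2 h23)
  have hKne : Nonempty K := by
    obtain ⟨x, -⟩ := τsurj 0 (lt_of_lt_of_le Ordinal.omega0_pos hω3)
    exact ⟨x⟩
  let L : Set K := {x | τ x < κ₂.ord}
  have hL : #L ≤ #N := by
    rw [hN]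
    have h1 : Cardinal.lift.{u + 1} #L ≤ Cardinal.lift.{u + 1} κ₂ := by
      have h2 : #(Iio κ₂.ord) = Cardinal.lift.{u + 1} κ₂ := by
        rw [Cardinal.mk_Iio_ordinal, Cardinal.card_ord]
      rw [← h2]
      have h3 : Function.Injective (fun x : L => (⟨τ x.1, x.2⟩ : Iio κ₂.ord)) := by
        intro x y hxy
        exact Subtype.ext (τinj (congrArg Subtype.val hxy))
      have h4 := Cardinal.lift_mk_le_lift_mk_of_injective h3
      rw [Cardinal.lift_id'.{u, u + 1}] at h4
      exact h4
    exact Cardinal.lift_le.1 h1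
  obtain ⟨ψ₀⟩ := (Cardinal.le_def _ _).1 hL
  have hNne : Nonempty N := by
    obtain ⟨x, hx⟩ := τsurj 0 (lt_of_lt_of_le Ordinal.omega0_pos hω3)
    exact ⟨ψ₀ ⟨x, by
      show τ x < κ₂.ord
      rw [hx]; exact lt_of_lt_of_le Ordinal.omega0_pos hω2⟩⟩
  let ψ : K → N := fun x => if hx : x ∈ L then ψ₀ ⟨x, hx⟩ else Classical.arbitrary N
  have hψ : InjOn ψ L := by
    intro x hx y hy hxy
    simp only [ψ, hx, hy, dif_pos] at hxy
    exact congrArg Subtype.val (ψ₀.injective hxy)
  obtain ⟨S⟩ := exists_sys h ψ hψ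
  let σ : Ordinal.{u} → K := Function.invFun τ
  have hσ : ∀ x, σ (τ x) = x := Function.leftInverse_invFun τinj
  have hτσ : ∀ o < κ₃.ord, τ (σ o) = o := fun o ho => Function.invFun_eq (τsurj o ho)
  let C₀ : Set K := {x | τ x < Ordinal.omega0}
  have hC₀ : C₀.Countable := by
    have h5 : C₀ ⊆ Set.range (fun n : ℕ => σ (n : Ordinal.{u})) := by
      intro x hx
      obtain ⟨n, hn⟩ := Ordinal.lt_omega0.1 (show τ x < Ordinal.omega0 from hx)
      refine ⟨n, ?_⟩
      show σ (n : Ordinal.{u}) = x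
      rw [← hn, hσ]
    exact (Set.countable_range _).mono h5
  obtain ⟨X', hC, hcl, hcount, hcard⟩ := exists_X hΩ hΩ' S
    (fun A : Finset K => σ (F (A.image τ))) C₀ hC₀ bdd
  refine ⟨τ '' X', ?_, ?_, ?_, ?_, ?_⟩
  · rintro _ ⟨x, -, rfl⟩
    exact τlt x
  · intro s hs
    have hs1 : (s.image σ).image τ = s := by
      rw [Finset.image_image]
      conv_rhs => rw [← Finset.image_id (s := s)]
      refine Finset.image_congr ?_
      intro o ho
      obtain ⟨x, -, hx⟩ := hs o ho
      show τ (σ o) = o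
      rw [← hx, hσ]
    have hs2 : ∀ y ∈ s.image σ, y ∈ X' := by
      intro y hy
      obtain ⟨o, ho, rfl⟩ := Finset.mem_image.1 hy
      obtain ⟨x, hx, hxo⟩ := hs o ho
      rw [← hxo, hσ]; exact hx
    have hs3 := hcl _ hs2
    have hs4 : F s < κ₃.ord := by
      refine hF s fun o ho => ?_
      obtain ⟨x, -, rfl⟩ := hs o ho
      exact τlt x
    refine ⟨_, hs3, ?_⟩
    show τ (σ (F ((s.image σ).image τ))) = F s
    rw [hs1, hτσ _ hs4]
  · have h6 := Cardinal.mk_image_eq_lift τ X' τinj
    rw [hcard] at h6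
    rw [← h6, Cardinal.lift_id'.{u, u + 1}]
  · have hset : {x | x ∈ τ '' X' ∧ x < κ₂.ord} = τ '' (X' ∩ L) := by
      ext o
      constructor
      · rintro ⟨⟨x, hx, rfl⟩, hxo⟩
        exact ⟨x, ⟨hx, hxo⟩, rfl⟩
      · rintro ⟨x, ⟨hx, hxL⟩, rfl⟩
        exact ⟨⟨x, hx, rfl⟩, hxL⟩
    rw [hset, Cardinal.lift_aleph0]
    have : Countable (τ '' (X' ∩ L) : Set Ordinal.{u}) := (hcount.image τ).to_subtype
    have : Infinite (τ '' (X' ∩ L) : Set Ordinal.{u}) := by
      rw [Set.infinite_coe_iff]
      refine Set.infinite_of_injective_forall_mem (f := fun n : ℕ => (n : Ordinal.{u}))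
        Nat.cast_injective ?_
      intro n
      have hn : (n : Ordinal.{u}) < Ordinal.omega0 := Ordinal.natCast_lt_omega0 n
      obtain ⟨x, hx⟩ := τsurj n (lt_of_lt_of_le hn hω3)
      refine ⟨x, ⟨hC ?_, ?_⟩, hx⟩
      · show τ x < Ordinal.omega0
        rw [hx]; exact hn
      · show τ x < κ₂.ord
        rw [hx]; exact lt_of_lt_of_le hn hω2
    exact Cardinal.mk_eq_aleph0 _
  · intro o ho
    rw [Cardinal.ord_aleph0] at ho
    obtain ⟨x, hx⟩ := τsurj o (lt_of_lt_of_le ho hω3)
    refine ⟨x, hC ?_, hx⟩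
    show τ x < Ordinal.omega0
    rw [hx]; exact ho

end Pool.Agent.CC
end

section

/-!
# TASK B09: the three conditions

PROOF. `type_eq` for `ℕ`, `Ω` (`c = ℵ₀`), for `Ω`, `N` (`c = succ ℵ₀`) and for `N`, `K` (`c = succ (succ ℵ₀)`), with
`mk_Iio_le`; cardinalities: `Ordinal.card_type`, `Cardinal.card_ord`. `bdd_countable` for `N`, `K`.
`chang_of_principle`. `AllSubsets Ω`: the map `i ↦ {n | (i, n) ∈ S}` from `Ω` is onto `Set ℕ`, so
`2 ^ ℵ₀ ≤ #Ω`. `ManySubsets Ω K`: `x ↦ {i | (x, i) ∈ S}` is injective, so `#K ≤ 2 ^ #Ω`.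
`ℵ₀` is regular: `Cardinal.isRegular_aleph0`.
-/

set_option autoImplicit false

namespace Pool.Agent.CC

open Cardinal Set

universe u v w

theorem question_of_model (Ω N K : Type u) [LinearOrder Ω] [WellFoundedLT Ω] [LinearOrder N]
    [WellFoundedLT N] [LinearOrder K] [WellFoundedLT K] [Nonempty Ω] [Nonempty N] [Nonempty K]
    (hΩ : ∀ i : Ω, (Iio i).Countable) (h : Model Ω N K) : Question (ℵ₀ : Cardinal.{u}) := by
  obtain ⟨hb1, ⟨hc1, hb2⟩, ⟨hc2, hb3⟩, hall, hmany, hprin⟩ := h
  have tΩ : Ordinal.type (fun x y : Ω => x < y) = (Order.succ (ℵ₀ : Cardinal.{u})).ord :=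
    type_eq (A := ℕ) (B := Ω) ℵ₀ le_rfl (by simp) (fun b => by
      rw [Cardinal.le_aleph0_iff_set_countable]; exact hΩ b) hb1
  have cΩ : #Ω = Order.succ ℵ₀ := by
    rw [← Ordinal.card_type (fun x y : Ω => x < y), tΩ, Cardinal.card_ord]
  have tN : Ordinal.type (fun x y : N => x < y) = (Order.succ (Order.succ (ℵ₀ : Cardinal.{u}))).ord :=
    type_eq (A := Ω) (B := N) (Order.succ ℵ₀) (Order.le_succ _) (by rw [cΩ])
      (fun b => (mk_Iio_le hc1 b).trans_eq cΩ) hb2
  have cN : #N = Order.succ (Order.succ ℵ₀) := by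
    rw [← Ordinal.card_type (fun x y : N => x < y), tN, Cardinal.card_ord]
  have tK : Ordinal.type (fun x y : K => x < y) =
      (Order.succ (Order.succ (Order.succ (ℵ₀ : Cardinal.{u})))).ord :=
    type_eq (A := N) (B := K) (Order.succ (Order.succ ℵ₀)) ((Order.le_succ _).trans (Order.le_succ _)) (by rw [cN])
      (fun b => (mk_Iio_le hc2 b).trans_eq cN) hb3
  have cK : #K = Order.succ (Order.succ (Order.succ ℵ₀)) := by
    rw [← Ordinal.card_type (fun x y : K => x < y), tK, Cardinal.card_ord]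
  refine ⟨Cardinal.isRegular_aleph0, ?_, ?_, ?_⟩
  · refine chang_of_principle Ω N K hΩ cΩ cN tK ?_ hprin
    refine bdd_countable (A := N) (B := K) ?_ hb3
    rw [cN]
    exact (Order.le_succ _).trans (Order.le_succ _)
  · obtain ⟨S, hS⟩ := hall
    have hsurj : Function.Surjective fun (i : Ω) => {n : ULift.{u} ℕ | (i, n.down) ∈ S} := by
      intro A
      obtain ⟨i, hi⟩ := hS {n | ULift.up n ∈ A}
      refine ⟨i, ?_⟩
      ext n
      exact hi n.down
    have h1 := Cardinal.mk_le_of_surjective hsurj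
    rw [Cardinal.mk_set, cΩ] at h1
    have h2 : #(ULift.{u} ℕ) = ℵ₀ := by simp
    rw [h2] at h1
    exact h1.trans (Order.le_succ _)
  · obtain ⟨S, hS⟩ := hmany
    have hinj : Function.Injective fun (x : K) => {i : Ω | (x, i) ∈ S} := by
      intro x y hxy
      by_contra hne
      rcases lt_or_gt_of_ne hne with hlt | hlt
      · refine hS y ⟨x, hlt⟩ fun i => ?_
        exact (Set.ext_iff.mp hxy i).symm
      · refine hS x ⟨y, hlt⟩ fun i => ?_
        exact Set.ext_iff.mp hxy i
    have h1 := Cardinal.mk_le_of_injective hinj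
    rw [Cardinal.mk_set, cΩ, cK] at h1
    exact (Order.lt_succ _).trans_le h1

end Pool.Agent.CC
end

section

/-!
# TASK T01: unions of conditions

PROOF.
`exists_glue`: `f e := if h : ∃ v, ∃ i, (s i).f e = some v then some h.choose else none`; the value does
not depend on the choice by `Comp`. `legal` from `(s i).legal`; `ctbl`, `small` from the hypotheses (the
sets are equal or contained in each other).
`exists_glue_seq`: a descending sequence: for `m ≤ n`, `s n ≤ s m` (`antitone_nat_of_succ_le`), so any two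
members agree. The first set is the countable union of `(s n).ctbl`; the second is the union of countably
many sets of size `≤ 𝔠` (`mk_iUnion_le_sum_mk` or `mk_iUnion_le`, `aleph0_mul_continuum`; it may be
necessary to use `ULift ℕ` for the universes).
`exists_join`: `exists_glue` with `ι = Bool`, or directly `f e := (p.f e).or (q.f e)`.
-/

set_option autoImplicit false

namespace Pool.Agent.CC

open Cardinal Set

universe u v w

variable {Ω N K : Type u} [LinearOrder K]

theorem exists_glue {ι : Type v} (s : ι → Cond Ω N K) (hs : ∀ i j, Comp (s i) (s j))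
    (h1 : {e : K × (Ω × ℕ) | ∃ i, (s i).f (e.1, Sum.inl e.2) ≠ none}.Countable)
    (h2 : #{e : K × N | ∃ i, (s i).f (e.1, Sum.inr e.2) ≠ none} ≤ 𝔠) :
    ∃ r : Cond Ω N K, ∀ e v, r.f e = some v ↔ ∃ i, (s i).f e = some v := by
  classical
  let g : Place Ω N K → Option (Bool ⊕ K) := fun e =>
    if h : ∃ v, ∃ i, (s i).f e = some v then some h.choose else none
  have hg : ∀ e v, g e = some v ↔ ∃ i, (s i).f e = some v := by
    intro e v
    constructor
    · intro h
      by_cases h' : ∃ v, ∃ i, (s i).f e = some v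
      · have h0 : g e = some h'.choose := dif_pos h'
        rw [h0] at h
        have h3 := h'.choose_spec
        have h4 : h'.choose = v := Option.some.inj h
        rw [h4] at h3
        exact h3
      · have h0 : g e = none := dif_neg h'
        rw [h0] at h
        cases h
    · rintro ⟨i, hi⟩
      have h' : ∃ v, ∃ i, (s i).f e = some v := ⟨v, i, hi⟩
      have h0 : g e = some h'.choose := dif_pos h'
      rw [h0]
      obtain ⟨j, hj⟩ := h'.choose_spec
      rw [hs j i e _ _ hj hi]
  have hn : ∀ e, g e ≠ none ↔ ∃ i, (s i).f e ≠ none := by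
    intro e
    rw [Option.ne_none_iff_exists']
    constructor
    · rintro ⟨v, hv⟩
      obtain ⟨i, hi⟩ := (hg e v).1 hv
      exact ⟨i, by rw [hi]; simp⟩
    · rintro ⟨i, hi⟩
      obtain ⟨v, hv⟩ := Option.ne_none_iff_exists'.1 hi
      exact ⟨v, (hg e v).2 ⟨i, hv⟩⟩
  refine ⟨⟨g, ?_, ?_, ?_⟩, hg⟩
  · intro e v h
    obtain ⟨i, hi⟩ := (hg e v).1 h
    exact (s i).legal e v hi
  · exact h1.mono fun e he => (hn _).1 he
  · exact (mk_le_mk_of_subset fun e he => (hn _).1 he).trans h2

/-- a descending sequence of conditions has a greatest lower bound -/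
theorem exists_glue_seq (s : ℕ → Cond Ω N K) (h : ∀ n, s (n + 1) ≤ s n) :
    ∃ r : Cond Ω N K, (∀ n, r ≤ s n) ∧ ∀ e v, r.f e = some v ↔ ∃ n, (s n).f e = some v := by
  have ha : Antitone s := antitone_nat_of_succ_le h
  have hc : ∀ i j, Comp (s i) (s j) := by
    intro i j e v w hv hw
    rcases le_total i j with hij | hij
    · have h1 := ha hij e v hv
      rw [h1] at hw
      exact Option.some.inj hw
    · have h1 := ha hij e w hw
      rw [h1] at hv
      exact (Option.some.inj hv).symm
  have h1 : {e : K × (Ω × ℕ) | ∃ i, (s i).f (e.1, Sum.inl e.2) ≠ none}.Countable := by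
    rw [setOf_exists]
    exact countable_iUnion fun n => (s n).ctbl
  have h2 : #{e : K × N | ∃ i, (s i).f (e.1, Sum.inr e.2) ≠ none} ≤ 𝔠 := by
    have h3 : {e : K × N | ∃ i, (s i).f (e.1, Sum.inr e.2) ≠ none} =
        ⋃ i : ULift.{u} ℕ, {e : K × N | (s i.down).f (e.1, Sum.inr e.2) ≠ none} := by
      ext e
      simp only [mem_setOf_eq, mem_iUnion]
      exact ⟨fun ⟨i, hi⟩ => ⟨⟨i⟩, hi⟩, fun ⟨i, hi⟩ => ⟨i.down, hi⟩⟩
    rw [h3]
    refine (mk_iUnion_le _).trans ?_
    have h4 : (⨆ i : ULift.{u} ℕ, #{e : K × N | (s i.down).f (e.1, Sum.inr e.2) ≠ none}) ≤ 𝔠 :=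
      ciSup_le' fun i => (s i.down).small
    calc #(ULift.{u} ℕ) * (⨆ i : ULift.{u} ℕ,
          #{e : K × N | (s i.down).f (e.1, Sum.inr e.2) ≠ none}) ≤ ℵ₀ * 𝔠 := by
          refine mul_le_mul' ?_ h4
          simp
      _ = 𝔠 := aleph0_mul_continuum
  obtain ⟨r, hr⟩ := exists_glue s hc h1 h2
  exact ⟨r, fun n e v hv => (hr e v).2 ⟨n, hv⟩, hr⟩

/-- two compatible conditions have a union -/
theorem exists_join {p q : Cond Ω N K} (h : Comp p q) : ∃ r : Cond Ω N K, r ≤ p ∧ r ≤ q ∧
    ∀ e v, r.f e = some v ↔ (p.f e = some v ∨ q.f e = some v) := by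
  have hc : ∀ i j : Bool, Comp (if i then p else q) (if j then p else q) := by
    intro i j e v w hv hw
    cases i <;> cases j <;> simp only [Bool.false_eq_true, if_true, if_false] at hv hw
    · rw [hv] at hw
      exact Option.some.inj hw
    · exact (h e w v hw hv).symm
    · exact h e v w hv hw
    · rw [hv] at hw
      exact Option.some.inj hw
  have h1 : {e : K × (Ω × ℕ) | ∃ i : Bool, (if i then p else q).f (e.1, Sum.inl e.2) ≠
      none}.Countable := by
    refine (p.ctbl.union q.ctbl).mono ?_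
    rintro e ⟨i, hi⟩
    cases i
    · exact Or.inr hi
    · exact Or.inl hi
  have h2 : #{e : K × N | ∃ i : Bool, (if i then p else q).f (e.1, Sum.inr e.2) ≠ none} ≤ 𝔠 := by
    have h3 : {e : K × N | ∃ i : Bool, (if i then p else q).f (e.1, Sum.inr e.2) ≠ none} ⊆
        {e : K × N | p.f (e.1, Sum.inr e.2) ≠ none} ∪
        {e : K × N | q.f (e.1, Sum.inr e.2) ≠ none} := by
      rintro e ⟨i, hi⟩
      cases i
      · exact Or.inr hi
      · exact Or.inl hi
    refine (mk_le_mk_of_subset h3).trans ((mk_union_le _ _).trans ?_)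
    exact (add_le_add p.small q.small).trans (le_of_eq continuum_add_self)
  obtain ⟨r, hr⟩ := exists_glue (fun i : Bool => if i then p else q) hc h1 h2
  refine ⟨r, fun e v hv => (hr e v).2 ⟨true, hv⟩, fun e v hv => (hr e v).2 ⟨false, hv⟩, ?_⟩
  intro e v
  rw [hr e v]
  constructor
  · rintro ⟨i, hi⟩
    cases i
    · exact Or.inr hi
    · exact Or.inl hi
  · rintro (hv | hv)
    · exact ⟨true, hv⟩
    · exact ⟨false, hv⟩

end Pool.Agent.CC
end

section

/-!
# TASK T03: extending conditions

PROOF.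
`exists_insert`: change `p.f` at the one place `e`; the supports grow by at most one place.
`exists_fill`: `exists_join` with, or directly by, the partial function with the values
`inl (r n)` at the places `(x, inl (i, n))`, `n : ℕ` (countably many), which are new for `p`.
`exists_fillAll`: the same at the places `(x, inl (i, n))` which are not in the domain of `p` (value
`false` there); by `legal` every value at such a place is `inl b`.
`exists_fresh`: otherwise the countable set `p.ctbl` maps onto `Ω` by `e ↦ e.2.1`, so `Ω` is countable,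
but a countable set of elements of `Ω` has a strict upper bound in `Ω`.
`exists_freshN`: otherwise the set `p.small` maps onto `N`, so `#N ≤ 𝔠`.
-/

set_option autoImplicit false

namespace Pool.Agent.CC

open Cardinal Set

universe u v w

variable {Ω N K : Type u} [LinearOrder K]

theorem T03_merge (p : Cond Ω N K) (g : Place Ω N K → Option (Bool ⊕ K))
    (hg : ∀ e v, g e = some v → Legal e v)
    (h1 : {e : K × (Ω × ℕ) | g (e.1, Sum.inl e.2) ≠ none}.Countable)
    (h2 : #{e : K × N | g (e.1, Sum.inr e.2) ≠ none} ≤ 𝔠) :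
    ∃ r : Cond Ω N K, r ≤ p ∧ ∀ e, p.f e = none → r.f e = g e := by
  refine ⟨⟨fun e => (p.f e).or (g e), ?_, ?_, ?_⟩, ?_, ?_⟩
  · intro e v h
    cases hpe : p.f e with
    | none =>
      rw [hpe, Option.none_or] at h
      exact hg e v h
    | some w =>
      rw [hpe, Option.some_or] at h
      rw [← Option.some.inj h]
      exact p.legal e w hpe
  · refine (p.ctbl.union h1).mono ?_
    intro e he
    by_contra hcon
    simp only [Set.mem_union, Set.mem_ofPred_eq, not_or, not_not] at hcon
    apply he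
    show (p.f (e.1, Sum.inl e.2)).or (g (e.1, Sum.inl e.2)) = none
    rw [hcon.1, hcon.2]
    rfl
  · have hsub : {e : K × N | (p.f (e.1, Sum.inr e.2)).or (g (e.1, Sum.inr e.2)) ≠ none} ⊆
        {e : K × N | p.f (e.1, Sum.inr e.2) ≠ none} ∪ {e : K × N | g (e.1, Sum.inr e.2) ≠ none} := by
      intro e he
      by_contra hcon
      simp only [Set.mem_union, Set.mem_ofPred_eq, not_or, not_not] at hcon
      apply he
      rw [hcon.1, hcon.2]
      rfl
    exact (mk_le_mk_of_subset hsub).trans ((mk_union_le _ _).trans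
      (Cardinal.add_le_of_le aleph0_le_continuum p.small h2))
  · intro e v h
    show (p.f e).or (g e) = some v
    rw [h, Option.some_or]
  · intro e h
    show (p.f e).or (g e) = g e
    rw [h, Option.none_or]

theorem exists_insert (p : Cond Ω N K) (e : Place Ω N K) (v : Bool ⊕ K) (hl : Legal e v)
    (h : p.f e = none) : ∃ r ≤ p, r.f e = some v := by
  classical
  obtain ⟨r, hr, hr'⟩ := T03_merge p (fun e' => if e' = e then some v else none)
    (by
      intro e' v' h'
      by_cases he : e' = e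
      · rw [if_pos he] at h'
        rw [he, ← Option.some.inj h']
        exact hl
      · rw [if_neg he] at h'
        exact absurd h' (by simp))
    (by
      refine Set.Subsingleton.countable ?_
      intro a ha b hb
      have ha' : ((a.1, Sum.inl a.2) : Place Ω N K) = e := by
        by_contra hcon
        exact ha (if_neg hcon)
      have hb' : ((b.1, Sum.inl b.2) : Place Ω N K) = e := by
        by_contra hcon
        exact hb (if_neg hcon)
      have hab := ha'.trans hb'.symm
      rw [Prod.mk.injEq, Sum.inl.injEq] at hab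
      exact Prod.ext hab.1 hab.2)
    (by
      have hs : {e' : K × N | (if ((e'.1, Sum.inr e'.2) : Place Ω N K) = e then some v else none) ≠
          none}.Subsingleton := by
        intro a ha b hb
        have ha' : ((a.1, Sum.inr a.2) : Place Ω N K) = e := by
          by_contra hcon
          exact ha (if_neg hcon)
        have hb' : ((b.1, Sum.inr b.2) : Place Ω N K) = e := by
          by_contra hcon
          exact hb (if_neg hcon)
        have hab := ha'.trans hb'.symm
        rw [Prod.mk.injEq, Sum.inr.injEq] at hab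
        exact Prod.ext hab.1 hab.2
      exact (Cardinal.mk_le_one_iff_set_subsingleton.2 hs).trans
        (Cardinal.one_le_aleph0.trans aleph0_le_continuum))
  exact ⟨r, hr, by rw [hr' e h, if_pos rfl]⟩

/-- filling the free places in the column `(x, inl (i, n))` -/
theorem T03_fill (p : Cond Ω N K) (x : K) (i : Ω) (r : ℕ → Bool) :
    ∃ q ≤ p, ∀ n, p.f (x, Sum.inl (i, n)) = none →
      q.f (x, Sum.inl (i, n)) = some (Sum.inl (r n)) := by
  classical
  obtain ⟨q, hq, hq'⟩ := T03_merge p
    (fun e' => match e' with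
      | (y, Sum.inl (j, n)) => if y = x ∧ j = i then some (Sum.inl (r n)) else none
      | (_, Sum.inr _) => none)
    (by
      rintro ⟨y, ⟨j, n⟩ | β⟩ v' h'
      · by_cases he : y = x ∧ j = i
        · simp only [if_pos he] at h'
          rw [← Option.some.inj h']
          exact Legal.bit _ _ _
        · simp only [if_neg he] at h'
          exact absurd h' (by simp)
      · exact absurd h' (by simp))
    (by
      refine (Set.countable_range (fun n : ℕ => ((x, (i, n)) : K × (Ω × ℕ)))).mono ?_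
      rintro ⟨y, ⟨j, n⟩⟩ he
      have he' : y = x ∧ j = i := by
        by_contra hcon
        exact he (if_neg hcon)
      exact ⟨n, by rw [he'.1, he'.2]⟩)
    (by
      have hs : {e' : K × N | ((none : Option (Bool ⊕ K)) ≠ none)} = ∅ := by
        ext e'
        simp
      refine le_of_eq_of_le (congrArg (fun S : Set (K × N) => #S) hs) ?_
      simp)
  refine ⟨q, hq, fun n hn => ?_⟩
  rw [hq' _ hn]
  exact if_pos ⟨rfl, rfl⟩

theorem exists_fill (p : Cond Ω N K) (x : K) (i : Ω) (h : ∀ n, p.f (x, Sum.inl (i, n)) = none)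
    (r : ℕ → Bool) : ∃ q ≤ p, ∀ n, q.f (x, Sum.inl (i, n)) = some (Sum.inl (r n)) := by
  obtain ⟨q, hq, hq'⟩ := T03_fill p x i r
  exact ⟨q, hq, fun n => hq' n (h n)⟩

theorem exists_fillAll (p : Cond Ω N K) (x : K) (i : Ω) :
    ∃ q ≤ p, ∃ r : ℕ → Bool, ∀ n, q.f (x, Sum.inl (i, n)) = some (Sum.inl (r n)) := by
  obtain ⟨q, hq, hq'⟩ := T03_fill p x i (fun _ => false)
  have key : ∀ n, ∃ b : Bool, q.f (x, Sum.inl (i, n)) = some (Sum.inl b) := by
    intro n
    cases hpn : p.f (x, Sum.inl (i, n)) with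
    | none => exact ⟨false, hq' n hpn⟩
    | some v =>
      have hl := p.legal _ _ hpn
      cases hl with
      | bit _ _ b => exact ⟨b, hq _ _ hpn⟩
  choose r hr using key
  exact ⟨q, hq, r, hr⟩

theorem exists_fresh [LinearOrder Ω] (hΩ : ∀ A : Set Ω, A.Countable → ∃ b, ∀ i ∈ A, i < b)
    (p : Cond Ω N K) : ∃ i : Ω, ∀ x n, p.f (x, Sum.inl (i, n)) = none := by
  by_contra hcon
  push Not at hcon
  obtain ⟨b, hb⟩ := hΩ ((fun e : K × (Ω × ℕ) => e.2.1) ''
    {e : K × (Ω × ℕ) | p.f (e.1, Sum.inl e.2) ≠ none}) (p.ctbl.image _)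
  obtain ⟨x, n, hxn⟩ := hcon b
  exact lt_irrefl b (hb b ⟨(x, (b, n)), hxn, rfl⟩)

theorem exists_freshN (hN : 𝔠 < #N) (p : Cond Ω N K) : ∃ β : N, ∀ x, p.f (x, Sum.inr β) = none := by
  by_contra hcon
  push Not at hcon
  choose g hg using hcon
  have hinj : Function.Injective
      (fun β : N => (⟨(g β, β), hg β⟩ : {e : K × N | p.f (e.1, Sum.inr e.2) ≠ none})) := by
    intro β β' h
    exact congrArg (fun e : {e : K × N | p.f (e.1, Sum.inr e.2) ≠ none} => e.1.2) h
  exact absurd ((Cardinal.mk_le_of_injective hinj).trans p.small) (not_le.2 hN)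

end Pool.Agent.CC
end

section

/-!
# TASK T05: initial segments of `N` are collapsed to `Ω`

Fix `x₀ : K`. PROOF. Let `b : N`. As `#(Iio b) ≤ 𝔠 = #(ℕ → Bool)` there is a map `φ : (ℕ → Bool) → N` which
takes all values in `Iio b` (if `Iio b` is empty any constant map will do, `b : N` exists; universes:
`Cardinal.lift_mk_le'` or `ULift`). The name: `FunName.ofMono` with
`app i β p := ∃ r : ℕ → Bool, (∀ n, p.f (x₀, inl (i, n)) = some (inl (r n))) ∧ φ r = β`; total by
`exists_fillAll`. Given `v < b`, `q ≤ p`: take `i` with `exists_fresh`, `r` with `φ r = v`,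
`exists_fill`, and `dn_of`.
-/

set_option autoImplicit false

namespace Pool.Agent.CC

open Cardinal Set

universe u v w

variable {Ω N K : Type u} [LinearOrder K]

private theorem T05_map [LinearOrder N] (b : N) (h : #(Iio b) ≤ 𝔠) :
    ∃ φ : (ℕ → Bool) → N, ∀ v : Iio b, ∃ r, φ r = (v : N) := by
  classical
  have h1 : Cardinal.lift.{0} #(Iio b) ≤ Cardinal.lift.{u} #(ℕ → Bool) := by
    rw [Cardinal.lift_id'.{0, u} #(Iio b)]
    refine h.trans (le_of_eq ?_)
    simp
  obtain ⟨f⟩ := Cardinal.lift_mk_le'.1 h1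
  refine ⟨fun r => if hr : ∃ v : Iio b, f v = r then (hr.choose : N) else b, fun v => ⟨f v, ?_⟩⟩
  have hr : ∃ w : Iio b, f w = f v := ⟨v, rfl⟩
  have h2 : hr.choose = v := f.injective hr.choose_spec
  simp only [hr, dif_pos]
  rw [h2]

theorem collapsed_N [LinearOrder Ω] [LinearOrder N]
    (hΩ : ∀ A : Set Ω, A.Countable → ∃ b, ∀ i ∈ A, i < b)
    (hN : ∀ β : N, #(Iio β) ≤ 𝔠) [Nonempty K] (p : Cond Ω N K) :
    fCollapsed (Cond Ω N K) Ω N p := by
  obtain ⟨x₀⟩ := ‹Nonempty K›
  intro b q _
  obtain ⟨φ, hφ⟩ := T05_map b (hN b)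
  have mono : ∀ (i : Ω) (β : N) (p q : Cond Ω N K), q ≤ p →
      (∃ r : ℕ → Bool, (∀ n, p.f (x₀, Sum.inl (i, n)) = some (Sum.inl (r n))) ∧ φ r = β) →
      ∃ r : ℕ → Bool, (∀ n, q.f (x₀, Sum.inl (i, n)) = some (Sum.inl (r n))) ∧ φ r = β := by
    rintro i β p q hq ⟨r, hr, h⟩
    exact ⟨r, fun n => hq _ _ (hr n), h⟩
  refine ⟨q, le_rfl, FunName.ofMono (fun (i : Ω) (β : N) (p : Cond Ω N K) =>
    ∃ r : ℕ → Bool, (∀ n, p.f (x₀, Sum.inl (i, n)) = some (Sum.inl (r n))) ∧ φ r = β) mono ?_ ?_, ?_⟩
  · rintro i β γ p ⟨r, hr, rfl⟩ ⟨s, hs, rfl⟩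
    congr 1
    funext n
    have h := (hr n).symm.trans (hs n)
    simpa using h
  · intro i p
    obtain ⟨q, hq, r, hr⟩ := exists_fillAll p x₀ i
    exact ⟨q, hq, φ r, r, hr, rfl⟩
  · intro v q' _
    obtain ⟨i, hi⟩ := exists_fresh hΩ q'
    obtain ⟨r, hr⟩ := hφ v
    obtain ⟨q'', hq'', h⟩ := exists_fill q' x₀ i (hi x₀) r
    exact ⟨q'', hq'', i, dn_of (mono i v) ⟨r, h, hr⟩⟩

end Pool.Agent.CC
end

section

/-!
# TASK T06: initial segments of `K` are collapsed to `N`

PROOF. Let `b : K`. The name: `FunName.ofMono` with `app β v p := p.f (b, inr β) = some (inr v)`; total: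
if `p.f (b, inr β) = some w` then `w = inr v` by `legal`; if it is `none` use `exists_insert` with
`v = b` (`Legal.val`, `b ≤ b`). Given `v < b`, `q ≤ p`: take `β` with `exists_freshN`, `exists_insert`,
`dn_of`.
-/

set_option autoImplicit false

namespace Pool.Agent.CC

open Cardinal Set

universe u v w

variable {Ω N K : Type u} [LinearOrder K]

private theorem T06_mono (b : K) (β : N) (v : K) (p q : Cond Ω N K) (hq : q ≤ p)
    (h : p.f (b, Sum.inr β) = some (Sum.inr v)) : q.f (b, Sum.inr β) = some (Sum.inr v) :=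
  hq _ _ h

private theorem T06_tot (b : K) (β : N) (p : Cond Ω N K) :
    ∃ q ≤ p, ∃ v : K, q.f (b, Sum.inr β) = some (Sum.inr v) := by
  rcases h : p.f (b, Sum.inr β) with _ | w
  · obtain ⟨r, hr, hr'⟩ := exists_insert p (b, Sum.inr β) (Sum.inr b) (Legal.val b β b le_rfl) h
    exact ⟨r, hr, b, hr'⟩
  · have hl := p.legal _ _ h
    cases hl with
    | val _ _ v hv => exact ⟨p, le_rfl, v, h⟩

theorem collapsed_K [LinearOrder N] (hN : 𝔠 < #N) (p : Cond Ω N K) :
    fCollapsed (Cond Ω N K) N K p := by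
  intro b q _
  refine ⟨q, le_rfl, FunName.ofMono (fun (β : N) (v : K) (p : Cond Ω N K) => p.f (b, Sum.inr β) = some (Sum.inr v))
    (T06_mono b) ?_ (T06_tot b), ?_⟩
  · intro β v w p' h1 h2
    have h1' : p'.f (b, Sum.inr β) = some (Sum.inr v) := h1
    have h2' : p'.f (b, Sum.inr β) = some (Sum.inr w) := h2
    rw [h1'] at h2'
    exact Sum.inr.inj (Option.some.inj h2')
  · intro v q' _
    obtain ⟨β, hβ⟩ := exists_freshN hN q'
    obtain ⟨r, hr, hr'⟩ := exists_insert q' (b, Sum.inr β) (Sum.inr (v : K)) (Legal.val b β v (le_of_lt v.2)) (hβ b)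
    exact ⟨r, hr, β, dn_of (φ := fun p : Cond Ω N K => p.f (b, Sum.inr β) = some (Sum.inr (v : K)))
      (T06_mono b β v) hr'⟩

end Pool.Agent.CC
end

section

/-!
# TASK T04: no new sequences; countable sets are bounded in `Ω`

PROOF.
`decide_seq`: by `h.tot` construct `p = q 0 ≥ q 1 ≥ ...` and `g n` with `h.app n (g n) (q (n + 1))`
(`choose` and `Nat.rec`); the lower bound `q` of `exists_glue_seq` and persistence (`(h.reg _ _).1`).
`decide_set`: for a name `A` of a subset of `ℕ` apply `decide_seq` to the function name with values in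
`Prop` or `Bool` (truth value of `n ∈ A`), or construct the sequence directly: for each `n` and `p` there
is a `q ≤ p` with `A.mem n q` or `fNot (A.mem n) q`.
`bounded_nat`: `fBounded` for `ℕ`, `Ω`: given `h` and `q ≤ p` take `r ≤ q` and `g` by `decide_seq`, the
range of `g` is countable, so it has a strict upper bound `b`.
-/

set_option autoImplicit false

namespace Pool.Agent.CC

open Cardinal Set

universe u v w

variable {Ω N K : Type u} [LinearOrder K]

/-- If at each stage densely many conditions force some alternative, then all the stages can be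
decided below `p`. -/
private theorem T04_seq {A : Type v} (F : ℕ → A → Cond Ω N K → Prop)
    (mono : ∀ n a p q, q ≤ p → F n a p → F n a q)
    (tot : ∀ n p, ∃ q ≤ p, ∃ a, F n a q) (p : Cond Ω N K) :
    ∃ q ≤ p, ∃ g : ℕ → A, ∀ n, F n (g n) q := by
  choose nx hnx val hval using tot
  let s : ℕ → Cond Ω N K := fun n => Nat.rec p (fun n q => nx n q) n
  have hs : ∀ n, s (n + 1) = nx n (s n) := fun _ => rfl
  have hd : ∀ n, s (n + 1) ≤ s n := fun n => by
    rw [hs]
    exact hnx n (s n)
  obtain ⟨r, hr, -⟩ := exists_glue_seq s hd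
  refine ⟨r, hr 0, fun n => val n (s n), fun n => ?_⟩
  refine mono n _ (s (n + 1)) r (hr (n + 1)) ?_
  rw [hs]
  exact hval n (s n)

theorem decide_seq {A : Type v} (h : FunName (Cond Ω N K) ℕ A) (p : Cond Ω N K) :
    ∃ q ≤ p, ∃ g : ℕ → A, ∀ n, h.app n (g n) q :=
  T04_seq h.app (fun n a p q hq hp => (h.reg n a).1 p q hq hp) h.tot p

theorem decide_set (A : SetName (Cond Ω N K) ℕ) (p : Cond Ω N K) :
    ∃ q ≤ p, ∃ g : ℕ → Bool, ∀ n, (g n = true → A.mem n q) ∧ (g n = false → fNot (A.mem n) q) := by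
  refine T04_seq (fun n (b : Bool) q => (b = true → A.mem n q) ∧ (b = false → fNot (A.mem n) q))
    ?_ ?_ p
  · intro n b p q hq hp
    exact ⟨fun hb => (A.reg n).1 p q hq (hp.1 hb), fun hb r hr => hp.2 hb r (hr.trans hq)⟩
  · intro n p
    by_cases h : ∃ q ≤ p, A.mem n q
    · obtain ⟨q, hq, hq'⟩ := h
      exact ⟨q, hq, true, fun _ => hq', fun hb => by simp at hb⟩
    · refine ⟨p, le_rfl, false, fun hb => by simp at hb, fun _ q hq hq' => h ⟨q, hq, hq'⟩⟩

theorem bounded_nat [LinearOrder Ω] (hΩ : ∀ A : Set Ω, A.Countable → ∃ b, ∀ i ∈ A, i < b)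
    (p : Cond Ω N K) : fBounded (Cond Ω N K) ℕ Ω p := by
  intro h q _
  obtain ⟨r, hr, g, hg⟩ := decide_seq h q
  obtain ⟨b, hb⟩ := hΩ (range g) (countable_range g)
  refine ⟨r, hr, b, fun n t ht => ⟨t, le_rfl, ⟨g n, hb (g n) (mem_range_self n)⟩, ?_⟩⟩
  exact (h.reg n (g n)).1 r t ht (hg n)

end Pool.Agent.CC
end

section

/-!
# TASK T07: the continuum hypothesis

Fix `x₀ : K`. PROOF. The name `S := SetName.ofMono fun (i, n) p => p.f (x₀, inl (i, n)) = some (inl true)`.
Let `A` be a name of a subset of `ℕ`, `q ≤ p`: `decide_set` gives `q' ≤ q` and `g`; take `i` by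
`exists_fresh` for `q'`, fill with `g` by `exists_fill`: `r ≤ q'`, `r.f (x₀, inl (i, n)) = some (inl (g n))`.
If `g n = true` both truth values hold at all conditions below `r`. If `g n = false`: `A.mem n` fails at
all conditions below `r`, and `dn (...)` fails as no condition below `r` has the value `inl true` there.
-/

set_option autoImplicit false

namespace Pool.Agent.CC

open Cardinal Set

universe u v w

variable {Ω N K : Type u} [LinearOrder K]

theorem allSubsets [LinearOrder Ω] (hΩ : ∀ A : Set Ω, A.Countable → ∃ b, ∀ i ∈ A, i < b)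
    [Nonempty K] (p : Cond Ω N K) : fAllSubsets Ω (Cond Ω N K) p := by
  obtain ⟨x₀⟩ := (inferInstance : Nonempty K)
  intro q _
  refine ⟨q, le_rfl, SetName.ofMono (P := Cond Ω N K) (X := Ω × ℕ)
    (fun e p => p.f (x₀, Sum.inl (e.1, e.2)) = some (Sum.inl true)), ?_⟩
  intro A q2 _
  obtain ⟨q3, hq3, g, hg⟩ := decide_set A q2
  obtain ⟨i, hi⟩ := exists_fresh hΩ q3
  obtain ⟨r, hr, hr2⟩ := exists_fill q3 x₀ i (hi x₀) g
  refine ⟨r, hr.trans hq3, i, ?_⟩
  intro n
  cases hgn : g n with
  | true =>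
    refine ⟨fun t ht _ => (A.reg n).1 _ _ (ht.trans hr) ((hg n).1 hgn), fun t ht _ => ?_⟩
    have h1 : t.f (x₀, Sum.inl (i, n)) = some (Sum.inl true) := by
      have h2 := hr2 n
      rw [hgn] at h2
      exact ht _ _ h2
    intro t' ht'
    exact ⟨t', le_rfl, ht' _ _ h1⟩
  | false =>
    refine ⟨fun t ht h => ?_, fun t ht h => ?_⟩
    · exfalso
      obtain ⟨t', ht', h3⟩ := h t le_rfl
      have h1 : t'.f (x₀, Sum.inl (i, n)) = some (Sum.inl false) := by
        have h2 := hr2 n
        rw [hgn] at h2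
        exact (ht'.trans ht) _ _ h2
      have h4 : t'.f (x₀, Sum.inl (i, n)) = some (Sum.inl true) := h3
      rw [h1] at h4
      simp at h4
    · exact absurd h ((hg n).2 hgn t (ht.trans hr))

end Pool.Agent.CC
end

section

/-!
# TASK T08: many subsets of `Ω`

PROOF. The name `S := SetName.ofMono fun (x, i) p => p.f (x, inl (i, 0)) = some (inl true)`. Let `y < x`,
`p` a condition, and suppose `q ≤ p` forces that the rows `x` and `y` are equal. Take `i` by
`exists_fresh` for `q`; `q' ≤ q` with the value `inl true` at `(x, inl (i, 0))` and `q'' ≤ q'` with the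
value `inl false` at `(y, inl (i, 0))` (`exists_insert` twice, the places are different as `y ≠ x`).
`S.mem (x, i) q''` holds, so `S.mem (y, i) q''`, but no condition below `q''` has the value `inl true`
at `(y, inl (i, 0))`. (For `exists_insert` the place `(y, ...)` must be undefined in `q'`; if `exists_insert`
is inconvenient, insert both values at once with `exists_join`, or strengthen your own copy of the lemma by
`∀ e' ≠ e, r.f e' = p.f e'`.)
-/

set_option autoImplicit false

namespace Pool.Agent.CC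

open Cardinal Set

universe u v w

variable {Ω N K : Type u} [LinearOrder K]

/-- one new bit; the other places do not change -/
private theorem T08_insert (p : Cond Ω N K) (x : K) (y : Ω × ℕ) (b : Bool) (h : p.f (x, Sum.inl y) = none) :
    ∃ r ≤ p, r.f (x, Sum.inl y) = some (Sum.inl b) ∧ ∀ e, e ≠ (x, Sum.inl y) → r.f e = p.f e := by
  classical
  refine ⟨⟨fun e => if e = (x, Sum.inl y) then some (Sum.inl b) else p.f e, ?_, ?_, ?_⟩, ?_, ?_, ?_⟩
  · intro e v hv
    by_cases he : e = (x, Sum.inl y)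
    · subst he
      rw [if_pos rfl, Option.some.injEq] at hv
      subst hv
      exact Legal.bit x y b
    · rw [if_neg he] at hv
      exact p.legal e v hv
  · refine (p.ctbl.union (Set.countable_singleton (x, y))).mono ?_
    intro e he
    by_cases h1 : (e.1, (Sum.inl e.2 : (Ω × ℕ) ⊕ N)) = (x, Sum.inl y)
    · right
      have h2 := congrArg Prod.fst h1
      have h3 := Sum.inl.inj (congrArg Prod.snd h1)
      exact Prod.ext h2 h3
    · left
      have he' : (if (e.1, (Sum.inl e.2 : (Ω × ℕ) ⊕ N)) = (x, Sum.inl y) then some (Sum.inl b)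
        else p.f (e.1, Sum.inl e.2)) ≠ none := he
      rw [if_neg h1] at he'
      exact he'
  · refine (mk_le_mk_of_subset ?_).trans p.small
    intro e he
    have h1 : ¬ (e.1, (Sum.inr e.2 : (Ω × ℕ) ⊕ N)) = (x, Sum.inl y) := by
      intro h1
      exact absurd (congrArg Prod.snd h1) (by simp)
    have he' : (if (e.1, (Sum.inr e.2 : (Ω × ℕ) ⊕ N)) = (x, Sum.inl y) then some (Sum.inl b)
      else p.f (e.1, Sum.inr e.2)) ≠ none := he
    rw [if_neg h1] at he'
    exact he'
  · rw [Cond.le_def]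
    intro e v hv
    by_cases he : e = (x, Sum.inl y)
    · subst he
      rw [h] at hv
      exact absurd hv (by simp)
    · show (if e = (x, Sum.inl y) then some (Sum.inl b) else p.f e) = some v
      rw [if_neg he]
      exact hv
  · show (if (x, Sum.inl y) = (x, (Sum.inl y : (Ω × ℕ) ⊕ N)) then some (Sum.inl b) else p.f (x, Sum.inl y)) = _
    rw [if_pos rfl]
  · intro e he
    show (if e = (x, Sum.inl y) then some (Sum.inl b) else p.f e) = p.f e
    rw [if_neg he]

theorem manySubsets [LinearOrder Ω] (hΩ : ∀ A : Set Ω, A.Countable → ∃ b, ∀ i ∈ A, i < b)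
    (p : Cond Ω N K) : fManySubsets Ω K (Cond Ω N K) p := by
  intro q _
  refine ⟨q, le_rfl, SetName.ofMono fun xi p => p.f (xi.1, Sum.inl (xi.2, 0)) = some (Sum.inl true), ?_⟩
  intro x y q1 _ H
  obtain ⟨i, hi⟩ := exists_fresh hΩ q1
  obtain ⟨q2, hq2, h2, h2'⟩ := T08_insert q1 x (i, 0) true (hi x 0)
  have hne : ((y : K), (Sum.inl (i, 0) : (Ω × ℕ) ⊕ N)) ≠ (x, Sum.inl (i, 0)) := by
    intro h
    exact absurd (congrArg Prod.fst h) (ne_of_lt y.2)
  obtain ⟨q3, hq3, h3, -⟩ := T08_insert q2 (y : K) (i, 0) false (by rw [h2' _ hne]; exact hi _ 0)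
  have hx : (SetName.ofMono fun (xi : K × Ω) (p : Cond Ω N K) =>
      p.f (xi.1, Sum.inl (xi.2, 0)) = some (Sum.inl true)).mem (x, i) q3 := by
    intro q4 hq4
    exact ⟨q4, le_rfl, hq4 _ _ (hq3 _ _ h2)⟩
  obtain ⟨r, hr, hr'⟩ := (H i).1 q3 (hq3.trans hq2) hx q3 le_rfl
  have h5 : r.f ((y : K), Sum.inl (i, 0)) = some (Sum.inl false) := hr _ _ h3
  have h6 : r.f ((y : K), Sum.inl (i, 0)) = some (Sum.inl true) := hr'
  rw [h5] at h6
  exact absurd h6 (by simp)

end Pool.Agent.CC
end

section

/-!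
# TASK T02: unions of at most continuum many collapsing parts

PROOF.
`exists_glue_col`: `exists_glue` applied to `s i := (c i).col`. The first set is empty (`col` has no
places `(x, inl _)`). The second set is contained in the union over `i` of sets of size `≤ 𝔠` (`small`),
`#ι ≤ 𝔠`: `mk_iUnion_le_sum_mk`, `𝔠 * 𝔠 = 𝔠`.
`le_add_col`: if `q.add ≤ p.add` and `q.col ≤ p.col` then `q ≤ p` (every place is left or right).
`exists_add_col`: the union of the `add` part of `p` and the `col` part of `c`: they have disjoint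
domains, so `Comp`; use `exists_join`.
-/

set_option autoImplicit false

namespace Pool.Agent.CC

open Cardinal Set

universe u v w

variable {Ω N K : Type u} [LinearOrder K]

theorem exists_glue_col {ι : Type u} (hι : #ι ≤ 𝔠) (c : ι → Cond Ω N K)
    (hc : ∀ i j, Comp (c i).col (c j).col) :
    ∃ r : Cond Ω N K, ∀ e v, r.f e = some v ↔ ∃ i, (c i).col.f e = some v := by
  refine exists_glue (fun i => (c i).col) hc ?_ ?_
  · have h : {e : K × (Ω × ℕ) | ∃ i, ((c i).col).f (e.1, Sum.inl e.2) ≠ none} = ∅ := by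
      ext e
      simp only [mem_ofPred_eq, mem_empty_iff_false, iff_false]
      rintro ⟨i, hi⟩
      obtain ⟨v, hv⟩ := Option.ne_none_iff_exists'.1 hi
      have h1 := (Cond.cut_eq.1 hv).1
      simp at h1
    rw [h]
    exact countable_empty
  · have hsub : {e : K × N | ∃ i, ((c i).col).f (e.1, Sum.inr e.2) ≠ none} ⊆
        ⋃ i, {e : K × N | (c i).f (e.1, Sum.inr e.2) ≠ none} := by
      rintro e ⟨i, hi⟩
      obtain ⟨v, hv⟩ := Option.ne_none_iff_exists'.1 hi
      refine mem_iUnion.2 ⟨i, ?_⟩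
      change (c i).f (e.1, Sum.inr e.2) ≠ none
      rw [(Cond.cut_eq.1 hv).2]
      simp
    refine (mk_le_mk_of_subset hsub).trans (mk_iUnion_le_sum_mk.trans ?_)
    refine (Cardinal.sum_le_sum _ (fun _ => 𝔠) fun i => (c i).small).trans ?_
    rw [Cardinal.sum_const']
    exact (mul_le_mul_left hι 𝔠).trans continuum_mul_self.le

theorem Cond.le_add_col {p q : Cond Ω N K} (h1 : q.add ≤ p.add) (h2 : q.col ≤ p.col) : q ≤ p := by
  intro e v hv
  rcases h : e.2 with y | y
  · have hl : e ∈ {e : Place Ω N K | e.2.isLeft = true} := by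
      change e.2.isLeft = true
      rw [h]; rfl
    have h3 : p.add.f e = some v := Cond.cut_eq.2 ⟨hl, hv⟩
    exact (Cond.cut_eq.1 (h1 e v h3)).2
  · have hl : e ∈ {e : Place Ω N K | e.2.isRight = true} := by
      change e.2.isRight = true
      rw [h]; rfl
    have h3 : p.col.f e = some v := Cond.cut_eq.2 ⟨hl, hv⟩
    exact (Cond.cut_eq.1 (h2 e v h3)).2

/-- the condition with the first part of `p` and the second part of `c` -/
theorem exists_add_col (p c : Cond Ω N K) :
    ∃ r : Cond Ω N K, r.add = p.add ∧ r.col = c.col := by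
  have hdis : ∀ (e : Place Ω N K), e.2.isLeft = true → e.2.isRight = true → False := by
    intro e h1 h2
    rcases h : e.2 with y | y
    · rw [h] at h2
      simp at h2
    · rw [h] at h1
      simp at h1
  have hcomp : Comp p.add c.col := by
    intro e v w h1 h2
    exact (hdis e (Cond.cut_eq.1 h1).1 (Cond.cut_eq.1 h2).1).elim
  obtain ⟨r, -, -, hr⟩ := exists_join hcomp
  refine ⟨r, ?_, ?_⟩
  · apply le_antisymm
    · intro e v hv
      exact Cond.cut_eq.2 ⟨(Cond.cut_eq.1 hv).1, (hr e v).2 (Or.inl hv)⟩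
    · intro e v hv
      obtain ⟨h1, h2⟩ := Cond.cut_eq.1 hv
      rcases (hr e v).1 h2 with h3 | h3
      · exact h3
      · exact (hdis e h1 (Cond.cut_eq.1 h3).1).elim
  · apply le_antisymm
    · intro e v hv
      exact Cond.cut_eq.2 ⟨(Cond.cut_eq.1 hv).1, (hr e v).2 (Or.inr hv)⟩
    · intro e v hv
      obtain ⟨h1, h2⟩ := Cond.cut_eq.1 hv
      rcases (hr e v).1 h2 with h3 | h3
      · exact (hdis e (Cond.cut_eq.1 h3).1 h1).elim
      · exact h3

end Pool.Agent.CC
end
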