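import Pool.Agent.Lib.MP_27cb06_lc.H.Cond

section

/-!
# TASK A1: lists of elements of the sets X, closure under functions, limits

PROOF. `normal_list`. Choose for almost all `X` a list `l X`. (a) there is `k : ℕ` such that for almost all `X`
the length of `l X` is `k`: otherwise for every `k` almost all `X` have `(l X).length ≠ k` (`U` is an
ultrafilter: `Ultrafilter.eventually_not`), and by `complete` for `ι = ULift ℕ` (`unc`) almost all `X` have
length different from all `k`, but `U` is proper (`Filter.Eventually.exists`). (b) induction on `k`, for all `A`: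
if for almost all `X` there is a list `l` of length `k` with members in `X` and `A X l` then there is an `l` with
`A X l` for almost all `X`. `k = 0`: `l = []`. `k + 1`: choose for such `X` the list `x :: l'`, let `f X = x`;
`normal`: `f X = x₀` for almost all `X`; apply the induction hypothesis to `fun X l' => A X (x₀ :: l')`.
`closed_list`: otherwise almost all `X` (ultrafilter) have a list `l` of members with `F l ∉ X`; by
`normal_list` with `A X l := F l ∉ X` there is one `l` with `F l ∉ X` for almost all `X`, contradicting `fine`.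
`limit_option`: either `g X = none` for almost all `X` (take `none`) or `g X ≠ none` for almost all `X`; let
`f X` be the value (default: any element); `normal`.
`exists_of_list` (the converse direction, for later use): contrapositive of `normal_list`: if for every list `l`
almost all `X` satisfy `B X l` then for almost all `X` every list `l` of members of `X` satisfies `B X l`
(apply `normal_list` to the negation).
-/

set_option autoImplicit false

namespace Pool.Agent.HG

open Cardinal Set Pool.Agent.CC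

universe u v w

variable {L : Type u} [LinearOrder L] [WellFoundedLT L] {c m n : L} {U : Ultrafilter (Set L)}

private theorem A1_len (hU : Huge m U) (k : ℕ) : ∀ A : Set L → List L → Prop,
    (∀ᶠ X in (U : Filter (Set L)), ∃ l : List L, l.length = k ∧ (∀ x ∈ l, x ∈ (X : Set L)) ∧ A X l) →
    ∃ l : List L, ∀ᶠ X in (U : Filter (Set L)), A X l := by
  classical
  induction k with
  | zero =>
    intro A h
    refine ⟨[], h.mono ?_⟩
    rintro X ⟨l, hl, -, hA⟩
    rw [List.length_eq_zero_iff] at hl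
    rwa [hl] at hA
  | succ k ih =>
    intro A h
    let f : Set L → L := fun X =>
      if hX : ∃ x : L, x ∈ X ∧ ∃ l : List L, l.length = k ∧ (∀ y ∈ l, y ∈ X) ∧ A X (x :: l) then hX.choose
      else m
    have hf : ∀ᶠ X in (U : Filter (Set L)), f X ∈ X ∧
        ∃ l : List L, l.length = k ∧ (∀ y ∈ l, y ∈ X) ∧ A X (f X :: l) := by
      refine h.mono ?_
      rintro X ⟨l, hl, hm, hA⟩
      have hX : ∃ x : L, x ∈ X ∧ ∃ l : List L, l.length = k ∧ (∀ y ∈ l, y ∈ X) ∧ A X (x :: l) := by
        cases l with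
        | nil => simp at hl
        | cons x l =>
          refine ⟨x, hm x (by simp), l, by simpa using hl, fun y hy => hm y (by simp [hy]), hA⟩
      have h0 : f X = hX.choose := dif_pos hX
      rw [h0]
      exact hX.choose_spec
    obtain ⟨x₀, hx₀⟩ := hU.normal f (hf.mono fun X hX => hX.1)
    obtain ⟨l, hl⟩ := ih (fun X l => A X (x₀ :: l)) (by
      refine (hf.and hx₀).mono ?_
      rintro X ⟨⟨-, h1⟩, h2⟩
      rwa [h2] at h1)
    exact ⟨x₀ :: l, hl⟩

theorem normal_list (hU : Huge m U) (A : Set L → List L → Prop)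
    (h : ∀ᶠ X in (U : Filter (Set L)), ∃ l : List L, (∀ x ∈ l, x ∈ (X : Set L)) ∧ A X l) :
    ∃ l : List L, ∀ᶠ X in (U : Filter (Set L)), A X l := by
  have h1 : ∃ k : ℕ, ∀ᶠ X in (U : Filter (Set L)), ∃ l : List L, l.length = k ∧
      (∀ x ∈ l, x ∈ (X : Set L)) ∧ A X l := by
    by_contra h2
    have h3 := hU.complete (ULift.{u} ℕ) (fun i X => ¬ ∃ l : List L, l.length = i.down ∧
      (∀ x ∈ l, x ∈ (X : Set L)) ∧ A X l) (by simpa using hU.unc) (fun i =>
        Ultrafilter.eventually_not.2 fun h5 => h2 ⟨i.down, h5⟩)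
    obtain ⟨X, ⟨l, hl, hA⟩, h4⟩ := (h.and h3).exists
    exact h4 ⟨l.length⟩ ⟨l, rfl, hl, hA⟩
  obtain ⟨k, hk⟩ := h1
  exact A1_len hU k A hk

theorem exists_of_list (hU : Huge m U) (B : Set L → List L → Prop)
    (h : ∀ l : List L, ∀ᶠ X in (U : Filter (Set L)), B X l) :
    ∀ᶠ X in (U : Filter (Set L)), ∀ l : List L, (∀ x ∈ l, x ∈ (X : Set L)) → B X l := by
  by_contra h1
  have h2 := Ultrafilter.eventually_not.2 h1
  obtain ⟨l, hl⟩ := normal_list hU (fun X l => ¬ B X l) (h2.mono fun X hX => by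
    push Not at hX
    exact hX)
  obtain ⟨X, h3, h4⟩ := (hl.and (h l)).exists
  exact h3 h4

theorem closed_list (hU : Huge m U) (F : List L → L) :
    ∀ᶠ X in (U : Filter (Set L)), ∀ l : List L, (∀ x ∈ l, x ∈ (X : Set L)) → F l ∈ X :=
  exists_of_list hU (fun X l => F l ∈ X) fun l => hU.fine (F l)

theorem limit_option (hU : Huge m U) (g : Set L → Option L)
    (hg : ∀ᶠ X in (U : Filter (Set L)), ∀ b, g X = some b → b ∈ (X : Set L)) :
    ∃ o : Option L, ∀ᶠ X in (U : Filter (Set L)), g X = o := by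
  by_cases h : ∀ᶠ X in (U : Filter (Set L)), g X = none
  · exact ⟨none, h⟩
  have h1 := Ultrafilter.eventually_not.2 h
  have h2 : ∀ᶠ X in (U : Filter (Set L)), (g X).getD m ∈ X ∧ g X = some ((g X).getD m) := by
    refine (hg.and h1).mono ?_
    rintro X ⟨h3, h4⟩
    obtain ⟨b, hb⟩ := Option.ne_none_iff_exists'.1 h4
    rw [hb]
    exact ⟨h3 b hb, rfl⟩
  obtain ⟨x, hx⟩ := hU.normal (fun X => (g X).getD m) (h2.mono fun X hX => hX.1)
  refine ⟨some x, (h2.and hx).mono ?_⟩
  rintro X ⟨⟨-, h3⟩, h4⟩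
  rw [h3]
  exact congrArg some h4

end Pool.Agent.HG
end

section

/-!
# TASK A2: almost all X meet the m-th initial segment in an initial segment; enumeration

PROOF. For almost all `X`: `m ∈ X` (`fine`), there is `φ : X ≃o Iio m` (`otp`), and (*) `x ∈ X`, `x < m`,
`y < x` imply `y ∈ X`. (*): otherwise for almost all `X` there is `x ∈ X`, `x < m`, with `¬ Iio x ⊆ X`; by `normal`
(or `normal_list` with lists `[x]`) the same `x` for almost all `X`; but by `complete` with `ι = Iio x`
(`#(Iio x) < #(Iio m)` by `minit`) and `fine` almost all `X` contain all `y < x`.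
Fix such an `X`. Claim: some `y < m` is not in `X`. Otherwise `ψ (i) := φ i` (`i < m`, `i ∈ X`) is a strictly
monotone map `Iio m → Iio m`, so `i ≤ ψ i` for all `i` (`StrictMono.le_apply`, in a well-order), and
`ψ i = φ i < φ m =: β` for all `i < m`, where `m ∈ X`; with `i = β < m`: `β ≤ ψ β < β`, contradiction. Let `α` be
the least `y < m` with `y ∉ X`. For `x < m`: `x ∈ X ↔ x < α` (minimality; and if `x ∈ X`, `α ≤ x` then `α ≠ x` and
`α < x` gives `α ∈ X` by (*)). Put `h i := φ.symm i` for `i < m`, `h i := i` otherwise. `mono`, `mem`, `surj` are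
clear. `fix`: by strong induction on `i < α`: `h j = j` for `j < i`. `i ∈ X`, so `i = h k` with `k < m`; `k < i` is
impossible (`h k = k`), so `i ≤ k` and `h i ≤ h k = i`; if `h i < i` then `h i = h (h i)` by induction, so
`i = h i` by injectivity (`mono`), contradiction.
`Enum.lt_iff`: if `i < α` then `h i = i < m`; if `h i < m` then `h i < α` by `cap`, `mem`, so `h (h i) = h i` and
`h i = i` by injectivity, so `i < α`. `Enum.inj` from `mono`. `Enum.lt_of_lt` from `mono` (trichotomy).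
`above`: `a ∈ X` by `fine` and `cap`.
-/

set_option autoImplicit false

namespace Pool.Agent.HG

open Cardinal Set Pool.Agent.CC

universe u v w

variable {L : Type u} [LinearOrder L] [WellFoundedLT L] {c m n : L} {U : Ultrafilter (Set L)}

theorem exists_enum (hU : Huge m U) :
    ∀ᶠ X in (U : Filter (Set L)), ∃ α h, Enum m X α h := by
  classical
  have star : ∀ᶠ X in (U : Filter (Set L)), ∀ x ∈ (X : Set L), x < m → ∀ y < x, y ∈ X := by
    have h1 := exists_of_list hU (fun X l => ∀ x, l = [x] → x < m → ∀ y < x, y ∈ X) (by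
      intro l
      by_cases hl : ∃ x, l = [x] ∧ x < m
      · obtain ⟨x, rfl, hxm⟩ := hl
        have h2 := hU.complete (Iio x) (fun i X => i.1 ∈ X) (hU.minit x hxm) (fun i => hU.fine i.1)
        filter_upwards [h2] with X hX x' hx' _ y hy
        have h3 : x = x' := by simpa using hx'
        subst h3
        exact hX ⟨y, hy⟩
      · exact Filter.Eventually.of_forall fun X x hx hxm => absurd ⟨x, hx, hxm⟩ hl)
    filter_upwards [h1] with X hX x hx hxm y hy
    exact hX [x] (by simpa using hx) x rfl hxm y hy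
  filter_upwards [hU.fine m, hU.otp, star] with X hmX hotp hst
  obtain ⟨φ⟩ := hotp
  have hex : ∃ y, y < m ∧ y ∉ X := by
    by_contra hcon
    push Not at hcon
    have hψ : StrictMono (fun i : Iio m => φ ⟨i.1, hcon i.1 i.2⟩) := by
      intro i j hij
      apply φ.strictMono
      exact hij
    have h1 := hψ.le_apply (x := φ ⟨m, hmX⟩)
    have h2 : φ ⟨(φ ⟨m, hmX⟩).1, hcon _ (φ ⟨m, hmX⟩).2⟩ < φ ⟨m, hmX⟩ := by
      apply φ.strictMono
      exact (φ ⟨m, hmX⟩).2
    exact absurd h1 (not_le.mpr h2)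
  obtain ⟨α, ⟨hαm, hαX⟩, hmin⟩ := WellFounded.has_min (wellFounded_lt : WellFounded ((· < ·) : L → L → Prop))
    {y | y < m ∧ y ∉ X} hex
  obtain ⟨h, hh⟩ : ∃ h : L → L, ∀ i (hi : i < m), h i = (φ.symm ⟨i, hi⟩).1 :=
    ⟨fun i => if hi : i < m then (φ.symm ⟨i, hi⟩).1 else i, fun i hi => dif_pos hi⟩
  have hcap : ∀ x, x < m → (x ∈ X ↔ x < α) := by
    intro x hx
    constructor
    · intro hxX
      by_contra hc
      rcases eq_or_lt_of_le (not_lt.mp hc) with h1 | h1
      · exact hαX (h1 ▸ hxX)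
      · exact hαX (hst x hxX hx α h1)
    · intro hxα
      by_contra hc
      exact hmin x ⟨hx, hc⟩ hxα
  have hmono : ∀ i j, i < j → j < m → h i < h j := by
    intro i j hij hj
    rw [hh i (hij.trans hj), hh j hj]
    have h1 : φ.symm ⟨i, hij.trans hj⟩ < φ.symm ⟨j, hj⟩ := φ.symm.strictMono hij
    exact h1
  have hmem : ∀ i, i < m → h i ∈ X := by
    intro i hi
    rw [hh i hi]
    exact (φ.symm ⟨i, hi⟩).2
  have hsurj : ∀ x ∈ X, ∃ i, i < m ∧ h i = x := by
    intro x hx
    refine ⟨(φ ⟨x, hx⟩).1, (φ ⟨x, hx⟩).2, ?_⟩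
    rw [hh _ (φ ⟨x, hx⟩).2]
    have h1 : φ.symm ⟨(φ ⟨x, hx⟩).1, (φ ⟨x, hx⟩).2⟩ = ⟨x, hx⟩ := φ.symm_apply_apply _
    rw [h1]
  refine ⟨α, h, hαm, hcap, hmono, hmem, hsurj, ?_⟩
  intro i
  induction i using WellFoundedLT.induction with
  | ind i ih =>
    intro hiα
    have him : i < m := hiα.trans hαm
    obtain ⟨k, hkm, hk⟩ := hsurj i ((hcap i him).mpr hiα)
    rcases lt_trichotomy k i with h1 | h1 | h1
    · have h2 := ih k h1 (h1.trans hiα)
      rw [h2] at hk
      exact absurd hk h1.ne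
    · rw [← h1, hk, h1]
    · have h2 : h i < i := by
        have h3 := hmono i k h1 hkm
        rw [hk] at h3
        exact h3
      have h4 := hmono (h i) i h2 him
      rw [ih (h i) h2 (h2.trans hiα)] at h4
      exact absurd h4 (lt_irrefl _)

theorem Enum.inj {X : Set L} {α : L} {h : L → L} (hE : Enum m X α h) {i j : L} (hi : i < m)
    (hj : j < m) (hij : h i = h j) : i = j := by
  rcases lt_trichotomy i j with h1 | h1 | h1
  · exact absurd hij (hE.mono i j h1 hj).ne
  · exact h1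
  · exact absurd hij.symm (hE.mono j i h1 hi).ne

theorem Enum.lt_of_lt {X : Set L} {α : L} {h : L → L} (hE : Enum m X α h) {i j : L} (hi : i < m)
    (hj : j < m) (hij : h i < h j) : i < j := by
  rcases lt_trichotomy i j with h1 | h1 | h1
  · exact h1
  · exact absurd hij (by rw [h1]; exact lt_irrefl _)
  · exact absurd hij (hE.mono j i h1 hi).asymm

/-- `h i < m` iff `i < α` -/
theorem Enum.lt_iff {X : Set L} {α : L} {h : L → L} (hE : Enum m X α h) {i : L} (hi : i < m) :
    h i < m ↔ i < α := by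
  constructor
  · intro h1
    have h2 : h i < α := (hE.cap _ h1).1 (hE.mem i hi)
    have h3 : h i = i := hE.inj h1 hi (hE.fix _ h2)
    rw [← h3]
    exact h2
  · intro h1
    rw [hE.fix i h1]
    exact hi

/-- every `a < m` is below `α` for almost all `X` -/
theorem above (hU : Huge m U) {a : L} (ha : a < m) :
    ∀ᶠ X in (U : Filter (Set L)), ∀ α h, Enum m X α h → a < α := by
  filter_upwards [hU.fine a] with X hX α h hE
  exact (hE.cap a ha).1 hX

end Pool.Agent.HG
end

section

/-!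
# TASK A3: the cardinal of Iio m is regular and a strong limit

PROOF. `mreg_of`: by `complete` with `ι = A` and `fine` almost all `X` contain `A`; take such an `X` with
`Enum m X α h` (`exists_enum`): every `a ∈ A` has `a < m`, `a ∈ X`, so `a < α` (`cap`), and `α < m`: `b = α`.
`mlim_of`: suppose `#(Iio m) ≤ 2 ^ #(Iio a) = #(Set (Iio a))` and let `φ : L → Set L` be injective on `Iio m`
with values `⊆ Iio a` (or `φ : Iio m ↪ Set (Iio a)`). Choose `αf X`, `hf X` with `Enum m X (αf X) (hf X)` for almost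
all `X`. For every `z < a`: either `z ∈ φ (αf X)` for almost all `X` or `z ∉ φ (αf X)` for almost all `X`; let
`B` be the set of the `z` of the first kind. By `complete` (`ι = Iio a`, `minit`) `φ (αf X) = B` for almost
all `X`; take one such `X₀`: `αf X = αf X₀ =: α₀ < m` for almost all `X` by injectivity. But `α₀ < αf X` for
almost all `X` by `above`. Contradiction.
`mlim'`: let `θ < #(Iio m)`. Then there is an `a < m` with `θ ≤ #(Iio a)`: otherwise `#(Iio a) < θ` for all
`a < m`, so the order type of `Iio m` is `≤ θ.ord` and `#(Iio m) ≤ θ`. So `2 ^ θ ≤ 2 ^ #(Iio a) < #(Iio m)`.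
(`exists_ge_card` is this remark for a general well-order `B`; `L` itself or the subtype `Iio m`. Use
`Ordinal.typein`, `Cardinal.lt_ord`, `Ordinal.type_le_iff'`-style arguments: if all `#(Iio b) < θ` then every
`Ordinal.typein (· < ·) b` is `< θ.ord`, so `Ordinal.type ≤ θ.ord` and `#B = card type ≤ θ`. See `type_eq` in
`Pool/Agent/Lib/MP_27cb06_lc/B07.lean`.) For the version in `Iio m`: apply it to `B = Iio m`; for
`b : Iio m` the set `Iio b` of the subtype has the same cardinality as `Iio (b : L)` (`mk_Iio_sub`).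
-/

set_option autoImplicit false

namespace Pool.Agent.HG

open Cardinal Set Pool.Agent.CC

universe u v w

variable {L : Type u} [LinearOrder L] [WellFoundedLT L] {c m n : L} {U : Ultrafilter (Set L)}

/-- initial segments of the subtype `Iio m` -/
theorem mk_Iio_sub {a : L} (b : Iio a) : #(Iio b) = #(Iio (b : L)) := by
  refine Cardinal.mk_congr ⟨fun x => ⟨x.1.1, x.2⟩, fun y => ⟨⟨y.1, lt_trans y.2 b.2⟩, y.2⟩, ?_, ?_⟩
  · intro x
    rfl
  · intro y
    rfl

theorem exists_ge_card {B : Type u} [LinearOrder B] [WellFoundedLT B] {θ : Cardinal.{u}} (h : θ < #B) :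
    ∃ b : B, θ ≤ #(Iio b) := by
  by_contra hno
  have hno' : ∀ b : B, #(Iio b) < θ := fun b => not_le.1 fun hb => hno ⟨b, hb⟩
  have h1 : Ordinal.type (fun x y : B => x < y) ≤ θ.ord := by
    by_contra hlt
    rw [not_le] at hlt
    obtain ⟨b, hb⟩ := Ordinal.typein_surj (fun x y : B => x < y) hlt
    have h3 := Ordinal.card_typein (r := fun x y : B => x < y) b
    rw [hb, card_ord] at h3
    have h4 : #(Iio b) < θ := hno' b
    rw [h3] at h4
    exact lt_irrefl _ h4
  have h2 := Ordinal.card_le_card h1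
  rw [Ordinal.card_type, card_ord] at h2
  exact absurd h (not_lt.2 h2)

theorem mreg_of (hU : Huge m U) (A : Set L) (hA : ∀ a ∈ A, a < m) (hc : #A < #(Iio m)) :
    ∃ b < m, ∀ a ∈ A, a < b := by
  have h1 := hU.complete A (fun a X => (a : L) ∈ X) hc (fun a => hU.fine a)
  obtain ⟨X, hX, α, h, hE⟩ := (h1.and (exists_enum hU)).exists
  exact ⟨α, hE.lt, fun a ha => (hE.cap a (hA a ha)).1 (hX ⟨a, ha⟩)⟩

open Classical in
/-- a chosen height -/
private noncomputable def A3_al (m : L) (X : Set L) : L :=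
  if h : ∃ α h, Enum m X α h then h.choose else m

omit [WellFoundedLT L] in
private theorem A3_al_spec {X : Set L} (hX : ∃ α h, Enum m X α h) :
    ∃ h, Enum m X (A3_al m X) h := by
  unfold A3_al
  rw [dif_pos hX]
  exact hX.choose_spec

theorem mlim_of (hU : Huge m U) (a : L) (ha : a < m) : 2 ^ #(Iio a) < #(Iio m) := by
  by_contra hlt
  rw [not_lt, ← mk_set] at hlt
  obtain ⟨φ⟩ := hlt
  let G : Set L → Iio a → Prop := fun X z => ∃ hl : A3_al m X < m, z ∈ φ ⟨A3_al m X, hl⟩
  let B : Set (Iio a) := {z | ∀ᶠ X in (U : Filter (Set L)), G X z}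
  have h1 : ∀ᶠ X in (U : Filter (Set L)), ∀ z : Iio a, (G X z ↔ z ∈ B) := by
    refine hU.complete (Iio a) (fun z X => (G X z ↔ z ∈ B)) (hU.minit a ha) ?_
    intro z
    by_cases hz : z ∈ B
    · have hz' : ∀ᶠ X in (U : Filter (Set L)), G X z := hz
      exact hz'.mono fun X hX => ⟨fun _ => hz, fun _ => hX⟩
    · have hz' : ∀ᶠ X in (U : Filter (Set L)), ¬ G X z :=
        Ultrafilter.eventually_not.2 hz
      exact hz'.mono fun X hX => ⟨fun h => absurd h hX, fun h => absurd h hz⟩
  obtain ⟨X₀, hX₀, hE₀⟩ := (h1.and (exists_enum hU)).exists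
  obtain ⟨h₀, hE₀⟩ := A3_al_spec hE₀
  obtain ⟨X, ⟨hX, hE⟩, hab⟩ := ((h1.and (exists_enum hU)).and (above hU hE₀.lt)).exists
  obtain ⟨h, hE⟩ := A3_al_spec hE
  have h2 : A3_al m X₀ < A3_al m X := hab _ _ hE
  have h3 : φ ⟨A3_al m X, hE.lt⟩ = φ ⟨A3_al m X₀, hE₀.lt⟩ := by
    ext z
    constructor
    · intro hz
      obtain ⟨_, h4⟩ := (hX₀ z).2 ((hX z).1 ⟨hE.lt, hz⟩)
      exact h4
    · intro hz
      obtain ⟨_, h4⟩ := (hX z).2 ((hX₀ z).1 ⟨hE₀.lt, hz⟩)
      exact h4
  have h5 := congrArg Subtype.val (φ.injective h3)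
  exact absurd h2 (by rw [show A3_al m X = A3_al m X₀ from h5]; exact lt_irrefl _)

theorem mlim' (hU : Huge m U) {θ : Cardinal.{u}} (h : θ < #(Iio m)) : 2 ^ θ < #(Iio m) := by
  obtain ⟨b, hb⟩ := exists_ge_card (B := Iio m) h
  rw [mk_Iio_sub b] at hb
  exact lt_of_le_of_lt (power_le_power_left two_ne_zero hb) (mlim_of hU b.1 b.2)

end Pool.Agent.HG
end

section

/-!
# TASK E1: evaluation of pre-names

PROOF. `Ev.mono`, `Ev.reg`: immediate (`Ev` is of the form for all `p' ≤ p` there is `p'' ≤ p'`). `Ev.elim`: the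
definition at `p' = p`. `Ev.unique`: take `p₁ ≤ p` with `z` for `b` and `p₂ ≤ p₁` with `z'` for `b'`; `p₂ ≤ e z` and
`p₂ ≤ e z'`; if `z' < z` then `Perp p₁ (e z')`, contradiction with `p₂ ≤ p₁`; if `z < z'` then `Perp p₂ (e z)`,
contradiction; so `z = z'` and `b = b'`.
`Ev.of_compat`: let `z₁` be the least `z` with `w z ≠ none` and `∃ r ≤ p, r ≤ e z` (`WellFounded.min`), `r ≤ p`,
`r ≤ e z₁`, `w z₁ = some b₁`. Then `Ev e w r b₁`: for `p' ≤ r` take `p'' = p'`, `z = z₁`: if `z' < z₁`, `w z' ≠ none`, a common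
extension of `p'` and `e z'` would be below `p`, contradicting minimality.
`Ev.of_const`: for `p' ≤ p`: let `z₁` be the least `z` with `w z ≠ none` and `∃ r ≤ p', r ≤ e z` (exists: `z₀`, `r = p'`),
`r ≤ p'`, `r ≤ e z₁`; its value is `b` by `hc`; `p'' := r`, `z := z₁`; for `z' < z₁` as before.
-/

set_option autoImplicit false

namespace Pool.Agent.HG

open Cardinal Set Pool.Agent.CC

universe u v w

variable {L : Type u} [LinearOrder L] [WellFoundedLT L] {c m n : L} {U : Ultrafilter (Set L)}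

variable {e : L → PCond c m} {w : L → Option L} {p q : PCond c m} {b b' z z₀ : L}

theorem Ev.mono (h : Ev e w p b) (hq : q ≤ p) : Ev e w q b :=
  fun p' hp' => h p' (hp'.trans hq)

theorem Ev.reg (e : L → PCond c m) (w : L → Option L) (b : L) : Reg (fun p => Ev e w p b) := by
  refine ⟨fun p q hq h => h.mono hq, fun p h p' hp' => ?_⟩
  obtain ⟨r, hr, hr'⟩ := h p' hp'
  obtain ⟨p'', hp'', z, hz⟩ := hr' r le_rfl
  exact ⟨p'', hp''.trans hr, z, hz⟩

theorem Ev.elim (h : Ev e w p b) : ∃ p' ≤ p, ∃ z, w z = some b ∧ p' ≤ e z := by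
  obtain ⟨p', hp', z, hz, hz', -⟩ := h p le_rfl
  exact ⟨p', hp', z, hz, hz'⟩

theorem Ev.unique (h : Ev e w p b) (h' : Ev e w p b') : b = b' := by
  obtain ⟨p₁, hp₁, z, hz, hz1, hz2⟩ := h p le_rfl
  obtain ⟨p₂, hp₂, z', hz', hz1', hz2'⟩ := h' p₁ hp₁
  have hzz : z = z' := by
    rcases lt_trichotomy z z' with hlt | heq | hlt
    · exact absurd (hp₂.trans hz1) (hz2' z hlt (by rw [hz]; exact Option.some_ne_none b) p₂ le_rfl)
    · exact heq
    · exact absurd hz1' (hz2 z' hlt (by rw [hz']; exact Option.some_ne_none b') p₂ hp₂)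
  subst hzz
  rw [hz] at hz'
  exact Option.some.inj hz'

/-- the least index which is compatible with `p` -/
private theorem E1_least (hz : w z ≠ none) (h : ∃ r ≤ p, r ≤ e z) :
    ∃ z₁, w z₁ ≠ none ∧ (∃ r ≤ p, r ≤ e z₁) ∧ ∀ z' < z₁, w z' ≠ none → ∀ r ≤ p, ¬ r ≤ e z' := by
  have hwf : WellFounded ((· < ·) : L → L → Prop) := wellFounded_lt
  have hne : ({z | w z ≠ none ∧ ∃ r ≤ p, r ≤ e z} : Set L).Nonempty := ⟨z, hz, h⟩
  refine ⟨hwf.min _ hne, (hwf.min_mem _ hne).1, (hwf.min_mem _ hne).2, fun z' hz' hw r hr hre => ?_⟩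
  have hmem : z' ∈ ({z | w z ≠ none ∧ ∃ r ≤ p, r ≤ e z} : Set L) := ⟨hw, r, hr, hre⟩
  exact hwf.not_lt_min _ hmem hz'

theorem Ev.of_compat (hz : w z = some b) (h : ∃ r ≤ p, r ≤ e z) : ∃ p' ≤ p, ∃ b', Ev e w p' b' := by
  obtain ⟨z₁, hz₁, ⟨r, hr, hre⟩, hmin⟩ :=
    E1_least (e := e) (w := w) (p := p) (z := z) (by rw [hz]; exact Option.some_ne_none b) h
  obtain ⟨b₁, hb₁⟩ := Option.ne_none_iff_exists'.1 hz₁
  refine ⟨r, hr, b₁, fun p' hp' => ⟨p', le_rfl, z₁, hb₁, hp'.trans hre, fun z' hz' hw q hq hqe => ?_⟩⟩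
  exact hmin z' hz' hw q ((hq.trans hp').trans hr) hqe

theorem Ev.of_const (hz : w z₀ = some b) (hp : p ≤ e z₀)
    (hc : ∀ z b', w z = some b' → (∃ r ≤ p, r ≤ e z) → b' = b) : Ev e w p b := by
  intro p' hp'
  obtain ⟨z₁, hz₁, ⟨r, hr, hre⟩, hmin⟩ :=
    E1_least (e := e) (w := w) (p := p') (z := z₀) (by rw [hz]; exact Option.some_ne_none b)
      ⟨p', le_rfl, hp'.trans hp⟩
  obtain ⟨b₁, hb₁⟩ := Option.ne_none_iff_exists'.1 hz₁
  have hbb : b₁ = b := hc z₁ b₁ hb₁ ⟨r, hr.trans hp', hre⟩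
  subst hbb
  refine ⟨r, hr, z₁, hb₁, hre, fun z' hz' hw q hq hqe => ?_⟩
  exact hmin z' hz' hw q (hq.trans hr) hqe

end Pool.Agent.HG
end

section

/-!
# TASK E2: values of the generic function

PROOF. `Val.mono`: `q' ≤ q`, `w` with `q.r.f x y = some w`, `Ev e w q.p b`; there is `w'` with `q'.r.f x y = some w'`,
`Same e q'.p w' w`; `Ev e w q'.p b` by `Ev.mono`, so `Ev e w' q'.p b` (`Same` at `q'.p`). `NoVal.mono`: similarly, `Ev e w' p b`
for `p ≤ q'.p` gives `Ev e w p b`. `Val.unique`: `Ev.unique` (the `w` is the same). `Val.not_noVal`: clear.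
`Val.em`: `q.r.f x y = some w`; if some `p ≤ q.p` and `b` have `Ev e w p b` then `q' := ⟨p, q.r⟩ ≤ q` has `Val`; otherwise
`NoVal`. `Val.reg`: `Val q x y b` holds if it holds densely below `q` and `q.r.f x y ≠ none`: use `Ev.reg` for the `w` of
`q`: for `p ≤ q.p` apply the hypothesis to `⟨p, q.r⟩`: `q'' ≤ ⟨p, q.r⟩` with `Val q'' x y b`; `w''` there is the same as
`w` up to `Same e q''.p`, so `Ev e w q''.p b`.
-/

set_option autoImplicit false

namespace Pool.Agent.HG

open Cardinal Set Pool.Agent.CC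

universe u v w

variable {L : Type u} [LinearOrder L] [WellFoundedLT L] {c m n : L} {U : Ultrafilter (Set L)}

variable {e : L → PCond c m} {q q' : QCond e} {x y b b' : L}

theorem Val.mono (h : Val q x y b) (hq : q' ≤ q) : Val q' x y b := by
  obtain ⟨w, hw, hE⟩ := h
  obtain ⟨w', hw', hS⟩ := hq.2 x y w hw
  exact ⟨w', hw', (hS q'.p le_rfl b).2 (hE.mono hq.1)⟩

theorem NoVal.mono (h : NoVal q x y) (hq : q' ≤ q) : NoVal q' x y := by
  obtain ⟨w, hw, hE⟩ := h
  obtain ⟨w', hw', hS⟩ := hq.2 x y w hw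
  exact ⟨w', hw', fun p hp b hb => hE p (hp.trans hq.1) b ((hS p hp b).1 hb)⟩

theorem Val.unique (h : Val q x y b) (h' : Val q x y b') : b = b' := by
  obtain ⟨w, hw, hE⟩ := h
  obtain ⟨w', hw', hE'⟩ := h'
  rw [hw] at hw'
  have := Option.some.inj hw'
  subst this
  exact hE.unique hE'

theorem Val.not_noVal (h : Val q x y b) (h' : NoVal q x y) : False := by
  obtain ⟨w, hw, hE⟩ := h
  obtain ⟨w', hw', hE'⟩ := h'
  rw [hw] at hw'
  have := Option.some.inj hw'
  subst this
  exact hE' q.p le_rfl b hE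

private theorem E2_le {q : QCond e} {p : PCond c m} (hp : p ≤ q.p) : (⟨p, q.r⟩ : QCond e) ≤ q :=
  ⟨hp, fun _ _ w hw => ⟨w, hw, Same.refl _ _⟩⟩

theorem Val.em (h : q.r.f x y ≠ none) : (∃ q' ≤ q, ∃ b, Val q' x y b) ∨ NoVal q x y := by
  obtain ⟨w, hw⟩ := Option.ne_none_iff_exists'.1 h
  by_cases hex : ∃ p ≤ q.p, ∃ b, Ev e w p b
  · obtain ⟨p, hp, b, hb⟩ := hex
    exact Or.inl ⟨⟨p, q.r⟩, E2_le hp, b, w, hw, hb⟩
  · refine Or.inr ⟨w, hw, fun p hp b hb => hex ⟨p, hp, b, hb⟩⟩

theorem Val.reg (hq : q.r.f x y ≠ none) (h : ∀ q' ≤ q, ∃ q'' ≤ q', Val q'' x y b) :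
    Val q x y b := by
  obtain ⟨w, hw⟩ := Option.ne_none_iff_exists'.1 hq
  refine ⟨w, hw, (Ev.reg e w b).2 q.p fun p hp => ?_⟩
  obtain ⟨q'', hq'', w'', hw'', hE⟩ := h ⟨p, q.r⟩ (E2_le hp)
  obtain ⟨w1, hw1, hS⟩ := hq''.2 x y w hw
  rw [hw''] at hw1
  have := Option.some.inj hw1
  subst this
  exact ⟨q''.p, hq''.1, (hS q''.p le_rfl b).1 hE⟩

end Pool.Agent.HG
end

section

/-!
# TASK Y2: the limit of a family of partial functions

PROOF. For almost all `X` the hypothesis `H` holds; write `α = αf X`, `h = hf X`, `t = tf X`. For `x, y, z : L` let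
`g X x y z : Option L` be `(w' z).map h` if `x = h x'`, `y = h y'`, `x', y' < m`, `t x' y' = some w'`, and `none`
otherwise (`x'`, `y'` are unique by `Enum.inj`). Every value `b` of it is in `X` (`b = h b'` with `b' < x' < m` by
`legal`). By `limit_option` (for fixed `x y z`) there is `o x y z` with `g X x y z = o x y z` for almost all `X`. Put
`r x y := some (o x y)` if for almost all `X` there are `x', y' < m` with `h x' = x`, `h y' = y`, `t x' y' ≠ none`, and
`none` otherwise. `L1`: if `r x y = none` then by the ultrafilter property for almost all `X` there are no such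
`x'`, `y'`. `L2`: clear.
-/

set_option autoImplicit false

namespace Pool.Agent.HG

open Cardinal Set Pool.Agent.CC

universe u v w

variable {L : Type u} [LinearOrder L] [WellFoundedLT L] {c m n : L} {U : Ultrafilter (Set L)}

theorem exists_limit_raw (hU : Huge m U) (αf : Set L → L) (hf : Set L → L → L) (tf : Set L → Raw L)
    (H : ∀ᶠ X in (U : Filter (Set L)), Enum m X (αf X) (hf X) ∧ Tee m (αf X) (tf X)) :
    ∃ r : Raw L,
      (∀ x y, r x y = none → ∀ᶠ X in (U : Filter (Set L)), ∀ x' y', x' < m → y' < m →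
        hf X x' = x → hf X y' = y → tf X x' y' = none) ∧
      ∀ x y w, r x y = some w → ∀ z, ∀ᶠ X in (U : Filter (Set L)), ∃ x' y' w', x' < m ∧ y' < m ∧
        hf X x' = x ∧ hf X y' = y ∧ tf X x' y' = some w' ∧ w z = (w' z).map (hf X) := by
  classical
  let D : Set L → L → L → Prop := fun X x y => ∃ x' y' w', x' < m ∧ y' < m ∧ hf X x' = x ∧
    hf X y' = y ∧ tf X x' y' = some w'
  have hW : ∀ X x y, ∃ w : L → Option L, (D X x y → ∃ x' y', x' < m ∧ y' < m ∧ hf X x' = x ∧
      hf X y' = y ∧ tf X x' y' = some w) ∧ (¬ D X x y → w = fun _ => none) := by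
    intro X x y
    by_cases hD : D X x y
    · obtain ⟨x', y', w', h1, h2, h3, h4, h5⟩ := hD
      exact ⟨w', fun _ => ⟨x', y', h1, h2, h3, h4, h5⟩,
        fun h => absurd ⟨x', y', w', h1, h2, h3, h4, h5⟩ h⟩
    · exact ⟨fun _ => none, fun h => absurd h hD, fun _ => rfl⟩
  choose W hW1 hW2 using hW
  have hg : ∀ x y z, ∀ᶠ X in (U : Filter (Set L)), ∀ b, (W X x y z).map (hf X) = some b →
      b ∈ (X : Set L) := by
    intro x y z
    filter_upwards [H] with X hX b hb
    by_cases hD : D X x y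
    · obtain ⟨x', y', h1, h2, h3, h4, h5⟩ := hW1 X x y hD
      rw [Option.map_eq_some_iff] at hb
      obtain ⟨b', hb', rfl⟩ := hb
      have h6 := hX.2.good.legal x' y' _ z b' h5 hb'
      exact hX.1.mem b' (h6.2.1.trans h1)
    · rw [hW2 X x y hD] at hb
      simp at hb
  choose o ho using fun x y z => limit_option hU (fun X => (W X x y z).map (hf X)) (hg x y z)
  refine ⟨fun x y => if (∀ᶠ X in (U : Filter (Set L)), D X x y) then some (o x y) else none, ?_, ?_⟩
  · intro x y hr
    have hn : ¬ ∀ᶠ X in (U : Filter (Set L)), D X x y := by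
      intro hD
      simp only [if_pos hD] at hr
      exact Option.some_ne_none _ hr
    have hn' : ∀ᶠ X in (U : Filter (Set L)), ¬ D X x y := Ultrafilter.eventually_not.2 hn
    filter_upwards [hn'] with X hX x' y' hx' hy' h1 h2
    by_contra h3
    obtain ⟨w', hw'⟩ := Option.ne_none_iff_exists'.1 h3
    exact hX ⟨x', y', w', hx', hy', h1, h2, hw'⟩
  · intro x y w hr z
    have hD : ∀ᶠ X in (U : Filter (Set L)), D X x y := by
      by_contra hD
      simp only [if_neg hD] at hr
      exact Option.some_ne_none _ hr.symm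
    simp only [if_pos hD] at hr
    have hw : w = o x y := (Option.some.inj hr).symm
    filter_upwards [hD, ho x y z] with X hX hX'
    obtain ⟨x', y', h1, h2, h3, h4, h5⟩ := hW1 X x y hX
    exact ⟨x', y', W X x y, h1, h2, h3, h4, h5, by rw [hw]; exact hX'.symm⟩

end Pool.Agent.HG
end
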