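import Pool.Agent.Lib.MP_27cb06_lc.H.R1
import Pool.Agent.Lib.MP_27cb06_lc.Mg.G001
import Pool.Agent.Lib.MP_27cb06_lc.Mg.G003
import Pool.Agent.Lib.MP_27cb06_lc.Mg.G002
import Pool.Agent.Lib.MP_27cb06_lc.Names

section

/-!
# TASK R3: new rows: insertion of a block at a fresh height

PROOF. `exists_rows`: `ρ i := ` the least element above `i` (it exists by `exists_lt_L`). Injective: for `i < j`,
`ρ i ≤ j < ρ j`. `i < ρ i`.
`exists_block`: let `y < m` be the height `ξ` of `r` (`r.good.height`): `r.f x y = none` for all `x`. The block `s`: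
`s x' y' = some (w i)` if `y' = y` and `x' = ρ i`, `i ∈ I` (`i` is unique by injectivity). It is `Good m`: `legal`: `z < m` and
`b` is the least element and is `< ρ i` by `hρ'` (there is an element `< ρ i`, the least element is `≤` it); sizes:
`#I ≤ #(Iio m)`; height: some `ξ' < m` with `y < ξ'` (`exists_lt_m`). `RCond.exists_join` of `r` and `⟨s, _⟩`
(disjoint domains).
-/

set_option autoImplicit false

namespace Pool.Agent.HG

open Cardinal Set Pool.Agent.CC

universe u v w

variable {L : Type u} [LinearOrder L] [WellFoundedLT L] {c m n : L} {U : Ultrafilter (Set L)}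

theorem exists_rows (hS : Setup c m n U) : ∃ ρ : L → L, Function.Injective ρ ∧ ∀ i, ∃ x, x < ρ i := by
  have hwf : WellFounded (fun a b : L => a < b) := wellFounded_lt
  have hne : ∀ i : L, {b : L | i < b}.Nonempty := fun i => exists_lt_L hS i
  have hmem : ∀ i : L, i < hwf.min {b : L | i < b} (hne i) := fun i => hwf.min_mem _ (hne i)
  have hle : ∀ i b : L, i < b → hwf.min {b : L | i < b} (hne i) ≤ b := fun i b h =>
    not_lt.1 (hwf.not_lt_min {b : L | i < b} h)
  have hlt : ∀ i j : L, i < j →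
      hwf.min {b : L | i < b} (hne i) < hwf.min {b : L | j < b} (hne j) := fun i j h =>
    lt_of_le_of_lt (hle i j h) (hmem j)
  refine ⟨fun i => hwf.min {b : L | i < b} (hne i), ?_, fun i => ⟨i, hmem i⟩⟩
  intro i j hij
  rcases lt_trichotomy i j with h | h | h
  · exact absurd hij (hlt i j h).ne
  · exact h
  · exact absurd hij.symm (hlt j i h).ne

theorem exists_block (hS : Setup c m n U) (r : RCond m) {ρ : L → L} (hρ : Function.Injective ρ)
    (hρ' : ∀ i, ∃ x, x < ρ i) (I : Set L) (hI : #I ≤ #(Iio m)) (w : L → L → Option L)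
    (hw : ∀ i z b, w i z = some b → z < m ∧ ∀ d, b ≤ d) :
    ∃ y < m, (∀ x, r.f x y = none) ∧ ∃ r' ≤ r, ∀ i ∈ I, r'.f (ρ i) y = some (w i) := by
  classical
  obtain ⟨y, hym, hy⟩ := r.good.height
  have hfree : ∀ x, r.f x y = none := by
    intro x
    by_contra h
    exact lt_irrefl y (hy x y hym h)
  let s : Raw L := fun x' y' =>
    if h : y' = y ∧ ∃ i ∈ I, x' = ρ i then some (w h.2.choose) else none
  have hs1 : ∀ x' y', s x' y' ≠ none → y' = y ∧ ∃ i ∈ I, x' = ρ i := by
    intro x' y' h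
    by_contra h'
    exact h (dif_neg h')
  have hs2 : ∀ i ∈ I, s (ρ i) y = some (w i) := by
    intro i hi
    have h : y = y ∧ ∃ j ∈ I, ρ i = ρ j := ⟨rfl, i, hi, rfl⟩
    have h2 : s (ρ i) y = some (w h.2.choose) := dif_pos h
    have h3 : h.2.choose = i := hρ h.2.choose_spec.2.symm
    rw [h2, h3]
  have hs3 : ∀ x' y' v, s x' y' = some v → y' = y ∧ ∃ i ∈ I, x' = ρ i ∧ v = w i := by
    intro x' y' v hv
    obtain ⟨h1, i, hi, h2⟩ := hs1 x' y' (by rw [hv]; exact Option.some_ne_none _)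
    refine ⟨h1, i, hi, h2, ?_⟩
    rw [h1, h2, hs2 i hi] at hv
    exact (Option.some.inj hv).symm
  have hcard : #{e : L × L | s e.1 e.2 ≠ none} ≤ #(Iio m) := by
    refine le_trans ?_ hI
    refine le_trans (mk_le_mk_of_subset (t := (fun i : L => ((ρ i, y) : L × L)) '' I) ?_)
      mk_image_le
    rintro ⟨x', y'⟩ h
    obtain ⟨h1, i, hi, h2⟩ := hs1 x' y' h
    exact ⟨i, hi, Prod.ext h2.symm h1.symm⟩
  have hgood : Good m s := by
    refine ⟨?_, ?_, ?_, ?_⟩
    · intro x' y' v z b hv hb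
      obtain ⟨h1, i, hi, h2, h3⟩ := hs3 x' y' v hv
      rw [h3] at hb
      obtain ⟨h4, h5⟩ := hw i z b hb
      obtain ⟨x0, hx0⟩ := hρ' i
      refine ⟨h4, ?_, fun _ => h5⟩
      rw [h2]
      exact lt_of_le_of_lt (h5 x0) hx0
    · exact hcard.trans (cantor _).le
    · refine le_trans (mk_le_mk_of_subset ?_) hcard
      rintro e ⟨-, he⟩
      exact he
    · obtain ⟨ξ, hξ, hyξ⟩ := exists_lt_m hS hym
      refine ⟨ξ, hξ, fun x' y' _ h => ?_⟩
      rw [(hs1 x' y' h).1]
      exact hyξ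
  have hag : Agree r.f (⟨s, hgood⟩ : RCond m).f := by
    intro x' y' v v' hv hv'
    have h1 := (hs3 x' y' v' hv').1
    rw [h1, hfree] at hv
    cases hv
  obtain ⟨r', h1, -, h3⟩ := RCond.exists_join hS hag
  exact ⟨y, hym, hfree, r', h1, fun i hi => (h3 _ _ _).2 (Or.inr (hs2 i hi))⟩

end Pool.Agent.HG
end

section

/-!
# TASK J2: initial segments of nu are collapsed to mu

PROOF. Let `b : Iio n`; `#(Iio b) ≤ 2 ^ #(Iio m)` (`ninit`), so there is an injection `θ` from `Iio b` (in `Iio n`) to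
`Set L` with all `θ v ⊆ Iio m`. Let `ρ` be as in `exists_rows` and `⊥` the least element of `L`. For `y : Iio m`, `v : Iio n`
let `φ y v q`: `v < b` and for all `i < m`: if `i ∈ θ v` then `Val q (ρ i) y ⊥`, and if `i ∉ θ v` then `NoVal q (ρ i) y`.
Persistent (`Val.mono`, `NoVal.mono`); single valued: `Val.not_noVal` gives `θ v = θ v'`. `FunName.exists_partial` with
default `b`. Density: let `v < b`, `q` a condition; `z₀ < m` with `e z₀` the weakest condition (`exists_top`, `he`).
`exists_block` for `q.r`, `I = Iio m`, `w i z := if i ∈ θ v ∧ z = z₀ then some ⊥ else none`: `y < m`, `r' ≤ q.r`. The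
condition `q' := ⟨q.p, r'⟩ ≤ q` satisfies `φ y v`: if `i ∈ θ v` then `Ev.of_const` with `z₀`; if `i ∉ θ v` then `w i` is
nowhere defined and `Ev.elim` shows that `Ev` fails.
-/

set_option autoImplicit false

namespace Pool.Agent.HG

open Cardinal Set Pool.Agent.CC

universe u v w

variable {L : Type u} [LinearOrder L] [WellFoundedLT L] {c m n : L} {U : Ultrafilter (Set L)}

variable {e : L → PCond c m}

theorem collapsed_n (hS : Setup c m n U) (he : OntoP e) (q : QCond e) :
    fCollapsed (QCond e) (Iio m) (Iio n) q := by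
  classical
  intro b
  -- the injection
  have hcard : #(Iio (b : L)) ≤ #(Set (Iio m)) := by
    rw [mk_set]
    exact hS.ninit (b : L) b.2
  obtain ⟨θ⟩ := hcard
  obtain ⟨ρ, hρ, hρ'⟩ := exists_rows hS
  obtain ⟨b0, -, hb0⟩ := (wellFounded_lt (α := L)).has_min Set.univ ⟨m, trivial⟩
  have hb0' : ∀ d : L, b0 ≤ d := fun d => not_lt.1 (hb0 d trivial)
  obtain ⟨p₀, hp₀⟩ := exists_top (c := c) (m := m) hS
  obtain ⟨z₀, hz₀, hez₀⟩ := he p₀
  let T : L → L → Prop := fun v i => ∃ (hv : v < (b : L)) (hi : i < m), (⟨i, hi⟩ : Iio m) ∈ θ ⟨v, hv⟩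
  let φ : Iio m → Iio n → QCond e → Prop := fun y v q =>
    v < b ∧ ∀ i : L, i < m → (T (v : L) i → Val q (ρ i) (y : L) b0) ∧ (¬ T (v : L) i → NoVal q (ρ i) (y : L))
  have mono : ∀ a v p q, q ≤ p → φ a v p → φ a v q := by
    rintro a v p q hq ⟨h1, h2⟩
    exact ⟨h1, fun i hi => ⟨fun hT => ((h2 i hi).1 hT).mono hq, fun hT => ((h2 i hi).2 hT).mono hq⟩⟩
  have sv : ∀ a v v' p, φ a v p → φ a v' p → v = v' := by
    rintro a v v' p ⟨h1, h2⟩ ⟨h3, h4⟩
    have h1' : (v : L) < (b : L) := h1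
    have h3' : (v' : L) < (b : L) := h3
    have hT : ∀ i, i < m → (T (v : L) i ↔ T (v' : L) i) := by
      intro i hi
      constructor
      · intro hT
        by_contra hT'
        exact ((h2 i hi).1 hT).not_noVal ((h4 i hi).2 hT')
      · intro hT
        by_contra hT'
        exact ((h4 i hi).1 hT).not_noVal ((h2 i hi).2 hT')
    have hθ : θ ⟨(v : L), h1'⟩ = θ ⟨(v' : L), h3'⟩ := by
      ext i
      have h5 := hT (i : L) i.2
      constructor
      · intro hi
        obtain ⟨_, _, h6⟩ := h5.1 ⟨h1', i.2, hi⟩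
        exact h6
      · intro hi
        obtain ⟨_, _, h6⟩ := h5.2 ⟨h3', i.2, hi⟩
        exact h6
    have h7 := θ.injective hθ
    exact Subtype.ext (congrArg (fun x : Iio (b : L) => (x : L)) h7)
  obtain ⟨h, hh⟩ := FunName.exists_partial φ mono sv b
  intro q1 _
  refine ⟨q1, le_rfl, h, ?_⟩
  intro v q3 _
  have hvb : ((v : Iio n) : L) < (b : L) := v.2
  let w : L → L → Option L := fun i z => if T ((v : Iio n) : L) i ∧ z = z₀ then some b0 else none
  have hw : ∀ i z b', w i z = some b' → z < m ∧ ∀ d, b' ≤ d := by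
    intro i z b' hwz
    simp only [w] at hwz
    split_ifs at hwz with h1
    rw [h1.2]
    rw [← Option.some.inj hwz]
    exact ⟨hz₀, hb0'⟩
  obtain ⟨y, hy, -, r', hr', hblock⟩ := exists_block hS q3.r hρ hρ' (Iio m) le_rfl w hw
  let q' : QCond e := ⟨q3.p, r'⟩
  have hq' : q' ≤ q3 := Lit.le (⟨le_rfl, hr'⟩ : Lit q' q3)
  refine ⟨q', hq', ⟨y, hy⟩, hh _ _ _ ⟨v.2, fun i hi => ⟨fun hT => ?_, fun hT => ?_⟩⟩⟩
  · refine ⟨w i, hblock i hi, ?_⟩
    have hwz : w i z₀ = some b0 := by
      exact if_pos ⟨hT, rfl⟩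
    refine Ev.of_const (z₀ := z₀) hwz ?_ ?_
    · rw [hez₀]
      exact hp₀ _
    · intro z b' hz _
      simp only [w] at hz
      split_ifs at hz
      exact (Option.some.inj hz).symm
  · refine ⟨w i, hblock i hi, ?_⟩
    intro p _ b' hE
    obtain ⟨_, _, z, hz, _⟩ := hE.elim
    simp only [w] at hz
    rw [if_neg (fun h1 => hT h1.1)] at hz
    exact Option.some_ne_none _ hz.symm

end Pool.Agent.HG
end

section

/-!
# TASK A5: almost all alpha are stages

PROOF. Let `c < m`. By `above` `c < α`. `hi` is `Enum.lt`. `lim`: suppose that for almost all `X` (not almost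
all = almost all not) there are `α`, `h`, `a < α` with `Enum m X α h`, `#(Iio α) ≤ 2 ^ #(Iio a)`; `a ∈ X` (`cap`), so by
`normal_list` `a` is the same for almost all `X`, `a < m`. `2 ^ #(Iio a) < #(Iio m)` and
`2 ^ (2 ^ #(Iio a)) < #(Iio m)` (`mlim'`); by `exists_ge_card` for `Iio m` there is `b < m` with
`2 ^ (2 ^ #(Iio a)) ≤ #(Iio b)`. For almost all `X`, `b < α`, so `2 ^ #(Iio a) < 2 ^ (2 ^ #(Iio a)) ≤ #(Iio b) ≤ #(Iio α)`,
contradiction. (`α` is determined by `X`, but it is simpler to let the statement of `A` in `normal_list` be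
`∃ α h, Enum m X α h ∧ a < α ∧ ...`.) `init`: `#(Iio a) < 2 ^ #(Iio a)`.
`reg`: suppose that for almost all `X` there are `α`, `h`, `A` with `Enum m X α h`, `A ⊆ Iio α`,
`#A < #(Iio α)`, and `A` not bounded below `α`. By `exists_ge_card` for `Iio α` there is `θ < α` with
`#A ≤ #(Iio θ)`; `θ ∈ X`; by `normal_list` `θ` is the same for almost all `X`, `θ < m`. If `A` is empty it is
bounded (by `c < α`). So for almost all `X` there is `g X : L → L` with `g X i ∈ A` for `i < θ` and every element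
of `A` is `g X i` for some `i < θ`. For `i < θ`: `g X i < α`, so `g X i ∈ X`, by `normal` it is constant, `= f i < m`.
By `complete` (`ι = Iio θ`) `g X i = f i` for all `i < θ`, for almost all `X`. `{f i | i < θ}` has size
`≤ #(Iio θ) < #(Iio m)`, so it is bounded by some `b < m` (`mreg_of`), and `b < α` for almost all `X`. So `A` is
bounded by `b < α`, contradiction. (Choose `αf X`, `hf X`, `Af X`, `g X` for almost all `X` first.)
-/

set_option autoImplicit false

namespace Pool.Agent.HG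

open Cardinal Set Pool.Agent.CC

universe u v w

variable {L : Type u} [LinearOrder L] [WellFoundedLT L] {c m n : L} {U : Ultrafilter (Set L)}

private theorem A5_lim (hU : Huge m U) :
    ∀ᶠ X in (U : Filter (Set L)), ∀ α h, Enum m X α h → ∀ a < α, 2 ^ #(Iio a) < #(Iio α) := by
  by_contra hcon
  rw [← Ultrafilter.eventually_not] at hcon
  obtain ⟨l, hl⟩ := normal_list hU (fun X l => ∃ a α h, l = [a] ∧ Enum m X α h ∧ a < α ∧
    #(Iio α) ≤ 2 ^ #(Iio a)) (hcon.mono fun X hX => by
      push Not at hX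
      obtain ⟨α, h, hE, a, ha, hle⟩ := hX
      refine ⟨[a], ?_, a, α, h, rfl, hE, ha, hle⟩
      intro x hx
      rw [List.mem_singleton.1 hx]
      exact (hE.cap a (ha.trans hE.lt)).2 ha)
  obtain ⟨X₀, a, α₀, h₀, hl₀, hE₀, ha₀, _⟩ := hl.exists
  have ham : a < m := ha₀.trans hE₀.lt
  have h1 := mlim_of hU a ham
  have h2 := mlim' hU h1
  obtain ⟨b, hb⟩ := exists_ge_card h2
  rw [mk_Iio_sub b] at hb
  obtain ⟨X, ⟨a', α, h, hl', hE, ha', hle⟩, hab⟩ := (hl.and (above hU b.2)).exists
  have haa : a' = a := by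
    have := hl'.symm.trans hl₀
    simpa using this
  subst haa
  have h3 : (b : L) < α := hab α h hE
  have h4 : #(Iio (b : L)) ≤ #(Iio α) := mk_le_mk_of_subset fun _ hx => lt_trans hx h3
  exact absurd ((cantor (2 ^ #(Iio a'))).trans_le (hb.trans (h4.trans hle))) (lt_irrefl _)

private theorem A5_reg (hU : Huge m U) (hc : c < m) :
    ∀ᶠ X in (U : Filter (Set L)), ∀ α h, Enum m X α h →
      ∀ A : Set L, (∀ a ∈ A, a < α) → #A < #(Iio α) → ∃ b < α, ∀ a ∈ A, a < b := by
  by_contra hcon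
  rw [← Ultrafilter.eventually_not] at hcon
  have hca := above hU hc
  obtain ⟨l, hl⟩ := normal_list hU (fun X l => ∃ θ, l = [θ] ∧ ∃ α h, Enum m X α h ∧ θ < α ∧
    ∃ g : L → L, (∀ i < θ, g i < α) ∧ ∀ b < α, ∃ i < θ, b ≤ g i) ((hcon.and hca).mono fun X hX => by
      obtain ⟨hX, hXc⟩ := hX
      push Not at hX
      obtain ⟨α, h, hE, A, hA, hAc, hb⟩ := hX
      obtain ⟨θ, hθ⟩ := exists_ge_card hAc
      rw [mk_Iio_sub θ] at hθ
      refine ⟨[(θ : L)], ?_, θ, rfl, α, h, hE, θ.2, ?_⟩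
      · intro x hx
        rw [List.mem_singleton.1 hx]
        exact (hE.cap _ ((show (θ : L) < α from θ.2).trans hE.lt)).2 θ.2
      · obtain ⟨a₀, ha₀, _⟩ := hb c (hXc α h hE)
        have hne : Nonempty A := ⟨⟨a₀, ha₀⟩⟩
        obtain ⟨f⟩ := hθ
        classical
        refine ⟨fun i => if hi : i < (θ : L) then (Function.invFun f ⟨i, hi⟩ : A) else i, ?_, ?_⟩
        · intro i hi
          simp only [hi, dif_pos]
          exact hA _ (Function.invFun f ⟨i, hi⟩ : A).2
        · intro b hbα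
          obtain ⟨a, ha, hba⟩ := hb b hbα
          refine ⟨(f ⟨a, ha⟩ : Iio (θ : L)), (f ⟨a, ha⟩).2, ?_⟩
          have hlt : ((f ⟨a, ha⟩ : Iio (θ : L)) : L) < θ := (f ⟨a, ha⟩).2
          simp only [hlt, dif_pos]
          have he : Function.invFun f ⟨((f ⟨a, ha⟩ : Iio (θ : L)) : L), hlt⟩ = ⟨a, ha⟩ := by
            have := Function.leftInverse_invFun f.injective ⟨a, ha⟩
            exact this
          rw [he]
          exact hba)
  obtain ⟨X₀, θ, hl₀, α₀, h₀, hE₀, hθ₀, _⟩ := hl.exists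
  subst hl₀
  have hθm : θ < m := hθ₀.trans hE₀.lt
  have hl2 : ∀ᶠ X in (U : Filter (Set L)), ∃ α h, Enum m X α h ∧ θ < α ∧
      ∃ g : L → L, (∀ i < θ, g i < α) ∧ ∀ b < α, ∃ i < θ, b ≤ g i := by
    refine hl.mono fun X hX => ?_
    obtain ⟨θ', h1, α, h, hE, h2, g, h3⟩ := hX
    have : θ = θ' := by simpa using h1
    subst this
    exact ⟨α, h, hE, h2, g, h3⟩
  classical
  -- choose the functions
  have hch : ∀ X : Set L, ∃ (g : L → L), (∃ α h, Enum m X α h ∧ θ < α ∧
      ∃ g : L → L, (∀ i < θ, g i < α) ∧ ∀ b < α, ∃ i < θ, b ≤ g i) →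
      ∃ α h, Enum m X α h ∧ θ < α ∧ (∀ i < θ, g i < α) ∧ ∀ b < α, ∃ i < θ, b ≤ g i := by
    intro X
    by_cases hX : ∃ α h, Enum m X α h ∧ θ < α ∧
      ∃ g : L → L, (∀ i < θ, g i < α) ∧ ∀ b < α, ∃ i < θ, b ≤ g i
    · obtain ⟨α, h, hE, h2, g, h3, h4⟩ := hX
      exact ⟨g, fun _ => ⟨α, h, hE, h2, h3, h4⟩⟩
    · exact ⟨id, fun h => absurd h hX⟩
  choose g hg using hch
  have hg' : ∀ᶠ X in (U : Filter (Set L)), ∃ α h, Enum m X α h ∧ θ < α ∧ (∀ i < θ, g X i < α) ∧
      ∀ b < α, ∃ i < θ, b ≤ g X i := hl2.mono fun X hX => hg X hX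
  have hconst : ∀ i : Iio θ, ∃ f : L, ∀ᶠ X in (U : Filter (Set L)), g X i = f := by
    intro i
    apply hU.normal
    refine hg'.mono fun X hX => ?_
    obtain ⟨α, h, hE, h2, h3, _⟩ := hX
    exact (hE.cap _ ((h3 i i.2).trans hE.lt)).2 (h3 i i.2)
  choose f hf using hconst
  have hall := hU.complete (Iio θ) (fun i X => g X i = f i) (hU.minit θ hθm) hf
  have hfm : ∀ a ∈ Set.range f, a < m := by
    rintro _ ⟨i, rfl⟩
    obtain ⟨X, hX1, α, h, hE, h2, h3, _⟩ := (hall.and hg').exists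
    rw [← hX1 i]
    exact (h3 i i.2).trans hE.lt
  obtain ⟨b, hb, hb'⟩ := mreg_of hU (Set.range f) hfm (mk_range_le.trans_lt (hU.minit θ hθm))
  obtain ⟨X, hX1, ⟨α, h, hE, h2, h3, h4⟩, hX2⟩ := (hall.and (hg'.and (above hU hb))).exists
  obtain ⟨i, hi, hbi⟩ := h4 b (hX2 α h hE)
  have h5 := hb' (f ⟨i, hi⟩) ⟨_, rfl⟩
  rw [← hX1 ⟨i, hi⟩] at h5
  exact absurd h5 (not_lt.2 hbi)

theorem stage (hU : Huge m U) (hc : c < m) :
    ∀ᶠ X in (U : Filter (Set L)), ∀ α h, Enum m X α h → Stage c m α := by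
  filter_upwards [above hU hc, A5_lim hU, A5_reg hU hc] with X h1 h2 h3 α h hE
  exact ⟨h1 α h hE, hE.lt, h3 α h hE, h2 α h hE, fun a ha => (cantor _).trans (h2 α h hE a ha)⟩

end Pool.Agent.HG
end

section

/-!
# TASK J5: many subsets of mu

PROOF. (Compare `Pool/Agent/Lib/MP_27cb06_lc/T08.lean`.) Let `ρ` be as in `exists_rows`, `⊥` the least element of `L`.
`S := SetName.ofMono fun (x, y) q => Val q (ρ x) y ⊥` (a name of a subset of `L × Iio m`; `Val.mono`). Let `y' < x`, and
suppose a condition `q` forces that the rows `x` and `y'` are equal. `z₀ < m` with `e z₀` the weakest condition.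
`exists_block` for `q.r`, `I = {x, y'}`, `w x z := if z = z₀ then some ⊥ else none`, `w i z := none` for `i ≠ x`: `y < m`,
`r' ≤ q.r`; `q' := ⟨q.p, r'⟩ ≤ q`. `Val q' (ρ x) y ⊥` (`Ev.of_const`), so `S.mem (x, y) q'`; and `NoVal q' (ρ y') y`, so
`S.mem (y', y) q'` is impossible (`NoVal.mono`, `Val.not_noVal`). Contradiction.
-/

set_option autoImplicit false

namespace Pool.Agent.HG

open Cardinal Set Pool.Agent.CC

universe u v w

variable {L : Type u} [LinearOrder L] [WellFoundedLT L] {c m n : L} {U : Ultrafilter (Set L)}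

variable {e : L → PCond c m}

theorem manySub (hS : Setup c m n U) (he : OntoP e) (q : QCond e) :
    fManySubsets (Iio m) L (QCond e) q := by
  classical
  intro q0 _
  obtain ⟨ρ, hρ, hρ'⟩ := exists_rows hS
  obtain ⟨bot, hbot⟩ : ∃ bot : L, ∀ d, bot ≤ d := by
    refine ⟨(wellFounded_lt (α := L)).min Set.univ ⟨m, Set.mem_univ m⟩, fun d => ?_⟩
    exact not_lt.1 ((wellFounded_lt (α := L)).not_lt_min Set.univ (Set.mem_univ d))
  obtain ⟨p₀, hp₀⟩ := exists_top hS
  obtain ⟨z₀, hz₀, hz₀'⟩ := he p₀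
  refine ⟨q0, le_rfl, SetName.ofMono fun (xi : L × Iio m) q => Val q (ρ xi.1) xi.2 bot, ?_⟩
  intro x y' q1 _ H
  have hI : #({x, (y' : L)} : Set L) ≤ #(Iio m) := by
    refine le_trans ?_ hS.unc.le
    exact ((Set.toFinite ({x, (y' : L)} : Set L)).lt_aleph0).le
  obtain ⟨y, hy, -, r', hr', hw'⟩ := exists_block hS q1.r hρ hρ' {x, (y' : L)} hI
    (fun i z => if i = x ∧ z = z₀ then some bot else none) (by
      intro i z b hb
      by_cases h : i = x ∧ z = z₀
      · rw [if_pos h] at hb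
        have hb' := Option.some.inj hb
        subst hb'
        refine ⟨?_, hbot⟩
        rw [h.2]
        exact hz₀
      · rw [if_neg h] at hb
        exact absurd hb (by simp))
  have hq2 : (⟨q1.p, r'⟩ : QCond e) ≤ q1 := Lit.le ⟨le_rfl, hr'⟩
  have hx := hw' x (by simp)
  have hy' := hw' (y' : L) (by simp)
  have hne : ¬ ((y' : L) = x) := ne_of_lt y'.2
  have hval : Val (⟨q1.p, r'⟩ : QCond e) (ρ x) y bot := by
    refine ⟨_, hx, ?_⟩
    refine Ev.of_const (z₀ := z₀) (by simp) ?_ ?_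
    · rw [hz₀']
      exact hp₀ _
    · intro z b' hb _
      by_cases h : x = x ∧ z = z₀
      · rw [if_pos h] at hb
        exact (Option.some.inj hb).symm
      · rw [if_neg h] at hb
        exact absurd hb (by simp)
  have hnoval : NoVal (⟨q1.p, r'⟩ : QCond e) (ρ (y' : L)) y := by
    refine ⟨_, hy', ?_⟩
    intro p _ b hEv
    obtain ⟨_, _, z, hz, _⟩ := hEv.elim
    rw [if_neg (fun h => hne h.1)] at hz
    exact absurd hz (by simp)
  have hdn : (SetName.ofMono fun (xi : L × Iio m) (q : QCond e) =>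
      Val q (ρ xi.1) xi.2 bot).mem (x, ⟨y, hy⟩) (⟨q1.p, r'⟩ : QCond e) := by
    intro q4 hq4
    exact ⟨q4, le_rfl, hval.mono hq4⟩
  obtain ⟨r, hr, hr''⟩ := (H ⟨y, hy⟩).1 _ hq2 hdn _ le_rfl
  exact Val.not_noVal hr'' (hnoval.mono hr)

end Pool.Agent.HG
end

section

/-!
# TASK Y1: the collapse of a member of the hull

PROOF. For `v : L` put `r v := (eR v).f`, `Good m (r v)`. Choose: an injection `φ v` from the places of `r v` to
`Set L` with values `⊆ Iio m` (`size`); an injection `ψ v` from the places `(x, y)` of `r v` with `y < m` to `Iio m`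
(`size'`); `ξ v < m` by `height`; for two different places of `r v` some `d < m` in exactly one of the two `φ`-values.
Almost all `X` (`closed_list`) are closed under: `(v, x, y, z) ↦ b` if `r v x y = some w`, `w z = some b` (default `m`);
`(v, x, y, x', y') ↦ d`; `(v, x, y) ↦ ψ v (x, y)`; `v ↦ ξ v`; and contain the least element of `L`. Let `Enum m X α h`,
`v ∈ X`. Note `h y < m ↔ y < α` and then `h y = y` (`Enum.lt_iff`, `fix`). Define `t x y := none` unless `x, y < m` and
`r v (h x) (h y) = some w`, and then `t x y := some (fun z => if z < α then (the b' < m with w z = some (h b')) else none)`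
(classical choice; if `z < α` and `w z = some b` then `z ∈ X`, so `b ∈ X`, so `b = h b'` for some `b' < m`). `Img` is clear.
`legal`: `t x y = some w'`, `w' z = some b'`: `z < α`; `h b' < h x` so `b' < x`; if `y < α` then `h y = y < m`, so `h b'` is the
least element of `L`; it is `< α`? it is `≤ z < α`, so `h b'` is `< α`, `h (h b') = h b'`, `b' = h b'`, the least element.
`size`: the map `(x, y) ↦ φ v (h x, h y) ∩ Iio α` is injective on the places of `t` (the `d` of two places is in `X`,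
`< m`, so `< α`), so there are at most `2 ^ #(Iio α)` places. `size'`: `(x, y) ↦ ψ v (h x, h y)`, for `y < α`, is injective
with values in `X ∩ Iio m = Iio α`. `height`: `ξ v ∈ X`, `ξ v < m`, so `ξ v < α`; if `y < α`, `t x y ≠ none` then
`r v (h x) y ≠ none`, `y < ξ v`. `dom`: by definition.
-/

set_option autoImplicit false

namespace Pool.Agent.HG

open Cardinal Set Pool.Agent.CC

universe u v w

variable {L : Type u} [LinearOrder L] [WellFoundedLT L] {c m n : L} {U : Ultrafilter (Set L)}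

private theorem Y1_phi {T : Set (L × L)} (hT : #T ≤ 2 ^ #(Iio m)) :
    ∃ φ : L × L → Set L, ∀ e ∈ T, ∀ e' ∈ T, e ≠ e' → ∃ d, d < m ∧ ¬ (d ∈ φ e ↔ d ∈ φ e') := by
  classical
  rw [← Cardinal.mk_set, Cardinal.le_def] at hT
  obtain ⟨f⟩ := hT
  refine ⟨fun e => if he : e ∈ T then Subtype.val '' (f ⟨e, he⟩) else ∅, fun e he e' he' hne => ?_⟩
  by_contra hcon
  push Not at hcon
  apply hne
  have : f ⟨e, he⟩ = f ⟨e', he'⟩ := by
    ext ⟨d, hd⟩
    have h1 := hcon d hd
    simp only [he, he', dif_pos, Set.mem_image, Subtype.exists, exists_and_right, exists_eq_right] at h1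
    constructor
    · intro h
      obtain ⟨_, h2⟩ := h1.1 ⟨hd, h⟩
      exact h2
    · intro h
      obtain ⟨_, h2⟩ := h1.2 ⟨hd, h⟩
      exact h2
  have := f.injective this
  exact congrArg Subtype.val this

private theorem Y1_psi {T : Set (L × L)} (hT : #T ≤ #(Iio m)) (d : L) (hd : d < m) :
    ∃ ψ : L × L → L, (∀ e, ψ e < m) ∧ ∀ e ∈ T, ∀ e' ∈ T, ψ e = ψ e' → e = e' := by
  classical
  rw [Cardinal.le_def] at hT
  obtain ⟨f⟩ := hT
  refine ⟨fun e => if he : e ∈ T then (f ⟨e, he⟩ : L) else d, fun e => ?_, fun e he e' he' h => ?_⟩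
  · by_cases he : e ∈ T
    · simp only [he, dif_pos]
      exact (f ⟨e, he⟩).2
    · simp only [he, dif_neg, not_false_eq_true]
      exact hd
  · simp only [he, he', dif_pos] at h
    have := f.injective (Subtype.ext h)
    exact congrArg Subtype.val this

theorem exists_tee (hS : Setup c m n U) (eR : L → RCond m) :
    ∀ᶠ X in (U : Filter (Set L)), ∀ α h, Enum m X α h →
      ∀ v ∈ (X : Set L), ∃ t, Tee m α t ∧ Img m α h t (eR v).f := by
  classical
  have hU : Huge m U := hS.toHuge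
  choose φ hφ using fun v => Y1_phi (eR v).good.size
  choose ψ hψm hψ using fun v => Y1_psi (eR v).good.size' c hS.cm
  choose ξ hξm hξ using fun v => (eR v).good.height
  -- the separating element
  have hD : ∀ v (e e' : L × L), ∃ d : L, (eR v).f e.1 e.2 ≠ none → (eR v).f e'.1 e'.2 ≠ none →
      e ≠ e' → d < m ∧ ¬ (d ∈ φ v e ↔ d ∈ φ v e') := by
    intro v e e'
    by_cases h : (eR v).f e.1 e.2 ≠ none ∧ (eR v).f e'.1 e'.2 ≠ none ∧ e ≠ e'
    · obtain ⟨d, hd⟩ := hφ v e h.1 e' h.2.1 h.2.2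
      exact ⟨d, fun _ _ _ => hd⟩
    · exact ⟨m, fun h1 h2 h3 => absurd ⟨h1, h2, h3⟩ h⟩
  choose D hD using hD
  have c1 := closed_list hU (fun l => match l with
    | [v, x, y, z] => (((eR v).f x y).bind (fun w => w z)).getD m
    | _ => m)
  have c2 := closed_list hU (fun l => match l with
    | [v, x, y, x', y'] => D v (x, y) (x', y')
    | _ => m)
  have c3 := closed_list hU (fun l => match l with
    | [v, x, y] => ψ v (x, y)
    | _ => m)
  have c4 := closed_list hU (fun l => match l with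
    | [v] => ξ v
    | _ => m)
  filter_upwards [c1, c2, c3, c4] with X h1 h2 h3 h4
  intro α h hE v hv
  have hmem : ∀ x, x < m → h x ∈ X := hE.mem
  have k1 : ∀ x y z w b, x ∈ X → y ∈ X → z ∈ X → (eR v).f x y = some w → w z = some b → b ∈ X := by
    intro x y z w b hx hy hz hw hb
    have := h1 [v, x, y, z] (by
      intro a ha
      simp only [List.mem_cons, List.not_mem_nil, or_false] at ha
      rcases ha with rfl | rfl | rfl | rfl <;> assumption)
    simpa [hw, hb] using this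
  have k2 : ∀ x y x' y', x ∈ X → y ∈ X → x' ∈ X → y' ∈ X → D v (x, y) (x', y') ∈ X := by
    intro x y x' y' hx hy hx' hy'
    exact h2 [v, x, y, x', y'] (by
      intro a ha
      simp only [List.mem_cons, List.not_mem_nil, or_false] at ha
      rcases ha with rfl | rfl | rfl | rfl | rfl <;> assumption)
  have k3 : ∀ x y, x ∈ X → y ∈ X → ψ v (x, y) ∈ X := by
    intro x y hx hy
    exact h3 [v, x, y] (by
      intro a ha
      simp only [List.mem_cons, List.not_mem_nil, or_false] at ha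
      rcases ha with rfl | rfl | rfl <;> assumption)
  have k4 : ξ v ∈ X := h4 [v] (by
      intro a ha
      simp only [List.mem_cons, List.not_mem_nil, or_false] at ha
      rw [ha]
      exact hv)
  have hαm : α < m := hE.lt
  -- the inverse of the enumeration
  have hg : ∀ b, ∃ i, b ∈ X → i < m ∧ h i = b := by
    intro b
    by_cases hb : b ∈ X
    · obtain ⟨i, hi⟩ := hE.surj b hb
      exact ⟨i, fun _ => hi⟩
    · exact ⟨m, fun hb' => absurd hb' hb⟩
  choose g hg using hg
  set t : Raw L := fun x y => if x < m ∧ y < m then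
    ((eR v).f (h x) (h y)).map (fun w z => if z < α then (w z).map g else none) else none with ht
  have ht_none : ∀ x y, x < m → y < m → (t x y = none ↔ (eR v).f (h x) (h y) = none) := by
    intro x y hx hy
    rw [ht]
    simp only [hx, hy, and_self, if_true, Option.map_eq_none_iff]
  have ht_dom : ∀ x y, t x y ≠ none → x < m ∧ y < m := by
    intro x y hxy
    by_contra hcon
    apply hxy
    rw [ht]
    simp only [if_neg hcon]
  have ht_ne : ∀ x y, t x y ≠ none → (eR v).f (h x) (h y) ≠ none := by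
    intro x y hxy h0
    obtain ⟨hx, hy⟩ := ht_dom x y hxy
    exact hxy ((ht_none x y hx hy).2 h0)
  have ht_some : ∀ x y w', t x y = some w' → x < m ∧ y < m ∧ ∃ w, (eR v).f (h x) (h y) = some w ∧
      ∀ z, w' z = if z < α then (w z).map g else none := by
    intro x y w' hw'
    obtain ⟨hx, hy⟩ := ht_dom x y (by rw [hw']; simp)
    refine ⟨hx, hy, ?_⟩
    rw [ht] at hw'
    simp only [hx, hy, and_self, if_true, Option.map_eq_some_iff] at hw'
    obtain ⟨w, hw, rfl⟩ := hw'
    exact ⟨w, hw, fun z => rfl⟩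
  have hinj : ∀ (x y x' y' : L), x < m → y < m → x' < m → y' < m → h x = h x' → h y = h y' →
      x = x' ∧ y = y' := by
    intro x y x' y' hx hy hx' hy' e1 e2
    exact ⟨hE.inj hx hx' e1, hE.inj hy hy' e2⟩
  refine ⟨t, ⟨⟨?_, ?_, ?_, ?_⟩, ht_dom⟩, ?_⟩
  · -- legal
    intro x y w' z b' hw' hb'
    obtain ⟨hx, hy, w, hw, hwz⟩ := ht_some x y w' hw'
    rw [hwz z] at hb'
    by_cases hz : z < α
    · rw [if_pos hz, Option.map_eq_some_iff] at hb'
      obtain ⟨b, hb, rfl⟩ := hb'
      have hzX : z ∈ X := (hE.cap z (hz.trans hαm)).2 hz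
      have hbX : b ∈ X := k1 _ _ _ w b (hmem x hx) (hmem y hy) hzX hw hb
      obtain ⟨hgm, hgb⟩ := hg b hbX
      obtain ⟨_, hbx, hleast⟩ := (eR v).good.legal (h x) (h y) w z b hw hb
      refine ⟨hz, ?_, ?_⟩
      · apply hE.lt_of_lt hgm hx
        rw [hgb]
        exact hbx
      · intro hyα d
        have hym : h y < m := by
          rw [hE.fix y hyα]
          exact hyα.trans hαm
        have hl := hleast hym
        have hbα : b < α := lt_of_le_of_lt (hl z) hz
        have e1 : g b = b := by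
          apply hE.inj hgm (hbα.trans hαm)
          rw [hgb, hE.fix b hbα]
        rw [e1]
        exact hl d
    · rw [if_neg hz] at hb'
      exact absurd hb' (by simp)
  · -- size
    rw [← Cardinal.mk_set]
    refine Cardinal.mk_le_of_injective
      (f := fun e : {e : L × L | t e.1 e.2 ≠ none} =>
        {d : Iio α | (d : L) ∈ φ v (h e.1.1, h e.1.2)}) ?_
    rintro ⟨⟨x, y⟩, he⟩ ⟨⟨x', y'⟩, he'⟩ heq
    by_contra hne
    have he1 : t x y ≠ none := he
    have he1' : t x' y' ≠ none := he'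
    obtain ⟨hx, hy⟩ := ht_dom x y he1
    obtain ⟨hx', hy'⟩ := ht_dom x' y' he1'
    have hne' : ((h x, h y) : L × L) ≠ (h x', h y') := by
      intro h0
      apply hne
      rw [Prod.mk.injEq] at h0
      obtain ⟨e1, e2⟩ := hinj x y x' y' hx hy hx' hy' h0.1 h0.2
      subst e1
      subst e2
      rfl
    obtain ⟨hdm, hd⟩ := hD v (h x, h y) (h x', h y') (ht_ne x y he1) (ht_ne x' y' he1') hne'
    have hdX := k2 _ _ _ _ (hmem x hx) (hmem y hy) (hmem x' hx') (hmem y' hy')
    have hdα : D v (h x, h y) (h x', h y') < α := (hE.cap _ hdm).1 hdX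
    apply hd
    have := Set.ext_iff.1 heq ⟨_, hdα⟩
    exact this
  · -- size'
    refine Cardinal.mk_le_of_injective
      (f := fun e : {e : L × L | e.2 < α ∧ t e.1 e.2 ≠ none} =>
        (⟨ψ v (h e.1.1, h e.1.2), by
          obtain ⟨hx, hy⟩ := ht_dom _ _ e.2.2
          exact (hE.cap _ (hψm v _)).1 (k3 _ _ (hmem _ hx) (hmem _ hy))⟩ : Iio α)) ?_
    rintro ⟨⟨x, y⟩, he⟩ ⟨⟨x', y'⟩, he'⟩ heq
    have he1 : t x y ≠ none := he.2
    have he1' : t x' y' ≠ none := he'.2
    have hyα : y < α := he.1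
    have hyα' : y' < α := he'.1
    obtain ⟨hx, hy⟩ := ht_dom x y he1
    obtain ⟨hx', hy'⟩ := ht_dom x' y' he1'
    have heq' : ψ v (h x, h y) = ψ v (h x', h y') := congrArg Subtype.val heq
    have h5 := hψ v (h x, h y) ⟨by
        change h y < m
        rw [hE.fix y hyα]
        exact hyα.trans hαm, ht_ne x y he1⟩ (h x', h y') ⟨by
        change h y' < m
        rw [hE.fix y' hyα']
        exact hyα'.trans hαm, ht_ne x' y' he1'⟩ heq'
    rw [Prod.mk.injEq] at h5
    obtain ⟨e1, e2⟩ := hinj x y x' y' hx hy hx' hy' h5.1 h5.2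
    subst e1
    subst e2
    rfl
  · -- height
    refine ⟨ξ v, (hE.cap _ (hξm v)).1 k4, fun x y hy hxy => ?_⟩
    have h5 := ht_ne x y hxy
    rw [hE.fix y hy] at h5
    exact hξ v (h x) y (hy.trans hαm) h5
  · -- the collapse
    intro x hx y hy
    refine ⟨ht_none x y hx hy, fun w w' hw hw' z hz => ?_⟩
    obtain ⟨_, _, w1, hw1, hwz⟩ := ht_some x y w hw
    rw [hw'] at hw1
    have e1 := Option.some.inj hw1
    subst e1
    rw [hwz z, if_pos hz]
    rcases hb : w' z with _ | b
    · rfl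
    · have hzX : z ∈ X := (hE.cap z (hz.trans hαm)).2 hz
      have hbX : b ∈ X := k1 _ _ _ w' b (hmem x hx) (hmem y hy) hzX hw' hb
      simp only [Option.map_some, (hg b hbX).2]

end Pool.Agent.HG
end
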