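import Pool.Agent.Lib.MP_27cb06_lc.Mg.G004
import Pool.Agent.Lib.MP_27cb06_lc.Mg.G002
import Pool.Agent.Lib.MP_27cb06_lc.H.P3
import Pool.Agent.Lib.MP_27cb06_lc.H.R1
import Pool.Agent.Lib.MP_27cb06_lc.Mg.G001
import Pool.Agent.Lib.MP_27cb06_lc.Mg.G003
import Pool.Agent.Lib.MP_27cb06_lc.Mg.G012

section

/-!
# TASK P4: the conditions below alpha

PROOF. First part: by `PCond.bounded` choose `bd z < m` with `InJ (e z) (bd z)`. Almost all `X` are closed under `bd`
(`closed_list` with `F l = bd (l.headD m)`, used for lists `[z]`). If `Enum m X α h`, `z < α`, then `z ∈ X`, so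
`bd z ∈ X`, `bd z < m`, so `bd z < α` (`cap`), and `InJ` is monotone in `β`.
Second part: for `β < m` let `g β < m` be such that every `p` with `InJ p β` is `e z` for some `z < g β`: choose for
each such `p` a `z p < m` with `e (z p) = p`; the set of these has size `< #(Iio m)` by `card_InJ`, so it is bounded
(`mreg`). Take `X` closed under `g` with `Enum m X α h` and `Stage c m α` (`stage`). Let `p` be a condition. The
places of `p.cut α`: the support is contained in `supp p ∩ Iio α`, so of size `< #(Iio c) < #(Iio α)`; its members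
`β` are stages `< α` and have at most `2 ^ #(Iio β) < #(Iio α)` places (`Good.size`, `Stage.lim`); `#(Iio α)` is
regular (`Stage.isRegular`), so `p.cut α` has less than `#(Iio α)` places, all coordinates `< α`. By
`Stage.reg` (three times) there is a `β < α` with `InJ (p.cut α) β`. `β ∈ X`, so `g β ∈ X`, `g β < m`, `g β < α`,
and `p.cut α = e z` with `z < g β < α`.
-/

set_option autoImplicit false

namespace Pool.Agent.HG

open Cardinal Set Pool.Agent.CC

universe u v w

variable {L : Type u} [LinearOrder L] [WellFoundedLT L] {c m n : L} {U : Ultrafilter (Set L)}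

/-- The places of `p.cut α` are bounded below the stage `α`. -/
private theorem P4_bdd (hS : Setup c m n U) {α : L} (hα : Stage c m α) (p : PCond c m) :
    ∃ β < α, InJ (p.cut α) β := by
  have hreg := hα.isRegular hS
  set q := p.cut α with hq
  have hlt : ∀ β x y, q.f β x y ≠ none → β < α ∧ x < α ∧ y < α := by
    intro β x y h
    have h1 : cutRaw (fun x y => β < α ∧ x < α ∧ y < α) (p.f β) x y ≠ none := h
    exact (cutRaw_ne.1 h1).1
  set S : Set (L × L × L) := {t | q.f t.1 t.2.1 t.2.2 ≠ none} with hSdef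
  have hScard : #S < #(Iio α) := by
    set I : Set L := {β : L | ∃ x y, q.f β x y ≠ none} with hI
    have hIc : #I < #(Iio α) := q.supp.trans hα.clt
    have hsub : S ⊆ ⋃ β ∈ I, (fun d : L × L => ((β, d.1, d.2) : L × L × L)) ''
        {d : L × L | q.f β d.1 d.2 ≠ none} := by
      rintro ⟨β, x, y⟩ ht
      exact mem_biUnion (show β ∈ I from ⟨x, y, ht⟩) ⟨(x, y), ht, rfl⟩
    refine lt_of_le_of_lt (mk_le_mk_of_subset hsub) ?_
    rw [card_biUnion_lt_iff_forall_of_isRegular hreg hIc]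
    rintro β ⟨x, y, hxy⟩
    refine lt_of_le_of_lt mk_image_le ?_
    have hβ : Stage c m β := (q.stage β x y hxy).1
    exact lt_of_le_of_lt (q.good β hβ).size (hα.lim β (hlt β x y hxy).1)
  have hb : ∀ f : L × L × L → L, (∀ t ∈ S, f t < α) → ∃ b < α, ∀ t ∈ S, f t < b := by
    intro f hf
    obtain ⟨b, hb, hb'⟩ := hα.reg (f '' S) (by rintro _ ⟨t, ht, rfl⟩; exact hf t ht)
      (lt_of_le_of_lt mk_image_le hScard)
    exact ⟨b, hb, fun t ht => hb' _ ⟨t, ht, rfl⟩⟩
  obtain ⟨b1, h1, h1'⟩ := hb (fun t => t.1) fun t ht => (hlt _ _ _ ht).1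
  obtain ⟨b2, h2, h2'⟩ := hb (fun t => t.2.1) fun t ht => (hlt _ _ _ ht).2.1
  obtain ⟨b3, h3, h3'⟩ := hb (fun t => t.2.2) fun t ht => (hlt _ _ _ ht).2.2
  refine ⟨max b1 (max b2 b3), max_lt h1 (max_lt h2 h3), fun β x y hxy => ⟨?_, ?_, ?_⟩⟩
  · exact lt_of_lt_of_le (h1' (β, x, y) hxy) (le_max_left _ _)
  · exact lt_of_lt_of_le (h2' (β, x, y) hxy) ((le_max_left _ _).trans (le_max_right _ _))
  · exact lt_of_lt_of_le (h3' (β, x, y) hxy) ((le_max_right _ _).trans (le_max_right _ _))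

theorem typ_e (hS : Setup c m n U) {e : L → PCond c m} (he : OntoP e) :
    ∀ᶠ X in (U : Filter (Set L)), ∀ α h, Enum m X α h →
      (∀ z < α, InJ (e z) α) ∧ ∀ p : PCond c m, ∃ z < α, e z = p.cut α := by
  classical
  choose bd hbd hbd' using fun z => PCond.bounded hS (e z)
  choose zz hzz hzz' using he
  have hg : ∀ β : L, ∃ b : L, β < m → b < m ∧ ∀ p : PCond c m, InJ p β → ∃ z < b, e z = p := by
    intro β
    by_cases hβ : β < m
    · obtain ⟨b, hb, hb'⟩ := hS.mreg (zz '' {p : PCond c m | InJ p β})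
        (by rintro _ ⟨p, _, rfl⟩; exact hzz p) (lt_of_le_of_lt mk_image_le (card_InJ hS hβ))
      exact ⟨b, fun _ => ⟨hb, fun p hp => ⟨zz p, hb' _ ⟨p, hp, rfl⟩, hzz' p⟩⟩⟩
    · exact ⟨m, fun h => absurd h hβ⟩
  choose g hgm using hg
  filter_upwards [closed_list hS.toHuge (fun l => bd (l.headD m)),
    closed_list hS.toHuge (fun l => g (l.headD m)), stage hS.toHuge hS.cm] with X hX1 hX2 hX3
  intro α h hE
  have hα := hX3 α h hE
  refine ⟨fun z hz => ?_, fun p => ?_⟩
  · have hzX : z ∈ X := (hE.cap z (hz.trans hE.lt)).2 hz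
    have h1 := hX1 [z] (by simpa using hzX)
    have h2 : bd z < α := (hE.cap (bd z) (hbd z)).1 h1
    intro β x y hxy
    obtain ⟨h3, h4, h5⟩ := hbd' z β x y hxy
    exact ⟨h3.trans h2, h4.trans h2, h5.trans h2⟩
  · obtain ⟨β, hβ, hJ⟩ := P4_bdd hS hα p
    have hβm : β < m := hβ.trans hE.lt
    have hβX : β ∈ X := (hE.cap β hβm).2 hβ
    have h1 := hX2 [β] (by simpa using hβX)
    obtain ⟨h2, h3⟩ := hgm β hβm
    have h4 : g β < α := (hE.cap (g β) h2).1 h1
    obtain ⟨z, hz, hz'⟩ := h3 _ hJ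
    exact ⟨z, hz.trans h4, hz'⟩

end Pool.Agent.HG
end

section

/-!
# TASK P5: the chain condition of the first forcing

PROOF. Take `e` with `OntoP e` (`exists_enumP`). For `x` choose `bd x < m` with `InJ (f x) (bd x)`
(`PCond.bounded`); for `z` choose `bz z < m` with `InJ (e z) (bz z)`. For `β`, `z` let `Φ β z` be some `x' < m` with
`(f x').cut β = e z` if there is one, and `Φ β z = m` otherwise. Take an `X` (almost all, so there is one) closed
under `bd`, `bz`, `Φ` (`closed_list`, lists `[x]`, `[z]`, `[β, z]`), with `Enum m X α h`, `Stage c m α`, and the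
conclusion of `typ_e`. Put `j := α < m`. `(f j).cut α = e z` with `z < α`. `β := bz z < α` (as `z ∈ X`, so
`bz z ∈ X`, `bz z < m`). All places of `(f j).cut α` are below `β`, so `(f j).cut β = (f j).cut α = e z`. Hence
`i := Φ β z < m` satisfies `(f i).cut β = e z`; `i ∈ X` so `i < α = j`; and `InJ (f i) (bd i)` with `bd i < α`.
The conditions `f i`, `f j` agree: if both are defined at `(α', x, y)`, this place is below `α` (it is a
place of `f i`), so it is a place of `(f j).cut α = e z = (f i).cut β`, so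
`(f j).f α' x y = (e z).f α' x y = (f i).f α' x y`. `PCond.exists_join`.
-/

set_option autoImplicit false

namespace Pool.Agent.HG

open Cardinal Set Pool.Agent.CC

universe u v w

variable {L : Type u} [LinearOrder L] [WellFoundedLT L] {c m n : L} {U : Ultrafilter (Set L)}

theorem mcc (hS : Setup c m n U) (f : L → PCond c m) :
    ∃ i j, i < j ∧ j < m ∧ ∃ r, r ≤ f i ∧ r ≤ f j := by
  classical
  have hU : Huge m U := hS.toHuge
  obtain ⟨e, he⟩ := exists_enumP hS
  choose bd hbdm hbdJ using fun x => PCond.bounded hS (f x)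
  choose bz hbzm hbzJ using fun z => PCond.bounded hS (e z)
  have hΦ : ∃ Φ : L → L → L, ∀ β z, (∃ x', x' < m ∧ (f x').cut β = e z) →
      Φ β z < m ∧ (f (Φ β z)).cut β = e z := by
    refine ⟨fun β z => if h : ∃ x', x' < m ∧ (f x').cut β = e z then h.choose else m, ?_⟩
    intro β z h
    simp only [dif_pos h]
    exact h.choose_spec
  obtain ⟨Φ, hΦ⟩ := hΦ
  have c1 := closed_list hU (fun l => bd (l.headD m))
  have c2 := closed_list hU (fun l => bz (l.headD m))
  have c3 := closed_list hU (fun l => Φ (l.headD m) (l.tail.headD m))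
  obtain ⟨X, ⟨α, h, hE⟩, hst, h1, h2, h3, ht⟩ :=
    ((exists_enum hU).and ((stage hU hS.cm).and (c1.and (c2.and (c3.and (typ_e hS he)))))).exists
  obtain ⟨-, htc⟩ := ht α h hE
  obtain ⟨z, hz, hez⟩ := htc (f α)
  have hzX : z ∈ X := (hE.cap z (hz.trans hE.lt)).2 hz
  have hβX : bz z ∈ X := h2 [z] (by simpa using hzX)
  have hβα : bz z < α := (hE.cap _ (hbzm z)).1 hβX
  have hcut : (f α).cut (bz z) = e z := by
    refine PCond.ext ?_
    funext α' x y
    ext w
    constructor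
    · intro hw
      obtain ⟨⟨a1, a2, a3⟩, hw'⟩ := PCond.cut_eq.1 hw
      rw [hez]
      exact PCond.cut_eq.2 ⟨⟨a1.trans hβα, a2.trans hβα, a3.trans hβα⟩, hw'⟩
    · intro hw
      have hne : (e z).f α' x y ≠ none := by
        rw [hw]
        exact Option.some_ne_none _
      have hb := hbzJ z α' x y hne
      rw [hez] at hw
      exact PCond.cut_eq.2 ⟨hb, (PCond.cut_eq.1 hw).2⟩
  obtain ⟨him, hicut⟩ := hΦ (bz z) z ⟨α, hE.lt, hcut⟩
  have hiX : Φ (bz z) z ∈ X := h3 [bz z, z] (by simpa using ⟨hβX, hzX⟩)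
  have hiα : Φ (bz z) z < α := (hE.cap _ him).1 hiX
  have hbX : bd (Φ (bz z) z) ∈ X := h1 [Φ (bz z) z] (by simpa using hiX)
  have hbα : bd (Φ (bz z) z) < α := (hE.cap _ (hbdm _)).1 hbX
  obtain ⟨r, hr1, hr2, -⟩ := PCond.exists_join hS (p := f (Φ (bz z) z)) (q := f α) (by
    intro α' x y v w hv hw
    have hne : (f (Φ (bz z) z)).f α' x y ≠ none := by
      rw [hv]
      exact Option.some_ne_none _
    obtain ⟨a1, a2, a3⟩ := hbdJ _ α' x y hne
    have k1 : ((f α).cut α).f α' x y = some w :=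
      PCond.cut_eq.2 ⟨⟨a1.trans hbα, a2.trans hbα, a3.trans hbα⟩, hw⟩
    rw [← hez, ← hicut] at k1
    have k2 := (PCond.cut_eq.1 k1).2
    rw [hv] at k2
    exact Option.some.inj k2)
  exact ⟨Φ (bz z) z, α, hiα, hE.lt, r, hr1, hr2⟩

end Pool.Agent.HG
end

section

/-!
# TASK Q1: literal extensions, lower bounds

PROOF. `exists_lit`: `s` = `RCond.exists_mix` of `q.r` and `q'.r`, `q'' := ⟨q'.p, s⟩`. `Lit q'' q` is clear. `q'' ≤ q'`: at a place with
`q'.r.f x y = some w`: if `q.r.f x y = none` then `s` has the value `w`; if `q.r.f x y = some w₀` then `s` has the value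
`w₀`, and `q' ≤ q` gives `Same e q'.p w w₀` (the value of `q'` is unique), use `Same.symm`.
`exists_lower`: `PCond.exists_union`, `RCond.exists_union` (`#ι < #(Iio c) < #(Iio m)`).
`lit_join`: two conditions with compatible components: `p ≤` both first components and `RCond.exists_join`.
-/

set_option autoImplicit false

namespace Pool.Agent.HG

open Cardinal Set Pool.Agent.CC

universe u v w

variable {L : Type u} [LinearOrder L] [WellFoundedLT L] {c m n : L} {U : Ultrafilter (Set L)}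

variable {e : L → PCond c m}

theorem exists_lit (hS : Setup c m n U) {q' q : QCond e} (h : q' ≤ q) :
    ∃ q'' ≤ q', q''.p = q'.p ∧ Lit q'' q := by
  obtain ⟨s, hs1, hs2⟩ := RCond.exists_mix hS q.r q'.r
  refine ⟨⟨q'.p, s⟩, ⟨le_rfl, fun x y w hw => ?_⟩, rfl, ⟨h.1, hs1⟩⟩
  rcases hq : q.r.f x y with _ | w₀
  · exact ⟨w, (hs2 x y w).mpr (Or.inr ⟨hq, hw⟩), Same.refl _ _⟩
  · obtain ⟨w1, hw1, hsame⟩ := h.2 x y w₀ hq
    have h1 : w1 = w := Option.some.inj (hw1.symm.trans hw)
    subst h1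
    exact ⟨w₀, (hs2 x y w₀).mpr (Or.inl hq), hsame.symm⟩

theorem exists_lower (hS : Setup c m n U) {ι : Type u} (q : ι → QCond e) (hι : #ι < #(Iio c))
    (hp : ∀ i j α, Agree ((q i).p.f α) ((q j).p.f α)) (hr : ∀ i j, Agree (q i).r.f (q j).r.f) :
    ∃ q', ∀ i, Lit q' (q i) := by
  obtain ⟨p, hpu⟩ := PCond.exists_union hS (fun i => (q i).p) hι hp
  obtain ⟨r, hru⟩ := RCond.exists_union hS (fun i => (q i).r) (hι.trans hS.clt) hr
  exact ⟨⟨p, r⟩, fun i => ⟨fun α x y w hw => (hpu α x y w).mpr ⟨i, hw⟩,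
    fun x y w hw => (hru x y w).mpr ⟨i, hw⟩⟩⟩

theorem lit_join (hS : Setup c m n U) {q q' : QCond e} {p : PCond c m} (hp : p ≤ q.p) (hp' : p ≤ q'.p)
    (hr : Agree q.r.f q'.r.f) : ∃ s : QCond e, s.p = p ∧ Lit s q ∧ Lit s q' := by
  obtain ⟨s, h1, h2, _⟩ := RCond.exists_join hS hr
  exact ⟨⟨p, s⟩, rfl, ⟨hp, h1⟩, ⟨hp', h2⟩⟩

end Pool.Agent.HG
end

section

/-!
# TASK J4: initial segments of lambda are collapsed to nu

PROOF. Let `b : L`. `φ y v q := v < b ∧ Val q b y v` for `y : Iio n`, `v : L`; persistent, single valued.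
`FunName.exists_partial` with default `b`. Density: let `v < b`, `q` a condition. The set of the `y` with
`q.r.f b y ≠ none` has size `≤ 2 ^ #(Iio m)`, and `{y | m ≤ y ∧ y < n}` has size `> 2 ^ #(Iio m)` (`nbig`; `Iio n` is the
union of it and `Iio m`, `#(Iio m) < 2 ^ #(Iio m)`), so there is `y` with `m ≤ y < n`, `q.r.f b y = none`. `z₀ < m` with
`e z₀` the weakest condition (`exists_top`, `he`); `w := fun z => if z = z₀ then some v else none`; `Good.ins` for
`q.r.f`, place `(b, y)`, `α = m` (`y < m` is false; `unc`): `r'`; `⟨q.p, r'⟩ ≤ q` (literal), and `Val` holds by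
`Ev.of_const`.
-/

set_option autoImplicit false

namespace Pool.Agent.HG

open Cardinal Set Pool.Agent.CC

universe u v w

variable {L : Type u} [LinearOrder L] [WellFoundedLT L] {c m n : L} {U : Ultrafilter (Set L)}

variable {e : L → PCond c m}

/-- a free place `(b, y)` with `m ≤ y < n` -/
private theorem J4_free (hS : Setup c m n U) (r : RCond m) (b : L) : ∃ y, m ≤ y ∧ y < n ∧ r.f b y = none := by
  by_contra hcon
  push Not at hcon
  have hsub : Iio n ⊆ Iio m ∪ {y | r.f b y ≠ none} := by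
    intro y hy
    by_cases hm : y < m
    · exact Or.inl hm
    · exact Or.inr (hcon y (not_lt.1 hm) hy)
  have h1 : #{y | r.f b y ≠ none} ≤ 2 ^ #(Iio m) := by
    refine le_trans ?_ r.good.size
    refine mk_le_of_injective (f := fun y : {y | r.f b y ≠ none} =>
      (⟨(b, y.1), y.2⟩ : {e : L × L | r.f e.1 e.2 ≠ none})) ?_
    intro y y' h
    have := congrArg (fun z : {e : L × L | r.f e.1 e.2 ≠ none} => z.1.2) h
    exact Subtype.ext this
  have h2 : #(Iio m) ≤ 2 ^ #(Iio m) := (cantor _).le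
  have hinf : ℵ₀ ≤ (2 : Cardinal.{u}) ^ #(Iio m) := le_trans hS.unc.le h2
  have h3 : #(Iio n) ≤ 2 ^ #(Iio m) := by
    calc #(Iio n) ≤ #(Iio m ∪ {y | r.f b y ≠ none} : Set L) := mk_le_mk_of_subset hsub
      _ ≤ #(Iio m) + #{y | r.f b y ≠ none} := mk_union_le _ _
      _ ≤ 2 ^ #(Iio m) + 2 ^ #(Iio m) := add_le_add h2 h1
      _ = 2 ^ #(Iio m) := add_eq_self hinf
  exact absurd hS.nbig (not_lt.2 h3)

theorem collapsed_L (hS : Setup c m n U) (he : OntoP e) (q : QCond e) :
    fCollapsed (QCond e) (Iio n) L q := by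
  intro b q₁ _
  obtain ⟨h, hh⟩ := FunName.exists_partial (P := QCond e) (A := Iio n) (B := L)
    (fun y v q => v < b ∧ Val q b (y : L) v)
    (fun y v p q hq hv => ⟨hv.1, hv.2.mono hq⟩)
    (fun y v v' p hv hv' => hv.2.unique hv'.2) b
  refine ⟨q₁, le_rfl, h, ?_⟩
  intro v q₂ _
  obtain ⟨y, hmy, hyn, hy⟩ := J4_free hS q₂.r b
  obtain ⟨p₀, hp₀⟩ := exists_top hS
  obtain ⟨z₀, hz₀, hez⟩ := he p₀
  classical
  obtain ⟨w, hwd⟩ : ∃ w : L → Option L, w = fun z => if z = z₀ then some (v : L) else none := ⟨_, rfl⟩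
  have hw0 : w z₀ = some (v : L) := by
    rw [hwd]
    simp
  have hw1 : ∀ z b', w z = some b' → z = z₀ ∧ b' = (v : L) := by
    intro z b' hz
    rw [hwd] at hz
    by_cases hzz : z = z₀
    · simp only [hzz, if_true] at hz
      exact ⟨hzz, (Option.some.inj hz).symm⟩
    · simp [hzz] at hz
  have hvb : (v : L) < b := v.2
  have hgood : Good m (insRaw q₂.r.f b y w) := by
    refine q₂.r.good.ins hS.unc.le b y w ?_ ?_
    · intro z b' hz
      obtain ⟨h1, h2⟩ := hw1 z b' hz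
      refine ⟨by rw [h1]; exact hz₀, by rw [h2]; exact hvb, fun hym => absurd hym (not_lt.2 hmy)⟩
    · intro hym
      exact absurd hym (not_lt.2 hmy)
  refine ⟨⟨q₂.p, ⟨insRaw q₂.r.f b y w, hgood⟩⟩, ?_, ⟨y, hyn⟩, ?_⟩
  · apply Lit.le
    refine ⟨le_rfl, ?_⟩
    intro x y' w' hw'
    have hne : ¬ (x = b ∧ y' = y) := by
      rintro ⟨rfl, rfl⟩
      rw [hy] at hw'
      exact absurd hw' (by simp)
    show insRaw q₂.r.f b y w x y' = some w'
    rw [insRaw_ne _ _ hne]
    exact hw'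
  · apply hh
    refine ⟨hvb, w, insRaw_self _ _ _ _, ?_⟩
    refine Ev.of_const (z₀ := z₀) hw0 ?_ ?_
    · rw [hez]
      exact hp₀ _
    · intro z b' hz _
      exact (hw1 z b' hz).2

end Pool.Agent.HG
end

section

set_option autoImplicit false

namespace Pool.Agent.HG

open Cardinal Set Pool.Agent.CC

universe u v w

variable {L : Type u} [LinearOrder L] [WellFoundedLT L] {c m n : L} {U : Ultrafilter (Set L)}

variable {e : L → PCond c m}

theorem bounded_c (hS : Setup c m n U) (a : Iio c) (q : QCond e) :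
    fBounded (QCond e) (Iio a) (Iio c) q := by
  classical
  intro h q₀ hq₀
  have : Nonempty (QCond e × Iio c) := ⟨⟨q, a⟩⟩
  have hone : (1 : Cardinal.{u}) < #(Iio c) := one_lt_aleph0.trans_le hS.cinf
  have hIa : #(Iio a) < #(Iio c) := by
    rw [mk_Iio_sub]
    exact hS.cinit a a.2
  have hIi : ∀ i : Iio a, #(Iio i) < #(Iio c) := fun i => by
    refine lt_of_le_of_lt ?_ hIa
    exact mk_subtype_le _
  -- agreement from comparabilities
  have key : ∀ (κ : Type u) [LinearOrder κ] (x : κ → QCond e), (∀ i, Lit (x i) q₀) →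
      (∀ i j, j < i → Lit (x i) (x j)) → #κ < #(Iio c) →
      ∃ q', Lit q' q₀ ∧ ∀ i, Lit q' (x i) := by
    intro κ _ x h0 h1 hκ
    set F : Option κ → QCond e := fun o => o.elim q₀ x with hF
    have hcard : #(Option κ) < #(Iio c) := by
      rw [mk_option]
      exact add_lt_of_lt hS.cinf hκ hone
    have hcomp : ∀ i j, Lit (F i) (F j) ∨ Lit (F j) (F i) := by
      intro i j
      rcases i with _ | i <;> rcases j with _ | j
      · exact Or.inl (Lit.refl _)
      · exact Or.inr (h0 j)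
      · exact Or.inl (h0 i)
      · rcases lt_trichotomy i j with hij | hij | hij
        · exact Or.inr (h1 j i hij)
        · rw [hij]; exact Or.inl (Lit.refl _)
        · exact Or.inl (h1 i j hij)
    obtain ⟨q', hq'⟩ := exists_lower hS F hcard
      (fun i j α => by
        rcases hcomp i j with hc | hc
        · exact Agree.of_ext (Ext.refl _) (hc.1 α)
        · exact Agree.of_ext (hc.1 α) (Ext.refl _))
      (fun i j => by
        rcases hcomp i j with hc | hc
        · exact Agree.of_ext (Ext.refl _) hc.2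
        · exact Agree.of_ext hc.2 (Ext.refl _))
    exact ⟨q', hq' none, fun i => hq' (some i)⟩
  obtain ⟨x, hx⟩ := exists_rec (W := Iio a) (X := QCond e × Iio c)
    (fun i x y => (Lit y.1 q₀ ∧ h.app i y.2 y.1) ∧ ∀ j, j < i → Lit y.1 (x j).1)
    (by
      intro i x x' y hxx hy
      refine ⟨hy.1, fun j hj => ?_⟩
      rw [← hxx j hj]
      exact hy.2 j hj)
    (by
      intro i x hx
      obtain ⟨q₁, hq₁, hq₁'⟩ := key (Iio i) (fun j => (x j).1) (fun j => (hx j j.2).1.1)
        (fun j k hk => (hx j j.2).2 k hk) (hIi i)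
      obtain ⟨q₂, hq₂, v, hv⟩ := h.tot i q₁
      obtain ⟨q₃, hq₃, -, hlit⟩ := exists_lit hS hq₂
      exact ⟨(q₃, v), ⟨hlit.trans hq₁, (h.reg i v).1 _ _ hq₃ hv⟩, fun j hj => hlit.trans (hq₁' ⟨j, hj⟩)⟩)
  obtain ⟨r, hr, hr'⟩ := key (Iio a) (fun i => (x i).1) (fun i => (hx i).1.1)
    (fun i j hj => (hx i).2 j hj) hIa
  obtain ⟨b, hb, hbv⟩ := hS.creg (range fun i : Iio a => ((x i).2 : L))
    (by rintro _ ⟨i, rfl⟩; exact (x i).2.2)
    (mk_range_le.trans_lt hIa)
  refine ⟨r, hr.le, ⟨b, hb⟩, fun i => fun q' hq' => ⟨q', le_rfl, ⟨(x i).2, ?_⟩, ?_⟩⟩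
  · exact hbv _ ⟨i, rfl⟩
  · exact (h.reg i _).1 _ _ (hq'.trans (hr' i).le) (hx i).1.2

end Pool.Agent.HG
end

section

/-!
# TASK Q8: few values

PROOF. (Compare `few_values` in `Pool/Agent/Lib/MP_27cb06_lc/T11.lean`.) Suppose the conclusion fails: (*) for every
`r ≤ q.r` with `r.f x y = q.r.f x y` for `y < m` and every `Z` with `#Z ≤ 2 ^ #(Iio m)` there is `q' ≤ ⟨q.p, r⟩` such that
`h.app a b q''` fails for all `q'' ≤ q'`, `b ∈ Z`. By `CC.exists_rec` (`W = Iio n`, `X = QCond e × B`) construct `(s ξ, b ξ)`,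
`ξ : Iio n`, with: `(s ξ).p ≤ q.p`, `(s ξ).r ≤ q.r`, `h.app a (b ξ) (s ξ)` and for `η < ξ`: `b ξ ≠ b η` and
`(s ξ).r.f x y = some w` whenever `m ≤ y`, `(s η).r.f x y = some w`. Step `ξ`: `RCond.exists_union_hi` with `r₀ = q.r` and the
family `Option (Iio ξ)` (`none ↦ q.r`, `some η ↦ (s η).r`, of size `≤ 2 ^ #(Iio m)` by `ninit`) gives `c'`, `c' ≤ q.r`,
with the same places `y < m` as `q.r`, and extending the upper parts of all `(s η).r`. Apply (*) to `c'` and
`Z = {b η | η < ξ}`: `q'`; `h.tot`: `q'' ≤ q'` with `h.app a b q''`, so `b ∉ Z`; `exists_lit` for `q'' ≤ ⟨q.p, c'⟩`: `q₃`;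
`(s ξ, b ξ) := (q₃, b)`.
Now `F : Iio n → Option (L × L) → Option (PCond c m ⊕ Set (Iio m))`: `F ξ none = some (inl (s ξ).p)`,
`F ξ (some (x, y)) = ` the set `{z | w z ≠ none}` (as `inr`) if `y < m` and `(s ξ).r.f x y = some w`, and `none` otherwise.
The domains have size `≤ #(Iio m) + 1 = #(Iio m)` (`size'`), `#(PCond c m ⊕ Set (Iio m)) ≤ 2 ^ #(Iio m)` (`card_PCond`),
`2 ^ #(Iio m) < #(Iio n)` (`nbig`). `exists_agree` with `θ = #(Iio m)`: `η ≠ ξ`; by symmetry `η < ξ`. So `(s η).p = (s ξ).p`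
and `Agree (s η).r.f (s ξ).r.f`: for `y < m` the values `w`, `w'` have the same domain (inside `Iio m` by `legal`) and all
their values are the least element of `L` (`legal`), so they are equal; for `m ≤ y` by construction. `lit_join`: a
condition below both, which forces `h(a) = b η` and `h(a) = b ξ`; `h.sv`: `b η = b ξ`, contradiction.
-/

set_option autoImplicit false

namespace Pool.Agent.HG

open Cardinal Set Pool.Agent.CC

universe u v w

variable {L : Type u} [LinearOrder L] [WellFoundedLT L] {c m n : L} {U : Ultrafilter (Set L)}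

variable {e : L → PCond c m}

theorem few_values (hS : Setup c m n U) {A : Type v} {B : Type u} (h : FunName (QCond e) A B) (a : A)
    (q : QCond e) : ∃ r : RCond m, (∀ x y, y < m → r.f x y = q.r.f x y) ∧ r ≤ q.r ∧
      ∃ Z : Set B, #Z ≤ 2 ^ #(Iio m) ∧ ∀ q' ≤ (⟨q.p, r⟩ : QCond e), ∃ q'' ≤ q', ∃ b ∈ Z, h.app a b q'' := by
  classical
  by_contra hcon
  have star : ∀ r : RCond m, (∀ x y, y < m → r.f x y = q.r.f x y) → r ≤ q.r → ∀ Z : Set B,
      #Z ≤ 2 ^ #(Iio m) → ∃ q' ≤ (⟨q.p, r⟩ : QCond e), ∀ q'' ≤ q', ∀ b ∈ Z, ¬ h.app a b q'' := by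
    intro r h1 h2 Z hZ
    by_contra hp
    refine hcon ⟨r, h1, h2, Z, hZ, fun q' hq' => ?_⟩
    by_contra hr
    exact hp ⟨q', hq', fun q'' hq'' b hb ha => hr ⟨q'', hq'', b, hb, ha⟩⟩
  have hinf : ℵ₀ ≤ #(Iio m) := hS.unc.le
  obtain ⟨q₀, -, b₀, -⟩ := h.tot a q
  have _hne : Nonempty (QCond e × B) := ⟨(q, b₀)⟩
  obtain ⟨x, hx⟩ := exists_rec (W := Iio n) (X := QCond e × B)
    (fun ξ x y => y.1.p ≤ q.p ∧ y.1.r ≤ q.r ∧ h.app a y.2 y.1 ∧
      ∀ η < ξ, y.2 ≠ (x η).2 ∧ ∀ s t w, m ≤ t → (x η).1.r.f s t = some w → y.1.r.f s t = some w)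
    (by
      rintro ξ x x' y hxx ⟨h1, h2, h3, h4⟩
      refine ⟨h1, h2, h3, fun η hη => ?_⟩
      rw [← hxx η hη]
      exact h4 η hη)
    (by
      intro ξ x hx
      obtain ⟨s, hs⟩ : ∃ s : Option (Iio ξ) → RCond m,
        s = fun o => o.elim q.r fun η => (x η.1).1.r := ⟨_, rfl⟩
      have hs0 : s none = q.r := by rw [hs]; rfl
      have hs1 : ∀ η : Iio ξ, s (some η) = (x η.1).1.r := fun η => by rw [hs]; rfl
      have hIio : #(Iio ξ) ≤ 2 ^ #(Iio m) := by
        rw [mk_Iio_sub]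
        exact hS.ninit _ ξ.2
      have h2inf : ℵ₀ ≤ (2 : Cardinal.{u}) ^ #(Iio m) := hinf.trans (cantor _).le
      have hcard : #(Option (Iio ξ)) ≤ 2 ^ #(Iio m) := by
        rw [Cardinal.mk_option]
        calc #(Iio ξ) + 1 ≤ 2 ^ #(Iio m) + 2 ^ #(Iio m) :=
              add_le_add hIio (Cardinal.one_le_aleph0.trans h2inf)
          _ = 2 ^ #(Iio m) := Cardinal.add_eq_self h2inf
      have hag : ∀ i j x y v w, m ≤ y → (s i).f x y = some v → (s j).f x y = some w → v = w := by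
        rintro (_ | γ) (_ | δ) t y v w hy hv hw
        · rw [hs0] at hv hw
          rw [hv] at hw
          exact Option.some.inj hw
        · rw [hs0] at hv
          rw [hs1] at hw
          have h1 := (hx δ.1 δ.2).2.1 t y v hv
          rw [hw] at h1
          exact (Option.some.inj h1).symm
        · rw [hs1] at hv
          rw [hs0] at hw
          have h1 := (hx γ.1 γ.2).2.1 t y w hw
          rw [hv] at h1
          exact Option.some.inj h1
        · rw [hs1] at hv hw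
          rcases lt_trichotomy γ.1 δ.1 with hlt | heq | hgt
          · have h1 := ((hx δ.1 δ.2).2.2.2 γ.1 hlt).2 t y v hy hv
            rw [hw] at h1
            exact (Option.some.inj h1).symm
          · rw [heq, hw] at hv
            exact (Option.some.inj hv).symm
          · have h1 := ((hx γ.1 γ.2).2.2.2 δ.1 hgt).2 t y w hy hw
            rw [hv] at h1
            exact Option.some.inj h1
      obtain ⟨r, hr1, hr2⟩ := RCond.exists_union_hi hS q.r s hcard hag
      have hrq : r ≤ q.r := by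
        intro t y w hw
        rcases lt_or_ge y m with hy | hy
        · rw [hr1 t y hy]
          exact hw
        · refine (hr2 t y w hy).2 ⟨none, ?_⟩
          rw [hs0]
          exact hw
      obtain ⟨q', hq', hno⟩ := star r hr1 hrq (Set.range fun η : Iio ξ => (x η.1).2)
        (mk_range_le.trans hIio)
      obtain ⟨q'', hq'', b, hb⟩ := h.tot a q'
      obtain ⟨q₃, hq₃, -, hlit⟩ := exists_lit hS (hq''.trans hq')
      refine ⟨(q₃, b), hlit.1, hlit.2.trans hrq, (h.reg a b).1 _ _ hq₃ hb, fun η hη => ⟨?_, ?_⟩⟩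
      · intro hbe
        exact hno q'' hq'' b ⟨⟨η, hη⟩, hbe.symm⟩ hb
      · intro t y w hy hw
        refine hlit.2 t y w ((hr2 t y w hy).2 ⟨some ⟨η, hη⟩, ?_⟩)
        rw [hs1]
        exact hw)
  have hV : #(PCond c m ⊕ Set (Iio m)) ≤ 2 ^ #(Iio m) := by
    rw [Cardinal.mk_sum, Cardinal.lift_id, Cardinal.lift_id, Cardinal.mk_set]
    have h2inf : ℵ₀ ≤ (2 : Cardinal.{u}) ^ #(Iio m) := hinf.trans (cantor _).le
    calc #(PCond c m) + 2 ^ #(Iio m) ≤ 2 ^ #(Iio m) + 2 ^ #(Iio m) :=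
          add_le_add ((card_PCond hS).trans (cantor _).le) le_rfl
      _ = 2 ^ #(Iio m) := Cardinal.add_eq_self h2inf
  obtain ⟨F, hF⟩ : ∃ F : Iio n → Option (L × L) → Option (PCond c m ⊕ Set (Iio m)),
      F = fun ξ o => o.elim (some (Sum.inl (x ξ).1.p)) fun d =>
        if d.2 < m then ((x ξ).1.r.f d.1 d.2).map fun w => Sum.inr {z : Iio m | w z ≠ none} else none :=
    ⟨_, rfl⟩
  have hF0 : ∀ ξ, F ξ none = some (Sum.inl (x ξ).1.p) := fun ξ => by rw [hF]; rfl
  have hF1 : ∀ ξ s t w, t < m → (x ξ).1.r.f s t = some w →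
      F ξ (some (s, t)) = some (Sum.inr {z : Iio m | w z ≠ none}) := by
    intro ξ s t w ht hw
    rw [hF]
    simp only [Option.elim_some, if_pos ht, hw, Option.map_some]
  have hF2 : ∀ ξ s t, F ξ (some (s, t)) ≠ none → t < m ∧ (x ξ).1.r.f s t ≠ none := by
    intro ξ s t hne
    by_cases ht : t < m
    · refine ⟨ht, fun h0 => hne ?_⟩
      rw [hF]
      simp only [Option.elim_some, if_pos ht, h0, Option.map_none]
    · exfalso
      refine hne ?_
      rw [hF]
      simp only [Option.elim_some, if_neg ht]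
  have hdom : ∀ ξ, #{o | F ξ o ≠ none} ≤ #(Iio m) := by
    intro ξ
    have hsub : {o | F ξ o ≠ none} ⊆ insert none (some '' {d : L × L | d.2 < m ∧ (x ξ).1.r.f d.1 d.2 ≠ none}) := by
      rintro (_ | ⟨s, t⟩) ho
      · exact Set.mem_insert _ _
      · exact Set.mem_insert_of_mem _ ⟨(s, t), hF2 ξ s t ho, rfl⟩
    calc #{o | F ξ o ≠ none}
        ≤ #↥(insert none (some '' {d : L × L | d.2 < m ∧ (x ξ).1.r.f d.1 d.2 ≠ none})) :=
          mk_le_mk_of_subset hsub
      _ ≤ #↥(some '' {d : L × L | d.2 < m ∧ (x ξ).1.r.f d.1 d.2 ≠ none}) + 1 := mk_insert_le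
      _ ≤ #(Iio m) + #(Iio m) := by
          refine add_le_add (mk_image_le.trans ?_) (Cardinal.one_le_aleph0.trans hinf)
          exact (x ξ).1.r.good.size'
      _ = #(Iio m) := Cardinal.add_eq_self hinf
  obtain ⟨ξ₁, ξ₂, hne, hagr⟩ := exists_agree (J := Iio n) #(Iio m) hinf hV hS.nbig F hdom
  have key : ∀ η ξ : Iio n, η < ξ → (∀ o v w, F η o = some v → F ξ o = some w → v = w) → False := by
    intro η ξ hlt hag
    have hp : (x η).1.p = (x ξ).1.p := Sum.inl.inj (hag none _ _ (hF0 η) (hF0 ξ))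
    have h4 := (hx ξ).2.2.2 η hlt
    have hA : Agree (x η).1.r.f (x ξ).1.r.f := by
      intro s t v w hv hw
      rcases lt_or_ge t m with ht | ht
      · have h5 := Sum.inr.inj (hag (some (s, t)) _ _ (hF1 η s t v ht hv) (hF1 ξ s t w ht hw))
        funext z
        cases hvz : v z with
        | none =>
          cases hwz : w z with
          | none => rfl
          | some b' =>
            exfalso
            have hzm := ((x ξ).1.r.good.legal s t w z b' hw hwz).1
            have h6 : (⟨z, hzm⟩ : Iio m) ∈ {z : Iio m | v z ≠ none} := by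
              rw [h5]
              show w z ≠ none
              rw [hwz]
              exact Option.some_ne_none _
            exact h6 hvz
        | some b =>
          obtain ⟨hzm, -, hb⟩ := (x η).1.r.good.legal s t v z b hv hvz
          have h6 : (⟨z, hzm⟩ : Iio m) ∈ {z : Iio m | w z ≠ none} := by
            rw [← h5]
            show v z ≠ none
            rw [hvz]
            exact Option.some_ne_none _
          cases hwz : w z with
          | none => exact absurd hwz h6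
          | some b' =>
            obtain ⟨-, -, hb'⟩ := (x ξ).1.r.good.legal s t w z b' hw hwz
            rw [le_antisymm (hb ht b') (hb' ht b)]
      · have h1 := h4.2 s t v ht hv
        rw [hw] at h1
        exact (Option.some.inj h1).symm
    obtain ⟨s, -, hs1, hs2⟩ := lit_join hS (le_refl (x η).1.p) (le_of_eq hp) hA
    have a1 := (h.reg a (x η).2).1 _ _ hs1.le (hx η).2.2.1
    have a2 := (h.reg a (x ξ).2).1 _ _ hs2.le (hx ξ).2.2.1
    exact h4.1 (h.sv _ _ _ _ a2 a1)
  rcases lt_or_gt_of_ne hne with hlt | hgt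
  · exact key ξ₁ ξ₂ hlt hagr
  · exact key ξ₂ ξ₁ hgt fun o v w hv hw => (hagr o w v hw hv).symm

end Pool.Agent.HG
end

section

/-!
# TASK Q9: nu is not collapsed to mu

PROOF. (Compare `Pool/Agent/Lib/MP_27cb06_lc/T12.lean`.) Let `h` be a name of a function `Iio m → Iio n`, `q₀ ≤ q`. By
`CC.exists_rec` (`W = Iio m`, `X = RCond m × Set (Iio n)`) and `few_values` construct `(r i, Z i)`, `i : Iio m`, with:
`(r i).f x y = q₀.r.f x y` for `y < m`, `r i ≤ q₀.r`, `r i ≤ r j` for `j < i`, `#(Z i) ≤ 2 ^ #(Iio m)`, and for all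
`q' ≤ ⟨q₀.p, r i⟩` there are `q'' ≤ q'`, `b ∈ Z i` with `h.app i b q''`. Step: `RCond.exists_union_hi` with `r₀ = q₀.r` for
`Option (Iio i)` gives `r'` below all of them (for `y < m` all are equal to `q₀.r`), then `few_values` for
`⟨q₀.p, r'⟩`. At the end `RCond.exists_union_hi` for `Option (Iio m)` (`#(Iio m) + 1 ≤ 2 ^ #(Iio m)`): `r`. The union `Z` of the
`Z i` has size `≤ #(Iio m) * 2 ^ #(Iio m) = 2 ^ #(Iio m)`; bounded by some `b < n` (`nreg`). `⟨q₀.p, r⟩ ≤ q₀` forces `h(i) < b`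
for all `i`: every `q' ≤ ⟨q₀.p, r⟩` is `≤ ⟨q₀.p, r i⟩` (literal).
-/

set_option autoImplicit false

namespace Pool.Agent.HG

open Cardinal Set Pool.Agent.CC

universe u v w

variable {L : Type u} [LinearOrder L] [WellFoundedLT L] {c m n : L} {U : Ultrafilter (Set L)}

variable {e : L → PCond c m}

/-- a lower bound of a chain of second components with the same places below `m` -/
private theorem Q9_lower (hS : Setup c m n U) {ι : Type u} (hι : #ι ≤ 2 ^ #(Iio m)) (r₀ : RCond m)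
    (s : ι → RCond m) (h0 : ∀ i x y, y < m → (s i).f x y = r₀.f x y)
    (hs : ∀ i j, s i ≤ s j ∨ s j ≤ s i) :
    ∃ r : RCond m, (∀ x y, y < m → r.f x y = r₀.f x y) ∧ ∀ i, r ≤ s i := by
  obtain ⟨r, hr1, hr2⟩ := RCond.exists_union_hi hS r₀ s hι (by
    intro i j x y v w _ hv hw
    rcases hs i j with h | h
    · have h1 := h x y w hw
      rw [hv] at h1
      exact Option.some_injective _ h1
    · have h1 := h x y v hv
      rw [hw] at h1
      exact (Option.some_injective _ h1).symm)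
  refine ⟨r, hr1, fun i x y w hw => ?_⟩
  rcases lt_or_ge y m with hy | hy
  · rw [hr1 x y hy, ← h0 i x y hy]
    exact hw
  · exact (hr2 x y w hy).2 ⟨i, hw⟩

theorem bounded_n (hS : Setup c m n U) (q : QCond e) : fBounded (QCond e) (Iio m) (Iio n) q := by
  intro h q₀ _
  have hinf : ℵ₀ ≤ #(Iio m) := hS.unc.le
  have h2 : #(Iio m) ≤ 2 ^ #(Iio m) := (cantor _).le
  have h3 : ℵ₀ ≤ 2 ^ #(Iio m) := hinf.trans h2
  let good : Iio m → (Iio m → RCond m × Set (Iio n)) → RCond m × Set (Iio n) → Prop := fun i x y =>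
    (∀ x' y', y' < m → y.1.f x' y' = q₀.r.f x' y') ∧ y.1 ≤ q₀.r ∧ (∀ j < i, y.1 ≤ (x j).1) ∧
      #y.2 ≤ 2 ^ #(Iio m) ∧ ∀ q' ≤ (⟨q₀.p, y.1⟩ : QCond e), ∃ q'' ≤ q', ∃ b ∈ y.2, h.app i b q''
  have hne : Nonempty (RCond m × Set (Iio n)) := ⟨(q₀.r, ∅)⟩
  have hloc : ∀ i x x' y, (∀ j < i, x j = x' j) → good i x y → good i x' y := by
    rintro i x x' y hxx ⟨h1, h2, h3, h4⟩
    refine ⟨h1, h2, fun j hj => ?_, h4⟩
    rw [← hxx j hj]
    exact h3 j hj
  have hok : ∀ i x, (∀ j < i, good j x (x j)) → ∃ y, good i x y := by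
    intro i x hx
    obtain ⟨c0, hc1, hc2⟩ := Q9_lower (m := m) hS (ι := Option (Iio i)) (by
      rw [mk_option]
      exact add_le_of_le h3 ((mk_set_le (Iio i)).trans h2) (one_le_aleph0.trans h3)) q₀.r
      (fun k : Option (Iio i) => k.elim q₀.r fun j => (x j).1) (by
        rintro (_ | k) x' y' hy'
        · rfl
        · exact (hx k.1 k.2).1 x' y' hy') (by
        rintro (_ | k) (_ | j)
        · exact Or.inl le_rfl
        · exact Or.inr (hx j.1 j.2).2.1
        · exact Or.inl (hx k.1 k.2).2.1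
        · rcases lt_trichotomy k.1 j.1 with hij | hij | hij
          · exact Or.inr ((hx j.1 j.2).2.2.1 k.1 hij)
          · have : k = j := Subtype.ext hij
            subst this
            exact Or.inl le_rfl
          · exact Or.inl ((hx k.1 k.2).2.2.1 j.1 hij))
    obtain ⟨r, hr1, hr2, Z, hZ, hfew⟩ := few_values hS h i (⟨q₀.p, c0⟩ : QCond e)
    exact ⟨(r, Z), fun x' y' hy' => (hr1 x' y' hy').trans (hc1 x' y' hy'), hr2.trans (hc2 none),
      fun j hj => hr2.trans (hc2 (some ⟨j, hj⟩)), hZ, hfew⟩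
  obtain ⟨x, hx⟩ := exists_rec good hloc hok
  obtain ⟨r, _, hr2⟩ := Q9_lower (m := m) hS (ι := Option (Iio m)) (by
      rw [mk_option]
      exact add_le_of_le h3 h2 (one_le_aleph0.trans h3)) q₀.r
      (fun k : Option (Iio m) => k.elim q₀.r fun j => (x j).1) (by
        rintro (_ | k) x' y' hy'
        · rfl
        · exact (hx k).1 x' y' hy') (by
        rintro (_ | k) (_ | j)
        · exact Or.inl le_rfl
        · exact Or.inr (hx j).2.1
        · exact Or.inl (hx k).2.1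
        · rcases lt_trichotomy k j with hij | hij | hij
          · exact Or.inr ((hx j).2.2.1 k hij)
          · subst hij
            exact Or.inl le_rfl
          · exact Or.inl ((hx k).2.2.1 j hij))
  have hZ : #(⋃ i, (x i).2 : Set (Iio n)) ≤ 2 ^ #(Iio m) := by
    refine mk_iUnion_le_sum_mk.trans ?_
    refine (Cardinal.sum_le_sum _ (fun _ => 2 ^ #(Iio m)) fun i => (hx i).2.2.2.1).trans ?_
    rw [Cardinal.sum_const']
    exact (mul_le_mul_left h2 _).trans (mul_eq_self h3).le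
  obtain ⟨b, hbn, hb⟩ := hS.nreg (Subtype.val '' (⋃ i, (x i).2 : Set (Iio n)))
    (by rintro _ ⟨v, _, rfl⟩; exact v.2) (mk_image_le.trans hZ)
  refine ⟨⟨q₀.p, r⟩, Lit.le ⟨le_rfl, hr2 none⟩, ⟨b, hbn⟩, ?_⟩
  intro a q' hq'
  have h1 : q' ≤ (⟨q₀.p, (x a).1⟩ : QCond e) := hq'.trans (Lit.le ⟨le_rfl, hr2 (some a)⟩)
  obtain ⟨q'', hq'', v, hv, happ⟩ := (hx a).2.2.2.2 q' h1
  exact ⟨q'', hq'', ⟨v, hb _ ⟨v, mem_iUnion.2 ⟨a, hv⟩, rfl⟩⟩, happ⟩

end Pool.Agent.HG
end

section

/-!
# TASK Y6: closure of the hull under deciding a name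

PROOF. For `s : Finset L`, `z v : L` there are `z₁ < m`, `v₁`, `b` with `e z₁ ≤ e z`, `eR v₁ ≤ eR v`, `F.app s b ⟨e z₁, eR v₁⟩`:
`F.tot s ⟨e z, eR v⟩` gives `q₁` and `b`; `exists_lit`: `q₂ ≤ q₁` with `Lit q₂ ⟨e z, eR v⟩`; `z₁`, `v₁` by `he`, `heR`. Choose
functions `f₁ s z v`, `f₂ s z v`, `f₃ s z v`. Almost all `X` are closed under `fun l => f₁ (l.drop 2).toFinset l₀ l₁` (where
`l₀`, `l₁` are the first two entries, with default values) and the same for `f₂`, `f₃` (`closed_list`). Let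
`Enum m X α h`, `s ⊆ X` finite, `z < α` (so `z ∈ X`), `v ∈ X`: apply it to the list `z :: v :: s.toList`. `z₁ ∈ X`, `z₁ < m`, so
`z₁ < α` (`cap`).
-/

set_option autoImplicit false

namespace Pool.Agent.HG

open Cardinal Set Pool.Agent.CC

universe u v w

variable {L : Type u} [LinearOrder L] [WellFoundedLT L] {c m n : L} {U : Ultrafilter (Set L)}

variable {e : L → PCond c m}

theorem exists_psi (hS : Setup c m n U) (he : OntoP e) {eR : L → RCond m} (heR : OntoR eR)
    (F : FunName (QCond e) (Finset L) L) :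
    ∀ᶠ X in (U : Filter (Set L)), ∀ α h, Enum m X α h → ∀ s : Finset L, (∀ x ∈ s, x ∈ (X : Set L)) →
      ∀ z < α, ∀ v ∈ (X : Set L), ∃ z₁ < α, ∃ v₁ ∈ (X : Set L), ∃ b ∈ (X : Set L),
        e z₁ ≤ e z ∧ eR v₁ ≤ eR v ∧ F.app s b ⟨e z₁, eR v₁⟩ := by
  classical
  have key : ∀ (s : Finset L) (z v : L), ∃ z₁ v₁ b : L, z₁ < m ∧ e z₁ ≤ e z ∧ eR v₁ ≤ eR v ∧
      F.app s b ⟨e z₁, eR v₁⟩ := by
    intro s z v
    obtain ⟨q₁, hq₁, b, hb⟩ := F.tot s ⟨e z, eR v⟩
    obtain ⟨q₂, hq₂, -, hlit⟩ := exists_lit hS hq₁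
    obtain ⟨z₁, hz₁, hez⟩ := he q₂.p
    obtain ⟨v₁, hv₁⟩ := heR q₂.r
    have h1 : F.app s b q₂ := (F.reg s b).1 q₁ q₂ hq₂ hb
    have h2 : q₂ = ⟨e z₁, eR v₁⟩ := by rw [hez, hv₁]
    refine ⟨z₁, v₁, b, hz₁, ?_, ?_, ?_⟩
    · rw [hez]
      exact hlit.1
    · rw [hv₁]
      exact hlit.2
    · rw [← h2]
      exact h1
  choose f₁ f₂ f₃ hf1 hf2 hf3 hf4 using key
  filter_upwards [closed_list hS.toHuge fun l => f₁ (l.drop 2).toFinset (l.getD 0 m) (l.getD 1 m),
    closed_list hS.toHuge fun l => f₂ (l.drop 2).toFinset (l.getD 0 m) (l.getD 1 m),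
    closed_list hS.toHuge fun l => f₃ (l.drop 2).toFinset (l.getD 0 m) (l.getD 1 m)]
    with X h1 h2 h3 α h hE s hs z hz v hv
  have hzX : z ∈ (X : Set L) := (hE.cap z (hz.trans hE.lt)).2 hz
  have hl : ∀ x ∈ z :: v :: s.toList, x ∈ (X : Set L) := by
    intro x hx
    rw [List.mem_cons, List.mem_cons, Finset.mem_toList] at hx
    rcases hx with rfl | rfl | hx
    · exact hzX
    · exact hv
    · exact hs x hx
  have hdrop : ((z :: v :: s.toList).drop 2).toFinset = s := Finset.toList_toFinset s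
  have g1 := h1 _ hl
  have g2 := h2 _ hl
  have g3 := h3 _ hl
  simp only [hdrop] at g1 g2 g3
  have g1' : f₁ s z v ∈ (X : Set L) := g1
  have g2' : f₂ s z v ∈ (X : Set L) := g2
  have g3' : f₃ s z v ∈ (X : Set L) := g3
  exact ⟨f₁ s z v, (hE.cap _ (hf1 s z v)).1 g1', f₂ s z v, g2', f₃ s z v, g3', hf2 s z v, hf3 s z v,
    hf4 s z v⟩

end Pool.Agent.HG
end
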