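import Pool.Agent.Lib.MP_27cb06_lc.Mg.G005
import Pool.Agent.Lib.MP_27cb06_lc.Mg.G012
import Pool.Agent.Lib.MP_27cb06_lc.Mg.G001
import Pool.Agent.Lib.MP_27cb06_lc.Mg.G004
import Pool.Agent.Lib.MP_27cb06_lc.Mg.G003
import Pool.Agent.Lib.MP_27cb06_lc.Names
import Pool.Agent.Lib.MP_27cb06_lc.Mg.G002
import Pool.Agent.Lib.MP_27cb06_lc.H.R2

section

/-!
# TASK Q4: deciding one value by the first forcing

PROOF. Suppose not: (*) for every `r ≤ q.r` there is `p ≤ q.p` such that `h.app a b ⟨p', r⟩` fails for all `p' ≤ p`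
and `b`. By `CC.exists_rec` (`T10.lean`; `W = Iio m`, `X = QCond e`) construct `x ξ : QCond e`, `ξ : Iio m`, with:
`(x ξ).p ≤ q.p`, `(x ξ).r ≤ q.r`, there is `b` with `h.app a b (x ξ)`, and for `η < ξ`: `(x ξ).r ≤ (x η).r` and
`Perp (x ξ).p (x η).p`. Step `ξ`: by `RCond.exists_union` for the family `Option (Iio ξ)` (`none ↦ q.r`,
`some η ↦ (x η).r`; size `< #(Iio m)` by `minit`, `mk_Iio_sub`, `unc`; pairwise agreement by `Agree.of_ext`) there is `r'`
below all of them. Let `p` be as in (*) for `r'`. `Perp p (x η).p`: if `s ≤ p`, `s ≤ (x η).p` then `⟨s, r'⟩` is a literal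
extension of `x η`, so `h.app a b ⟨s, r'⟩` for the `b` of `x η` (`h.reg`), contradicting (*). `h.tot a ⟨p, r'⟩`: `q₁ ≤ ⟨p, r'⟩`
with `h.app a b q₁`; `exists_lit`: `q₂ ≤ q₁`, `Lit q₂ ⟨p, r'⟩`: take `x ξ := q₂` (`Perp` is inherited by smaller
conditions).
Now let `f : L → PCond c m`, `f ξ = (x ξ).p` for `ξ < m` (default `q.p`). `mcc`: `i < j < m` and a common extension of `f i`,
`f j`, contradicting `Perp (x j).p (x i).p`.
-/

set_option autoImplicit false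

namespace Pool.Agent.HG

open Cardinal Set Pool.Agent.CC

universe u v w

variable {L : Type u} [LinearOrder L] [WellFoundedLT L] {c m n : L} {U : Ultrafilter (Set L)}

variable {e : L → PCond c m}

theorem dec_one (hS : Setup c m n U) {A : Type v} {B : Type w} (h : FunName (QCond e) A B) (a : A)
    (q : QCond e) : ∃ r ≤ q.r, ∀ p ≤ q.p, ∃ p' ≤ p, ∃ b, h.app a b ⟨p', r⟩ := by
  classical
  by_contra hcon
  have hstar : ∀ r ≤ q.r, ∃ p ≤ q.p, ∀ p' ≤ p, ∀ b, ¬ h.app a b ⟨p', r⟩ := by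
    intro r hr
    by_contra h1
    apply hcon
    refine ⟨r, hr, fun p hp => ?_⟩
    by_contra h2
    apply h1
    refine ⟨p, hp, fun p' hp' b hb => h2 ⟨p', hp', b, hb⟩⟩
  have : Nonempty (QCond e) := ⟨q⟩
  obtain ⟨x, hx⟩ := exists_rec (W := Iio m) (X := QCond e)
    (fun ξ x y => (y.p ≤ q.p ∧ y.r ≤ q.r ∧ ∃ b, h.app a b y) ∧
      ∀ η, η < ξ → y.r ≤ (x η).r ∧ Perp y.p (x η).p)
    (by
      intro i x x' y hxx hy
      refine ⟨hy.1, fun η hη => ?_⟩
      rw [← hxx η hη]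
      exact hy.2 η hη)
    (by
      intro ξ x hx
      set F : Option (Iio ξ) → RCond m := fun o => o.elim q.r (fun η => (x η).r) with hF
      have hcard : #(Option (Iio ξ)) < #(Iio m) := by
        rw [mk_option, mk_Iio_sub]
        exact add_lt_of_lt hS.unc.le (hS.minit ξ ξ.2) (one_lt_aleph0.trans hS.unc)
      have hlt : ∀ η ζ : Iio ξ, (η : Iio m) < ζ → Ext (x ζ).r.f (x η).r.f := fun η ζ hηζ =>
        ((hx ζ ζ.2).2 η hηζ).1
      have hag : ∀ i j, Agree (F i).f (F j).f := by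
        intro i j
        rcases i with _ | i <;> rcases j with _ | j
        · exact Agree.of_ext (Ext.refl _) (Ext.refl _)
        · exact Agree.of_ext ((hx j j.2).1.2.1) (Ext.refl _)
        · exact Agree.of_ext (Ext.refl _) ((hx i i.2).1.2.1)
        · rcases lt_trichotomy (i : Iio m) j with hij | hij | hij
          · exact Agree.of_ext (hlt i j hij) (Ext.refl _)
          · simp only [hF, Option.elim_some]
            rw [hij]
            exact Agree.of_ext (Ext.refl _) (Ext.refl _)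
          · exact Agree.of_ext (Ext.refl _) (hlt j i hij)
      obtain ⟨r', hr'⟩ := RCond.exists_union hS F hcard hag
      have hrq : r' ≤ q.r := fun u v w hw => (hr' u v w).2 ⟨none, hw⟩
      have hrη : ∀ η : Iio m, η < ξ → r' ≤ (x η).r := fun η hη u v w hw =>
        (hr' u v w).2 ⟨some ⟨η, hη⟩, hw⟩
      obtain ⟨p, hp, hpn⟩ := hstar r' hrq
      obtain ⟨q₁, hq₁, b, hb⟩ := h.tot a ⟨p, r'⟩
      obtain ⟨q₂, hq₂, -, hlit⟩ := exists_lit hS hq₁
      refine ⟨q₂, ⟨hlit.1.trans hp, hlit.2.trans hrq, b, (h.reg a b).1 _ _ hq₂ hb⟩, fun η hη => ?_⟩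
      refine ⟨hlit.2.trans (hrη η hη), fun s hs hs' => ?_⟩
      obtain ⟨b', hb'⟩ := (hx η hη).1.2.2
      exact hpn s (hs.trans hlit.1) b'
        ((h.reg a b').1 _ _ (show (⟨s, r'⟩ : QCond e) ≤ x η from Lit.le ⟨hs', hrη η hη⟩) hb'))
  obtain ⟨i, j, hij, hjm, r, hri, hrj⟩ := mcc hS
    (fun ξ => if hξ : ξ < m then (x ⟨ξ, hξ⟩).p else q.p)
  have him : i < m := hij.trans hjm
  simp only [dif_pos him] at hri
  simp only [dif_pos hjm] at hrj
  exact ((hx ⟨j, hjm⟩).2 ⟨i, him⟩ hij).2 r hrj hri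

end Pool.Agent.HG
end

section

/-!
# TASK Q5: deciding few values by the first forcing

PROOF. By `CC.exists_rec` (`W = A`, `X = RCond m`) construct `r a ≤ q.r` with `r a ≤ r a'` for `a' < a` and: for all
`p ≤ q.p` there are `p' ≤ p`, `b` with `h.app a b ⟨p', r a⟩`. Step: `RCond.exists_union` for `Option (Iio a)`
(`#(Iio a) ≤ #A < #(Iio m)`, infinite cardinal `#(Iio m)`; pairwise agreement by `Agree.of_ext`) gives `r'`, then
`dec_one` for `⟨q.p, r'⟩`. At the end `RCond.exists_union` for `Option A`: `r`. If `p ≤ q.p`: `p' ≤ p`,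
`h.app a b ⟨p', r a⟩`; `⟨p', r⟩ ≤ ⟨p', r a⟩` (literal), so `h.app a b ⟨p', r⟩` (`h.reg`).
`dec_below`: for `q' ≤ ⟨q.p, r⟩`: `q'.p ≤ q.p`, so there are `p' ≤ q'.p`, `b` with `h.app a b ⟨p', r⟩`;
`q'' := ⟨p', q'.r⟩ ≤ q'` (same second component) and `q'' ≤ ⟨p', r⟩` (`QCond.le_mk`).
-/

set_option autoImplicit false

namespace Pool.Agent.HG

open Cardinal Set Pool.Agent.CC

universe u v w

variable {L : Type u} [LinearOrder L] [WellFoundedLT L] {c m n : L} {U : Ultrafilter (Set L)}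

variable {e : L → PCond c m}

theorem dec_all (hS : Setup c m n U) {A : Type u} [LinearOrder A] [WellFoundedLT A]
    (hA : #A < #(Iio m)) {B : Type w} (h : FunName (QCond e) A B) (q : QCond e) :
    ∃ r ≤ q.r, ∀ a, ∀ p ≤ q.p, ∃ p' ≤ p, ∃ b, h.app a b ⟨p', r⟩ := by
  classical
  have : Nonempty (RCond m) := ⟨q.r⟩
  have hopt : ∀ S : Set A, #(Option S) < #(Iio m) := by
    intro S
    rw [mk_option]
    exact add_lt_of_lt hS.unc.le ((mk_set_le S).trans_lt hA) (one_lt_aleph0.trans hS.unc)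
  obtain ⟨x, hx⟩ := exists_rec (W := A) (X := RCond m)
    (fun i x y => (y ≤ q.r ∧ ∀ p ≤ q.p, ∃ p' ≤ p, ∃ b, h.app i b ⟨p', y⟩) ∧ ∀ j, j < i → y ≤ x j)
    (by
      intro i x x' y hxx hy
      refine ⟨hy.1, fun η hη => ?_⟩
      rw [← hxx η hη]
      exact hy.2 η hη)
    (by
      intro ξ x hx
      set F : Option (Iio ξ) → RCond m := fun o => o.elim q.r (fun η => x η) with hF
      have hcard : #(Option (Iio ξ)) < #(Iio m) := hopt (Iio ξ)
      have hlt : ∀ η ζ : Iio ξ, (η : A) < ζ → Ext (x ζ).f (x η).f := fun η ζ hηζ =>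
        (hx ζ ζ.2).2 η hηζ
      have hag : ∀ i j, Agree (F i).f (F j).f := by
        intro i j
        rcases i with _ | i <;> rcases j with _ | j
        · exact Agree.of_ext (Ext.refl _) (Ext.refl _)
        · exact Agree.of_ext ((hx j j.2).1.1) (Ext.refl _)
        · exact Agree.of_ext (Ext.refl _) ((hx i i.2).1.1)
        · rcases lt_trichotomy (i : A) j with hij | hij | hij
          · exact Agree.of_ext (hlt i j hij) (Ext.refl _)
          · simp only [hF, Option.elim_some]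
            rw [hij]
            exact Agree.of_ext (Ext.refl _) (Ext.refl _)
          · exact Agree.of_ext (Ext.refl _) (hlt j i hij)
      obtain ⟨r', hr'⟩ := RCond.exists_union hS F hcard hag
      have hrq : r' ≤ q.r := fun u v w hw => (hr' u v w).2 ⟨none, hw⟩
      have hrη : ∀ η : A, η < ξ → r' ≤ x η := fun η hη u v w hw =>
        (hr' u v w).2 ⟨some ⟨η, hη⟩, hw⟩
      obtain ⟨r, hr, hr2⟩ := dec_one hS h ξ ⟨q.p, r'⟩
      exact ⟨r, ⟨hr.trans hrq, hr2⟩, fun η hη => hr.trans (hrη η hη)⟩)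
  set F : Option A → RCond m := fun o => o.elim q.r x with hF
  have hcard : #(Option A) < #(Iio m) := by
    rw [mk_option]
    exact add_lt_of_lt hS.unc.le hA (one_lt_aleph0.trans hS.unc)
  have hag : ∀ i j, Agree (F i).f (F j).f := by
    intro i j
    rcases i with _ | i <;> rcases j with _ | j
    · exact Agree.of_ext (Ext.refl _) (Ext.refl _)
    · exact Agree.of_ext ((hx j).1.1) (Ext.refl _)
    · exact Agree.of_ext (Ext.refl _) ((hx i).1.1)
    · rcases lt_trichotomy i j with hij | hij | hij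
      · exact Agree.of_ext ((hx j).2 i hij) (Ext.refl _)
      · rw [hij]
        exact Agree.of_ext (Ext.refl _) (Ext.refl _)
      · exact Agree.of_ext (Ext.refl _) ((hx i).2 j hij)
  obtain ⟨r, hr⟩ := RCond.exists_union hS F hcard hag
  have hrq : r ≤ q.r := fun u v w hw => (hr u v w).2 ⟨none, hw⟩
  have hrη : ∀ η : A, r ≤ x η := fun η u v w hw => (hr u v w).2 ⟨some η, hw⟩
  refine ⟨r, hrq, fun a p hp => ?_⟩
  obtain ⟨p', hp', b, hb⟩ := (hx a).1.2 p hp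
  exact ⟨p', hp', b, (h.reg a b).1 _ _
    (show (⟨p', r⟩ : QCond e) ≤ ⟨p', x a⟩ from Lit.le ⟨le_rfl, hrη a⟩) hb⟩

omit [WellFoundedLT L] in
theorem dec_below {A : Type v} {B : Type w} {h : FunName (QCond e) A B} {a : A} {p₀ : PCond c m}
    {r : RCond m} (hd : ∀ p ≤ p₀, ∃ p' ≤ p, ∃ b, h.app a b ⟨p', r⟩) {q' : QCond e}
    (hq' : q' ≤ ⟨p₀, r⟩) : ∃ p' ≤ q'.p, ∃ b, h.app a b ⟨p', r⟩ ∧
      (⟨p', q'.r⟩ : QCond e) ≤ q' ∧ (⟨p', q'.r⟩ : QCond e) ≤ ⟨p', r⟩ := by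
  obtain ⟨p', hp', b, hb⟩ := hd q'.p hq'.1
  exact ⟨p', hp', b, hb, QCond.le_mk (le_refl q') hp' rfl hp',
    QCond.le_mk hq' hp' rfl le_rfl⟩

end Pool.Agent.HG
end

section

/-!
# TASK J3: 2^kappa = kappa^+

PROOF. Let `ρ` be as in `exists_rows`, `⊥` the least element of `L`. The name `S` of a subset of `Iio m × Iio c`:
`S.mem (y, i) := dn (fun q => Val q (ρ i) y ⊥)` (`dn ψ p := ∀ q ≤ p, ∃ r ≤ q, ψ r`; `SetName.ofMono` in
`Pool/Agent/Lib/MP_27cb06_lc/Names.lean`, which you may import; `Val.mono`). Let `B` be a name of a subset of `Iio c`,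
`q₁ ≤ q` (with `q₁ ≤` ... as required by `fEx`, `fAll`). `SetName.exists_fun B`: `h`. `dec_all` (`A = Iio c`, `clt`):
`r ≤ q₁.r` such that for all `i` and `p ≤ q₁.p` there are `p' ≤ p`, `b` with `h.app i b ⟨p', r⟩`. `exists_block` for `r`,
`I = Iio c`, and `w i z := some ⊥` if `z < m`, `i < c` and `B.mem i ⟨e z, r⟩`, `none` otherwise: `y < m`, `r' ≤ r`. Claim:
`q₂ := ⟨q₁.p, r'⟩ ≤ q₁` forces `(y, i) ∈ S ↔ i ∈ B` for all `i : Iio c`.
(→) let `q₃ ≤ q₂` with `S.mem (y, i) q₃`. By `Reg` of `B.mem i` it is enough to find below every `q₄ ≤ q₃` some `q₅` with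
`B.mem i q₅`. There is `q₅ ≤ q₄` with `Val q₅ (ρ i) y ⊥`: `w''` with `q₅.r.f (ρ i) y = some w''`, `Ev e w'' q₅.p ⊥`; by `q₅ ≤ q₂`,
`Same e q₅.p w'' (w i)`, so `Ev e (w i) q₅.p ⊥`; `Ev.elim`: `p' ≤ q₅.p`, `z` with `w i z = some ⊥`, `p' ≤ e z`. So
`B.mem i ⟨e z, r⟩`, and `⟨p', q₅.r⟩ ≤ ⟨e z, r⟩` (`QCond.le_mk` from `q₅ ≤ ⟨q₁.p, r⟩`), so `B.mem i ⟨p', q₅.r⟩`, and
`⟨p', q₅.r⟩ ≤ q₅`.
(←) let `q₃ ≤ q₂` with `B.mem i q₃`, `q₄ ≤ q₃`. `dec_below` for `q₄ ≤ ⟨q₁.p, r⟩`: `p' ≤ q₄.p`, `b` with `h.app i b ⟨p', r⟩`, and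
`q₅ := ⟨p', q₄.r⟩` is below `q₄` and `⟨p', r⟩`. `b = true` (otherwise `h.app i false q₅` contradicts `B.mem i q₅`), so
`B.mem i ⟨p', r⟩`. Let `z₀ < m`, `e z₀ = p'` (`he`): `w i z₀ = some ⊥`, so `Ev e (w i) p' ⊥` by `Ev.of_const` (all values are
`⊥`). With `Same e q₄.p w'' (w i)` (from `q₄ ≤ q₂`) `Ev e w'' p' ⊥`: `Val q₅ (ρ i) y ⊥`.
-/

set_option autoImplicit false

namespace Pool.Agent.HG

open Cardinal Set Pool.Agent.CC

universe u v w

variable {L : Type u} [LinearOrder L] [WellFoundedLT L] {c m n : L} {U : Ultrafilter (Set L)}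

variable {e : L → PCond c m}

theorem allSub (hS : Setup c m n U) (he : OntoP e) (q : QCond e) :
    fAllSub (QCond e) (Iio c) (Iio m) q := by
  classical
  obtain ⟨ρ, hρ, hρ'⟩ := exists_rows hS
  obtain ⟨bt, hbt⟩ : ∃ b : L, ∀ d, b ≤ d := by
    refine ⟨(wellFounded_lt : WellFounded (α := L) (· < ·)).min univ ⟨c, trivial⟩, fun d => ?_⟩
    exact not_lt.1 ((wellFounded_lt : WellFounded (α := L) (· < ·)).not_lt_min univ (x := d) trivial)
  have hmono : ∀ (x y b : L) (q q' : QCond e), q' ≤ q → Val q x y b → Val q' x y b :=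
    fun x y b q q' h h' => h'.mono h
  intro q' _
  refine ⟨q', le_rfl, SetName.ofMono (fun (yi : Iio m × Iio c) (q : QCond e) =>
    Val q (ρ (yi.2 : L)) (yi.1 : L) bt), ?_⟩
  intro B q₁ _
  obtain ⟨h, ht, hf⟩ := SetName.exists_fun B
  obtain ⟨r, hr, hd⟩ := dec_all hS hS.clt h q₁
  obtain ⟨w, hw⟩ : ∃ w : L → L → Option L, ∀ i z, w i z =
      if z < m ∧ ∃ hi : i < c, B.mem ⟨i, hi⟩ ⟨e z, r⟩ then some bt else none := ⟨_, fun _ _ => rfl⟩
  have hw1 : ∀ i z b, w i z = some b → z < m ∧ (∃ hi : i < c, B.mem ⟨i, hi⟩ ⟨e z, r⟩) ∧ b = bt := by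
    intro i z b hb
    rw [hw] at hb
    split_ifs at hb with hc
    exact ⟨hc.1, hc.2, (Option.some.inj hb).symm⟩
  obtain ⟨y, hy, -, r', hr', hval⟩ := exists_block hS r hρ hρ' (Iio c) hS.clt.le w
    (fun i z b hb => ⟨(hw1 i z b hb).1, fun d => (hw1 i z b hb).2.2 ▸ hbt d⟩)
  have hq21 : (⟨q₁.p, r'⟩ : QCond e) ≤ ⟨q₁.p, r⟩ := Lit.le ⟨le_rfl, hr'⟩
  refine ⟨⟨q₁.p, r'⟩, Lit.le ⟨le_rfl, hr'.trans hr⟩, ⟨y, hy⟩, fun i => ⟨?_, ?_⟩⟩
  · intro q₃ hq₃ hS3
    refine (B.reg i).2 q₃ fun q₄ hq₄ => ?_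
    obtain ⟨q₅, hq₅, w'', hw'', hEv⟩ := hS3 q₄ hq₄
    have h52 : q₅ ≤ (⟨q₁.p, r'⟩ : QCond e) := hq₅.trans (hq₄.trans hq₃)
    obtain ⟨w₁, hw₁, hsame⟩ := h52.2 _ _ _ (hval i i.2)
    have hww : w₁ = w'' := by
      have h1 := hw₁.symm.trans hw''
      exact Option.some.inj h1
    subst hww
    have hEv2 : Ev e (w i) q₅.p bt := (hsame q₅.p le_rfl bt).1 hEv
    obtain ⟨p', hp', z, hz, hpz⟩ := Ev.elim hEv2
    obtain ⟨-, ⟨hi, hB⟩, -⟩ := hw1 _ _ _ hz
    have h6 : (⟨p', q₅.r⟩ : QCond e) ≤ q₅ := Lit.le ⟨hp', le_rfl⟩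
    refine ⟨⟨p', q₅.r⟩, h6.trans hq₅, ?_⟩
    exact (B.reg i).1 _ _ (QCond.le_mk (h52.trans hq21) hp' rfl hpz) hB
  · intro q₃ hq₃ hB3 q₄ hq₄
    have h42 : q₄ ≤ (⟨q₁.p, r'⟩ : QCond e) := hq₄.trans hq₃
    obtain ⟨p', hp', b, hb, h1, h2⟩ := dec_below (hd i) (h42.trans hq21)
    have hBt : B.mem i ⟨p', r⟩ := by
      cases b with
      | true => exact (ht i _).1 hb
      | false =>
        exact absurd ((B.reg i).1 _ _ (h1.trans hq₄) hB3) ((hf i _).1 hb _ h2)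
    obtain ⟨z₀, hz₀, hez⟩ := he p'
    have hwz : w i z₀ = some bt := by
      rw [hw, if_pos]
      exact ⟨hz₀, i.2, by rw [hez]; exact hBt⟩
    have hEv : Ev e (w i) p' bt := Ev.of_const hwz hez.ge (fun z b' hb' _ => (hw1 _ _ _ hb').2.2)
    obtain ⟨w₁, hw₁, hsame⟩ := h42.2 _ _ _ (hval i i.2)
    exact ⟨⟨p', q₄.r⟩, h1, w₁, hw₁, (hsame p' hp' bt).2 hEv⟩

end Pool.Agent.HG
end

section

/-!
# TASK Q11: the chain condition of length lambda

PROOF. For `β : L` the set of the pairs `((t i).p, (t i).r.cut β)`, `i : L`, has size `< #L` (`card_PCond`,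
`#(Iio m) < #L`, `card_cut`, infinite: `mul_lt_of_lt`). Choose for every such pair one `i`; the set of the chosen `i`
has size `< #L`, so it is bounded by some `G₁ β` (`lreg`): (1) for every `i` there is `i' < G₁ β` with
`(t i').p = (t i).p`, `(t i').r.cut β = (t i).r.cut β`. Choose `G₂ i` above `v i` and such that all places of `(t i).r`
are below `G₂ i` (`RCond.bounded`). `exists_closed` for `G x := max (G₁ x) (G₂ x)`: `δ`. Put `j := δ`. The set of the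
coordinates of the places of `(t δ).r.cut δ` has size `≤ 2 ^ #(Iio m)` (`size`; two coordinates) and is contained in
`Iio δ`, so there is `β < δ` with: all places of `(t δ).r` below `δ` are below `β`. By (1) there is `i < G₁ β < δ` with
`(t i).p = (t δ).p`, `(t i).r.cut β = (t δ).r.cut β`. `v i < G₂ i < δ`. Agreement: if both are defined at `(x, y)`,
then `x, y < G₂ i < δ`, so `x, y < β`, so both values are the value of the common `cut β`.
-/

set_option autoImplicit false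

namespace Pool.Agent.HG

open Cardinal Set Pool.Agent.CC

universe u v w

variable {L : Type u} [LinearOrder L] [WellFoundedLT L] {c m n : L} {U : Ultrafilter (Set L)}

variable {e : L → PCond c m}

theorem lcc (hS : Setup c m n U) (t : L → QCond e) (v : L → L) :
    ∃ i j, i < j ∧ v i < j ∧ (t i).p = (t j).p ∧ Agree (t i).r.f (t j).r.f := by
  classical
  have hLinf : ℵ₀ ≤ #L := (lreg' hS).aleph0_le
  -- the first closure function
  have hG1 : ∀ β : L, ∃ g, ∀ i, ∃ i', i' < g ∧ (t i').p = (t i).p ∧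
      (t i').r.cut β = (t i).r.cut β := by
    intro β
    let F : L → PCond c m × (Set.range fun r : RCond m => r.cut β) :=
      fun i => ((t i).p, ⟨(t i).r.cut β, ⟨(t i).r, rfl⟩⟩)
    have hcard : #(Set.range F) < #L := by
      refine lt_of_le_of_lt (mk_set_le _) ?_
      rw [mk_prod, lift_id, lift_id]
      exact mul_lt_of_lt hLinf (lt_of_le_of_lt (card_PCond hS) (hS.linit m)) (card_cut hS β)
    let rep : Set.range F → L := fun s => s.2.choose
    have hrep : ∀ s : Set.range F, F (rep s) = s := fun s => s.2.choose_spec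
    obtain ⟨g, hg⟩ := hS.lreg (Set.range rep) (lt_of_le_of_lt mk_range_le hcard)
    refine ⟨g, fun i => ?_⟩
    have h1 := hrep ⟨F i, ⟨i, rfl⟩⟩
    refine ⟨rep ⟨F i, ⟨i, rfl⟩⟩, hg _ ⟨_, rfl⟩, ?_, ?_⟩
    · exact congrArg Prod.fst h1
    · exact congrArg (fun z => (Prod.snd z).1) h1
  choose G₁ hG₁ using hG1
  -- the second closure function
  have hG2 : ∀ i : L, ∃ g, v i < g ∧ ∀ x y, (t i).r.f x y ≠ none → x < g ∧ y < g := by
    intro i
    obtain ⟨b, hb⟩ := RCond.bounded hS (t i).r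
    obtain ⟨d, hd⟩ := exists_lt_L hS (v i)
    exact ⟨max b d, hd.trans_le (le_max_right _ _), fun x y hxy =>
      ⟨(hb x y hxy).1.trans_le (le_max_left _ _), (hb x y hxy).2.trans_le (le_max_left _ _)⟩⟩
  choose G₂ hG₂v hG₂ using hG2
  obtain ⟨δ, hδ, hbd⟩ := exists_closed hS (fun x => max (G₁ x) (G₂ x))
  obtain ⟨β₁, hβ₁, hb₁⟩ := hbd {x | x < δ ∧ ∃ y, (t δ).r.f x y ≠ none} (fun a ha => ha.1) (by
    refine le_trans ?_ (t δ).r.good.size
    refine le_trans (mk_le_mk_of_subset (t := Prod.fst '' {e : L × L | (t δ).r.f e.1 e.2 ≠ none}) ?_)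
      mk_image_le
    rintro x ⟨-, y, hy⟩
    exact ⟨(x, y), hy, rfl⟩)
  obtain ⟨β₂, hβ₂, hb₂⟩ := hbd {y | y < δ ∧ ∃ x, (t δ).r.f x y ≠ none} (fun a ha => ha.1) (by
    refine le_trans ?_ (t δ).r.good.size
    refine le_trans (mk_le_mk_of_subset (t := Prod.snd '' {e : L × L | (t δ).r.f e.1 e.2 ≠ none}) ?_)
      mk_image_le
    rintro y ⟨-, x, hx⟩
    exact ⟨(x, y), hx, rfl⟩)
  have hβ : max β₁ β₂ < δ := max_lt hβ₁ hβ₂
  obtain ⟨i, hi, hp, hr⟩ := hG₁ (max β₁ β₂) δ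
  have hiδ : i < δ := hi.trans_le ((le_max_left _ _).trans (hδ _ hβ).le)
  have hG₂i : G₂ i < δ := lt_of_le_of_lt (le_max_right _ _) (hδ i hiδ)
  refine ⟨i, δ, hiδ, (hG₂v i).trans hG₂i, hp, ?_⟩
  intro x y a b ha hb
  have hxy := hG₂ i x y (by rw [ha]; exact Option.some_ne_none _)
  have hx : x < max β₁ β₂ := (hb₁ x ⟨hxy.1.trans hG₂i, y, by rw [hb]; exact Option.some_ne_none _⟩).trans_le
    (le_max_left _ _)
  have hy : y < max β₁ β₂ := (hb₂ y ⟨hxy.2.trans hG₂i, x, by rw [hb]; exact Option.some_ne_none _⟩).trans_le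
    (le_max_right _ _)
  have h1 : ((t i).r.cut (max β₁ β₂)).f x y = some a := RCond.cut_eq.2 ⟨⟨hx, hy⟩, ha⟩
  have h2 : ((t δ).r.cut (max β₁ β₂)).f x y = some b := RCond.cut_eq.2 ⟨⟨hx, hy⟩, hb⟩
  rw [hr, h2] at h1
  exact (Option.some.inj h1).symm

end Pool.Agent.HG
end

section

/-!
# TASK Q12: lambda is not collapsed

PROOF. (Compare `bounded_K` in `Pool/Agent/Lib/MP_27cb06_lc/T14.lean`.) Let `h` be a name of a function `Iio n → L`,
`q₀ ≤ q`. Claim: for every `a : Iio n` there is a `b : L` such that for every `q' ≤ q₀` there are `q'' ≤ q'`, `v < b` with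
`h.app a v q''`. Suppose not: for every `b` there is `s b ≤ q₀` such that `h.app a v q''` fails for all `q'' ≤ s b`,
`v < b`; take `t b ≤ s b` with `h.app a (v b) (t b)` (`h.tot`); so `b ≤ v b`. `lcc` for `t`, `v`: `i < j`, `v i < j ≤ v j`, the same
first component, `Agree`. `lit_join` (with `p` the common first component): a condition below `t i` and `t j`, which
forces both values: `v i = v j`, contradiction. Choose `b a` for every `a`; `#(Iio n) < #L` (`linit`), so by `lreg` there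
is a `b` above all `b a`. `q₀` forces `h(a) < b` for all `a`.
-/

set_option autoImplicit false

namespace Pool.Agent.HG

open Cardinal Set Pool.Agent.CC

universe u v w

variable {L : Type u} [LinearOrder L] [WellFoundedLT L] {c m n : L} {U : Ultrafilter (Set L)}

variable {e : L → PCond c m}

theorem bounded_L (hS : Setup c m n U) (q : QCond e) : fBounded (QCond e) (Iio n) L q := by
  intro h q₀ _
  have key : ∀ a : Iio n, ∃ b : L, ∀ q' ≤ q₀, ∃ q'' ≤ q', ∃ v : L, v < b ∧ h.app a v q'' := by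
    intro a
    by_contra hcon
    push Not at hcon
    choose s hs1 hs2 using hcon
    have htot : ∀ b : L, ∃ t ≤ s b, ∃ v, h.app a v t := fun b => h.tot a (s b)
    choose t ht1 v ht2 using htot
    have hbv : ∀ b, b ≤ v b := by
      intro b
      by_contra hlt
      exact hs2 b (t b) (ht1 b) (v b) (not_le.1 hlt) (ht2 b)
    obtain ⟨i, j, _, hvj, hp, hag⟩ := lcc hS t v
    obtain ⟨r, _, hl1, hl2⟩ := lit_join hS (le_refl (t i).p) (le_of_eq hp) hag
    have h1 : h.app a (v i) r := (h.reg a (v i)).1 (t i) r hl1.le (ht2 i)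
    have h2 : h.app a (v j) r := (h.reg a (v j)).1 (t j) r hl2.le (ht2 j)
    have h3 := h.sv a (v i) (v j) r h1 h2
    have h4 := hbv j
    rw [← h3] at h4
    exact absurd hvj (not_lt.2 h4)
  choose b hb using key
  have hcard : #(range b) < #L := lt_of_le_of_lt mk_range_le (hS.linit n)
  obtain ⟨B, hB⟩ := hS.lreg (range b) hcard
  refine ⟨q₀, le_rfl, B, fun a q' hq' => ?_⟩
  obtain ⟨q'', hq'', v, hv, happ⟩ := hb a q' hq'
  exact ⟨q'', hq'', ⟨v, lt_trans hv (hB (b a) ⟨a, rfl⟩)⟩, happ⟩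

end Pool.Agent.HG
end

section

/-!
# TASK Q6: mu is not collapsed to kappa

PROOF. Let `h` be a name of a function `Iio c → Iio m`, `q₀ ≤ q`. `dec_all` with `A = Iio c` (`clt`): `r ≤ q₀.r`. For
`i : Iio c` let `Z i := {b : Iio m | ∃ p ≤ q₀.p, h.app i b ⟨p, r⟩}`. Claim: `#(Z i) < #(Iio m)`. Otherwise there is an
injection of `Iio m` into `Z i`; so `f : L → PCond c m` and different values `b ξ` for `ξ < m` with
`h.app i (b ξ) ⟨f ξ, r⟩`; by `mcc` there are `ξ < η < m` and `s ≤ f ξ`, `s ≤ f η`; `⟨s, r⟩` forces both values (`h.reg`),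
`h.sv`: `b ξ = b η`, contradiction. The union of the `Z i`, `i : Iio c`, has size `< #(Iio m)` (`mreg'`,
`#(Iio c) < #(Iio m)`), so (as a set of elements of `L`) it is bounded by some `b < m` (`mreg`). The condition
`⟨q₀.p, r⟩ ≤ q₀` forces: for all `i`, `h(i) < b`: for `q' ≤ ⟨q₀.p, r⟩` use `dec_below`: `q'' = ⟨p', q'.r⟩` and
`v` with `h.app i v ⟨p', r⟩`, so `h.app i v q''`; `v ∈ Z i` as `p' ≤ q'.p ≤ q₀.p`; so `v < b`.
-/

set_option autoImplicit false

namespace Pool.Agent.HG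

open Cardinal Set Pool.Agent.CC

universe u v w

variable {L : Type u} [LinearOrder L] [WellFoundedLT L] {c m n : L} {U : Ultrafilter (Set L)}

variable {e : L → PCond c m}

theorem bounded_m (hS : Setup c m n U) (q : QCond e) : fBounded (QCond e) (Iio c) (Iio m) q := by
  classical
  intro h q₀ hq₀
  obtain ⟨r, hr, hd⟩ := dec_all hS (A := Iio c) hS.clt h q₀
  have hZ : ∀ i : Iio c, #{b : Iio m | ∃ p ≤ q₀.p, h.app i b ⟨p, r⟩} < #(Iio m) := by
    intro i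
    by_contra hcon
    obtain ⟨g⟩ := Cardinal.le_def _ _ |>.1 (not_lt.1 hcon)
    have hp : ∀ x : Iio m, ∃ p ≤ q₀.p, h.app i (g x : Iio m) ⟨p, r⟩ := fun x => (g x).2
    choose p hp1 hp2 using hp
    obtain ⟨ξ, η, hξη, hη, s, hs1, hs2⟩ := mcc hS (fun x => if hx : x < m then p ⟨x, hx⟩ else q₀.p)
    have hξ := hξη.trans hη
    rw [dif_pos hξ] at hs1
    rw [dif_pos hη] at hs2
    have l1 : (⟨s, r⟩ : QCond e) ≤ ⟨p ⟨ξ, hξ⟩, r⟩ := Lit.le ⟨hs1, le_rfl⟩
    have l2 : (⟨s, r⟩ : QCond e) ≤ ⟨p ⟨η, hη⟩, r⟩ := Lit.le ⟨hs2, le_rfl⟩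
    have e1 := (h.reg _ _).1 _ _ l1 (hp2 _)
    have e2 := (h.reg _ _).1 _ _ l2 (hp2 _)
    have e3 := g.injective (Subtype.ext (h.sv _ _ _ _ e1 e2))
    exact hξη.ne (congrArg Subtype.val e3)
  have hU : #(⋃ i : Iio c, {b : Iio m | ∃ p ≤ q₀.p, h.app i b ⟨p, r⟩}) < #(Iio m) :=
    (Cardinal.card_iUnion_lt_iff_forall_of_isRegular (mreg' hS) hS.clt).2 hZ
  obtain ⟨b, hb, hbd⟩ := hS.mreg (Subtype.val '' ⋃ i : Iio c, {b : Iio m | ∃ p ≤ q₀.p, h.app i b ⟨p, r⟩})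
    (by rintro _ ⟨a, -, rfl⟩; exact a.2) (mk_image_le.trans_lt hU)
  refine ⟨⟨q₀.p, r⟩, Lit.le ⟨le_rfl, hr⟩, ⟨b, hb⟩, fun i q' hq' => ?_⟩
  obtain ⟨p', hp', v, hv, hl1, hl2⟩ := dec_below (hd i) hq'
  have hvb : (v : L) < b := hbd _ ⟨v, Set.mem_iUnion.2 ⟨i, p', hp'.trans hq'.1, hv⟩, rfl⟩
  exact ⟨⟨p', q'.r⟩, hl1, ⟨v, hvb⟩, (h.reg _ _).1 _ _ hl2 hv⟩

end Pool.Agent.HG
end
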