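import Pool.Agent.Lib.MP_27cb06_lc.Mg.G004
import Pool.Agent.Lib.MP_27cb06_lc.Mg.G002
import Pool.Agent.Lib.MP_27cb06_lc.Mg.G003
import Pool.Agent.Lib.MP_27cb06_lc.H.R1
import Pool.Agent.Lib.MP_27cb06_lc.Mg.G001

section

/-!
# TASK J1: initial segments of mu are collapsed to kappa

PROOF. `exists_stages`: the set `St` of the stages is not bounded below `m`: for `a < m`, almost all `X` have
`Enum m X α h` with `a < α` and `Stage c m α` (`exists_enum`, `above`, `stage`). So `#St ≥ #(Iio m) > #(Iio c)` by `mreg`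
(a subset of `Iio m` of smaller size is bounded), which gives an injection.
`collapsed_m`: unfold: for `b : Iio m`, `q' ≤ q` one needs `r ≤ q'` and a name `h` of a function `Iio c → Iio m` such that for
all `v : Iio b` every condition below `r` has an extension `r'` with `h.app i v r'` for some `i` (take `r = q'`). Let `s` be as in
`exists_stages`. For `v : L` let `w₁ v := fun z => if z = c then some v else none`. `φ i v q := q.p.f (s i) b (s i) = some (w₁ v)`
(`v : Iio m`): persistent and single valued. `FunName.exists_partial` with default `b`. Density: let `v < b` and `q` a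
condition. The support of `q.p` has size `< #(Iio c)`, so there is `i` with `q.p.f (s i) x y = none` for all `x y`. Let
`t := insRaw emptyRaw b (s i) (w₁ v)`; `Tee m (s i) t` (`good_empty` with `ξ = c`, `Good.ins`: `z = c < s i`, `v < b`; the
height `y = s i` is not `< s i`; `Stage.inf`). `PCond.exists_set`: `p' ≤ q.p` with `p'.f (s i) = t`. The condition
`⟨p', q.r⟩ ≤ q`.
-/

set_option autoImplicit false

namespace Pool.Agent.HG

open Cardinal Set Pool.Agent.CC

universe u v w

variable {L : Type u} [LinearOrder L] [WellFoundedLT L] {c m n : L} {U : Ultrafilter (Set L)}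

variable {e : L → PCond c m}

theorem exists_stages (hS : Setup c m n U) :
    ∃ s : Iio c → L, Function.Injective s ∧ ∀ i, Stage c m (s i) := by
  have h1 : ∀ a, a < m → ∃ α, Stage c m α ∧ a < α := by
    intro a ha
    have hU := hS.toHuge
    have h2 := (exists_enum hU).and ((above hU ha).and (stage hU hS.cm))
    obtain ⟨X, ⟨α, h, hE⟩, h3, h4⟩ := h2.exists
    exact ⟨α, h4 α h hE, h3 α h hE⟩
  have h2 : #(Iio m) ≤ #{α : L | Stage c m α} := by
    by_contra hcon
    obtain ⟨b, hb, hb'⟩ := hS.mreg {α : L | Stage c m α} (fun a ha => ha.hi) (not_le.1 hcon)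
    obtain ⟨α, hα, hlt⟩ := h1 b hb
    exact lt_asymm hlt (hb' α hα)
  obtain ⟨f⟩ := Cardinal.le_def _ _ |>.1 (hS.clt.le.trans h2)
  exact ⟨fun i => (f i : L), fun i j hij => f.injective (Subtype.ext hij), fun i => (f i).2⟩

theorem collapsed_m (hS : Setup c m n U) (q : QCond e) :
    fCollapsed (QCond e) (Iio c) (Iio m) q := by
  classical
  obtain ⟨s, hsinj, hst⟩ := exists_stages hS
  intro b q' _
  have hw : ∀ v : L, ∀ z b' : L, (if z = c then some v else none) = some b' → z = c ∧ b' = v := by
    intro v z b' h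
    by_cases hz : z = c
    · rw [if_pos hz] at h
      exact ⟨hz, (Option.some.inj h).symm⟩
    · rw [if_neg hz] at h
      exact absurd h (by simp)
  obtain ⟨h, hh⟩ := FunName.exists_partial (P := QCond e) (A := Iio c) (B := Iio m)
    (fun i v q => q.p.f (s i) b (s i) = some (fun z => if z = c then some (v : L) else none))
    (fun i v p q hq hp => PCond.le_def.1 (QCond.le_def.1 hq).1 (s i) b (s i) _ hp)
    (by
      intro i v v' p hp hp'
      have h1 : (fun z => if z = c then some (v : L) else none) =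
          fun z => if z = c then some (v' : L) else none := by
        rw [hp] at hp'
        exact Option.some.inj hp'
      have h2 := congrFun h1 c
      rw [if_pos rfl, if_pos rfl] at h2
      exact Subtype.ext (Option.some.inj h2)) b
  refine ⟨q', le_rfl, h, fun v q'' _ => ?_⟩
  have hex : ∃ i : Iio c, ∀ x y, q''.p.f (s i) x y = none := by
    by_contra hcon
    push Not at hcon
    have h1 : #(Iio c) ≤ #{α : L | ∃ x y, q''.p.f α x y ≠ none} := by
      refine Cardinal.mk_le_of_injective (f := fun i => (⟨s i, hcon i⟩ :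
        {α : L | ∃ x y, q''.p.f α x y ≠ none})) ?_
      intro i j hij
      exact hsinj (congrArg Subtype.val hij)
    exact absurd q''.p.supp (not_lt.2 h1)
  obtain ⟨i, hi⟩ := hex
  have hstage := hst i
  have hgood : Good (s i) (insRaw emptyRaw (b : L) (s i)
      (fun z => if z = c then some ((v : Iio m) : L) else none)) := by
    refine (good_empty hstage.lo).ins (hstage.inf hS) _ _ _ ?_ fun h => absurd h (lt_irrefl _)
    intro z b' hzb
    obtain ⟨rfl, rfl⟩ := hw _ z b' hzb
    exact ⟨hstage.lo, v.2, fun h => absurd h (lt_irrefl _)⟩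
  have htee : Tee m (s i) (insRaw emptyRaw (b : L) (s i)
      (fun z => if z = c then some ((v : Iio m) : L) else none)) := by
    refine ⟨hgood, fun x y hxy => ?_⟩
    by_cases hc : x = b ∧ y = s i
    · rw [hc.1, hc.2]
      exact ⟨b.2, hstage.hi⟩
    · rw [insRaw_ne _ _ hc] at hxy
      exact absurd rfl hxy
  obtain ⟨p', hp', hpt, -⟩ := PCond.exists_set hS q''.p hstage htee (by
    intro x y w hxy
    rw [hi x y] at hxy
    exact absurd hxy (by simp))
  refine ⟨⟨p', q''.r⟩, ⟨hp', fun x y w hxy => ⟨w, hxy, Same.refl _ _⟩⟩, i, ?_⟩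
  refine hh i v _ ?_
  change p'.f (s i) b (s i) = _
  rw [hpt, insRaw_self]

end Pool.Agent.HG
end

section

/-!
# TASK S1: the master condition

PROOF. `SVal z x y b` := there are `v ∈ X`, `t`, `w` with `Tee m α t`, `Img m α h t (eR v).f`, `Ext ((e z).f α) t`,
`(eR v).f x y = some w`, `Ev e w (e z) b`. (U) `SVal z x y b`, `SVal z x y b'` imply `b = b'`: `t`, `t'` are both extended by
`(e z).f α`, so they agree, so `(eR v).f`, `(eR v').f` agree (`hag`), so `w = w'`, and `Ev.unique`. More generally (U') if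
`v, v' ∈ X` with collapses `t`, `t'` and some `p` with `Ext (p.f α) t`, `Ext (p.f α) t'` then `(eR v).f`, `(eR v').f` agree.
Define `r x y := some (fun z => if z < m ∧ ∃ b, SVal z x y b then some (the b) else none)` if there is `v ∈ X` with
`(eR v).f x y ≠ none`, and `none` otherwise.
`Good m r`: `legal`: `z < m`; `Ev e w (e z) b` implies that `b` is a value of `w` (`Ev.elim`), so `legal` of `eR v` applies to it.
`size`: union over `v ∈ X`, `#X ≤ #(Iio m)` (`h` maps `Iio m` onto `X`), of sets of size `≤ 2 ^ #(Iio m)`. `size'`: the same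
with `#(Iio m)`. `height`: `ξ := α` (`hht`), `α < m`.
Last statement: let `v ∈ X`, `t`, `p`, `(eR v).f x y = some w`, and `w*` the value of `r` at `(x, y)`. (1) if `q ≤ p` and
`q ≤ e z`, `w* z = some b` then `Ev e w q b`: `SVal z x y b` by `v'`, `t'`, `w'`: `q.f α` extends `t` and `t'` (as `q ≤ p`, `q ≤ e z`),
so by (U') `w = w'`; `Ev e w (e z) b`, `Ev.mono`. (2) if `q ≤ p`, `Ev e w q b`, `e z = q`, `z < m` (`he`) then `w* z = some b`
(`SVal z x y b` with `v`, `t`, `w`; uniqueness (U)).
`Same e p w* w`: let `q ≤ p`. If `Ev e w* q b`: by `Ev.reg` for `w` it is enough to find below every `q₁ ≤ q` some `q₂` with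
`Ev e w q₂ b`: `Ev.elim` for `Ev.mono`: `q₂ ≤ q₁`, `z`, `w* z = some b`, `q₂ ≤ e z`, use (1). If `Ev e w q b`: take `z₀ < m`,
`e z₀ = q`; `w* z₀ = some b` by (2); `Ev.of_const`: if `w* z = some b'` and `s ≤ q`, `s ≤ e z` then `Ev e w s b'` by (1) and
`Ev e w s b`, so `b' = b`.
-/

set_option autoImplicit false

namespace Pool.Agent.HG

open Cardinal Set Pool.Agent.CC

universe u v w

variable {L : Type u} [LinearOrder L] [WellFoundedLT L] {c m n : L} {U : Ultrafilter (Set L)}

variable {e : L → PCond c m}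

omit [WellFoundedLT L] in
private theorem S1_mk {B : Type u} {X : Set L} {α : L} {h : L → L} (hE : Enum m X α h)
    {κ : Cardinal.{u}} (hκ : ℵ₀ ≤ κ) (hmκ : #(Iio m) ≤ κ) (T : Set B) (S : L → Set B)
    (hT : ∀ b ∈ T, ∃ v ∈ X, b ∈ S v) (hS : ∀ v ∈ X, #(S v) ≤ κ) : #T ≤ κ := by
  have hX : #X ≤ #(Iio m) := by
    have hsurj : Function.Surjective (fun i : Iio m => (⟨h i.1, hE.mem i.1 i.2⟩ : X)) := by
      rintro ⟨x, hx⟩
      obtain ⟨i, hi, hix⟩ := hE.surj x hx
      exact ⟨⟨i, hi⟩, Subtype.ext hix⟩
    exact mk_le_of_surjective hsurj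
  have h1 : T ⊆ ⋃ v : X, S v.1 := by
    intro b hb
    obtain ⟨v, hv, hbv⟩ := hT b hb
    exact mem_iUnion.2 ⟨⟨v, hv⟩, hbv⟩
  calc #T ≤ #(⋃ v : X, S v.1 : Set B) := mk_le_mk_of_subset h1
    _ ≤ Cardinal.sum (fun v : X => #(S v.1)) := mk_iUnion_le_sum_mk
    _ ≤ Cardinal.sum (fun _ : X => κ) := sum_le_sum _ _ (fun v => hS v.1 v.2)
    _ = #X * κ := by rw [sum_const']
    _ ≤ κ * κ := mul_le_mul' (hX.trans hmκ) le_rfl
    _ = κ := mul_eq_self hκ

/-- the values of the pre-names of the union -/
private def S1_SVal (e : L → PCond c m) (eR : L → RCond m) (X : Set L) (α : L) (h : L → L)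
    (z x y b : L) : Prop :=
  ∃ v ∈ X, ∃ t w, Tee m α t ∧ Img m α h t (eR v).f ∧ Ext ((e z).f α) t ∧ (eR v).f x y = some w ∧
    Ev e w (e z) b

open Classical in
private noncomputable def S1_w (e : L → PCond c m) (eR : L → RCond m) (X : Set L) (α : L) (h : L → L)
    (x y z : L) : Option L :=
  if H : z < m ∧ ∃ b, S1_SVal e eR X α h z x y b then some H.2.choose else none

omit [WellFoundedLT L] in
private theorem S1_w_some {eR : L → RCond m} {X : Set L} {α : L} {h : L → L} {x y z b : L}
    (hw : S1_w e eR X α h x y z = some b) : z < m ∧ S1_SVal e eR X α h z x y b := by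
  unfold S1_w at hw
  split_ifs at hw with H
  rw [← Option.some.inj hw]
  exact ⟨H.1, H.2.choose_spec⟩

omit [WellFoundedLT L] in
private theorem S1_w_ex {eR : L → RCond m} {X : Set L} {α : L} {h : L → L} {x y z b : L}
    (hz : z < m) (hb : S1_SVal e eR X α h z x y b) : ∃ b', S1_w e eR X α h x y z = some b' := by
  have H : z < m ∧ ∃ b, S1_SVal e eR X α h z x y b := ⟨hz, b, hb⟩
  unfold S1_w
  rw [dif_pos H]
  exact ⟨_, rfl⟩

open Classical in
private noncomputable def S1_r (e : L → PCond c m) (eR : L → RCond m) (X : Set L) (α : L) (h : L → L) :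
    Raw L :=
  fun x y => if ∃ v ∈ X, (eR v).f x y ≠ none then some (S1_w e eR X α h x y) else none

omit [WellFoundedLT L] in
private theorem S1_r_some {eR : L → RCond m} {X : Set L} {α : L} {h : L → L} {x y : L}
    {w : L → Option L} (hw : S1_r e eR X α h x y = some w) : w = S1_w e eR X α h x y := by
  unfold S1_r at hw
  split_ifs at hw with H
  exact (Option.some.inj hw).symm

omit [WellFoundedLT L] in
private theorem S1_r_ne {eR : L → RCond m} {X : Set L} {α : L} {h : L → L} {x y : L}
    (hw : S1_r e eR X α h x y ≠ none) : ∃ v ∈ X, (eR v).f x y ≠ none := by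
  unfold S1_r at hw
  by_contra H
  rw [if_neg H] at hw
  exact hw rfl

private theorem S1_good (hS : Setup c m n U) (eR : L → RCond m) {X : Set L} {α : L}
    {h : L → L} (hE : Enum m X α h)
    (hht : ∀ v ∈ X, ∀ x y, y < m → (eR v).f x y ≠ none → y < α) :
    Good m (S1_r e eR X α h) where
  legal x y w z b hw hb := by
    rw [S1_r_some hw] at hb
    obtain ⟨hz, v, hv, t, w0, ht, hi, he, hw0, hev⟩ := S1_w_some hb
    obtain ⟨p', _, z', hz', _⟩ := hev.elim
    exact ⟨hz, ((eR v).good.legal x y w0 z' b hw0 hz').2⟩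
  size := by
    refine S1_mk hE (hS.unc.le.trans (cantor _).le) (cantor _).le _
      (fun v => {e : L × L | (eR v).f e.1 e.2 ≠ none}) ?_ (fun v _ => (eR v).good.size)
    intro b hb
    exact S1_r_ne hb
  size' := by
    refine S1_mk hE hS.unc.le le_rfl _
      (fun v => {e : L × L | e.2 < m ∧ (eR v).f e.1 e.2 ≠ none}) ?_ (fun v _ => (eR v).good.size')
    rintro b ⟨hb1, hb2⟩
    obtain ⟨v, hv, hvb⟩ := S1_r_ne hb2
    exact ⟨v, hv, hb1, hvb⟩
  height := by
    refine ⟨α, hE.lt, fun x y hy hxy => ?_⟩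
    obtain ⟨v, hv, hvb⟩ := S1_r_ne hxy
    exact hht v hv x y hy hvb

theorem exists_star (hS : Setup c m n U) (he : OntoP e) (eR : L → RCond m) {X : Set L} {α : L}
    {h : L → L} (hE : Enum m X α h)
    (hag : ∀ v ∈ X, ∀ v' ∈ X, ∀ t t', Img m α h t (eR v).f → Img m α h t' (eR v').f →
      Agree t t' → Agree (eR v).f (eR v').f)
    (hht : ∀ v ∈ X, ∀ x y, y < m → (eR v).f x y ≠ none → y < α) :
    ∃ r : RCond m, ∀ v ∈ X, ∀ t, Tee m α t → Img m α h t (eR v).f → ∀ p : PCond c m,
      Ext (p.f α) t → ∀ x y w, (eR v).f x y = some w →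
        ∃ w', r.f x y = some w' ∧ Same e p w' w := by
  refine ⟨⟨S1_r e eR X α h, S1_good hS eR hE hht⟩, ?_⟩
  intro v hv t hT hI p hp x y w hw
  have hne : ∃ v ∈ X, (eR v).f x y ≠ none := ⟨v, hv, by rw [hw]; exact Option.some_ne_none _⟩
  refine ⟨S1_w e eR X α h x y, ?_, ?_⟩
  · show S1_r e eR X α h x y = _
    unfold S1_r
    rw [if_pos hne]
  -- (1)
  have h1 : ∀ q ≤ p, ∀ z b, q ≤ e z → S1_w e eR X α h x y z = some b → Ev e w q b := by
    intro q hq z b hqz hb
    obtain ⟨_, v', hv', t', w', hT', hI', hx', hw', hev⟩ := S1_w_some hb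
    have e1 : Ext (q.f α) t := Ext.trans (hq α) hp
    have e2 : Ext (q.f α) t' := Ext.trans (hqz α) hx'
    have e3 : Agree (eR v).f (eR v').f := hag v hv v' hv' t t' hI hI' (Agree.of_ext e1 e2)
    have e4 : w = w' := e3 x y w w' hw hw'
    rw [e4]
    exact hev.mono hqz
  -- (2)
  have h2 : ∀ q ≤ p, ∀ z b, z < m → e z = q → Ev e w q b → S1_w e eR X α h x y z = some b := by
    intro q hq z b hz hzq hb
    have hs : S1_SVal e eR X α h z x y b := by
      refine ⟨v, hv, t, w, hT, hI, ?_, hw, ?_⟩
      · rw [hzq]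
        exact Ext.trans (hq α) hp
      · rw [hzq]
        exact hb
    obtain ⟨b', hb'⟩ := S1_w_ex hz hs
    have h3 := h1 q hq z b' hzq.ge hb'
    rw [hb', h3.unique hb]
  intro q hq b
  constructor
  · intro hb
    refine (Ev.reg e w b).2 q fun q₁ hq₁ => ?_
    obtain ⟨p', hp', z, hz, hpz⟩ := (hb.mono hq₁).elim
    exact ⟨p', hp', h1 p' (hp'.trans (hq₁.trans hq)) z b hpz hz⟩
  · intro hb
    obtain ⟨z₀, hz₀, hez⟩ := he q
    refine Ev.of_const (h2 q hq z₀ b hz₀ hez hb) hez.ge ?_
    rintro z b' hz ⟨s, hs, hsz⟩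
    exact (h1 s (hs.trans hq) z b' hsz hz).unique (hb.mono hs)

end Pool.Agent.HG
end

section

/-!
# TASK Y4: every good partial function at alpha is the collapse of a member of the hull

PROOF. `img_limit`: suppose not; then (ultrafilter) for almost all `X`: `H` holds and `Img` fails; so there are
`x', y' < m` such that with `x = h x'`, `y = h y'` (in `X`): (i) exactly one of `t x' y'`, `r x y` is `none`, or (ii)
`t x' y' = some w`, `r x y = some w'` and some `z < α` (so `z ∈ X`) with `w' z ≠ (w z).map h`. By `normal_list` applied to the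
lists `[x, y]` (case i) or `[x, y, z]` (case ii) (`A X l` := there are `x'`, `y'` with ... and one of (i), (ii) for the
entries of `l`) the same `x`, `y`, `z` for almost all `X`. Case (i): if `r x y = none` then `L1` contradicts
`t x' y' ≠ none`; if `r x y ≠ none` then `L2` (any `z`) gives `x'`, `y'` (the same by `Enum.inj`) with `t x' y' ≠ none`.
Case (ii): `L2` at `z`.
`exists_lift`: suppose not; then for almost all `X` there are `α`, `h`, `t` with `Enum m X α h`, `Tee m α t`, and no
`v ∈ X` with `Img m α h t (eR v).f`; choose them: `αf`, `hf`, `tf`. `exists_limit_raw`, `good_limit`: `r : RCond m`;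
`img_limit`: `Img m α h t r.f` for almost all `X`. `r = eR v` (`heR`), and `v ∈ X` for almost all `X`. Contradiction.
-/

set_option autoImplicit false

namespace Pool.Agent.HG

open Cardinal Set Pool.Agent.CC

universe u v w

variable {L : Type u} [LinearOrder L] [WellFoundedLT L] {c m n : L} {U : Ultrafilter (Set L)}

theorem img_limit (hU : Huge m U) (αf : Set L → L) (hf : Set L → L → L) (tf : Set L → Raw L)
    (H : ∀ᶠ X in (U : Filter (Set L)), Enum m X (αf X) (hf X) ∧ Tee m (αf X) (tf X)) (r : Raw L)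
    (L1 : ∀ x y, r x y = none → ∀ᶠ X in (U : Filter (Set L)), ∀ x' y', x' < m → y' < m →
        hf X x' = x → hf X y' = y → tf X x' y' = none)
    (L2 : ∀ x y w, r x y = some w → ∀ z, ∀ᶠ X in (U : Filter (Set L)), ∃ x' y' w', x' < m ∧ y' < m ∧
        hf X x' = x ∧ hf X y' = y ∧ tf X x' y' = some w' ∧ w z = (w' z).map (hf X)) :
    ∀ᶠ X in (U : Filter (Set L)), Img m (αf X) (hf X) (tf X) r := by
  have hB : ∀ l : List L, ∀ᶠ X in (U : Filter (Set L)), ∀ x y z, l = [x, y, z] → ∀ x' y', x' < m → y' < m →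
      hf X x' = x → hf X y' = y → ((tf X x' y' = none ↔ r x y = none) ∧
        ∀ w w', tf X x' y' = some w → r x y = some w' → w' z = (w z).map (hf X)) := by
    intro l
    match l with
    | [] => exact Filter.Eventually.of_forall fun X x y z h0 => by simp at h0
    | [_] => exact Filter.Eventually.of_forall fun X x y z h0 => by simp at h0
    | [_, _] => exact Filter.Eventually.of_forall fun X x y z h0 => by simp at h0
    | _ :: _ :: _ :: _ :: _ => exact Filter.Eventually.of_forall fun X x y z h0 => by simp at h0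
    | [x₀, y₀, z₀] =>
      cases hr : r x₀ y₀ with
      | none =>
        filter_upwards [L1 x₀ y₀ hr] with X hX x y z h0 x' y' hx' hy' hx hy
        simp only [List.cons.injEq, and_true] at h0
        obtain ⟨rfl, rfl, rfl⟩ := h0
        refine ⟨⟨fun _ => hr, fun _ => hX x' y' hx' hy' hx hy⟩, ?_⟩
        intro w w' _ hw'
        rw [hr] at hw'
        exact absurd hw' (by simp)
      | some w₀ =>
        filter_upwards [L2 x₀ y₀ w₀ hr z₀, H] with X hX hH x y z h0 x' y' hx' hy' hx hy
        simp only [List.cons.injEq, and_true] at h0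
        obtain ⟨rfl, rfl, rfl⟩ := h0
        obtain ⟨x1, y1, w1, hx1, hy1, hhx, hhy, ht, hz⟩ := hX
        have ex : x' = x1 := hH.1.inj hx' hx1 (hx.trans hhx.symm)
        have ey : y' = y1 := hH.1.inj hy' hy1 (hy.trans hhy.symm)
        subst ex ey
        refine ⟨⟨fun h1 => ?_, fun h1 => ?_⟩, ?_⟩
        · rw [ht] at h1
          exact absurd h1 (by simp)
        · rw [hr] at h1
          exact absurd h1 (by simp)
        · intro w w' hw hw'
          rw [ht] at hw
          rw [hr] at hw'
          rw [← Option.some.inj hw, ← Option.some.inj hw']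
          exact hz
  filter_upwards [exists_of_list hU _ hB, H] with X hX hH
  intro x hx y hy
  have hmem : ∀ z ∈ X, ∀ a ∈ [hf X x, hf X y, z], a ∈ X := by
    intro z hz a ha
    simp only [List.mem_cons, List.not_mem_nil, or_false] at ha
    rcases ha with rfl | rfl | rfl
    · exact hH.1.mem x hx
    · exact hH.1.mem y hy
    · exact hz
  refine ⟨(hX _ (hmem _ (hH.1.mem x hx)) _ _ _ rfl x y hx hy rfl rfl).1, ?_⟩
  intro w w' hw hw' z hz
  have hzX : z ∈ X := (hH.1.cap z (hz.trans hH.1.lt)).2 hz
  exact (hX _ (hmem z hzX) _ _ _ rfl x y hx hy rfl rfl).2 w w' hw hw'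

theorem exists_lift (hS : Setup c m n U) {eR : L → RCond m} (heR : OntoR eR) :
    ∀ᶠ X in (U : Filter (Set L)), ∀ α h, Enum m X α h →
      ∀ t, Tee m α t → ∃ v ∈ (X : Set L), Img m α h t (eR v).f := by
  classical
  have hU : Huge m U := hS.toHuge
  by_contra hcon
  have hcon' := Ultrafilter.eventually_not.2 hcon
  have hch : ∀ X : Set L, ∃ a : L × (L → L) × Raw L,
      (¬ ∀ α h, Enum m X α h → ∀ t, Tee m α t → ∃ v ∈ (X : Set L), Img m α h t (eR v).f) →
      Enum m X a.1 a.2.1 ∧ Tee m a.1 a.2.2 ∧ ∀ v ∈ (X : Set L), ¬ Img m a.1 a.2.1 a.2.2 (eR v).f := by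
    intro X
    by_cases hP : ∀ α h, Enum m X α h → ∀ t, Tee m α t → ∃ v ∈ (X : Set L), Img m α h t (eR v).f
    · exact ⟨(m, id, emptyRaw), fun h0 => absurd hP h0⟩
    · have hP' := hP
      push Not at hP'
      obtain ⟨α, h, hE, t, hT, hv⟩ := hP'
      exact ⟨(α, h, t), fun _ => ⟨hE, hT, hv⟩⟩
  choose a ha using hch
  have H : ∀ᶠ X in (U : Filter (Set L)), Enum m X (a X).1 (a X).2.1 ∧ Tee m (a X).1 (a X).2.2 := by
    filter_upwards [hcon'] with X hX
    exact ⟨(ha X hX).1, (ha X hX).2.1⟩
  obtain ⟨r, L1, L2⟩ := exists_limit_raw hU (fun X => (a X).1) (fun X => (a X).2.1)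
    (fun X => (a X).2.2) H
  have hgood := good_limit hU (fun X => (a X).1) (fun X => (a X).2.1) (fun X => (a X).2.2) H r L2
  have himg := img_limit hU (fun X => (a X).1) (fun X => (a X).2.1) (fun X => (a X).2.2) H r L1 L2
  obtain ⟨v, hv⟩ := heR ⟨r, hgood⟩
  obtain ⟨X, hX1, hX2, hX3⟩ := (himg.and (hcon'.and (hU.fine v))).exists
  refine (ha X hX2).2.2 v hX3 ?_
  rw [hv]
  exact hX1

end Pool.Agent.HG
end

section

/-!
# TASK Y5: comparison of the collapses

PROOF. `ext_down`: let `t x y = some w` (so `x, y < m` by `dom`). `Img`: `r (h x) (h y) = some w₀` for some `w₀` (not `none`), so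
`r' (h x) (h y) = some w₀`, so `t' x y = some w'`. For `z < α`: `(w z).map h = w₀ z = (w' z).map h`, and the values of `w`, `w'` are
`< x < m` (`legal`), so `w z = w' z` by `Enum.inj`; for `z` not `< α` both are `none` by `legal`. So `w = w'`.
`agree_up`: for `v v' : L` such that `(eR v).f`, `(eR v').f` do not agree choose `x`, `y`, `z` with
`(eR v).f x y = some w`, `(eR v').f x y = some w'`, `w z ≠ w' z`; note `z < m` (by `legal`: one of the two is not `none`).
Almost all `X` are closed under these three functions (`closed_list`). Let `Enum m X α h`, `v, v' ∈ X`, and suppose the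
two do not agree: `x, y, z ∈ X`, `z < m` so `z < α`, `x = h x'`, `y = h y'`, `x', y' < m` (`surj`). By `Img` `t x' y' = some u`,
`t' x' y' = some u'`, `w z = (u z).map h`, `w' z = (u' z).map h`; `Agree t t'`: `u = u'`, contradiction.
`height_typ`: choose `ξ v < m` by `height` of `eR v`; almost all `X` are closed under `ξ`; `ξ v ∈ X`, `< m`, so `< α`.
-/

set_option autoImplicit false

namespace Pool.Agent.HG

open Cardinal Set Pool.Agent.CC

universe u v w

variable {L : Type u} [LinearOrder L] [WellFoundedLT L] {c m n : L} {U : Ultrafilter (Set L)}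

omit [WellFoundedLT L] in
theorem ext_down {X : Set L} {α : L} {h : L → L} (hE : Enum m X α h) {t t' r r' : Raw L}
    (ht : Tee m α t) (ht' : Tee m α t') (hi : Img m α h t r) (hi' : Img m α h t' r')
    (hr : Ext r' r) : Ext t' t := by
  intro x y w hw
  have hne : t x y ≠ none := by
    rw [hw]
    exact Option.some_ne_none _
  obtain ⟨hx, hy⟩ := ht.dom x y hne
  obtain ⟨i1, i2⟩ := hi x hx y hy
  obtain ⟨j1, j2⟩ := hi' x hx y hy
  have hne' : r (h x) (h y) ≠ none := fun h0 => hne (i1.2 h0)
  obtain ⟨w0, hw0⟩ := Option.ne_none_iff_exists'.mp hne'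
  have hw0' := hr _ _ _ hw0
  have hne2 : t' x y ≠ none := by
    intro h0
    rw [j1.1 h0] at hw0'
    exact Option.some_ne_none _ hw0'.symm
  obtain ⟨w', hw'⟩ := Option.ne_none_iff_exists'.mp hne2
  have hww : w' = w := by
    funext z
    by_cases hz : z < α
    · have e1 := i2 w w0 hw hw0 z hz
      have e2 := j2 w' w0 hw' hw0' z hz
      rw [e1] at e2
      rcases hb : w z with _ | b
      · rcases hb' : w' z with _ | b'
        · rfl
        · rw [hb, hb'] at e2
          simp at e2
      · rcases hb' : w' z with _ | b'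
        · rw [hb, hb'] at e2
          simp at e2
        · rw [hb, hb'] at e2
          simp only [Option.map_some, Option.some.injEq] at e2
          have l1 := (ht.good.legal x y w z b hw hb).2.1
          have l2 := (ht'.good.legal x y w' z b' hw' hb').2.1
          rcases lt_trichotomy b b' with k | k | k
          · exact absurd e2 (hE.mono b b' k (l2.trans hx)).ne
          · rw [k]
          · exact absurd e2 (hE.mono b' b k (l1.trans hx)).ne'
    · have n1 : w z = none := by
        rcases hb : w z with _ | b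
        · rfl
        · exact absurd (ht.good.legal x y w z b hw hb).1 hz
      have n2 : w' z = none := by
        rcases hb : w' z with _ | b
        · rfl
        · exact absurd (ht'.good.legal x y w' z b hw' hb).1 hz
      rw [n1, n2]
  rw [hw', hww]

theorem agree_up (hS : Setup c m n U) (eR : L → RCond m) :
    ∀ᶠ X in (U : Filter (Set L)), ∀ α h, Enum m X α h →
      ∀ v ∈ (X : Set L), ∀ v' ∈ (X : Set L), ∀ t t', Img m α h t (eR v).f → Img m α h t' (eR v').f →
        Agree t t' → Agree (eR v).f (eR v').f := by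
  classical
  have hU : Huge m U := hS.toHuge
  have key : ∀ v v' : L, ∃ x y z : L, ¬ Agree (eR v).f (eR v').f → ∃ w w',
      (eR v).f x y = some w ∧ (eR v').f x y = some w' ∧ w z ≠ w' z := by
    intro v v'
    by_cases hA : Agree (eR v).f (eR v').f
    · exact ⟨m, m, m, fun h => absurd hA h⟩
    · unfold Agree at hA
      push Not at hA
      obtain ⟨x, y, w, w', h1, h2, h3⟩ := hA
      obtain ⟨z, hz⟩ := Function.ne_iff.mp h3
      exact ⟨x, y, z, fun _ => ⟨w, w', h1, h2, hz⟩⟩
  choose fx fy fz hf using key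
  filter_upwards [closed_list hU (fun l => fx (l.headD m) (l.tail.headD m)),
    closed_list hU (fun l => fy (l.headD m) (l.tail.headD m)),
    closed_list hU (fun l => fz (l.headD m) (l.tail.headD m))] with X c1 c2 c3
  intro α h hE v hv v' hv' t t' hi hi' hA
  by_contra hn
  obtain ⟨w, w', hw, hw', hz⟩ := hf v v' hn
  have hxX : fx v v' ∈ X := c1 [v, v'] (by simpa using ⟨hv, hv'⟩)
  have hyX : fy v v' ∈ X := c2 [v, v'] (by simpa using ⟨hv, hv'⟩)
  have hzX : fz v v' ∈ X := c3 [v, v'] (by simpa using ⟨hv, hv'⟩)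
  have hzm : fz v v' < m := by
    rcases hb : w (fz v v') with _ | b
    · rcases hb' : w' (fz v v') with _ | b'
      · exact absurd (hb.trans hb'.symm) hz
      · exact ((eR v').good.legal _ _ w' _ b' hw' hb').1
    · exact ((eR v).good.legal _ _ w _ b hw hb).1
  have hzα : fz v v' < α := (hE.cap _ hzm).1 hzX
  obtain ⟨x', hx', hxe⟩ := hE.surj _ hxX
  obtain ⟨y', hy', hye⟩ := hE.surj _ hyX
  rw [← hxe, ← hye] at hw hw'
  obtain ⟨i1, i2⟩ := hi x' hx' y' hy'
  obtain ⟨j1, j2⟩ := hi' x' hx' y' hy'
  have n1 : t x' y' ≠ none := by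
    intro h0
    rw [i1.1 h0] at hw
    exact Option.some_ne_none _ hw.symm
  have n2 : t' x' y' ≠ none := by
    intro h0
    rw [j1.1 h0] at hw'
    exact Option.some_ne_none _ hw'.symm
  obtain ⟨u, hu⟩ := Option.ne_none_iff_exists'.mp n1
  obtain ⟨u', hu'⟩ := Option.ne_none_iff_exists'.mp n2
  have huu := hA x' y' u u' hu hu'
  have e1 := i2 u w hu hw _ hzα
  have e2 := j2 u' w' hu' hw' _ hzα
  rw [e1, e2, huu] at hz
  exact hz rfl

theorem height_typ (hS : Setup c m n U) (eR : L → RCond m) :
    ∀ᶠ X in (U : Filter (Set L)), ∀ α h, Enum m X α h →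
      ∀ v ∈ (X : Set L), ∀ x y, y < m → (eR v).f x y ≠ none → y < α := by
  have hU : Huge m U := hS.toHuge
  choose ξ hξm hξ using fun v => (eR v).good.height
  filter_upwards [closed_list hU (fun l => ξ (l.headD m))] with X c1
  intro α h hE v hv x y hy hne
  have hξX : ξ v ∈ X := c1 [v] (by simpa using hv)
  have hξα : ξ v < α := (hE.cap _ (hξm v)).1 hξX
  exact (hξ v x y hy hne).trans hξα

end Pool.Agent.HG
end
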