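import Pool.Agent.Lib.MP_27cb06_lc.Mg.G007
import Pool.Agent.Lib.MP_27cb06_lc.Mg.G004
import Pool.Agent.Lib.MP_27cb06_lc.Mg.G005
import Pool.Agent.Lib.MP_27cb06_lc.Mg.G002
import Pool.Agent.Lib.MP_27cb06_lc.H.R2
import Pool.Agent.Lib.MP_27cb06_lc.Mg.G003
import Pool.Agent.Lib.MP_27cb06_lc.Names
import Pool.Agent.Lib.MP_27cb06_lc.Mg.G006

section

/-!
# TASK S2: the main density argument

PROOF. Let `eR` be as in `exists_enumR`, `q₀.p = e z₀`, `q₀.r = eR v₀` (`z₀ < m`). Take an `X` with (almost all have): `Enum m X α h`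
(`exists_enum`) for some `α`, `h`; `Stage c m α` (`stage`); `v₀ ∈ X`, `n ∈ X` (`fine`); `z₀ < α`, `c < α` (`above`); the
conclusions of `typ_e`, `exists_tee`, `exists_lift`, `agree_up`, `height_typ`, `exists_psi` for it. `exists_star`: `r*`.
`exists_tee` for `v₀`: `t₀`. Since `InJ (e z₀) α`, `(e z₀).f α` is empty (a place would have `α < α`), so by
`PCond.exists_set` there is `p* ≤ q₀.p` with `p*.f α = t₀`. `q := ⟨p*, r*⟩`. `q ≤ q₀` by the property of `r*` (for `v₀`, `t₀`,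
`p*`). Let `q' ≤ q`, `s ⊆ X` finite. `t' := q'.p.f α` is `Tee m α` (`PCond.good`, `PCond.stage`). `exists_lift`: `v' ∈ X` with
`Img m α h t' (eR v').f`. `typ_e`: `q'.p.cut α = e z'`, `z' < α`. `exists_psi`: `z₁ < α`, `v₁ ∈ X`, `b ∈ X` with `e z₁ ≤ e z'`,
`eR v₁ ≤ eR v'`, `F.app s b ⟨e z₁, eR v₁⟩`. `exists_tee` for `v₁`: `t₁`; `ext_down`: `Ext t₁ t'`.
The conditions `q'.p` and `e z₁` agree: at a common place `(β, x, y)`: `InJ (e z₁) α` (`typ_e`), so it is a place of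
`q'.p.cut α = e z'`, and `e z₁ ≤ e z'`: the values are equal. `PCond.exists_join`: `p₁ ≤ q'.p`, `p₁ ≤ e z₁`; `p₁.f α = t'`
(`(e z₁).f α` is empty). `PCond.exists_set`: `p₂ ≤ p₁` with `p₂.f α = t₁`. Put `q'' := ⟨p₂, q'.r⟩ ≤ q'`. `q'' ≤ ⟨e z₁, eR v₁⟩`:
`p₂ ≤ e z₁`; if `(eR v₁).f x y = some w` then `r*.f x y = some w*`, `Same e p₂ w* w` (the property of `r*` for `v₁`, `t₁`, `p₂`), and
`q' ≤ q` gives `q'.r.f x y = some w''`, `Same e q'.p w'' w*`. So `F.app s b q''`.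
-/

set_option autoImplicit false

namespace Pool.Agent.HG

open Cardinal Set Pool.Agent.CC

universe u v w

variable {L : Type u} [LinearOrder L] [WellFoundedLT L] {c m n : L} {U : Ultrafilter (Set L)}

variable {e : L → PCond c m}

theorem chang_step (hS : Setup c m n U) (he : OntoP e) (F : FunName (QCond e) (Finset L) L)
    (q₀ : QCond e) : ∃ q ≤ q₀, ∃ (X : Set L) (α : L) (h : L → L), Enum m X α h ∧ c < α ∧ n ∈ X ∧
      ∀ q' ≤ q, ∀ s : Finset L, (∀ x ∈ s, x ∈ X) → ∃ q'' ≤ q', ∃ b ∈ X, F.app s b q'' := by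
  classical
  have hU := hS.toHuge
  obtain ⟨eR, heR⟩ := exists_enumR hS
  obtain ⟨z₀, hz₀, hz₀e⟩ := he q₀.p
  obtain ⟨v₀, hv₀⟩ := heR q₀.r
  obtain ⟨X, ⟨α, h, hE⟩, hst, hv₀X, hnX, hzα, htyp, htee, hlift, hag, hht, hpsi⟩ :=
    ((exists_enum hU).and ((stage hU hS.cm).and ((hU.fine v₀).and ((hU.fine n).and
      ((above hU hz₀).and ((typ_e hS he).and ((exists_tee hS eR).and ((exists_lift hS heR).and
      ((agree_up hS eR).and ((height_typ hS eR).and (exists_psi hS he heR F))))))))))).exists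
  have hst := hst α h hE
  have hzα := hzα α h hE
  obtain ⟨hJ, hcut⟩ := htyp α h hE
  obtain ⟨rs, hrs⟩ := exists_star hS he eR hE (hag α h hE) (hht α h hE)
  obtain ⟨t₀, ht₀, hi₀⟩ := htee α h hE v₀ hv₀X
  have hemp : ∀ z < α, ∀ x y w, (e z).f α x y ≠ some w := by
    intro z hz x y w hw
    exact lt_irrefl α (hJ z hz α x y (by rw [hw]; exact Option.some_ne_none w)).1
  have hext₀ : Ext t₀ (q₀.p.f α) := by
    intro x y w hw
    rw [← hz₀e] at hw
    exact absurd hw (hemp z₀ hzα x y w)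
  obtain ⟨ps, hps, hpsα, -⟩ := PCond.exists_set hS q₀.p hst ht₀ hext₀
  refine ⟨⟨ps, rs⟩, ⟨hps, fun x y w hw => ?_⟩, X, α, h, hE, hst.lo, hnX, ?_⟩
  · exact hrs v₀ hv₀X t₀ ht₀ hi₀ ps (by rw [hpsα]; exact Ext.refl _) x y w (by rw [hv₀]; exact hw)
  intro q' hq' s hs
  have ht' : Tee m α (q'.p.f α) :=
    ⟨q'.p.good α hst, fun x y hxy => (q'.p.stage α x y hxy).2⟩
  obtain ⟨v', hv'X, hi'⟩ := hlift α h hE _ ht'
  obtain ⟨z', hz'α, hz'⟩ := hcut q'.p
  obtain ⟨z₁, hz₁, v₁, hv₁, b, hbX, hez, hev, hF⟩ := hpsi α h hE s hs z' hz'α v' hv'X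
  obtain ⟨t₁, ht₁, hi₁⟩ := htee α h hE v₁ hv₁
  have hext₁ : Ext t₁ (q'.p.f α) := ext_down hE ht' ht₁ hi' hi₁ hev
  have hagree : ∀ β, Agree (q'.p.f β) ((e z₁).f β) := by
    intro β x y v w hv hw
    obtain ⟨h1, h2, h3⟩ := hJ z₁ hz₁ β x y (by rw [hw]; exact Option.some_ne_none w)
    have h4 : (e z').f β x y = some v := by
      rw [hz']
      exact PCond.cut_eq.2 ⟨⟨h1, h2, h3⟩, hv⟩
    have h5 : (e z₁).f β x y = some v := hez β x y v h4
    rw [h5] at hw
    exact Option.some.inj hw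
  obtain ⟨p₁, hp₁q, hp₁e, hp₁⟩ := PCond.exists_join hS hagree
  have hext₂ : Ext t₁ (p₁.f α) := by
    intro x y w hw
    rcases (hp₁ α x y w).1 hw with h1 | h1
    · exact hext₁ x y w h1
    · exact absurd h1 (hemp z₁ hz₁ x y w)
  obtain ⟨p₂, hp₂, hp₂α, -⟩ := PCond.exists_set hS p₁ hst ht₁ hext₂
  have hp₂q : p₂ ≤ q'.p := hp₂.trans hp₁q
  refine ⟨⟨p₂, q'.r⟩, ⟨hp₂q, fun x y w hw => ⟨w, hw, Same.refl _ _⟩⟩, b, hbX, ?_⟩
  have hle : (⟨p₂, q'.r⟩ : QCond e) ≤ ⟨e z₁, eR v₁⟩ := by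
    refine ⟨hp₂.trans hp₁e, fun x y w hw => ?_⟩
    obtain ⟨w', hw', hsame⟩ := hrs v₁ hv₁ t₁ ht₁ hi₁ p₂ (by rw [hp₂α]; exact Ext.refl _) x y w hw
    obtain ⟨w'', hw'', hsame'⟩ := hq'.2 x y w' hw'
    exact ⟨w'', hw'', (hsame'.mono hp₂q).trans hsame⟩
  exact (F.reg s b).1 _ _ hle hF

end Pool.Agent.HG
end

section

/-!
# TASK S3: the Chang property is forced

PROOF. Let `F` be a name, `q₀ ≤ q`; `chang_step`: `q₁ ≤ q₀`, `X`, `α`, `h`. The name of `X` is `SetName.check X`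
(`Pool/Agent/Lib/MP_27cb06_lc/Names.lean`). First clause: for `q' ≤ q₁` with all members of `s` in `X` (membership in a
check name does not depend on the condition) and `q'' ≤ q'` there are `q₃ ≤ q''`, `b ∈ X` with `F.app s b q₃`. Second
clause: `x < c < α` so `x ∈ X` (`cap`, `x < m`). Third clause: the check name (`FunName.exists_check`) of
`g : Iio m → L`, `g i = h i`: values in `X`, onto `X` (`surj`), injective (`Enum.inj`: `g i = x`, `g j = x`, `j < i`, is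
impossible). Fourth clause: `n ∈ X`, so `n = h β` with `β < m` (`surj`). `collapsed_m` for `β : Iio m`: below `q₁`
densely there is a name `g₀` of a function `Iio c → Iio m` which takes all values below `β`; `FunName.exists_map` with
`f : Iio m → L`, `f i = h i`. If `x < n`, `x ∈ X` then `x = h i`, `i < m`, and `h i < h β` so `i < β` (`Enum.lt_of_lt`); so
densely there is `a` with `g₀.app a i`, so `g.app a x`.
Unfolding: `fAll`, `fEx`, `fAnd`, `fImp`, `fNot` as in `Stmt.lean` and `Pool/Agent/Lib/MP_27cb06_lc/Defs.lean`.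
-/

set_option autoImplicit false

namespace Pool.Agent.HG

open Cardinal Set Pool.Agent.CC

universe u v w

variable {L : Type u} [LinearOrder L] [WellFoundedLT L] {c m n : L} {U : Ultrafilter (Set L)}

variable {e : L → PCond c m}

theorem chang_forced (hS : Setup c m n U) (he : OntoP e) (q : QCond e) :
    fChang (QCond e) c m n q := by
  intro F q₀ _
  obtain ⟨q₁, hq₁, X, α, h, hE, hcα, hnX, hstep⟩ := chang_step hS he F q₀
  refine ⟨q₁, hq₁, SetName.check X, And.intro ?_ (And.intro ?_ (And.intro ?_ ?_))⟩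
  · intro s q' hq' hs q'' hq''
    obtain ⟨q₃, hq₃, b, hb, hF⟩ := hstep q'' (hq''.trans hq') s (fun x hx => hs ⟨x, hx⟩)
    exact ⟨q₃, hq₃, b, hF, hb⟩
  · intro x
    exact (hE.cap x (lt_trans x.2 hS.cm)).2 (lt_trans x.2 hcα)
  · intro q' _
    obtain ⟨g, hg⟩ := FunName.exists_check (QCond e) (fun i : Iio m => h i)
    refine ⟨q', le_rfl, g, And.intro ?_ (And.intro ?_ ?_)⟩
    · intro i q'' _
      exact ⟨q'', le_rfl, h i, (hg i _ _).2 rfl, hE.mem i i.2⟩
    · intro x q'' _ hx q₃ _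
      obtain ⟨i, hi, hix⟩ := hE.surj x hx
      exact ⟨q₃, le_rfl, ⟨i, hi⟩, (hg _ _ _).2 hix⟩
    · intro i j q'' _ hex
      obtain ⟨r, _, x, h1, h2⟩ := hex q'' le_rfl
      have e1 : h i = x := (hg i x r).1 h1
      have e2 : h (j : Iio m) = x := (hg (j : Iio m) x r).1 h2
      have hji : ((j : Iio m) : L) < (i : L) := j.2
      have h3 := hE.mono _ _ hji i.2
      rw [e1, e2] at h3
      exact lt_irrefl _ h3
  · intro q' _
    obtain ⟨β, hβ, hβn⟩ := hE.surj n hnX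
    obtain ⟨r, hr, g₀, hg₀⟩ := collapsed_m hS q' ⟨β, hβ⟩ q' le_rfl
    obtain ⟨g, hg⟩ := FunName.exists_map g₀ (fun i : Iio m => h i)
    refine ⟨r, hr, g, ?_⟩
    intro x q'' hq'' hx q₃ hq₃
    obtain ⟨i, hi, hix⟩ := hE.surj x hx
    have hxn : (x : L) < n := x.2
    have hiβ : i < β := by
      rcases lt_trichotomy i β with h1 | h1 | h1
      · exact h1
      · exfalso
        rw [h1, hβn] at hix
        rw [← hix] at hxn
        exact lt_irrefl _ hxn
      · exfalso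
        have h2 := hE.mono _ _ h1 hi
        rw [hβn, hix] at h2
        exact lt_asymm hxn h2
    obtain ⟨r', hr', a, ha⟩ := hg₀ ⟨⟨i, hi⟩, hiβ⟩ q₃ (hq₃.trans hq'')
    refine ⟨r', hr', a, ?_⟩
    have h5 := hg a _ r' ha
    rw [← hix]
    exact h5

end Pool.Agent.HG
end

section

/-!
# TASK F1: assembly: the model is forced

PROOF. Anonymous constructor.
-/

set_option autoImplicit false

namespace Pool.Agent.HG

open Cardinal Set Pool.Agent.CC

universe u v w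

variable {L : Type u} [LinearOrder L] [WellFoundedLT L] {c m n : L} {U : Ultrafilter (Set L)}

variable {e : L → PCond c m}

theorem model_forced (hS : Setup c m n U) (he : OntoP e) (q : QCond e) :
    fModel (QCond e) c m n q :=
  ⟨fun a => bounded_c hS a q, ⟨collapsed_m hS q, bounded_m hS q⟩,
    ⟨collapsed_n hS he q, bounded_n hS q⟩, ⟨collapsed_L hS he q, bounded_L hS q⟩,
    allSub hS he q, manySub hS he q, chang_forced hS he q⟩

end Pool.Agent.HG
end
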