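import Mathlib
import Pool.Agent.Lib.MP_27cb06_lc.Mg.G009
import Pool.Agent.Lib.MP_27cb06_lc.Mg.G012

section

/-!
# TASK T09: the chain condition of countable partial functions, in all universes

This is `Pool.Agent.LQ.exists_agree` (file `Pool/Agent/Lib/MP_df1441_gt/DeltaSys.lean` of the graded
repository `/workdir/pool/outputs/live`, proved there for `Type`) with `J`, `E` in `Type u` and
`V = Bool`. Copy the proof: `C := (ℕ → Bool) × (ℕ → ℕ)`, the terms `WType (ar C)` live in `Type`, only
`ev : WType (ar C) → J` and the cardinality comparison need `Cardinal.lift`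
(`Cardinal.lift_mk_le_lift_mk_of_surjective`). Do not import the old file; copy what you need (private or
with the prefix `T09_`).
-/

set_option autoImplicit false

namespace Pool.Agent.CC

open Cardinal Set

universe u v w

/-- terms over countably many arguments -/
private def T09_ar (C : Type) : Option C → Type
  | none => Empty
  | some _ => ℕ

private theorem T09_mk_wtype_le (C : Type) (hC : #C ≤ Cardinal.continuum) :
    #(WType (T09_ar C)) ≤ Cardinal.continuum := by
  apply WType.cardinalMk_le_of_le'
  have h : ∀ a : Option C, Cardinal.continuum ^ #(T09_ar C a) ≤ Cardinal.continuum := by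
    rintro (_ | c)
    · have : #(T09_ar C none) = 0 := Cardinal.mk_eq_zero_iff.2 (inferInstanceAs (IsEmpty Empty))
      rw [this, Cardinal.power_zero]
      exact Cardinal.one_le_aleph0.trans Cardinal.aleph0_le_continuum
    · have : #(T09_ar C (some c)) = ℵ₀ := Cardinal.mk_nat
      rw [this, Cardinal.continuum_power_aleph0]
  calc (Cardinal.sum fun a : Option C => Cardinal.continuum ^ Cardinal.lift.{0, 0} #(T09_ar C a))
      ≤ Cardinal.sum fun _ : Option C => Cardinal.continuum :=
        Cardinal.sum_le_sum _ _ fun a => by rw [Cardinal.lift_id]; exact h a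
    _ = #(Option C) * Cardinal.continuum := by rw [Cardinal.sum_const']
    _ ≤ Cardinal.continuum * Cardinal.continuum := by
        apply mul_le_mul_left
        rw [Cardinal.mk_option]
        calc #C + 1 ≤ Cardinal.continuum + Cardinal.continuum :=
              add_le_add hC (Cardinal.one_le_aleph0.trans Cardinal.aleph0_le_continuum)
          _ = Cardinal.continuum := Cardinal.continuum_add_self
    _ = Cardinal.continuum := Cardinal.continuum_mul_self

/-- Among more than continuum many countable partial functions with values in `Bool` there are two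
which agree on their common domain. -/
theorem exists_agree {J E : Type u} (hJ : 𝔠 < #J) (F : J → E → Option Bool)
    (hF : ∀ j, {e | F j e ≠ none}.Countable) :
    ∃ i j, i ≠ j ∧ ∀ e v w, F i e = some v → F j e = some w → v = w := by
  classical
  have hJne : Nonempty J := Cardinal.mk_ne_zero_iff.1 (ne_of_gt (bot_le.trans_lt hJ))
  obtain ⟨j₀⟩ := hJne
  -- enumerate the domains
  have henum : ∀ j, ∃ s : ℕ → Option E, ∀ e, F j e ≠ none → ∃ n, s n = some e := by
    intro j
    rcases ({e | F j e ≠ none}).eq_empty_or_nonempty with he | hne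
    · refine ⟨fun _ => none, fun e h => ?_⟩
      have : e ∈ {e | F j e ≠ none} := h
      rw [he] at this; exact absurd this (Set.notMem_empty e)
    · obtain ⟨s, hs⟩ := (hF j).exists_eq_range hne
      refine ⟨fun n => some (s n), fun e h => ?_⟩
      have : e ∈ {e | F j e ≠ none} := h
      rw [hs] at this
      obtain ⟨n, rfl⟩ := this
      exact ⟨n, rfl⟩
  choose enum henum using henum
  -- the choice function
  let ch : (ℕ → Option E) → (ℕ → Bool) → J := fun t g =>
    if h : ∃ j, ∀ n e, t n = some e → F j e = some (g n) then h.choose else j₀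
  have hch : ∀ t g, (∃ j, ∀ n e, t n = some e → F j e = some (g n)) →
      ∀ n e, t n = some e → F (ch t g) e = some (g n) := by
    intro t g h
    have : ch t g = h.choose := dif_pos h
    rw [this]; exact h.choose_spec
  let C : Type := (ℕ → Bool) × (ℕ → ℕ)
  have hC : #C ≤ Cardinal.continuum := by
    have h1 : #(ℕ → Bool) ≤ Cardinal.continuum := by
      rw [← Cardinal.power_def, Cardinal.mk_nat]
      calc #Bool ^ ℵ₀ ≤ Cardinal.continuum ^ ℵ₀ := Cardinal.power_le_power_right
            (Cardinal.mk_le_aleph0.trans Cardinal.aleph0_le_continuum)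
        _ = Cardinal.continuum := Cardinal.continuum_power_aleph0
    have h2 : #(ℕ → ℕ) ≤ Cardinal.continuum := by
      rw [← Cardinal.power_def, Cardinal.mk_nat, Cardinal.aleph0_power_aleph0]
    calc #C = #(ℕ → Bool) * #(ℕ → ℕ) := Cardinal.mk_prod _ _ |>.trans (by simp)
      _ ≤ Cardinal.continuum * Cardinal.continuum := mul_le_mul' h1 h2
      _ = Cardinal.continuum := Cardinal.continuum_mul_self
  let ev : WType (T09_ar C) → J := WType.elim J (fun x => match x with
    | ⟨none, _⟩ => j₀
    | ⟨some (g, m), c⟩ => ch (fun n => enum (c n) (m n)) g)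
  have hev : ∀ (g : ℕ → Bool) (m : ℕ → ℕ) (c : ℕ → WType (T09_ar C)),
      ev (WType.mk (some (g, m)) c) = ch (fun n => enum (ev (c n)) (m n)) g := fun g m c => rfl
  have hnot : ∃ j, ∀ w, ev w ≠ j := by
    by_contra hcon
    push Not at hcon
    have h1 : Cardinal.lift.{0, u} #J ≤ Cardinal.lift.{u, 0} #(WType (T09_ar C)) :=
      Cardinal.lift_mk_le_lift_mk_of_surjective hcon
    have h2 : Cardinal.lift.{u, 0} #(WType (T09_ar C)) ≤ Cardinal.continuum := by
      rw [← Cardinal.lift_continuum.{u, 0}]
      exact Cardinal.lift_le.2 (T09_mk_wtype_le C hC)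
    rw [Cardinal.lift_uzero] at h1
    exact absurd (h1.trans h2) (not_le.2 hJ)
  obtain ⟨j, hj⟩ := hnot
  -- the part of the domain of `F j` inside the domains of the members of the closure
  let T : Set E := {e | F j e ≠ none ∧ ∃ w, F (ev w) e ≠ none}
  have hT : T.Countable := (hF j).mono fun e h => h.1
  have hT' : ∃ w, ∀ e ∈ T, F (ev w) e = F j e := by
    rcases T.eq_empty_or_nonempty with he | hne
    · refine ⟨WType.mk none fun x => x.elim, fun e h => ?_⟩
      rw [he] at h; exact absurd h (Set.notMem_empty e)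
    · obtain ⟨s, hs⟩ := hT.exists_eq_range hne
      have hs' : ∀ n, s n ∈ T := fun n => by rw [hs]; exact ⟨n, rfl⟩
      choose w hw using fun n => (hs' n).2
      choose m hm using fun n => henum (ev (w n)) (s n) (hw n)
      choose g hg using fun n => Option.ne_none_iff_exists'.1 (hs' n).1
      refine ⟨WType.mk (some (g, m)) w, fun e he => ?_⟩
      rw [hs] at he
      obtain ⟨n, rfl⟩ := he
      rw [hev, hg n]
      refine hch (fun n => enum (ev (w n)) (m n)) g ⟨j, fun n e h => ?_⟩ n (s n) (hm n)
      have : s n = e := Option.some.inj ((hm n).symm.trans h)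
      rw [← this, hg n]
  obtain ⟨w, hw⟩ := hT'
  refine ⟨ev w, j, hj w, fun e v v' hv hv' => ?_⟩
  have he : e ∈ T := ⟨by rw [hv']; simp, w, by rw [hv]; simp⟩
  have := hw e he
  rw [hv, hv'] at this
  exact Option.some.inj this

end Pool.Agent.CC
end

section

/-!
# TASK T11: few values

PROOF. Suppose not: (*) for every `c'` with `c'.col ≤ c.col` and every `Z : Set N` with `#Z ≤ 𝔠` there is a
`p` with `p.col ≤ c'.col` such that `h.app i v r` fails for all `r ≤ p`, `v ∈ Z`.
Construct by `exists_rec` (with `W = N`, `X = Cond Ω N K × N`) `(p β, v β)`, `β : N`, with: `(p β).col ≤ c.col`,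
`(p β).col ≤ (p γ).col` and `v β ≠ v γ` for all `γ < β`, and `h.app i (v β) (p β)`. Step `β`: the set
`Iio β` has size `≤ 𝔠`; the `(p γ).col`, `γ < β`, are pairwise `Comp` (for `γ < δ` one is below the other), so
`exists_glue_col` (index type `Iio β`; add `c` as one more member, for example index type
`Option (Iio β)`) gives `c'` with `c'.col ≤ (p γ).col`, `c'.col ≤ c.col` (`c'` has only places in `col`);
`Z := {v γ | γ < β}`; by (*) get `p`, by `h.tot` an extension `p β ≤ p` with `h.app i (v β) (p β)`
(`col` is monotone: `Cond.cut_mono`); `v β ∉ Z` by the choice of `p`.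
The functions `F β e := ` the bit of `(p β).f (e.1, inl e.2)` (`none` if undefined), `E = K × (Ω × ℕ)`,
are countable, so by `exists_agree` (`𝔠 < #N`) there are `β ≠ γ` such that `F β`, `F γ` agree; then `Comp (p β)
(p γ)`: at the places `(x, inl _)` by `legal` and this, at the places `(x, inr _)` since one of
`(p β).col`, `(p γ).col` is below the other. `exists_join`: a condition `r` below both, which has
`h.app i (v β) r` and `h.app i (v γ) r`, so `v β = v γ` by `h.sv`, contradiction.
-/

set_option autoImplicit false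

namespace Pool.Agent.CC

open Cardinal Set

universe u v w

variable {Ω N K : Type u} [LinearOrder K]

private theorem T11_comp {p q : Cond Ω N K} (h : q ≤ p) : Comp p q ∧ Comp q p := by
  constructor
  · intro e v w hv hw
    have := h e v hv
    rw [hw] at this
    exact (Option.some.inj this).symm
  · intro e v w hv hw
    have := h e w hw
    rw [hv] at this
    exact Option.some.inj this

/-- the bit of a value -/
private def T11_bit : Bool ⊕ K → Option Bool
  | Sum.inl b => some b
  | Sum.inr _ => none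

private theorem T11_join [LinearOrder N] {p q : Cond Ω N K} (hcol : q.col ≤ p.col)
    (hbit : ∀ (x : K) (y : Ω × ℕ) (b b' : Bool), p.f (x, Sum.inl y) = some (Sum.inl b) →
      q.f (x, Sum.inl y) = some (Sum.inl b') → b = b') : Comp p q := by
  rintro ⟨x, y | n⟩ v w hv hw
  · have l1 := p.legal _ _ hv
    have l2 := q.legal _ _ hw
    cases l1 with
    | bit _ _ b =>
      cases l2 with
      | bit _ _ b' => rw [hbit x y b b' hv hw]
  · have h1 : p.col.f (x, Sum.inr n) = some v := Cond.cut_eq.2 ⟨rfl, hv⟩
    have h2 := (Cond.cut_eq.1 (hcol _ _ h1)).2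
    rw [hw] at h2
    exact (Option.some.inj h2).symm

theorem few_values [LinearOrder N] [WellFoundedLT N] (hN : 𝔠 < #N) (hN' : ∀ β : N, #(Iio β) ≤ 𝔠)
    {A : Type v} (h : FunName (Cond Ω N K) A N) (i : A) (c : Cond Ω N K) :
    ∃ c' : Cond Ω N K, c'.col ≤ c.col ∧ ∃ Z : Set N, #Z ≤ 𝔠 ∧
      ∀ p : Cond Ω N K, p.col ≤ c'.col → ∃ r ≤ p, ∃ v ∈ Z, h.app i v r := by
  classical
  by_contra hcon
  have star : ∀ c' : Cond Ω N K, c'.col ≤ c.col → ∀ Z : Set N, #Z ≤ 𝔠 →
      ∃ p : Cond Ω N K, p.col ≤ c'.col ∧ ∀ r ≤ p, ∀ v ∈ Z, ¬ h.app i v r := by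
    intro c' hc' Z hZ
    by_contra hp
    refine hcon ⟨c', hc', Z, hZ, fun p hp' => ?_⟩
    by_contra hr
    refine hp ⟨p, hp', fun r hr' v hv ha => hr ⟨r, hr', v, hv, ha⟩⟩
  have hNne : Nonempty N := Cardinal.mk_ne_zero_iff.1 (ne_of_gt (bot_le.trans_lt hN))
  obtain ⟨n₀⟩ := hNne
  have _hne : Nonempty (Cond Ω N K × N) := ⟨(c, n₀)⟩
  obtain ⟨x, hx⟩ := exists_rec (W := N) (X := Cond Ω N K × N)
    (fun β x y => y.1.col ≤ c.col ∧ (∀ γ < β, y.1.col ≤ (x γ).1.col ∧ y.2 ≠ (x γ).2) ∧ h.app i y.2 y.1)
    (by
      rintro β x x' y hxx ⟨h1, h2, h3⟩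
      refine ⟨h1, fun γ hγ => ?_, h3⟩
      rw [← hxx γ hγ]
      exact h2 γ hγ)
    (by
      intro β x hx
      obtain ⟨s, hs⟩ : ∃ s : Option (Iio β) → Cond Ω N K, s = fun o => o.elim c fun γ => (x γ.1).1 := ⟨_, rfl⟩
      have hs0 : s none = c := by rw [hs]; rfl
      have hs1 : ∀ γ : Iio β, s (some γ) = (x γ.1).1 := fun γ => by rw [hs]; rfl
      have hcard : #(Option (Iio β)) ≤ 𝔠 := by
        rw [Cardinal.mk_option]
        calc #(Iio β) + 1 ≤ 𝔠 + 𝔠 :=
              add_le_add (hN' β) (Cardinal.one_le_aleph0.trans Cardinal.aleph0_le_continuum)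
          _ = 𝔠 := Cardinal.continuum_add_self
      have hcomp : ∀ a b, Comp (s a).col (s b).col := by
        rintro (_ | γ) (_ | δ)
        · exact (T11_comp le_rfl).1
        · rw [hs0, hs1]
          exact (T11_comp (hx δ.1 δ.2).1).1
        · rw [hs0, hs1]
          exact (T11_comp (hx γ.1 γ.2).1).2
        · rw [hs1, hs1]
          rcases lt_trichotomy γ.1 δ.1 with hlt | heq | hgt
          · exact (T11_comp ((hx δ.1 δ.2).2.1 γ.1 hlt).1).1
          · rw [heq]
            exact (T11_comp le_rfl).1
          · exact (T11_comp ((hx γ.1 γ.2).2.1 δ.1 hgt).1).2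
      obtain ⟨r, hr⟩ := exists_glue_col hcard s hcomp
      have hrs : ∀ a, r.col ≤ (s a).col := by
        intro a e v he
        exact Cond.cut_eq.2 ⟨(Cond.cut_eq.1 he).1, (hr e v).2 ⟨a, he⟩⟩
      have hrc : r.col ≤ c.col := by
        have := hrs none
        rwa [hs0] at this
      obtain ⟨p, hp1, hp2⟩ := star r hrc (Set.range fun γ : Iio β => (x γ.1).2) (mk_range_le.trans (hN' β))
      obtain ⟨q, hq, b, hb⟩ := h.tot i p
      have hqp : q.col ≤ p.col := Cond.cut_mono hq _
      refine ⟨(q, b), (hqp.trans hp1).trans hrc, fun γ hγ => ⟨?_, ?_⟩, hb⟩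
      · have := hrs (some ⟨γ, hγ⟩)
        rw [hs1] at this
        exact (hqp.trans hp1).trans this
      · intro e
        exact hp2 q hq b ⟨⟨γ, hγ⟩, e.symm⟩ hb)
  obtain ⟨β, γ, hne, hag⟩ := exists_agree (J := N) (E := K × (Ω × ℕ)) hN
    (fun β e => ((x β).1.f (e.1, Sum.inl e.2)).bind T11_bit) (by
      intro β
      refine (x β).1.ctbl.mono ?_
      intro e he h0
      exact he (by simp only [h0]; rfl))
  have key : ∀ β γ : N, β < γ → (∀ (e : K × (Ω × ℕ)) (v w : Bool), (((x β).1.f (e.1, Sum.inl e.2)).bind T11_bit) = some v →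
      (((x γ).1.f (e.1, Sum.inl e.2)).bind T11_bit) = some w → v = w) → False := by
    intro β γ hlt hag
    have h1 := (hx γ).2.1 β hlt
    have hC : Comp (x β).1 (x γ).1 := by
      refine T11_join h1.1 ?_
      intro k y b b' hb hb'
      refine hag (k, y) b b' ?_ ?_
      · simp only [hb]
        rfl
      · simp only [hb']
        rfl
    obtain ⟨r, hr1, hr2, -⟩ := exists_join hC
    have a1 := (h.reg i (x β).2).1 _ _ hr1 (hx β).2.2
    have a2 := (h.reg i (x γ).2).1 _ _ hr2 (hx γ).2.2
    exact h1.2 (h.sv _ _ _ _ a2 a1)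
  rcases lt_or_gt_of_ne hne with hlt | hgt
  · exact key β γ hlt hag
  · exact key γ β hgt fun e v w hv hw => (hag e w v hw hv).symm

end Pool.Agent.CC
end
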