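import Pool.Agent.Lib.MP_27cb06_lc.Mg.G010
import Pool.Agent.Lib.MP_27cb06_lc.Names
import Pool.Agent.Lib.MP_27cb06_lc.Mg.G009
import Pool.Agent.Lib.MP_27cb06_lc.Cond

section

/-!
# TASK T12: `N` is not collapsed

PROOF. Let `h` be a name of a function `Ω → N`, `q ≤ p`. By `exists_rec` (with `W = Ω`,
`X = Cond Ω N K × Set N`) and `few_values` construct `(c i, Z i)`, `i : Ω`, with `(c i).col ≤ q.col`,
`(c i).col ≤ (c j).col` for `j < i`, `#(Z i) ≤ 𝔠`, and for every `p'` with `p'.col ≤ (c i).col` there are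
`r ≤ p'`, `v ∈ Z i` with `h.app i v r` (`Iio i` is countable, so of size `≤ 𝔠`; lower bounds of the
`(c j).col`, `j < i`, and `q.col` by `exists_glue_col`, as in T11). A lower bound `c` of all `(c i).col` and
`q.col` exists by `exists_glue_col` with index type `Option Ω`: `#Ω ≤ 𝔠` because `Ω` is a union of ... (given:
`hΩc`). `Z := ⋃ i, Z i` has size `≤ 𝔠`, so it has a strict upper bound `b : N` (`hN3`). Let `r` have the first
part of `q` and the second part of `c` (`exists_add_col`): `r ≤ q` (`le_add_col`). `r` forces: for all `i`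
there is a `v < b` with `h(i) = v`.
-/

set_option autoImplicit false

namespace Pool.Agent.CC

open Cardinal Set

universe u v w

variable {Ω N K : Type u} [LinearOrder K]

private theorem T12_comp {a b : Cond Ω N K} (h : a ≤ b ∨ b ≤ a) : Comp a b := by
  intro e v w hv hw
  rcases h with h | h
  · have h1 := h e w hw
    rw [hv] at h1
    exact Option.some_injective _ h1
  · have h1 := h e v hv
    rw [hw] at h1
    exact (Option.some_injective _ h1).symm

/-- a lower bound of the second parts of a family -/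
private theorem T12_lower {ι : Type u} (hι : #ι ≤ 𝔠) (c : ι → Cond Ω N K)
    (hc : ∀ i j, (c i).col ≤ (c j).col ∨ (c j).col ≤ (c i).col) :
    ∃ r : Cond Ω N K, ∀ i, r.col ≤ (c i).col := by
  obtain ⟨r, hr⟩ := exists_glue_col hι c fun i j => T12_comp (hc i j)
  refine ⟨r, fun i e v hv => ?_⟩
  exact Cond.cut_eq.2 ⟨(Cond.cut_eq.1 hv).1, (hr e v).2 ⟨i, hv⟩⟩

theorem bounded_N [LinearOrder Ω] [WellFoundedLT Ω] [LinearOrder N] [WellFoundedLT N]
    (hΩ : ∀ i : Ω, (Iio i).Countable) (hΩc : #Ω ≤ 𝔠) (hN : 𝔠 < #N) (hN' : ∀ β : N, #(Iio β) ≤ 𝔠)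
    (hN3 : ∀ A : Set N, #A ≤ 𝔠 → ∃ b, ∀ β ∈ A, β < b) (p : Cond Ω N K) :
    fBounded (Cond Ω N K) Ω N p := by
  intro h q _
  let good : Ω → (Ω → Cond Ω N K × Set N) → Cond Ω N K × Set N → Prop := fun i x y =>
    y.1.col ≤ q.col ∧ (∀ j < i, y.1.col ≤ (x j).1.col) ∧ #y.2 ≤ 𝔠 ∧
      ∀ p' : Cond Ω N K, p'.col ≤ y.1.col → ∃ r ≤ p', ∃ v ∈ y.2, h.app i v r
  have hne : Nonempty (Cond Ω N K × Set N) := ⟨(q, ∅)⟩
  have hloc : ∀ i x x' y, (∀ j < i, x j = x' j) → good i x y → good i x' y := by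
    rintro i x x' y hxx ⟨h1, h2, h3⟩
    refine ⟨h1, fun j hj => ?_, h3⟩
    rw [← hxx j hj]
    exact h2 j hj
  have hok : ∀ i x, (∀ j < i, good j x (x j)) → ∃ y, good i x y := by
    intro i x hx
    have hlow : ∃ r : Cond Ω N K, ∀ k : Option (Iio i),
        r.col ≤ (k.elim q fun j => (x j).1).col := by
      refine T12_lower ?_ (fun k : Option (Iio i) => k.elim q fun j => (x j).1) ?_
      · have : Countable (Iio i) := (hΩ i).to_subtype
        exact mk_le_aleph0.trans aleph0_le_continuum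
      · rintro (_ | k) (_ | j)
        · exact Or.inl le_rfl
        · exact Or.inr (hx j.1 j.2).1
        · exact Or.inl (hx k.1 k.2).1
        · rcases lt_trichotomy k.1 j.1 with hij | hij | hij
          · exact Or.inr ((hx j.1 j.2).2.1 k.1 hij)
          · have : k = j := Subtype.ext hij
            subst this
            exact Or.inl le_rfl
          · exact Or.inl ((hx k.1 k.2).2.1 j.1 hij)
    obtain ⟨c0, hc0⟩ := hlow
    obtain ⟨c', hc', Z, hZ, hfew⟩ := few_values hN hN' h i c0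
    exact ⟨(c', Z), hc'.trans (hc0 none), fun j hj => hc'.trans (hc0 (some ⟨j, hj⟩)), hZ, hfew⟩
  obtain ⟨x, hx⟩ := exists_rec good hloc hok
  have hlow : ∃ r : Cond Ω N K, ∀ i : Option Ω, r.col ≤ (i.elim q fun j => (x j).1).col := by
    refine T12_lower ?_ (fun i : Option Ω => i.elim q fun j => (x j).1) ?_
    · rw [mk_option]
      exact add_le_of_le aleph0_le_continuum hΩc (one_le_aleph0.trans aleph0_le_continuum)
    · rintro (_ | i) (_ | j)
      · exact Or.inl le_rfl
      · exact Or.inr (hx j).1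
      · exact Or.inl (hx i).1
      · rcases lt_trichotomy i j with hij | hij | hij
        · exact Or.inr ((hx j).2.1 i hij)
        · subst hij
          exact Or.inl le_rfl
        · exact Or.inl ((hx i).2.1 j hij)
  obtain ⟨c0, hc0⟩ := hlow
  have hZ : #(⋃ i, (x i).2 : Set N) ≤ 𝔠 := by
    refine mk_iUnion_le_sum_mk.trans ?_
    refine (Cardinal.sum_le_sum _ (fun _ => 𝔠) fun i => (hx i).2.2.1).trans ?_
    rw [Cardinal.sum_const']
    exact (mul_le_mul_left hΩc 𝔠).trans continuum_mul_self.le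
  obtain ⟨b, hb⟩ := hN3 _ hZ
  obtain ⟨r, hr1, hr2⟩ := exists_add_col q c0
  refine ⟨r, Cond.le_add_col hr1.le (hr2.le.trans (hc0 none)), b, ?_⟩
  intro a q' hq'
  have h1 : q'.col ≤ (x a).1.col := (Cond.cut_mono hq' _).trans (hr2.le.trans (hc0 (some a)))
  obtain ⟨r', hr', v, hv, happ⟩ := (hx a).2.2.2 q' h1
  exact ⟨r', hr', ⟨v, hb v (mem_iUnion.2 ⟨a, hv⟩)⟩, happ⟩

end Pool.Agent.CC
end

section

/-!
# TASK T13: stems

PROOF. Say that `g : K → X` is settled if `∃ z, ∀ᶠ x in U, g x = z`.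
(1) if `#X < #K` then `g` is settled: otherwise for every `z : X`, `∀ᶠ x in U, g x ≠ z` (ultrafilter), so by
`complete` almost all `x` have `g x ≠ z` for all `z`, impossible. (2) regressive functions are settled
(`regr`). (3) pairs of settled functions are settled. (4) `g : K → Option X`: either `none` almost always, or
almost always `some (g' x)`; etc.
`stem`: the graph of `(r x).low x` is a set of pairs `(e, v)`, `e : Place Ω N K`, `v : Bool ⊕ K`, of size `≤ 𝔠`
(`ctbl`, `small`), with `e.1 < x`, and if `v = inr w` then `w ≤ e.1 < x` (`legal`). So there is an enumeration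
`t x : (ℕ → Bool) → Option (Place Ω N K × (Bool ⊕ K))` with: `(e, v)` is in the graph of `(r x).low x` iff
`t x a = some (e, v)` for some `a`. For each `a` the function `x ↦ t x a` is settled: the component `e.1` is
regressive, `e.2 : (Ω × ℕ) ⊕ N` is in a type of size `< #K`, `v` is a bit or a regressive `w`. By `complete`
(`#(ULift (ℕ → Bool)) = 𝔠 < #K`) there is one function `t₀` with `∀ᶠ x in U, ∀ a, t x a = t₀ a`. So
`(r x).low x` is the same condition for almost all `x` (`Cond.ext`, or `le_antisymm`).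
`below`: all places of `p` are below `y` for almost all `y`: the set of the first coordinates of the
places of `p` has size `≤ 𝔠 < #K` (`ctbl`, `small`); `nonpr` and `complete` (index type that set).
-/

set_option autoImplicit false

namespace Pool.Agent.CC

open Cardinal Set

universe u v w

variable {Ω N K : Type u} [LinearOrder K]

private theorem T13_settled [LinearOrder Ω] [LinearOrder N] {U : Ultrafilter K}
    (h : Setup Ω N K U) {X : Type u} (hX : #X < #K) (g : K → X) :
    ∃ z, ∀ᶠ x in (U : Filter K), g x = z := by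
  by_contra hcon
  have h1 : ∀ z, ∀ᶠ x in (U : Filter K), g x ≠ z := by
    intro z
    exact Ultrafilter.eventually_not.2 fun h2 => hcon ⟨z, h2⟩
  obtain ⟨x, hx⟩ := (h.complete X (fun z x => g x ≠ z) hX h1).exists
  exact hx (g x) rfl

private theorem T13_opt [LinearOrder Ω] [LinearOrder N] {U : Ultrafilter K}
    (h : Setup Ω N K U) (G : K → Option K)
    (hG : ∀ x w, G x = some w → w < x) : ∃ z, ∀ᶠ x in (U : Filter K), G x = z := by
  by_cases hn : ∀ᶠ x in (U : Filter K), G x = none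
  · exact ⟨none, hn⟩
  · have hn' := Ultrafilter.eventually_not.2 hn
    have h1 : ∀ᶠ x in (U : Filter K), (G x).getD x < x := by
      filter_upwards [hn'] with x hx
      obtain ⟨w, hw⟩ := Option.ne_none_iff_exists'.1 hx
      rw [hw]
      exact hG x w hw
    obtain ⟨z, hz⟩ := h.regr _ h1
    refine ⟨some z, ?_⟩
    filter_upwards [hn', hz] with x hx hx'
    obtain ⟨w, hw⟩ := Option.ne_none_iff_exists'.1 hx
    rw [hw] at hx' ⊢
    rw [← hx']
    rfl

private theorem T13_card (p : Cond Ω N K) : #{e : Place Ω N K | p.f e ≠ none} ≤ 𝔠 := by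
  have h1 : {e : Place Ω N K | p.f e ≠ none} ⊆
      (fun e : K × (Ω × ℕ) => ((e.1, Sum.inl e.2) : Place Ω N K)) ''
        {e : K × (Ω × ℕ) | p.f (e.1, Sum.inl e.2) ≠ none} ∪
      (fun e : K × N => ((e.1, Sum.inr e.2) : Place Ω N K)) ''
        {e : K × N | p.f (e.1, Sum.inr e.2) ≠ none} := by
    rintro ⟨x, y | y⟩ he
    · exact Or.inl ⟨(x, y), he, rfl⟩
    · exact Or.inr ⟨(x, y), he, rfl⟩
  refine (mk_le_mk_of_subset h1).trans ((mk_union_le _ _).trans ?_)
  have h2 : #((fun e : K × (Ω × ℕ) => ((e.1, Sum.inl e.2) : Place Ω N K)) ''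
        {e : K × (Ω × ℕ) | p.f (e.1, Sum.inl e.2) ≠ none}) ≤ 𝔠 :=
    ((p.ctbl.image _).le_aleph0).trans aleph0_le_continuum
  have h3 : #((fun e : K × N => ((e.1, Sum.inr e.2) : Place Ω N K)) ''
        {e : K × N | p.f (e.1, Sum.inr e.2) ≠ none}) ≤ 𝔠 :=
    mk_image_le.trans p.small
  calc _ ≤ 𝔠 + 𝔠 := add_le_add h2 h3
    _ = 𝔠 := continuum_add_self

private theorem T13_enum {α : Type u} (Γ : Set α) (hΓ : #Γ ≤ 𝔠) :
    ∃ t : ULift.{u} (ℕ → Bool) → Option α, ∀ z, z ∈ Γ ↔ ∃ a, t a = some z := by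
  classical
  have hJ : #(ULift.{u} (ℕ → Bool)) = 𝔠 := by simp
  rw [← hJ] at hΓ
  obtain ⟨f⟩ := hΓ
  refine ⟨fun a => if h : ∃ z : Γ, f z = a then some h.choose.1 else none, fun z => ?_⟩
  constructor
  · intro hz
    refine ⟨f ⟨z, hz⟩, ?_⟩
    have h : ∃ z' : Γ, f z' = f ⟨z, hz⟩ := ⟨_, rfl⟩
    beta_reduce
    rw [dif_pos h]
    have := f.injective h.choose_spec
    rw [this]
  · rintro ⟨a, ha⟩
    beta_reduce at ha
    split_ifs at ha with h
    rw [← Option.some_injective _ ha]
    exact h.choose.2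

theorem stem [LinearOrder Ω] [LinearOrder N] {U : Ultrafilter K} (h : Setup Ω N K U)
    (r : K → Cond Ω N K) : ∃ s : Cond Ω N K, ∀ᶠ x in (U : Filter K), (r x).low x = s := by
  have hcont : (𝔠 : Cardinal.{u}) < #K := h.cardN.trans h.cardK
  have hinf : ℵ₀ ≤ #K := aleph0_le_continuum.trans hcont.le
  have hΓ : ∀ x, #{z : Place Ω N K × (Bool ⊕ K) | ((r x).low x).f z.1 = some z.2} ≤ 𝔠 := by
    intro x
    refine le_trans ?_ (T13_card ((r x).low x))
    refine mk_le_of_injective (f := fun z => ⟨z.1.1, ?_⟩) ?_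
    · have := z.2
      simp only [mem_ofPred_eq] at this ⊢
      rw [this]
      simp
    · rintro ⟨⟨e, v⟩, hz⟩ ⟨⟨e', v'⟩, hz'⟩ heq
      simp only [mem_ofPred_eq] at hz hz'
      have h1 : e = e' := by simpa using heq
      subst h1
      rw [hz] at hz'
      have h2 : v = v' := Option.some_injective _ hz'
      subst h2
      rfl
  choose t ht using fun x => T13_enum _ (hΓ x)
  have hlt : ∀ x a e v, t x a = some (e, v) → e.1 < x ∧ ∀ w, v = Sum.inr w → w < x := by
    intro x a e v hta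
    have h1 : ((r x).low x).f e = some v := (ht x (e, v)).2 ⟨a, hta⟩
    have h2 := (Cond.low_eq.1 h1).1
    refine ⟨h2, ?_⟩
    rintro w rfl
    have h3 := ((r x).low x).legal _ _ h1
    cases h3 with
    | val k y w hw => exact lt_of_le_of_lt hw h2
  have hset : ∀ a, ∃ z, ∀ᶠ x in (U : Filter K), t x a = z := by
    intro a
    obtain ⟨z1, hz1⟩ := T13_opt h (fun x => (t x a).map (fun ev => ev.1.1)) (by
      intro x w hw
      obtain ⟨⟨e, v⟩, h1, h2⟩ := Option.map_eq_some_iff.1 hw
      rw [← h2]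
      exact (hlt x a e v h1).1)
    obtain ⟨z4, hz4⟩ := T13_opt h
      (fun x => (t x a).bind (fun ev => ev.2.elim (fun _ => none) some)) (by
      intro x w hw
      obtain ⟨⟨e, v⟩, h1, h2⟩ := Option.bind_eq_some_iff.1 hw
      rcases v with v | v
      · simp at h2
      · exact (hlt x a e _ h1).2 w (by simpa using h2))
    have hc2 : #(Option ((Ω × ℕ) ⊕ N)) < #K := by
      rw [mk_option, mk_sum, mk_prod]
      simp only [lift_id, lift_uzero, mk_nat, lift_aleph0]
      refine add_lt_of_lt hinf (add_lt_of_lt hinf (mul_lt_of_lt hinf ?_ ?_) h.cardK) ?_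
      · exact h.cardΩ.trans_lt hcont
      · exact aleph0_lt_continuum.trans hcont
      · exact one_lt_aleph0.trans_le hinf
    obtain ⟨z2, hz2⟩ := T13_settled h hc2 (fun x => (t x a).map (fun ev => ev.1.2))
    have hc3 : #(ULift.{u} (Option (Option Bool))) < #K :=
      (mk_lt_aleph0 (α := ULift.{u} (Option (Option Bool)))).trans_le hinf
    obtain ⟨z3, hz3⟩ := T13_settled h hc3 (fun x => ULift.up ((t x a).map (fun ev =>
      ev.2.elim some (fun _ => none))))
    have hall := ((hz1.and hz2).and (hz3.and hz4))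
    obtain ⟨x0, ⟨h01, h02⟩, h03, h04⟩ := hall.exists
    refine ⟨t x0 a, ?_⟩
    filter_upwards [hall] with x hx
    obtain ⟨⟨h1, h2⟩, h3, h4⟩ := hx
    have e1 := h1.trans h01.symm
    have e2 := h2.trans h02.symm
    have e3 := congrArg ULift.down (h3.trans h03.symm)
    have e4 := h4.trans h04.symm
    clear h1 h2 h3 h4 h01 h02 h03 h04
    rcases hA : t x a with _ | ⟨⟨k, y⟩, v⟩ <;> rcases hB : t x0 a with _ | ⟨⟨k', y'⟩, v'⟩
    · rfl
    · rw [hA, hB] at e1
      simp at e1
    · rw [hA, hB] at e1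
      simp at e1
    · rw [hA, hB] at e1 e2 e3 e4
      simp only [Option.map_some, Option.some.injEq] at e1 e2 e3
      subst e1
      subst e2
      rcases v with v | v <;> rcases v' with v' | v' <;> simp_all
  choose t0 ht0 using hset
  have hJ : #(ULift.{u} (ℕ → Bool)) < #K := by
    have : #(ULift.{u} (ℕ → Bool)) = 𝔠 := by simp
    rw [this]
    exact hcont
  have hall := h.complete _ (fun a x => t x a = t0 a) hJ ht0
  obtain ⟨x0, hx0⟩ := hall.exists
  refine ⟨(r x0).low x0, ?_⟩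
  filter_upwards [hall] with x hx
  have hle : ∀ x x' : K, (∀ a, t x a = t0 a) → (∀ a, t x' a = t0 a) →
      (r x).low x ≤ (r x').low x' := by
    intro x x' hx hx' e v hev
    obtain ⟨a, ha⟩ := (ht x' (e, v)).1 hev
    exact (ht x (e, v)).2 ⟨a, by rw [hx, ← hx', ha]⟩
  exact le_antisymm (hle x x0 hx hx0) (hle x0 x hx0 hx)

theorem eventually_below [LinearOrder Ω] [LinearOrder N] {U : Ultrafilter K} (h : Setup Ω N K U)
    (p : Cond Ω N K) : ∀ᶠ x in (U : Filter K), Below p x := by
  have hcont : (𝔠 : Cardinal.{u}) < #K := h.cardN.trans h.cardK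
  have h1 := h.complete {e : Place Ω N K | p.f e ≠ none} (fun e x => e.1.1 < x)
    ((T13_card p).trans_lt hcont) (fun e => h.nonpr e.1.1)
  filter_upwards [h1] with x hx e he
  exact hx ⟨e, he⟩

end Pool.Agent.CC
end

section

/-!
# TASK T14: `K` is not collapsed

PROOF.
`comp_of_stem`: at a place `e` with `p.f e = some v`, `q.f e = some w`: `e.1 < y` by `Below p y`, so
`(q.low y).f e = some w`, hence `(p.low x).f e = some w` by `h`, so `p.f e = some w`.
`bounded_K`: let `h'` be a name of a function `N → K`, `q ≤ p`. Claim: for every `β : N` there is a `b` such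
that for every `r ≤ q` there are `r' ≤ r`, `v < b` with `h'.app β v r'`. Suppose not: for every `b` there is an
`r_b ≤ q` such that `h'.app β v r'` fails for all `r' ≤ r_b`, `v < b`; extend it by `h'.tot` to `t_b ≤ r_b`
with `h'.app β (v b) t_b`; so `b ≤ v b`. By `stem` there is `s` with `(t_b).low b = s` for almost all `b`. Take
such a `b`, and then such a `b'` with `Below t_b b'` (`eventually_below`) and `v b < b'` (`nonpr`). By
`comp_of_stem` `t_b` and `t_b'` are compatible; a common extension (`exists_join`) forces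
`h'(β) = v b` and `h'(β) = v b'`, so `v b = v b' ≥ b' > v b`, contradiction.
Choose `b β` for every `β`. By `nonpr` and `complete` (`#N < #K`) some `b` is above all `b β`. Then `q` forces:
for all `β` there is a `v < b` with `h'(β) = v`.
-/

set_option autoImplicit false

namespace Pool.Agent.CC

open Cardinal Set

universe u v w

variable {Ω N K : Type u} [LinearOrder K]

theorem comp_of_stem {p q : Cond Ω N K} {x y : K} (h : p.low x = q.low y) (hp : Below p y) :
    Comp p q := by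
  intro e v w hv hw
  have he : e.1 < y := hp e (by simp [hv])
  have h1 : (q.low y).f e = some w := Cond.low_eq.2 ⟨he, hw⟩
  rw [← h] at h1
  have h2 := (Cond.low_eq.1 h1).2
  rw [hv] at h2
  exact Option.some.inj h2

theorem bounded_K [LinearOrder Ω] [LinearOrder N] {U : Ultrafilter K} (h : Setup Ω N K U)
    (p : Cond Ω N K) : fBounded (Cond Ω N K) N K p := by
  intro h' q _
  have claim : ∀ β : N, ∃ b : K, ∀ r ≤ q, ∃ r' ≤ r, ∃ v < b, h'.app β v r' := by
    intro β
    by_contra hcon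
    push Not at hcon
    choose r _ hr using hcon
    choose t ht v hv using fun b => h'.tot β (r b)
    have hbv : ∀ b, b ≤ v b := fun b => not_lt.1 fun hlt => hr b (t b) (ht b) (v b) hlt (hv b)
    obtain ⟨s, hs⟩ := stem h t
    obtain ⟨b, hb⟩ := hs.exists
    obtain ⟨b', hb'1, hb'2, hb'3⟩ := (hs.and ((eventually_below h (t b)).and (h.nonpr (v b)))).exists
    obtain ⟨r0, h1, h2, _⟩ := exists_join (comp_of_stem (hb.trans hb'1.symm) hb'2)
    have e1 : h'.app β (v b) r0 := (h'.reg β (v b)).1 _ _ h1 (hv b)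
    have e2 : h'.app β (v b') r0 := (h'.reg β (v b')).1 _ _ h2 (hv b')
    have e3 := h'.sv β _ _ _ e1 e2
    have e4 := hbv b'
    rw [← e3] at e4
    exact absurd (hb'3.trans_le e4) (lt_irrefl _)
  choose b hb using claim
  obtain ⟨c, hc⟩ := (h.complete N (fun β y => b β < y) h.cardK (fun β => h.nonpr (b β))).exists
  refine ⟨q, le_rfl, c, fun a q' hq' => ?_⟩
  obtain ⟨r', hr', v, hv, happ⟩ := hb a q' hq'
  exact ⟨r', hr', ⟨v, hv.trans (hc a)⟩, happ⟩

end Pool.Agent.CC
end

section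

/-!
# TASK T15: the principle, clauses 0, 1, 2

PROOF.
`clause0`: `i = (univ, fun _ => Cond.empty)`: the part of the empty condition below `x` is the empty
condition `s`, and `q ≤ s` for all `q` (`In.of_le`).
`clause1`: let `DMem U i p` hold with `s`, `a : K`, `q ≤ p`. As `In s q` there is a `q' ≤ q` with `q' ≤ s`.
Almost all `x` satisfy `x ∈ i.1`, `a < x`, `Below q' x`; take one. `q'` and `i.2 x` agree on common places:
such a place `e` has `e.1 < x`, so `(i.2 x).f e = ((i.2 x).low x).f e = s.f e` and `q' ≤ s`. Their union `r`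
(`exists_join`) is below `q` and `BMem (i, x) r`.
`clause2`: let `DMem U i p` hold with `s`, `h'` a name of a function `K → N`, `q ≤ p`. As above `q' ≤ q`,
`q' ≤ s`. For each `x` such that `x ∈ i.1` and `Below q' x` choose a common extension of `q'` and `i.2 x` and
then (`h'.tot`) an extension `f x` of it and `v x` with `h'.app x (v x) (f x)`; for the other `x` let `f x`,
`v x` be arbitrary (`N` is nonempty: `h'.tot`). `v` is constant, `= v₀`, on a set in `U` (if not, for every
`v : N` almost all `x` have `v x ≠ v`; `complete` with `#N < #K`). By `stem` there is `s'` with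
`(f x).low x = s'` for almost all `x`. Let `A` be the set of the `x ∈ i.1` with `Below q' x`, `v x = v₀`,
`(f x).low x = s'`: `A ∈ U`. `j := (A, f)`. `s' ≤ q'` (`Cond.low_le_of_below`, `A` is nonempty), so `r := s'`
is below `q`; `DMem U j r`; `(j, i) ∈ RSet`; and `r` forces `(j, x) ∈ B → h'(x) = v₀`: if `BMem (j, x) r'`
then `x ∈ A` and densely below `r'` there are conditions `≤ f x`, at which `h'.app x v₀`; `(h'.reg _ _).2`.
-/

set_option autoImplicit false

namespace Pool.Agent.CC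

open Cardinal Set

universe u v w

variable {Ω N K : Type u} [LinearOrder K]

theorem clause0 (U : Ultrafilter K) (p : Cond Ω N K) : fEx (fun i => (DName U).mem i) p := by
  intro q _
  refine ⟨q, le_rfl, (univ, fun _ => Cond.empty), Filter.univ_mem, Cond.empty, ?_, In.of_le ?_⟩
  · intro x _
    apply le_antisymm
    · intro e v h
      simp [Cond.empty] at h
    · exact Cond.le_low _ _
  · intro e v h
    simp [Cond.empty] at h

private theorem T15_comp {i : Idx Ω N K} {q' s : Cond Ω N K} {x : K} (hx : (i.2 x).low x = s)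
    (hq : q' ≤ s) (hb : Below q' x) : Comp q' (i.2 x) := by
  intro e v w hv hw
  have h1 : e.1 < x := hb e (by rw [hv]; simp)
  have h2 : s.f e = some w := by rw [← hx]; exact Cond.low_eq.2 ⟨h1, hw⟩
  have h3 := hq e w h2
  rw [hv] at h3
  exact Option.some_injective _ h3

theorem clause1 [LinearOrder Ω] [LinearOrder N] {U : Ultrafilter K} (h : Setup Ω N K U)
    (p : Cond Ω N K) :
    fAll (fun i => fImp ((DName U).mem i) (fAll fun a : K => fEx fun x : Ioi a =>
      (BName Ω N K).mem (i, (x : K)))) p := by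
  intro i p1 _ hi a q hq
  obtain ⟨hiU, s, hs, hIn⟩ := hi
  obtain ⟨q', hq', hq's⟩ := hIn q hq
  have hev : ∀ᶠ x in (U : Filter K), x ∈ i.1 ∧ a < x ∧ Below q' x := by
    filter_upwards [hiU, h.nonpr a, eventually_below h q'] with x h1 h2 h3
    exact ⟨h1, h2, h3⟩
  obtain ⟨x, hx1, hx2, hx3⟩ := hev.exists
  obtain ⟨r, hr1, hr2, _⟩ := exists_join (T15_comp (hs x hx1) hq's hx3)
  exact ⟨r, hr1.trans hq', ⟨x, hx2⟩, hx1, In.of_le hr2⟩

theorem clause2 [LinearOrder Ω] [LinearOrder N] {U : Ultrafilter K} (h : Setup Ω N K U)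
    (p : Cond Ω N K) :
    fAll (fun i => fImp ((DName U).mem i) (fAll fun h' : FunName (Cond Ω N K) K N => fEx fun j =>
      fAnd ((DName U).mem j) (fAnd ((RName Ω N K).mem (j, i)) (fEx fun v : N => fAll fun x =>
        fImp ((BName Ω N K).mem (j, x)) (h'.app x v))))) p := by
  intro i p1 _ hi h' q hq
  obtain ⟨hiU, s, hs, hIn⟩ := hi
  obtain ⟨q', hq', hq's⟩ := hIn q hq
  have hch : ∀ x : K, ∃ (fx : Cond Ω N K) (vx : N), x ∈ i.1 ∧ Below q' x →
      fx ≤ q' ∧ fx ≤ i.2 x ∧ h'.app x vx fx := by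
    intro x
    by_cases hx : x ∈ i.1 ∧ Below q' x
    · obtain ⟨r, hr1, hr2, _⟩ := exists_join (T15_comp (hs x hx.1) hq's hx.2)
      obtain ⟨r', hr', v, hv⟩ := h'.tot x r
      exact ⟨r', v, fun _ => ⟨hr'.trans hr1, hr'.trans hr2, hv⟩⟩
    · obtain ⟨r', _, v, _⟩ := h'.tot x q'
      exact ⟨r', v, fun hx' => absurd hx' hx⟩
  choose f v hfv using hch
  have hv0 : ∃ v0, ∀ᶠ x in (U : Filter K), v x = v0 := by
    by_contra hcon
    have h1 : ∀ v0, ∀ᶠ x in (U : Filter K), v x ≠ v0 := by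
      intro v0
      exact Ultrafilter.eventually_not.2 fun h2 => hcon ⟨v0, h2⟩
    obtain ⟨x, hx⟩ := (h.complete N (fun v0 x => v x ≠ v0) h.cardK h1).exists
    exact hx (v x) rfl
  obtain ⟨v0, hv0⟩ := hv0
  obtain ⟨s', hs'⟩ := stem h f
  have hA : {x | x ∈ i.1 ∧ Below q' x ∧ v x = v0 ∧ (f x).low x = s'} ∈ U := by
    have : ∀ᶠ x in (U : Filter K), x ∈ i.1 ∧ Below q' x ∧ v x = v0 ∧ (f x).low x = s' := by
      filter_upwards [hiU, eventually_below h q', hv0, hs'] with x h1 h2 h3 h4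
      exact ⟨h1, h2, h3, h4⟩
    exact this
  obtain ⟨x1, hx1⟩ := U.nonempty_of_mem hA
  have hs'q' : s' ≤ q' := by
    rw [← hx1.2.2.2]
    exact Cond.low_le_of_below (hfv x1 ⟨hx1.1, hx1.2.1⟩).1 hx1.2.1
  refine ⟨s', hs'q'.trans hq', (_, f), ⟨hA, s', fun x hx => hx.2.2.2, In.of_le le_rfl⟩,
    ⟨fun x hx => hx.1, fun x hx => (hfv x ⟨hx.1, hx.2.1⟩).2.1⟩, ?_⟩
  intro t _
  refine ⟨t, le_rfl, v0, ?_⟩
  intro x r' _ hB
  obtain ⟨hxA, hIn'⟩ := hB
  refine (h'.reg x v0).2 r' fun q1 hq1 => ?_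
  obtain ⟨r2, hr2, hr2'⟩ := hIn' q1 hq1
  refine ⟨r2, hr2, ?_⟩
  have h5 := (hfv x ⟨hxA.1, hxA.2.1⟩).2.2
  have h6 : v x = v0 := hxA.2.2.1
  rw [h6] at h5
  exact (h'.reg x v0).1 _ _ hr2' h5

end Pool.Agent.CC
end

section

/-!
# TASK T16: the principle, clauses 3 and 4

PROOF.
`clause3`: `(j, i) ∈ RSet`, `BMem (j, x) q`: `x ∈ j.1 ⊆ i.1` and `j.2 x ≤ i.2 x`, `In.mono`.
`clause4`: let `e` be a name of a function `ℕ → Idx`, and let the two hypotheses hold at `p₂ ≤ p₁ ≤ p`; let
`q ≤ p₂`. By `decide_seq` there are `q' ≤ q` and `g : ℕ → Idx` with `e.app n (g n) q'` for all `n`. So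
`DMem U (g n) q'` with stems `s n`, and `(g (n + 1), g n) ∈ RSet`. Let `A := ⋂ n, (g n).1`: in `U` by
`complete` (index type `ULift ℕ`, `ℵ₀ < #K`). For `x ∈ A` the sequence `(g n).2 x` is descending; let `f x` be
its greatest lower bound (`exists_glue_seq`); for `x ∉ A` let `f x` be arbitrary. For `x ∈ A`:
`((f x).low x).f e = some v ↔ ∃ n, (s n).f e = some v` (as `((g n).2 x).low x = s n`), so `(f x).low x` is the
same condition `s'` for all `x ∈ A` (`A` is nonempty, being in `U`). Let `j := (A, f)`. For all `n`,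
`(j, g n) ∈ RSet`. There is an `r ≤ q'` with `r ≤ s'`: by `In (s n) q'` (persistent) construct
`q' ≥ r 0 ≥ r 1 ≥ ...` with `r n ≤ s n` and take the lower bound (`exists_glue_seq`). So `DMem U j r`, and `r`
forces `e(n) = i → (j, i) ∈ R`: if `e.app n i r'`, `r' ≤ r`, then `i = g n` by `e.sv` and persistence.
-/

set_option autoImplicit false

namespace Pool.Agent.CC

open Cardinal Set

universe u v w

variable {Ω N K : Type u} [LinearOrder K]

theorem clause3 (U : Ultrafilter K) (p : Cond Ω N K) :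
    fAll (fun i => fAll fun j => fImp ((DName U).mem i) (fImp ((DName U).mem j)
      (fImp ((RName Ω N K).mem (j, i)) (fAll fun x => fImp ((BName Ω N K).mem (j, x))
        ((BName Ω N K).mem (i, x)))))) p := by
  intro i j _ _ _ _ _ _ _ _ hR x q _ hB
  exact ⟨hR.1 hB.1, hB.2.mono le_rfl (hR.2 x hB.1)⟩

private theorem T16_le {s : ℕ → Cond Ω N K} {q : Cond Ω N K}
    (hIn : ∀ n, In (s n) q) : ∃ r : ℕ → Cond Ω N K, r 0 ≤ q ∧ (∀ n, r (n + 1) ≤ r n) ∧
      ∀ n, r n ≤ s n := by
  have hstep : ∀ (n : ℕ) (t : Cond Ω N K), t ≤ q → ∃ t', t' ≤ t ∧ t' ≤ s n := by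
    intro n t ht
    obtain ⟨t', h1, h2⟩ := hIn n t ht
    exact ⟨t', h1, h2⟩
  choose g hg1 hg2 using hstep
  let r : ℕ → {t : Cond Ω N K // t ≤ q} := fun n => Nat.rec ⟨g 0 q le_rfl, hg1 0 q le_rfl⟩
    (fun n t => ⟨g (n + 1) t.1 t.2, (hg1 (n + 1) t.1 t.2).trans t.2⟩) n
  refine ⟨fun n => (r n).1, (r 0).2, fun n => hg1 (n + 1) (r n).1 (r n).2, fun n => ?_⟩
  cases n with
  | zero => exact hg2 0 q le_rfl
  | succ n => exact hg2 (n + 1) (r n).1 (r n).2

theorem clause4 [LinearOrder Ω] [LinearOrder N] {U : Ultrafilter K} (h : Setup Ω N K U)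
    (p : Cond Ω N K) :
    fAll (fun e : FunName (Cond Ω N K) ℕ (Idx Ω N K) =>
      fImp (fAll fun n => fAll fun i => fImp (e.app n i) ((DName U).mem i)) <|
      fImp (fAll fun n => fAll fun i => fAll fun j =>
        fImp (e.app n i) (fImp (e.app (n + 1) j) ((RName Ω N K).mem (j, i)))) <|
      fEx fun j => fAnd ((DName U).mem j) (fAll fun n => fAll fun i =>
        fImp (e.app n i) ((RName Ω N K).mem (j, i)))) p := by
  intro e p1 _ hD p2 hp2 hR q hq
  obtain ⟨q', hq', g, hg⟩ := decide_seq e q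
  have hDg : ∀ n, DMem U (g n) q' := fun n => hD n (g n) q' (hq'.trans (hq.trans hp2)) (hg n)
  have hRg : ∀ n, (g (n + 1), g n) ∈ RSet Ω N K := fun n =>
    hR n (g n) (g (n + 1)) q' (hq'.trans hq) (hg n) q' le_rfl (hg (n + 1))
  choose hgU s hs hIn using hDg
  have hA : (⋂ n, (g n).1) ∈ U := by
    have h0 : #(ULift.{u} ℕ) < #K := by
      have h1 : (ℵ₀ : Cardinal.{u}) < #N := aleph0_lt_continuum.trans h.cardN
      simpa using h1.trans h.cardK
    have h2 := h.complete (ULift.{u} ℕ) (fun n x => x ∈ (g n.down).1) h0 fun n => hgU n.down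
    have h3 : ∀ᶠ y in (U : Filter K), y ∈ ⋂ n, (g n).1 := by
      filter_upwards [h2] with y hy
      exact mem_iInter.2 fun n => hy ⟨n⟩
    exact h3
  obtain ⟨x0, hx0⟩ := U.nonempty_of_mem hA
  have hdesc : ∀ x ∈ ⋂ n, (g n).1, ∀ n, (g (n + 1)).2 x ≤ (g n).2 x := fun x hx n =>
    (hRg n).2 x (mem_iInter.1 hx (n + 1))
  have hf : ∀ x : K, ∃ r : Cond Ω N K, x ∈ ⋂ n, (g n).1 → (∀ n, r ≤ (g n).2 x) ∧
      ∀ e v, r.f e = some v ↔ ∃ n, ((g n).2 x).f e = some v := by
    intro x
    by_cases hx : x ∈ ⋂ n, (g n).1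
    · obtain ⟨r, hr⟩ := exists_glue_seq (fun n => (g n).2 x) (hdesc x hx)
      exact ⟨r, fun _ => hr⟩
    · exact ⟨Cond.empty, fun hx' => absurd hx' hx⟩
  choose f hf using hf
  have hlow : ∀ x ∈ ⋂ n, (g n).1, ∀ e v, ((f x).low x).f e = some v ↔
      ∃ n, (s n).f e = some v := by
    intro x hx e v
    rw [Cond.low_eq, (hf x hx).2]
    constructor
    · rintro ⟨h1, n, h2⟩
      exact ⟨n, by rw [← hs n x (mem_iInter.1 hx n)]; exact Cond.low_eq.2 ⟨h1, h2⟩⟩
    · rintro ⟨n, h1⟩
      rw [← hs n x (mem_iInter.1 hx n)] at h1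
      obtain ⟨h2, h3⟩ := Cond.low_eq.1 h1
      exact ⟨h2, n, h3⟩
  have hsame : ∀ x ∈ ⋂ n, (g n).1, (f x).low x = (f x0).low x0 := by
    intro x hx
    apply le_antisymm
    · intro e v he
      exact (hlow x hx e v).2 ((hlow x0 hx0 e v).1 he)
    · intro e v he
      exact (hlow x0 hx0 e v).2 ((hlow x hx e v).1 he)
  obtain ⟨r, hr0, hrd, hrs⟩ := T16_le hIn
  obtain ⟨r', hr', _⟩ := exists_glue_seq r hrd
  have hr's' : r' ≤ (f x0).low x0 := by
    intro e v he
    obtain ⟨n, hn⟩ := (hlow x0 hx0 e v).1 he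
    exact (hr' n).trans (hrs n) e v hn
  have hr'q' : r' ≤ q' := (hr' 0).trans hr0
  refine ⟨r', hr'q'.trans hq', (⋂ n, (g n).1, f), ⟨hA, _, hsame, In.of_le hr's'⟩, ?_⟩
  intro n i t ht hi
  have : i = g n := e.sv n i (g n) t hi ((e.reg n (g n)).1 _ _ (ht.trans hr'q') (hg n))
  subst this
  exact ⟨fun x hx => mem_iInter.1 hx n, fun x hx => (hf x hx).1 n⟩

end Pool.Agent.CC
end

section

/-!
# The forced statement
-/

set_option autoImplicit false

namespace Pool.Agent.CC

open Cardinal Set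

universe u v w

variable {Ω N K : Type u} [LinearOrder K]

theorem principle_forced [LinearOrder Ω] [LinearOrder N] {U : Ultrafilter K} (h : Setup Ω N K U)
    (p : Cond Ω N K) : fPrinciple N K (Cond Ω N K) p :=
  fun q _ => ⟨q, le_rfl, Idx Ω N K, fun q1 _ => ⟨q1, le_rfl, DName U, fun q2 _ => ⟨q2, le_rfl,
    RName Ω N K, fun q3 _ => ⟨q3, le_rfl, BName Ω N K, clause0 U q3, clause1 h q3, clause2 h q3,
      clause3 U q3, clause4 h q3⟩⟩⟩⟩

theorem model_forced [LinearOrder Ω] [WellFoundedLT Ω] [LinearOrder N] [WellFoundedLT N]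
    {U : Ultrafilter K} (h : Setup Ω N K U) (p : Cond Ω N K) :
    fModel Ω N K (Cond Ω N K) p := by
  have hK : Nonempty K := by
    rw [← mk_ne_zero_iff]
    exact (bot_le.trans_lt h.cardK).ne'
  exact ⟨bounded_nat h.bddΩ p,
    ⟨collapsed_N h.bddΩ h.smallN p, bounded_N h.ctblΩ h.cardΩ h.cardN h.smallN h.bddN p⟩,
    ⟨collapsed_K h.cardN p, bounded_K h p⟩, allSubsets h.bddΩ p, manySubsets h.bddΩ p,
    principle_forced h p⟩

end Pool.Agent.CC
end

section

/-!
# TASK T18: from a measurable cardinal to the setup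

PROOF. `Ω = ω₁`, `N = (2 ^ ω)⁺`, `K = κ`. `cardΩ`: `ℵ₁ ≤ 𝔠`. `ctblΩ`: `mk_Iio_lt`-type lemma: initial segments of
`c.ord.ToType` have size `< c`. `bddΩ`, `bddN`: `ℵ₁` and `succ 𝔠` are regular. `cardK`: `κ` is a strong limit.
The normal ultrafilter and the strong limit property: `exists_normal`, `strong_limit` in
`Pool/Agent/Lib/MP_121b2e_lc/QG/Exists.lean` of the graded repository `/workdir/pool/outputs/live` (this
file does not import them: COPY the proofs of `small_notMem`, `strong_limit`, `final_mem`, `exists_normal` with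
the prefix `T18_`). `regr` from normality: if no `x` has `∀ᶠ y in U, g y = x` then for all `x`,
`∀ᶠ y, g y ≠ x`; by normality for almost all `y`, `g y ≠ x` for all `x < y`; take `x = g y`.
-/

set_option autoImplicit false

namespace Pool.Agent.CC

open Cardinal Set

universe u v w

section

open Filter

variable {κ : Cardinal.{u}}

/-- small sets are not in a `κ`-complete nonprincipal ultrafilter -/
theorem T18_small_notMem (U : Ultrafilter κ.ord.ToType)
    (hU : CardinalInterFilter (U : Filter κ.ord.ToType) κ) (hne : ∀ a, {a} ∉ U)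
    (A : Set κ.ord.ToType) (hA : #A < κ) : A ∉ U := by
  intro h
  have h1 : (⋂ i, ⋂ (_ : i ∈ A), ({i}ᶜ : Set κ.ord.ToType)) ∈ (U : Filter κ.ord.ToType) :=
    (cardinal_bInter_mem hA).2 fun i _ => Ultrafilter.compl_mem_iff_notMem.2 (hne i)
  obtain ⟨x, hx1, hx2⟩ := Filter.nonempty_of_mem (inter_mem h1 h)
  rw [mem_iInter₂] at hx1
  exact hx1 x hx2 rfl

/-- a measurable cardinal is a strong limit -/
theorem T18_strong_limit (hκ : ℵ₀ < κ) (U : Ultrafilter κ.ord.ToType)
    (hU : CardinalInterFilter (U : Filter κ.ord.ToType) κ) (hne : ∀ a, {a} ∉ U)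
    (c : Cardinal.{u}) (hc : c < κ) : 2 ^ c < κ := by
  by_contra hk
  push Not at hk
  induction c using Cardinal.inductionOn with
  | _ C =>
  have h1 : #κ.ord.ToType ≤ #(C → Bool) := by
    rw [mk_ord_toType]
    simpa using hk
  obtain ⟨φ⟩ := h1
  have h2 : ∀ i : C, ∃ v : Bool, ∀ᶠ x in (U : Filter κ.ord.ToType), φ x i = v := by
    intro i
    by_cases h : ∀ᶠ x in (U : Filter κ.ord.ToType), φ x i = true
    · exact ⟨true, h⟩
    · refine ⟨false, ?_⟩
      have := (Ultrafilter.eventually_not (f := U)).2 h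
      exact this.mono fun x hx => by simpa using hx
  choose v hv using h2
  have h3 : ∀ᶠ x in (U : Filter κ.ord.ToType), ∀ i, φ x i = v i :=
    (eventually_cardinal_forall hc).2 hv
  obtain ⟨x, hx⟩ := h3.exists
  refine hne x ?_
  refine Filter.mem_of_superset h3 ?_
  intro y hy
  apply φ.injective
  funext i
  rw [hy i, hx i]

/-- final segments are in the ultrafilter -/
theorem T18_final_mem (hκ : ℵ₀ < κ) (U : Ultrafilter κ.ord.ToType)
    (hU : CardinalInterFilter (U : Filter κ.ord.ToType) κ) (hne : ∀ a, {a} ∉ U)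
    (a : κ.ord.ToType) : {b | a < b} ∈ U := by
  have h1 : #(Iio a) < κ := by simpa using mk_Iio_lt a
  have h2 : #(Iic a) < κ := by
    have : (Iic a : Set κ.ord.ToType) = insert a (Iio a) := by
      ext x
      simp [le_iff_eq_or_lt]
    rw [this]
    exact (mk_insert_le).trans_lt (add_lt_of_lt hκ.le h1 (one_lt_aleph0.trans hκ))
  have h3 : (Iic a)ᶜ ∈ U := Ultrafilter.compl_mem_iff_notMem.2 (T18_small_notMem U hU hne _ h2)
  rwa [compl_Iic] at h3

/-- there is a normal ultrafilter -/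
theorem T18_exists_normal (hκ : ℵ₀ < κ) (U : Ultrafilter κ.ord.ToType)
    (hU : CardinalInterFilter (U : Filter κ.ord.ToType) κ) (hne : ∀ a, {a} ∉ U) :
    ∃ D : Ultrafilter κ.ord.ToType, CardinalInterFilter (D : Filter κ.ord.ToType) κ ∧
      (∀ a, {b | a < b} ∈ D) ∧ ∀ A : κ.ord.ToType → κ.ord.ToType → Prop,
        (∀ x, ∀ᶠ y in (D : Filter κ.ord.ToType), A x y) →
        ∀ᶠ y in (D : Filter κ.ord.ToType), ∀ x < y, A x y := by
  classical
  have wf : WellFounded (fun f g : κ.ord.ToType → κ.ord.ToType =>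
      ∀ᶠ y in (U : Filter κ.ord.ToType), f y < g y) := by
    rw [wellFounded_iff_isEmpty_descending_chain]
    refine ⟨fun ⟨F, hF⟩ => ?_⟩
    have hc : CountableInterFilter (U : Filter κ.ord.ToType) :=
      CardinalInterFilter.toCountableInterFilter _ hκ
    have h1 : ∀ᶠ y in (U : Filter κ.ord.ToType), ∀ n, F (n + 1) y < F n y :=
      eventually_countable_forall.2 hF
    obtain ⟨y, hy⟩ := h1.exists
    have h2 := (wellFounded_iff_isEmpty_descending_chain
      (r := fun a b : κ.ord.ToType => a < b)).1 wellFounded_lt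
    exact h2.false ⟨fun n => F n y, hy⟩
  obtain ⟨f, hf, hmin⟩ := wf.has_min
    {f | ∀ x, ∀ᶠ y in (U : Filter κ.ord.ToType), x < f y}
    ⟨id, fun x => T18_final_mem hκ U hU hne x⟩
  refine ⟨U.map f, ?_, fun a => hf a, ?_⟩
  · refine ⟨fun S hS h => ?_⟩
    rw [Ultrafilter.coe_map, Filter.mem_map]
    have h1 : (⋂ s ∈ S, f ⁻¹' s) ∈ (U : Filter κ.ord.ToType) :=
      (cardinal_bInter_mem (c := κ) hS).2 fun s hs => by
        have := h s hs
        rwa [Ultrafilter.coe_map, Filter.mem_map] at this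
    refine Filter.mem_of_superset h1 fun y hy => ?_
    rw [Set.mem_iInter₂] at hy
    exact Set.mem_sInter.2 fun s hs => hy s hs
  · intro A hA
    by_contra hcon
    rw [← Ultrafilter.eventually_not] at hcon
    rw [Ultrafilter.coe_map, Filter.eventually_map] at hcon
    have hch : ∀ z, ∃ x, (¬ ∀ x < f z, A x (f z)) → x < f z ∧ ¬ A x (f z) := by
      intro z
      by_cases hz : ∀ x < f z, A x (f z)
      · exact ⟨z, fun h => absurd hz h⟩
      · have hz' := hz
        push Not at hz'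
        obtain ⟨x, hx1, hx2⟩ := hz'
        exact ⟨x, fun _ => ⟨hx1, hx2⟩⟩
    choose g hg using hch
    have hgF : ¬ ∀ x, ∀ᶠ y in (U : Filter κ.ord.ToType), x < g y := fun h =>
      hmin g h (hcon.mono fun z hz => (hg z hz).1)
    push Not at hgF
    obtain ⟨x₀, hx₀⟩ := hgF
    have hκ0 : ℵ₀ ≤ κ := hκ.le
    have hcard : #(Set.Iic x₀) < κ := by
      have h1 : Set.Iic x₀ = insert x₀ (Set.Iio x₀) := by
        ext y
        simp [le_iff_eq_or_lt]
      rw [h1]
      refine lt_of_le_of_lt Cardinal.mk_insert_le ?_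
      have h2 : #(Set.Iio x₀) < κ := by simpa using Cardinal.mk_Iio_lt x₀
      exact Cardinal.add_lt_of_lt hκ0 h2 (one_lt_aleph0.trans hκ)
    have hall : ∀ᶠ z in (U : Filter κ.ord.ToType), ∀ x ∈ Set.Iic x₀, A x (f z) :=
      (eventually_cardinal_ball (c := κ) (l := (U : Filter κ.ord.ToType)) hcard
        (p := fun z x _ => A x (f z))).2 fun x _ => hA x
    obtain ⟨z, hz1, hz2, hz3⟩ := (hcon.and (hx₀.and hall)).exists
    exact (hg z hz1).2 (hz3 _ hz2)

/-- small subsets of a successor cardinal are bounded -/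
theorem T18_bdd {c : Cardinal.{u}} (hc : ℵ₀ ≤ c) (A : Set (Order.succ c).ord.ToType) (hA : #A ≤ c) :
    ∃ b, ∀ i ∈ A, i < b := by
  by_contra hcon
  push Not at hcon
  have h1 : IsCofinal A := by
    intro j
    obtain ⟨i, hi, hj⟩ := hcon j
    exact ⟨i, hi, hj⟩
  have h2 := Order.cof_le h1
  rw [Ordinal.cof_toType, (isRegular_succ hc).cof_ord] at h2
  exact absurd (h2.trans hA) (not_le.2 (Order.lt_succ c))

/-- initial segments of a successor cardinal are small -/
theorem T18_init {c : Cardinal.{u}} (j : (Order.succ c).ord.ToType) : #(Iio j) ≤ c := by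
  have h2 : #(Iio j) < Order.succ c := by simpa using mk_Iio_lt j
  exact Order.lt_succ_iff.1 h2

end

theorem exists_setup (κ : Cardinal.{u}) (hκ : ℵ₀ < κ) (U : Ultrafilter κ.ord.ToType)
    (hU : CardinalInterFilter (U : Filter κ.ord.ToType) κ) (hne : ∀ a, {a} ∉ U) :
    ∃ D : Ultrafilter κ.ord.ToType, Setup (Order.succ (ℵ₀ : Cardinal.{u})).ord.ToType
      (Order.succ (𝔠 : Cardinal.{u})).ord.ToType κ.ord.ToType D := by
  obtain ⟨D, hD, h1, h2⟩ := T18_exists_normal hκ U hU hne
  have hc : (𝔠 : Cardinal.{u}) < κ := by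
    rw [← two_power_aleph0]
    exact T18_strong_limit hκ U hU hne _ hκ
  refine ⟨D, ?_, ?_, ?_, ?_, ?_, ?_, ?_, h1, ?_, ?_⟩
  · rw [mk_ord_toType]
    exact Order.succ_le_of_lt aleph0_lt_continuum
  · intro i
    exact le_aleph0_iff_set_countable.1 (T18_init i)
  · intro A hA
    exact T18_bdd le_rfl A (le_aleph0_iff_set_countable.2 hA)
  · rw [mk_ord_toType]
    exact Order.lt_succ _
  · exact fun β => T18_init β
  · exact fun A hA => T18_bdd aleph0_le_continuum A hA
  · rw [mk_ord_toType, mk_ord_toType]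
    exact (Order.succ_le_of_lt (cantor _)).trans_lt (T18_strong_limit hκ U hU hne _ hc)
  · intro ι A hι hA
    rw [mk_ord_toType] at hι
    exact (Filter.eventually_cardinal_forall hι).2 hA
  · intro g hg
    by_contra hcon
    have h3 : ∀ x, ∀ᶠ y in (D : Filter κ.ord.ToType), g y ≠ x := fun x =>
      (Ultrafilter.eventually_not (f := D)).2 fun h => hcon ⟨x, h⟩
    obtain ⟨y, hy1, hy2⟩ := (hg.and (h2 (fun x y => g y ≠ x) h3)).exists
    exact hy2 (g y) hy1 rfl

end Pool.Agent.CC
end
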